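import Pool.Agent.P.MP_d3a22b_lc.Pres

/-!
Definable arithmetic: if `ℕ` is presented with definable addition and multiplication, then
recursive definitions with values in a coded type give definable maps.
-/

set_option autoImplicit false
set_option linter.unusedSectionVars false

open FirstOrder FirstOrder.Language Set

namespace Pool.Agent.P.MP_d3a22b_lc

section ops

variable (L : FirstOrder.Language.{0, 0}) (M : Type) [L.Structure M]

/-- Addition is definable. -/
class DefAdd (X : Type) [Pres L M X] [Add X] : Prop where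
  out : DefF L M (fun p : X × X => p.1 + p.2)

/-- Multiplication is definable. -/
class DefMul (X : Type) [Pres L M X] [Mul X] : Prop where
  out : DefF L M (fun p : X × X => p.1 * p.2)

/-- Scalar multiplication is definable. -/
class DefSMul (R X : Type) [Pres L M R] [Pres L M X] [SMul R X] : Prop where
  out : DefF L M (fun p : R × X => p.1 • p.2)

variable {L M}
variable {X Y Z : Type} [Pres L M X] [Pres L M Y] [Pres L M Z]

@[fun_prop]
theorem DefF.add [Add Y] [DefAdd L M Y] {f g : X → Y} (hf : DefF L M f) (hg : DefF L M g) :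
    DefF L M (fun x => f x + g x) := DefAdd.out.comp (hf.prodMk hg)

@[fun_prop]
theorem DefF.mul [Mul Y] [DefMul L M Y] {f g : X → Y} (hf : DefF L M f) (hg : DefF L M g) :
    DefF L M (fun x => f x * g x) := DefMul.out.comp (hf.prodMk hg)

@[fun_prop]
theorem DefF.smul [SMul Y Z] [DefSMul L M Y Z] {f : X → Y} {g : X → Z} (hf : DefF L M f)
    (hg : DefF L M g) : DefF L M (fun x => f x • g x) := DefSMul.out.comp (hf.prodMk hg)

instance DefAdd.pi {α : Type} [Finite α] [Add Y] [DefAdd L M Y] : DefAdd L M (α → Y) :=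
  ⟨DefF.pi (f := fun p : (α → Y) × (α → Y) => p.1 + p.2) fun a => by
    simp only [Pi.add_apply]; fun_prop⟩

instance DefSMul.pi {α : Type} [Finite α] [SMul Y Z] [DefSMul L M Y Z] :
    DefSMul L M Y (α → Z) :=
  ⟨DefF.pi (f := fun p : Y × (α → Z) => p.1 • p.2) fun a => by
    simp only [Pi.smul_apply]; fun_prop⟩

instance DefSMul.self [Mul Y] [DefMul L M Y] : DefSMul L M Y Y := ⟨DefMul.out⟩

theorem DefF.finsetSum [AddCommMonoid Y] [DefAdd L M Y] {α : Type} (s : Finset α)
    {f : X → α → Y} (h : ∀ a, DefF L M (fun x => f x a)) :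
    DefF L M (fun x => ∑ a ∈ s, f x a) := by
  classical
  induction s using Finset.induction_on with
  | empty => simpa using DefF.const 0
  | insert a s ha ih =>
    simp only [Finset.sum_insert ha]
    exact (h a).add ih

theorem DefF.finsetProd [CommMonoid Y] [DefMul L M Y] {α : Type} (s : Finset α)
    {f : X → α → Y} (h : ∀ a, DefF L M (fun x => f x a)) :
    DefF L M (fun x => ∏ a ∈ s, f x a) := by
  classical
  induction s using Finset.induction_on with
  | empty => simpa using DefF.const 1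
  | insert a s ha ih =>
    simp only [Finset.prod_insert ha]
    exact (h a).mul ih

theorem DefF.listProd [Monoid Y] [DefMul L M Y] {α : Type} (l : List α)
    {f : X → α → Y} (h : ∀ a, DefF L M (fun x => f x a)) :
    DefF L M (fun x => (l.map (f x)).prod) := by
  induction l with
  | nil => simpa using DefF.const 1
  | cons a l ih =>
    simp only [List.map_cons, List.prod_cons]
    exact (h a).mul ih

variable [Nontrivial M]

@[fun_prop]
theorem DefF.neg [AddGroup Y] [DefAdd L M Y] {f : X → Y} (hf : DefF L M f) :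
    DefF L M (fun x => - f x) :=
  DefF.of_graph (P := fun p => f p.1 + p.2 = 0) (by fun_prop) fun _ _ => add_eq_zero_iff_neg_eq

@[fun_prop]
theorem DefF.sub [AddGroup Y] [DefAdd L M Y] {f g : X → Y} (hf : DefF L M f)
    (hg : DefF L M g) : DefF L M (fun x => f x - g x) := by
  simp only [sub_eq_add_neg]
  fun_prop

@[fun_prop]
theorem DefF.inv [Group Y] [DefMul L M Y] {f : X → Y} (hf : DefF L M f) :
    DefF L M (fun x => (f x)⁻¹) :=
  DefF.of_graph (P := fun p => f p.1 * p.2 = 1) (by fun_prop) fun _ _ => mul_eq_one_iff_inv_eq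

/-- A binary operation on a quotient is definable if it has a definable lift. -/
theorem DefF.binop_of_surjective {p : Z → X} (hp : DefF L M p) (hs : Function.Surjective p)
    {op : X × X → Y} (h : DefF L M (fun z : Z × Z => op (p z.1, p z.2))) : DefF L M op :=
  DefF.of_comp_surjective (p := fun z : Z × Z => (p z.1, p z.2)) (by fun_prop)
    (hs.prodMap hs) h

end ops

section nat

variable {L : FirstOrder.Language.{0, 0}} {M : Type} [L.Structure M] [Nontrivial M]
variable {X Y Z : Type} [Pres L M X] [Pres L M Y] [Pres L M Z]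
variable [Pres L M ℕ] [DefAdd L M ℕ]

@[fun_prop]
theorem DefF.natLe {f g : X → ℕ} (hf : DefF L M f) (hg : DefF L M g) :
    DefF L M (fun x => f x ≤ g x) :=
  DefF.congr (f := fun x => ∃ z, f x + z = g x) (by fun_prop) fun x =>
    propext ⟨fun ⟨z, h⟩ => by omega, fun h => ⟨g x - f x, by omega⟩⟩

@[fun_prop]
theorem DefF.natLt {f g : X → ℕ} (hf : DefF L M f) (hg : DefF L M g) :
    DefF L M (fun x => f x < g x) :=
  DefF.congr (f := fun x => f x + 1 ≤ g x) (by fun_prop) fun _ => rfl

/-- A map on `ℕ` that is constant from some point on is definable. -/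
theorem defF_dite_lt (N : ℕ) (g : Fin N → Y) (y : Y) :
    DefF L M (fun n : ℕ => if h : n < N then g ⟨n, h⟩ else y) := by
  refine DefF.of_graph (P := fun p => (∃ i : Fin N, p.1 = i ∧ g i = p.2) ∨ (N ≤ p.1 ∧ y = p.2))
    (DefF.or (DefF.exists_fin fun i => by fun_prop) (by fun_prop)) fun n z => ?_
  by_cases h : n < N
  · simp only [h, dite_true]
    constructor
    · rintro (⟨i, rfl, h2⟩ | ⟨h1, -⟩)
      · exact h2
      · omega
    · intro h2
      exact Or.inl ⟨⟨n, h⟩, rfl, h2⟩
  · simp only [h, dite_false]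
    constructor
    · rintro (⟨i, rfl, -⟩ | ⟨-, h2⟩)
      · exact absurd i.2 h
      · exact h2
    · intro h2
      exact Or.inr ⟨by omega, h2⟩

variable [DefMul L M ℕ]

@[fun_prop]
theorem DefF.natMod {f g : X → ℕ} (hf : DefF L M f) (hg : DefF L M g) :
    DefF L M (fun x => f x % g x) := by
  refine DefF.of_graph (P := fun p => (g p.1 = 0 ∧ f p.1 = p.2) ∨
    (p.2 < g p.1 ∧ ∃ q, f p.1 = g p.1 * q + p.2)) (by fun_prop) fun x r => ?_
  constructor
  · rintro (⟨h1, h2⟩ | ⟨h1, q, h2⟩)
    · simp only at h1 h2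
      rw [h1, Nat.mod_zero, h2]
    · simp only at h1 h2
      rw [h2, Nat.mul_add_mod, Nat.mod_eq_of_lt h1]
  · rintro rfl
    rcases Nat.eq_zero_or_pos (g x) with h | h
    · exact Or.inl ⟨h, by simp [h]⟩
    · exact Or.inr ⟨Nat.mod_lt _ h, f x / g x, (Nat.div_add_mod _ _).symm⟩

@[fun_prop]
theorem DefF.natPair {f g : X → ℕ} (hf : DefF L M f) (hg : DefF L M g) :
    DefF L M (fun x => Nat.pair (f x) (g x)) := by
  unfold Nat.pair
  fun_prop

@[fun_prop]
theorem DefF.natUnpair {f : X → ℕ} (hf : DefF L M f) : DefF L M (fun x => Nat.unpair (f x)) := by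
  refine DefF.of_graph (P := fun p => Nat.pair p.2.1 p.2.2 = f p.1) (by fun_prop) fun x r => ?_
  constructor
  · intro h
    simp only at h
    rw [← h, Nat.unpair_pair]
  · rintro rfl
    exact Nat.pair_unpair _

@[fun_prop]
theorem DefF.beta {f g : X → ℕ} (hf : DefF L M f) (hg : DefF L M g) :
    DefF L M (fun x => Nat.beta (f x) (g x)) := by
  unfold Nat.beta
  fun_prop

theorem exists_beta (s : ℕ → ℕ) (k : ℕ) : ∃ c, ∀ i < k, Nat.beta c i = s i := by
  refine ⟨Nat.unbeta (List.ofFn fun i : Fin k => s i), fun i hi => ?_⟩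
  have := Nat.beta_unbeta_coe (List.ofFn fun i : Fin k => s i) ⟨i, by simpa using hi⟩
  simpa using this

variable (L M) in
/-- A presented type is coded if it is a definable image of `ℕ`. -/
class Coded (X : Type) [Pres L M X] : Prop where
  out : ∃ e : ℕ → X, DefF L M e ∧ Function.Surjective e

instance Coded.nat : Coded L M ℕ := ⟨id, DefF.id, Function.surjective_id⟩

theorem Coded.of_surjective [Coded L M X] {f : X → Y} (hf : DefF L M f)
    (hs : Function.Surjective f) : Coded L M Y := by
  obtain ⟨e, he, hes⟩ := Coded.out (L := L) (M := M) (X := X)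
  exact ⟨f ∘ e, hf.comp he, hs.comp hes⟩

theorem Coded.of_injective [Coded L M Y] [Nonempty X] {f : X → Y} (hf : DefF L M f)
    (hi : Function.Injective f) : Coded L M X := by
  classical
  obtain ⟨x₀⟩ := ‹Nonempty X›
  refine Coded.of_surjective (X := Y)
    (f := fun y => if h : ∃ x, f x = y then h.choose else x₀) ?_ fun x => ⟨f x, ?_⟩
  · refine DefF.of_graph (P := fun p => f p.2 = p.1 ∨ (¬ (∃ x, f x = p.1) ∧ x₀ = p.2))
      (by fun_prop) fun y x => ?_
    by_cases h : ∃ x, f x = y
    · simp only [h, dite_true, not_true, false_and, or_false]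
      constructor
      · intro h2
        exact hi (h.choose_spec.trans h2.symm)
      · rintro rfl
        exact h.choose_spec
    · simp only [h, dite_false, not_false_eq_true, true_and]
      constructor
      · rintro (h2 | h2)
        · exact absurd ⟨x, h2⟩ h
        · exact h2
      · exact Or.inr
  · have h : ∃ x', f x' = f x := ⟨x, rfl⟩
    simp only [h, dite_true]
    exact hi h.choose_spec

instance Coded.prod [Coded L M X] [Coded L M Y] : Coded L M (X × Y) := by
  obtain ⟨e, he, hes⟩ := Coded.out (L := L) (M := M) (X := X)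
  obtain ⟨e', he', hes'⟩ := Coded.out (L := L) (M := M) (X := Y)
  refine ⟨fun n => (e n.unpair.1, e' n.unpair.2), by fun_prop, ?_⟩
  rintro ⟨x, y⟩
  obtain ⟨a, rfl⟩ := hes x
  obtain ⟨b, rfl⟩ := hes' y
  exact ⟨Nat.pair a b, by simp⟩

instance Coded.pi {α : Type} [Finite α] [Coded L M X] : Coded L M (α → X) := by
  obtain ⟨e, he, hes⟩ := Coded.out (L := L) (M := M) (X := X)
  obtain ⟨k, ⟨φ⟩⟩ := Finite.exists_equiv_fin α
  refine ⟨fun n a => e (Nat.beta n (φ a)), by fun_prop, fun x => ?_⟩
  choose s hs using hes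
  obtain ⟨c, hc⟩ := exists_beta (fun i => if h : i < k then s (x (φ.symm ⟨i, h⟩)) else 0) k
  refine ⟨c, funext fun a => ?_⟩
  simp only
  rw [hc _ (φ a).2]
  simp [hs]

/-- Definition by recursion. -/
theorem DefF.of_rec [Coded L M Y] {F : X → ℕ → Y} {h : X × ℕ × Y → Y}
    (h0 : DefF L M (fun x => F x 0)) (hh : DefF L M h)
    (hs : ∀ x k, F x (k + 1) = h (x, k, F x k)) : DefF L M (fun p : X × ℕ => F p.1 p.2) := by
  obtain ⟨e, he, hes⟩ := Coded.out (L := L) (M := M) (X := Y)
  have key : ∀ g : X → Y, DefF L M g → DefF L M (fun q : (X × ℕ) × Y =>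
      ∃ c, e (Nat.beta c 0) = g q.1.1 ∧ All (fun i => Imp (i < q.1.2)
        (e (Nat.beta c (i + 1)) = h (q.1.1, i, e (Nat.beta c i)))) ∧
        e (Nat.beta c q.1.2) = q.2) := fun g hg => by fun_prop
  refine DefF.of_graph (key _ h0) ?_
  rintro ⟨x, k⟩ y
  simp only [All, Imp]
  constructor
  · rintro ⟨c, h1, h2, h3⟩
    have : ∀ i ≤ k, e (Nat.beta c i) = F x i := by
      intro i hi
      induction i with
      | zero => exact h1
      | succ i ih => rw [h2 i hi, ih (by omega), hs]
    rw [← this k le_rfl, h3]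
  · rintro rfl
    choose s hs' using hes
    obtain ⟨c, hc⟩ := exists_beta (fun i => s (F x i)) (k + 1)
    refine ⟨c, ?_, fun i hi => ?_, ?_⟩
    · rw [hc 0 (by omega), hs']
    · rw [hc (i + 1) (by omega), hc i (by omega), hs', hs', hs]
    · rw [hc k (by omega), hs']

theorem DefF.sum_range [AddCommMonoid Y] [DefAdd L M Y] [Coded L M Y] {f : X → ℕ → Y}
    (hf : DefF L M (fun p : X × ℕ => f p.1 p.2)) {k : X → ℕ} (hk : DefF L M k) :
    DefF L M (fun x => ∑ i ∈ Finset.range (k x), f x i) := by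
  have h1 : DefF L M (fun p : X × ℕ => ∑ i ∈ Finset.range p.2, f p.1 i) := by
    refine DefF.of_rec (F := fun x k => ∑ i ∈ Finset.range k, f x i)
      (h := fun q => q.2.2 + f q.1 q.2.1) (by simpa using DefF.const 0) ?_
      fun x k => Finset.sum_range_succ _ _
    exact DefF.add (by fun_prop) (hf.comp (f := fun q : X × ℕ × Y => (q.1, q.2.1)) (by fun_prop))
  exact h1.comp (f := fun x => (x, k x)) (by fun_prop)

@[fun_prop]
theorem DefF.npow [Monoid Y] [DefMul L M Y] [Coded L M Y] {f : X → Y} {k : X → ℕ}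
    (hf : DefF L M f) (hk : DefF L M k) : DefF L M (fun x => f x ^ k x) := by
  have h1 : DefF L M (fun p : Y × ℕ => p.1 ^ p.2) :=
    DefF.of_rec (F := fun y k => y ^ k) (h := fun q => q.2.2 * q.1)
      (by simpa using DefF.const 1) (by fun_prop) fun x k => pow_succ _ _
  exact h1.comp (hf.prodMk hk)

end nat

section int

variable (L : FirstOrder.Language.{0, 0}) (M : Type) [L.Structure M]

/-- The inclusion of `ℕ` in `ℤ` is definable. -/
class DefCast [Pres L M ℕ] [Pres L M ℤ] : Prop where
  out : DefF L M (fun n : ℕ => (n : ℤ))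

variable {L M} [Nontrivial M]
variable {X Y : Type} [Pres L M X] [Pres L M Y]

@[fun_prop]
theorem DefF.natCast [Pres L M ℕ] [Pres L M ℤ] [DefCast L M] {f : X → ℕ} (hf : DefF L M f) :
    DefF L M (fun x => (f x : ℤ)) := DefCast.out.comp hf

theorem sub_surjective : Function.Surjective (fun p : ℕ × ℕ => (p.1 : ℤ) - p.2) := fun z =>
  ⟨(z.toNat, (-z).toNat), by simp only; omega⟩

instance Coded.int [Pres L M ℕ] [DefAdd L M ℕ] [DefMul L M ℕ] [Pres L M ℤ] [DefAdd L M ℤ]
    [DefCast L M] : Coded L M ℤ :=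
  Coded.of_surjective (f := fun p : ℕ × ℕ => (p.1 : ℤ) - p.2) (by fun_prop) sub_surjective

@[fun_prop]
theorem DefF.zpow [Pres L M ℕ] [DefAdd L M ℕ] [DefMul L M ℕ] [Pres L M ℤ] [DefAdd L M ℤ]
    [DefCast L M] [Group Y] [DefMul L M Y] [Coded L M Y] {f : X → Y} {k : X → ℤ}
    (hf : DefF L M f) (hk : DefF L M k) : DefF L M (fun x => f x ^ k x) := by
  have h1 : DefF L M (fun p : Y × ℤ => p.1 ^ p.2) := by
    refine DefF.of_comp_surjective (p := fun q : Y × ℕ × ℕ => (q.1, (q.2.1 : ℤ) - q.2.2))
      (by fun_prop) (Function.surjective_id.prodMap sub_surjective) ?_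
    simp only [zpow_sub, zpow_natCast]
    fun_prop
  exact h1.comp (hf.prodMk hk)

/-- From `ℕ` to `ℤ`. -/
theorem exists_pres_int [Pres L M ℕ] [DefAdd L M ℕ] [DefMul L M ℕ] :
    ∃ _ : Pres L M ℤ, DefAdd L M ℤ ∧ DefMul L M ℤ ∧ DefCast L M := by
  let p : ℕ × ℕ → ℤ := fun p => (p.1 : ℤ) - p.2
  have hk : DefF L M (fun q : (ℕ × ℕ) × (ℕ × ℕ) => p q.1 = p q.2) :=
    DefF.congr (f := fun q => q.1.1 + q.2.2 = q.2.1 + q.1.2) (by fun_prop) fun q =>
      propext (by simp only [p]; omega)
  let _ : Pres L M ℤ := Pres.ofSurj p sub_surjective hk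
  have hp : DefF L M p := defF_ofSurj p sub_surjective hk
  refine ⟨inferInstance, ⟨?_⟩, ⟨?_⟩, ⟨?_⟩⟩
  · refine DefF.binop_of_surjective hp sub_surjective ?_
    refine DefF.congr (f := fun z => p (z.1.1 + z.2.1, z.1.2 + z.2.2)) (by fun_prop) fun z => ?_
    simp only [p]
    push_cast
    ring
  · refine DefF.binop_of_surjective hp sub_surjective ?_
    refine DefF.congr (f := fun z => p (z.1.1 * z.2.1 + z.1.2 * z.2.2,
      z.1.1 * z.2.2 + z.1.2 * z.2.1)) (by fun_prop) fun z => ?_
    simp only [p]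
    push_cast
    ring
  · exact DefF.congr (f := fun n => p (n, 0)) (by fun_prop) fun n => by simp [p]

/-- From `ℤ` to `ℕ`. -/
theorem exists_pres_nat [Pres L M ℤ] [DefAdd L M ℤ] [DefMul L M ℤ] :
    ∃ _ : Pres L M ℕ, DefAdd L M ℕ ∧ DefMul L M ℕ ∧ DefCast L M := by
  have hk : DefF L M (fun q : ℤ × ℤ => q.1.natAbs = q.2.natAbs) :=
    DefF.congr (f := fun q => q.1 = q.2 ∨ q.1 = -q.2) (by fun_prop) fun q =>
      propext Int.natAbs_eq_natAbs_iff.symm
  let _ : Pres L M ℕ := Pres.ofSurj Int.natAbs Int.natAbs_surjective hk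
  have hp : DefF L M Int.natAbs := defF_ofSurj Int.natAbs Int.natAbs_surjective hk
  have hc : DefF L M (fun n : ℕ => (n : ℤ)) := by
    refine DefF.of_graph (P := fun q => q.2.natAbs = q.1 ∧
      ∃ a b c d : ℤ, q.2 = a * a + b * b + c * c + d * d) (by fun_prop) fun n z => ?_
    constructor
    · rintro ⟨h1, a, b, c, d, h2⟩
      simp only at h1 h2
      have : 0 ≤ z := by
        rw [h2]
        exact add_nonneg (add_nonneg (add_nonneg (mul_self_nonneg a) (mul_self_nonneg b))
          (mul_self_nonneg c)) (mul_self_nonneg d)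
      omega
    · rintro rfl
      obtain ⟨a, b, c, d, h⟩ := Nat.sum_four_squares n
      refine ⟨by simp, a, b, c, d, ?_⟩
      simp only
      rw [← h]
      push_cast
      ring
  refine ⟨inferInstance, ⟨?_⟩, ⟨?_⟩, ⟨hc⟩⟩
  · exact DefF.congr (f := fun q : ℕ × ℕ => Int.natAbs ((q.1 : ℤ) + q.2))
      (hp.comp ((hc.comp DefF.id.fst).add (hc.comp DefF.id.snd))) fun q => by omega
  · refine DefF.binop_of_surjective hp Int.natAbs_surjective ?_
    exact DefF.congr (f := fun z : ℤ × ℤ => Int.natAbs (z.1 * z.2)) (by fun_prop) fun z =>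
      Int.natAbs_mul _ _

end int

end Pool.Agent.P.MP_d3a22b_lc
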