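import Mathlib

/-!
Counting lemmas: averaging over local involutions, existence of sites, binomial bounds.
-/

set_option autoImplicit false

open Filter Topology

namespace Pool.Agent.P.MP_d3a22b_lc

section avg

variable {A U κ : Type} [DecidableEq A]

/-- Apply `τ` at the places in `D`. -/
def tog (τ : U → U) (y : A → U) (D : Finset A) : A → U :=
  fun a => if a ∈ D then τ (y a) else y a

theorem tog_tog {τ : U → U} (hτ : Function.Involutive τ) (y : A → U) (D : Finset A) :
    tog τ (tog τ y D) D = y := by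
  funext a
  by_cases h : a ∈ D <;> simp [tog, h, hτ (y a)]

theorem tog_site {τ : U → U} (hτ : Function.Involutive τ) (y : A → U) (D : Finset A) :
    (fun a => τ (tog τ y D a) ≠ tog τ y D a) = fun a => τ (y a) ≠ y a := by
  funext a
  by_cases h : a ∈ D <;> simp [tog, h, hτ (y a), eq_comm]

open Classical in
theorem avg [Fintype κ] [DecidableEq κ] {τ : U → U} (hτ : Function.Involutive τ)
    (Y : Finset (A → U)) (hY : ∀ y ∈ Y, ∀ D, tog τ y D ∈ Y) (cell : κ → A → Prop)
    (E : (A → U) → Prop) (b : ℕ)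
    (hb : ∀ y ∈ Y, ∀ p : κ → A, (∀ k, cell k (p k) ∧ τ (y (p k)) ≠ y (p k)) →
      (Finset.univ.filter fun ε : Finset κ => E (tog τ y (ε.image p))).card ≤ b) :
    2 ^ Fintype.card κ *
      (Y.filter fun y => (∀ k, ∃ a, cell k a ∧ τ (y a) ≠ y a) ∧ E y).card ≤ b * Y.card := by
  set G := Y.filter fun y => ∀ k, ∃ a, cell k a ∧ τ (y a) ≠ y a with hG
  rw [← Finset.filter_filter, ← hG]
  rcases G.eq_empty_or_nonempty with h0 | ⟨y₀, hy₀⟩
  · simp [h0]
  have : Nonempty (κ → A) := ⟨fun k => ((Finset.mem_filter.1 hy₀).2 k).choose⟩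
  have h1 : ∀ S : A → Prop, (∀ k, ∃ a, cell k a ∧ S a) →
      ∃ p : κ → A, ∀ k, cell k (p k) ∧ S (p k) := fun S hS => by
    choose p hp using hS
    exact ⟨p, hp⟩
  choose! pick hpick using h1
  let σ : Finset κ → (A → U) → A → U := fun ε y =>
    tog τ y (ε.image (pick fun a => τ (y a) ≠ y a))
  have hσ : ∀ ε, Function.Involutive (σ ε) := fun ε y => by
    simp only [σ]
    rw [tog_site hτ, tog_tog hτ]
  have hσG : ∀ ε, ∀ y ∈ G, σ ε y ∈ G := fun ε y hy => by
    rw [Finset.mem_filter] at hy ⊢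
    refine ⟨hY y hy.1 _, fun k => ?_⟩
    obtain ⟨a, ha, ha'⟩ := hy.2 k
    exact ⟨a, ha, (congrFun (tog_site hτ y _) a).mpr ha'⟩
  have h2 : ∀ ε, (G.filter E).card ≤ (G.filter fun y => E (σ ε y)).card := fun ε =>
    Finset.card_le_card_of_injOn (σ ε) (fun y hy => by
      simp only [Finset.coe_filter, Set.mem_ofPred_eq] at hy ⊢
      exact ⟨hσG ε y hy.1, by rw [hσ ε y]; exact hy.2⟩) (hσ ε).injective.injOn
  calc 2 ^ Fintype.card κ * (G.filter E).card = ∑ _ε : Finset κ, (G.filter E).card := by simp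
    _ ≤ ∑ ε : Finset κ, (G.filter fun y => E (σ ε y)).card := Finset.sum_le_sum fun ε _ => h2 ε
    _ = ∑ y ∈ G, (Finset.univ.filter fun ε : Finset κ => E (σ ε y)).card := by
      simp only [Finset.card_filter]
      exact Finset.sum_comm
    _ ≤ ∑ _y ∈ G, b := Finset.sum_le_sum fun y hy =>
      hb y (Finset.mem_filter.1 hy).1 _ (hpick _ (Finset.mem_filter.1 hy).2)
    _ ≤ b * Y.card := by
      rw [Finset.sum_const, smul_eq_mul, mul_comm]
      exact Nat.mul_le_mul_left _ (Finset.card_filter_le _ _)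

open Classical in
theorem card_noSite [Fintype A] [Fintype U] (V : A → Finset U) (S : U → Prop) (c : Finset A)
    (hV : ∀ a, ∃ u ∈ V a, S u) :
    (((Fintype.piFinset V).filter fun y => ∀ a ∈ c, ¬ S (y a)).card : ℝ) ≤
      (1 - 1 / (Fintype.card U : ℝ)) ^ c.card * (Fintype.piFinset V).card := by
  have h1 : ((Fintype.piFinset V).filter fun y => ∀ a ∈ c, ¬ S (y a)) =
      Fintype.piFinset fun a => if a ∈ c then (V a).filter fun u => ¬ S u else V a := by
    ext y
    simp only [Finset.mem_filter, Fintype.mem_piFinset]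
    constructor
    · rintro ⟨h1, h2⟩ a
      split_ifs with h
      · exact Finset.mem_filter.2 ⟨h1 a, h2 a h⟩
      · exact h1 a
    · intro h
      refine ⟨fun a => ?_, fun a ha => ?_⟩
      · have := h a
        split_ifs at this
        · exact (Finset.mem_filter.1 this).1
        · exact this
      · have := h a
        rw [if_pos ha] at this
        exact (Finset.mem_filter.1 this).2
  have h2 : (1 - 1 / (Fintype.card U : ℝ)) ^ c.card =
      ∏ a, if a ∈ c then (1 - 1 / (Fintype.card U : ℝ)) else 1 := by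
    simp
  rw [h1, h2, Fintype.card_piFinset, Fintype.card_piFinset]
  push_cast
  rw [← Finset.prod_mul_distrib]
  refine Finset.prod_le_prod (fun a _ => by positivity) fun a _ => ?_
  split_ifs with h
  · obtain ⟨u, hu, hS⟩ := hV a
    have h3 : ((V a).filter fun u => ¬ S u).card < (V a).card :=
      Finset.card_lt_card (Finset.filter_ssubset.2 ⟨u, hu, not_not.2 hS⟩)
    have h4 : (((V a).filter fun u => ¬ S u).card : ℝ) + 1 ≤ (V a).card := by exact_mod_cast h3
    have h5 : ((V a).card : ℝ) ≤ Fintype.card U := by exact_mod_cast Finset.card_le_univ _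
    have h6 : (0 : ℝ) < Fintype.card U := by
      have : Nonempty U := ⟨u⟩
      exact_mod_cast Fintype.card_pos
    have h7 : 1 / (Fintype.card U : ℝ) * (V a).card ≤ 1 := by
      rw [one_div, inv_mul_le_iff₀ h6]
      simpa using h5
    linarith
  · simp

end avg

theorem card_le_choose {κ : Type} [Fintype κ] [DecidableEq κ] (σ : κ → ℤ)
    (hσ : ∀ k, σ k = 1 ∨ σ k = -1) (F : Finset (Finset κ))
    (hF : ∀ ε ∈ F, ∀ ε' ∈ F, ∑ k ∈ ε, σ k = ∑ k ∈ ε', σ k) :
    F.card ≤ (Fintype.card κ).choose (Fintype.card κ / 2) := by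
  let Ng : Finset κ := Finset.univ.filter fun k => σ k = -1
  have h1 : ∀ ε : Finset κ, ((symmDiff ε Ng).card : ℤ) = ∑ k ∈ ε, σ k + Ng.card := by
    intro ε
    rw [← Finset.sum_ite_mem_eq]
    simp only [Finset.card_eq_sum_ones]
    push_cast
    rw [← Finset.sum_ite_mem_eq, ← Finset.sum_ite_mem_eq Ng, ← Finset.sum_add_distrib]
    refine Finset.sum_congr rfl fun k _ => ?_
    rcases hσ k with h | h <;> by_cases h' : k ∈ ε <;> simp [Finset.mem_symmDiff, Ng, h, h']
  rcases F.eq_empty_or_nonempty with rfl | ⟨ε₀, hε₀⟩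
  · simp
  refine le_trans ?_ (Nat.choose_le_middle (symmDiff ε₀ Ng).card _)
  rw [← Finset.card_univ, ← Finset.card_powersetCard]
  refine Finset.card_le_card_of_injOn (fun ε => symmDiff ε Ng) (fun ε hε => ?_)
    (symmDiff_left_injective Ng).injOn
  simp only [Finset.mem_coe, Finset.mem_powersetCard_univ]
  have h2 := h1 ε
  rw [hF ε hε ε₀ hε₀, ← h1] at h2
  exact_mod_cast h2

theorem centralBinom_sq_le (k : ℕ) : k.centralBinom ^ 2 * (2 * k + 1) ≤ (4 ^ k) ^ 2 := by
  induction k with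
  | zero => simp
  | succ k ih =>
    have h1 := Nat.succ_mul_centralBinom_succ k
    refine Nat.le_of_mul_le_mul_left (c := (k + 1) ^ 2) ?_ (by positivity)
    calc (k + 1) ^ 2 * ((k + 1).centralBinom ^ 2 * (2 * (k + 1) + 1))
        = ((k + 1) * (k + 1).centralBinom) ^ 2 * (2 * k + 3) := by ring
      _ = (4 * ((2 * k + 1) * (2 * k + 3))) * (k.centralBinom ^ 2 * (2 * k + 1)) := by
        rw [h1]; ring
      _ ≤ (16 * (k + 1) ^ 2) * (4 ^ k) ^ 2 := Nat.mul_le_mul (by nlinarith) ih
      _ = _ := by ring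

theorem choose_mul_le (s : ℕ) :
    (2 * s ^ 10).choose (2 * s ^ 10 / 2) * s ^ 5 ≤ 2 ^ (2 * s ^ 10) := by
  rw [Nat.mul_div_cancel_left _ two_pos, ← Nat.centralBinom, pow_mul,
    ← Nat.pow_le_pow_iff_left two_ne_zero]
  refine le_trans ?_ (centralBinom_sq_le (s ^ 10))
  rw [mul_pow, ← pow_mul s]
  exact Nat.mul_le_mul_left _ (by norm_num; omega)

/-- Subexponential growth. -/
@[fun_prop] def SubExp (f : ℕ → ℝ) : Prop :=
  ∀ r : ℝ, 1 < r → Tendsto (fun s => f s / r ^ s) atTop (𝓝 0)

@[fun_prop] theorem SubExp.const (c : ℝ) : SubExp fun _ => c := fun _ hr =>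
  tendsto_const_nhds.div_atTop (tendsto_pow_atTop_atTop_of_one_lt hr)

@[fun_prop] theorem SubExp.cast : SubExp fun s => (s : ℝ) := fun r hr => by
  simpa using tendsto_pow_const_div_const_pow_of_one_lt 1 hr

@[fun_prop] theorem SubExp.add {f g : ℕ → ℝ} (hf : SubExp f) (hg : SubExp g) :
    SubExp fun s => f s + g s := fun r hr => by
  simpa [add_div] using (hf r hr).add (hg r hr)

@[fun_prop] theorem SubExp.mul {f g : ℕ → ℝ} (hf : SubExp f) (hg : SubExp g) :
    SubExp fun s => f s * g s := fun r hr => by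
  have h1 : 1 < √r := Real.lt_sqrt_of_sq_lt (by simpa using hr)
  have h2 := (hf _ h1).mul (hg _ h1)
  rw [mul_zero] at h2
  refine h2.congr fun s => ?_
  rw [div_mul_div_comm, ← mul_pow, Real.mul_self_sqrt (by linarith)]

@[fun_prop] theorem SubExp.pow {f : ℕ → ℝ} (hf : SubExp f) (k : ℕ) :
    SubExp fun s => f s ^ k := by
  induction k with
  | zero => simpa using SubExp.const 1
  | succ k ih => simpa [pow_succ] using ih.mul hf

end Pool.Agent.P.MP_d3a22b_lc
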