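import Pool.Agent.P.MP_d3a22b_lc.Chars

/-!
Size bounds in integral group rings and the number of maximal ideals containing a small element.
-/

set_option autoImplicit false

open Set MonoidAlgebra

namespace Pool.Agent.P.MP_d3a22b_lc

/-- Sums of at most `B` signed group elements. -/
inductive Bd {G : Type} : ℕ → MonoidAlgebra ℤ G → Prop
  | zero (B : ℕ) : Bd B 0
  | addS {B : ℕ} {f : MonoidAlgebra ℤ G} (g : G) : Bd B f → Bd (B + 1) (f + single g 1)
  | subS {B : ℕ} {f : MonoidAlgebra ℤ G} (g : G) : Bd B f → Bd (B + 1) (f - single g 1)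

section bd

variable {G H : Type}

theorem Bd.mono {B : ℕ} {f : MonoidAlgebra ℤ G} (h : Bd B f) {C : ℕ} (hC : B ≤ C) : Bd C f := by
  induction h generalizing C with
  | zero => exact Bd.zero _
  | addS g _ ih =>
    obtain ⟨C, rfl⟩ : ∃ C', C = C' + 1 := ⟨C - 1, by omega⟩
    exact Bd.addS g (ih (by omega))
  | subS g _ ih =>
    obtain ⟨C, rfl⟩ : ∃ C', C = C' + 1 := ⟨C - 1, by omega⟩
    exact Bd.subS g (ih (by omega))

theorem Bd.add {B C : ℕ} {f f' : MonoidAlgebra ℤ G} (h : Bd B f) (h' : Bd C f') :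
    Bd (B + C) (f + f') := by
  induction h' with
  | zero => simpa using h.mono (Nat.le_add_right _ _)
  | addS g _ ih => rw [← add_assoc, ← add_assoc]; exact Bd.addS g ih
  | subS g _ ih => rw [← add_assoc, ← add_sub_assoc]; exact Bd.subS g ih

theorem Bd.neg {B : ℕ} {f : MonoidAlgebra ℤ G} (h : Bd B f) : Bd B (-f) := by
  induction h with
  | zero => simpa using Bd.zero _
  | addS g _ ih => rw [neg_add, ← sub_eq_add_neg]; exact Bd.subS g ih
  | subS g _ ih => rw [neg_sub', sub_neg_eq_add]; exact Bd.addS g ih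

theorem Bd.sub {B C : ℕ} {f f' : MonoidAlgebra ℤ G} (h : Bd B f) (h' : Bd C f') :
    Bd (B + C) (f - f') := by
  rw [sub_eq_add_neg]; exact h.add h'.neg

theorem Bd.single (g : G) : Bd 1 (single g (1 : ℤ)) := by
  simpa using Bd.addS g (Bd.zero 0)

theorem Bd.map {B C : ℕ} {f : MonoidAlgebra ℤ G} (h : Bd B f)
    (φ : MonoidAlgebra ℤ G →+ MonoidAlgebra ℤ H) (hφ : ∀ g, Bd C (φ (MonoidAlgebra.single g 1))) :
    Bd (B * C) (φ f) := by
  induction h with
  | zero => simpa using Bd.zero _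
  | addS g _ ih => rw [map_add, add_mul, one_mul]; exact ih.add (hφ g)
  | subS g _ ih => rw [map_sub, add_mul, one_mul]; exact ih.sub (hφ g)

theorem Bd.sum {ι : Type} (s : Finset ι) {B : ℕ} {f : ι → MonoidAlgebra ℤ G}
    (h : ∀ i ∈ s, Bd B (f i)) : Bd (s.card * B) (∑ i ∈ s, f i) := by
  classical
  induction s using Finset.induction_on with
  | empty => simpa using Bd.zero _
  | insert a s ha ih =>
    rw [Finset.sum_insert ha, Finset.card_insert_of_notMem ha, add_mul, one_mul, add_comm]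
    exact (h a (Finset.mem_insert_self _ _)).add
      (ih fun i hi => h i (Finset.mem_insert_of_mem hi))

theorem Bd.abs_coeff_le {B : ℕ} {f : MonoidAlgebra ℤ G} (h : Bd B f) (x : G) :
    |f.coeff x| ≤ B := by
  classical
  induction h with
  | zero => simp
  | addS g _ ih =>
    simp only [coeff_add, coeff_single, Finsupp.add_apply, Finsupp.single_apply]
    rw [abs_le] at ih ⊢
    push_cast
    split_ifs <;> constructor <;> linarith [ih.1, ih.2]
  | subS g _ ih =>
    simp only [coeff_sub, coeff_single, Finsupp.sub_apply, Finsupp.single_apply]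
    rw [abs_le] at ih ⊢
    push_cast
    split_ifs <;> constructor <;> linarith [ih.1, ih.2]

variable [CommGroup G]

theorem Bd.mul {B C : ℕ} {f f' : MonoidAlgebra ℤ G} (h : Bd B f) (h' : Bd C f') :
    Bd (B * C) (f * f') := by
  refine h.map (AddMonoidHom.mulRight f') fun g => ?_
  have := h'.map (AddMonoidHom.mulLeft (MonoidAlgebra.single g 1)) (C := 1) fun g' => by
    simpa [single_mul_single] using Bd.single (g * g')
  simpa using this

theorem Bd.one : Bd 1 (1 : MonoidAlgebra ℤ G) := Bd.single 1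

theorem Bd.prod {ι : Type} (s : Finset ι) {B : ℕ} {f : ι → MonoidAlgebra ℤ G}
    (h : ∀ i ∈ s, Bd B (f i)) : Bd (B ^ s.card) (∏ i ∈ s, f i) := by
  classical
  induction s using Finset.induction_on with
  | empty => simpa using Bd.one
  | insert a s ha ih =>
    rw [Finset.prod_insert ha, Finset.card_insert_of_notMem ha, pow_succ']
    exact (h a (Finset.mem_insert_self _ _)).mul
      (ih fun i hi => h i (Finset.mem_insert_of_mem hi))

theorem Bd.pow {B : ℕ} {f : MonoidAlgebra ℤ G} (h : Bd B f) (k : ℕ) : Bd (B ^ k) (f ^ k) := by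
  simpa using Bd.prod (Finset.range k) (f := fun _ => f) fun _ _ => h

theorem Bd.det {n B : ℕ} {U : Matrix (Fin n) (Fin n) (MonoidAlgebra ℤ G)}
    (h : ∀ i j, Bd B (U i j)) : Bd (n.factorial * B ^ n) U.det := by
  rw [Matrix.det_apply]
  have := Bd.sum (Finset.univ : Finset (Equiv.Perm (Fin n))) (B := B ^ n)
    (f := fun σ => Equiv.Perm.sign σ • ∏ i, U (σ i) i) fun σ _ => by
      have h1 := Bd.prod (Finset.univ : Finset (Fin n)) (f := fun i => U (σ i) i)
        fun i _ => h _ _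
      rw [Finset.card_univ, Fintype.card_fin] at h1
      rcases Int.units_eq_one_or (Equiv.Perm.sign σ) with h2 | h2 <;> rw [h2]
      · simpa using h1
      · simpa using h1.neg
  simpa [Fintype.card_perm] using this

end bd

section count

variable {T : Type} [CommGroup T] [Fintype T]

theorem exists_int_mem {B : ℕ} {c : MonoidAlgebra ℤ T} (hc : Bd B c)
    {P : Ideal (MonoidAlgebra ℤ T)} [hP : P.IsPrime] (hcP : c ∉ P) :
    ∃ N : ℤ, N ≠ 0 ∧ N.natAbs ≤ 2 ^ (Fintype.card T * (Fintype.card T * (B + 1))) ∧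
      ∀ I : Ideal (MonoidAlgebra ℤ T), P ≤ I → c ∈ I → (N : MonoidAlgebra ℤ T) ∈ I := by
  classical
  set τ := Fintype.card T with hτ
  have hτ0 : 0 < τ := Fintype.card_pos
  let A : Matrix T (Fin (τ + 1)) ℤ := Matrix.of fun t i => (c ^ (i : ℕ)).coeff t
  obtain ⟨a, ha0, hA, hn⟩ := Int.Matrix.exists_ne_zero_int_vec_norm_le A (by simp [hτ])
    Fintype.card_pos
  have hrel : ∑ i : Fin (τ + 1), a i • c ^ (i : ℕ) = 0 := by
    ext t
    have := congrFun hA t
    simp only [Matrix.mulVec, dotProduct, A, Matrix.of_apply, Pi.zero_apply] at this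
    simp only [coeff_sum, coeff_smul, Finsupp.coe_finsetSum, Finset.sum_apply,
      Finsupp.smul_apply, smul_eq_mul, coeff_zero, Finsupp.coe_zero, Pi.zero_apply]
    rw [← this]
    exact Finset.sum_congr rfl fun i _ => mul_comm _ _
  have hbd : ∀ i, (a i).natAbs ≤ 2 ^ (τ * (τ * (B + 1))) := by
    intro i
    letI := Matrix.seminormedAddCommGroup (m := T) (n := Fin (τ + 1)) (α := ℤ)
    have h1 : ‖A‖ ≤ (2 : ℝ) ^ (τ * B) := by
      rw [Matrix.norm_le_iff (by positivity)]
      intro t i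
      have h2 := (hc.pow i).abs_coeff_le t
      have h3 : B ^ (i : ℕ) ≤ 2 ^ (τ * B) := by
        calc B ^ (i : ℕ) ≤ (2 ^ B) ^ (i : ℕ) := Nat.pow_le_pow_left Nat.lt_two_pow_self.le _
          _ ≤ (2 ^ B) ^ τ := Nat.pow_le_pow_right (by positivity) (by omega)
          _ = _ := by rw [← pow_mul, mul_comm]
      rw [Int.norm_eq_abs]
      have h4 : |(c ^ (i : ℕ)).coeff t| ≤ ((2 ^ (τ * B) : ℕ) : ℤ) :=
        h2.trans (by exact_mod_cast h3)
      exact_mod_cast h4
    have h2 : ((τ + 1 : ℕ) : ℝ) ≤ 2 ^ τ := by exact_mod_cast Nat.lt_two_pow_self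
    have h3 : ‖a i‖ ≤ (2 : ℝ) ^ (τ * (τ * (B + 1))) := by
      refine (norm_le_pi_norm a i).trans (hn.trans ?_)
      simp only [Fintype.card_fin, ← hτ]
      rw [show (τ : ℝ) / (((τ + 1 : ℕ) : ℝ) - τ) = (τ : ℕ) by push_cast; simp, Real.rpow_natCast,
        mul_comm τ, pow_mul]
      apply pow_le_pow_left₀ (by positivity)
      rw [mul_add, mul_one, pow_add, mul_comm ((2 : ℝ) ^ (τ * B))]
      exact mul_le_mul h2 (max_le (one_le_pow₀ (by norm_num)) h1) (by positivity) (by positivity)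
    rw [Int.norm_eq_abs] at h3
    have h4 : |a i| ≤ ((2 ^ (τ * (τ * (B + 1))) : ℕ) : ℤ) := by exact_mod_cast h3
    rw [Int.abs_eq_natAbs] at h4
    exact_mod_cast h4
  have hex : ∃ i, a i ≠ 0 := by
    by_contra h
    push Not at h
    exact ha0 (funext h)
  obtain ⟨i0, hi0, hmin⟩ := Finset.exists_min_image (Finset.univ.filter fun i => a i ≠ 0) id
    (by obtain ⟨i, hi⟩ := hex; exact ⟨i, by simpa using hi⟩)
  simp only [Finset.mem_filter, Finset.mem_univ, true_and, id] at hi0 hmin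
  refine ⟨a i0, hi0, hbd i0, fun I hPI hcI => ?_⟩
  have h1 : c ^ (i0 : ℕ) * ∑ i : Fin (τ + 1), a i • c ^ ((i : ℕ) - i0) = 0 := by
    rw [← hrel, Finset.mul_sum]
    refine Finset.sum_congr rfl fun i _ => ?_
    by_cases hi : a i = 0
    · simp [hi]
    · rw [mul_smul_comm, ← pow_add, Nat.add_sub_cancel' (hmin i hi)]
  have h2 : ∑ i : Fin (τ + 1), a i • c ^ ((i : ℕ) - i0) ∈ P :=
    (hP.mem_or_mem (h1 ▸ P.zero_mem)).resolve_left fun h => hcP (hP.mem_of_pow_mem _ h)
  rw [← Finset.add_sum_erase _ _ (Finset.mem_univ i0)] at h2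
  have h3 : ∑ i ∈ Finset.univ.erase i0, a i • c ^ ((i : ℕ) - i0) ∈ I := by
    refine Ideal.sum_mem _ fun i hi => ?_
    by_cases hai : a i = 0
    · simp [hai]
    · have h4 : (i0 : ℕ) < i :=
        lt_of_le_of_ne (hmin i hai) fun h => (Finset.mem_erase.1 hi).1 (Fin.ext h.symm)
      exact I.toAddSubgroup.zsmul_mem (Ideal.pow_mem_of_mem _ hcI _ (by omega)) _
  simpa using I.sub_mem (hPI h2) h3

theorem two_pow_card_le {N : ℤ} (hN : N ≠ 0) (S : Finset (Ideal (MonoidAlgebra ℤ T)))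
    (hS : ∀ I ∈ S, I.IsMaximal ∧ (N : MonoidAlgebra ℤ T) ∈ I) :
    2 ^ S.card ≤ N.natAbs ^ Fintype.card T := by
  classical
  have : NeZero N.natAbs := ⟨Int.natAbs_ne_zero.2 hN⟩
  have hco : Pairwise (Function.onFun IsCoprime fun I : S => (I : Ideal (MonoidAlgebra ℤ T))) :=
    fun I J hIJ => Ideal.isCoprime_iff_sup_eq.2
      ((hS _ I.2).1.coprime_of_ne (hS _ J.2).1 fun h => hIJ (Subtype.ext h))
  choose a ha using fun b : S → Bool =>
    Ideal.exists_forall_sub_mem_ideal hco fun I => if b I then 1 else 0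
  have hinj : Function.Injective fun (b : S → Bool) (t : T) => (((a b).coeff t : ℤ) : ZMod N.natAbs) := by
    intro b b' h
    funext I
    have h1 : a b - a b' ∈ (I : Ideal (MonoidAlgebra ℤ T)) := by
      rw [← (a b - a b').sum_coeff_single]
      refine Ideal.sum_mem _ fun t _ => ?_
      have h2 := (ZMod.intCast_eq_intCast_iff_dvd_sub _ _ _).1 (congrFun h t).symm
      rw [Int.natCast_natAbs, abs_dvd] at h2
      obtain ⟨k, hk⟩ := h2
      have h3 : MonoidAlgebra.single t ((a b - a b').coeff t) =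
          (N : MonoidAlgebra ℤ T) * MonoidAlgebra.single t k := by
        rw [← zsmul_eq_mul, smul_single, smul_eq_mul, ← hk]
        simp
      rw [h3]
      exact Ideal.mul_mem_right _ _ (hS _ I.2).2
    have h2 := ha b I
    have h3 := ha b' I
    have h4 : (1 : MonoidAlgebra ℤ T) ∉ (I : Ideal (MonoidAlgebra ℤ T)) :=
      (Ideal.ne_top_iff_one _).1 (hS _ I.2).1.ne_top
    by_contra hne
    cases hb : b I <;> cases hb' : b' I <;> simp only [hb, hb', Bool.false_eq_true, if_true,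
      if_false, sub_zero, not_true_eq_false] at h2 h3 hne
    · exact h4 (by simpa using Ideal.sub_mem _ (Ideal.sub_mem _ h2 h3) h1)
    · exact h4 (by simpa using Ideal.sub_mem _ h1 (Ideal.sub_mem _ h2 h3))
  simpa using Fintype.card_le_of_injective _ hinj

theorem card_maximal_le {B : ℕ} {c : MonoidAlgebra ℤ T} (hc : Bd B c)
    {P : Ideal (MonoidAlgebra ℤ T)} [hP : P.IsPrime] (hcP : c ∉ P)
    (S : Finset (Ideal (MonoidAlgebra ℤ T))) (hS : ∀ I ∈ S, I.IsMaximal ∧ P ≤ I ∧ c ∈ I) :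
    S.card ≤ Fintype.card T ^ 3 * (B + 1) := by
  obtain ⟨N, hN, hle, hI⟩ := exists_int_mem hc hcP
  have h1 := two_pow_card_le hN S fun I h => ⟨(hS I h).1, hI I (hS I h).2.1 (hS I h).2.2⟩
  have h2 := h1.trans (Nat.pow_le_pow_left hle _)
  rw [← pow_mul, Nat.pow_le_pow_iff_right (by norm_num)] at h2
  refine h2.trans (le_of_eq ?_)
  ring

theorem exists_chars : ∃ X : Finset (T →* ℂ), X.card ≤ Fintype.card T ∧
    ∀ I : Ideal (MonoidAlgebra ℤ T), I.IsPrime → ∃ χ ∈ X, RingHom.ker (ev χ).toRingHom ≤ I := by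
  classical
  have hli := linearIndependent_monoidHom T ℂ
  have : Finite (T →* ℂ) := hli.finite
  have := Fintype.ofFinite (T →* ℂ)
  refine ⟨Finset.univ, by simpa using hli.fintype_card_le_finrank, fun I hI => ?_⟩
  refine (hI.inf_le' (f := fun χ : T →* ℂ => RingHom.ker (ev χ).toRingHom)).1 fun s hs => ?_
  rw [eq_zero_of_forall_char (s := s) fun χ => ?_]
  · exact I.zero_mem
  · exact (Finset.inf_le (f := fun χ : T →* ℂ => RingHom.ker (ev χ).toRingHom)
      (Finset.mem_univ χ)) hs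

end count

end Pool.Agent.P.MP_d3a22b_lc
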