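import Mathlib

/-!
Definitions: the languages of groups and of arithmetic, interpretations with parameters and
bi-interpretability.
-/

set_option autoImplicit false

open FirstOrder FirstOrder.Language

namespace Pool.Agent.P.MP_d3a22b_lc

/-- Function symbols of the language of groups. -/
inductive GroupFunc : ℕ → Type
  | mul : GroupFunc 2
  | inv : GroupFunc 1
  | one : GroupFunc 0

/-- The language of groups. -/
def groupLang : FirstOrder.Language.{0, 0} := ⟨GroupFunc, fun _ => Empty⟩

/-- A group as a structure in the language of groups. -/
@[reducible] def groupStructure (G : Type) [Group G] : groupLang.Structure G where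
  funMap
    | .mul, v => v 0 * v 1
    | .inv, v => (v 0)⁻¹
    | .one, _ => 1
  RelMap r _ := r.elim

/-- Function symbols of the language of arithmetic. -/
inductive ArithFunc : ℕ → Type
  | add : ArithFunc 2
  | mul : ArithFunc 2

/-- The language of arithmetic. -/
def arithLang : FirstOrder.Language.{0, 0} := ⟨ArithFunc, fun _ => Empty⟩

/-- The structure `(ℕ; +, ·)`. -/
@[reducible] def arithStructure : arithLang.Structure ℕ where
  funMap
    | .add, v => v 0 + v 1
    | .mul, v => v 0 * v 1
  RelMap r _ := r.elim

/-- The map `f` with domain `D ⊆ N ^ k` is an interpretation (with parameters) of the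
`L`-structure `M` in the `L'`-structure `N`: `D` is definable in `N`, `f` maps `D` onto `M`, and the
preimages of equality, of the graphs of the functions and of the relations of `M` are definable
in `N`. -/
structure IsInterpretation (L L' : FirstOrder.Language.{0, 0}) {M N : Type} [L.Structure M] [L'.Structure N]
    {k : ℕ} (D : Set (Fin k → N)) (f : (Fin k → N) → M) : Prop where
  domain : (Set.univ : Set N).Definable L' D
  onto : Set.SurjOn f D Set.univ
  equality : (Set.univ : Set N).Definable L'
    {v : Fin 2 × Fin k → N | (∀ i, (fun j => v (i, j)) ∈ D) ∧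
      f (fun j => v (0, j)) = f (fun j => v (1, j))}
  functions : ∀ (n : ℕ) (F : L.Functions n), (Set.univ : Set N).Definable L'
    {v : Option (Fin n) × Fin k → N | (∀ i, (fun j => v (i, j)) ∈ D) ∧
      Structure.funMap F (fun i => f (fun j => v (some i, j))) = f (fun j => v (none, j))}
  relations : ∀ (n : ℕ) (R : L.Relations n), (Set.univ : Set N).Definable L'
    {v : Fin n × Fin k → N | (∀ i, (fun j => v (i, j)) ∈ D) ∧
      Structure.RelMap R (fun i => f (fun j => v (i, j)))}

/-- For `f` from `D ⊆ N ^ k` to `M` and `g` from `E ⊆ M ^ l` to `N`, the composite map, from the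
copy of `N` inside `N` to `N`, has a graph that is definable (with parameters) in `N`. -/
def CompositeDefinable (L' : FirstOrder.Language.{0, 0}) {M N : Type} [L'.Structure N] {k l : ℕ}
    (D : Set (Fin k → N)) (f : (Fin k → N) → M) (E : Set (Fin l → M)) (g : (Fin l → M) → N) :
    Prop :=
  (Set.univ : Set N).Definable L'
    {v : Option (Fin l × Fin k) → N | (∀ i, (fun j => v (some (i, j))) ∈ D) ∧
      (fun i => f (fun j => v (some (i, j)))) ∈ E ∧
      g (fun i => f (fun j => v (some (i, j)))) = v none}

/-- The `L`-structure `M` and the `L'`-structure `N` are bi-interpretable (with parameters). -/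
def BiInterpretable (L L' : FirstOrder.Language.{0, 0}) (M N : Type) [L.Structure M] [L'.Structure N] :
    Prop :=
  ∃ (k l : ℕ) (D : Set (Fin k → N)) (f : (Fin k → N) → M) (E : Set (Fin l → M))
    (g : (Fin l → M) → N), IsInterpretation L L' D f ∧ IsInterpretation L' L E g ∧
      CompositeDefinable L' D f E g ∧ CompositeDefinable L E g D f

/-- The group `G` is bi-interpretable with `(ℕ; +, ·)`. -/
def BiInterpretableWithNat (G : Type) [Group G] : Prop :=
  @BiInterpretable groupLang arithLang G ℕ (groupStructure G) arithStructure

end Pool.Agent.P.MP_d3a22b_lc
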