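import Pool.Agent.P.MP_d3a22b_lc.Fox
import Pool.Agent.P.MP_d3a22b_lc.Defs

/-!
The deterministic theorem: a metabelian presentation of deficiency at least two whose Fox matrix
is injective modulo every integer defines a group bi-interpretable with `ℕ`.
-/

set_option autoImplicit false
set_option linter.unusedSectionVars false

open FirstOrder FirstOrder.Language Set
open scoped commutatorElement

namespace Pool.Agent.P.MP_d3a22b_lc

section assembly

variable {L L' : FirstOrder.Language.{0, 0}} {M N : Type} [L.Structure M] [L'.Structure N]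

theorem isInterpretation_of_defF [Nontrivial N] (hL : ∀ n, IsEmpty (L.Relations n))
    [Pres L' N M] {f : N → M} (hs : Function.Surjective f)
    (hf : letI := Pres.self L' N; DefF L' N f)
    (hF : ∀ (n : ℕ) (F : L.Functions n), DefF L' N (fun v : Fin n → M => Structure.funMap F v)) :
    IsInterpretation L L' (univ : Set (Fin 1 → N)) (fun v => f (v 0)) := by
  let _ := Pres.self L' N
  refine ⟨definable_univ, fun x _ => ?_, ?_, fun n F => ?_, fun n R => (hL n).elim R⟩
  · obtain ⟨y, rfl⟩ := hs x
    exact ⟨fun _ => y, mem_univ _, rfl⟩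
  · refine definable_of_defP (DefF.defP ?_)
    simp only [mem_univ, implies_true, true_and]
    fun_prop
  · refine definable_of_defP (DefF.defP ?_)
    simp only [mem_univ, implies_true, true_and]
    exact ((hF n F).comp (f := fun (v : Option (Fin n) × Fin 1 → N) i => f (v (some i, 0)))
      (by fun_prop)).eq (by fun_prop)

theorem compositeDefinable_of_defF [Nontrivial N] [Pres L' N M] {f : N → M} {g : M → N}
    (hf : letI := Pres.self L' N; DefF L' N f) (hg : letI := Pres.self L' N; DefF L' N g) :
    CompositeDefinable L' (univ : Set (Fin 1 → N)) (fun v => f (v 0))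
      (univ : Set (Fin 1 → M)) (fun v => g (v 0)) := by
  let _ := Pres.self L' N
  refine definable_of_defP (DefF.defP ?_)
  simp only [mem_univ, implies_true, true_and]
  fun_prop

end assembly

section words

/-- The letters, enumerated by natural numbers. -/
noncomputable def gen (n : ℕ) (j : ℕ) : FreeGroup (Fin n) :=
  if h : j < Fintype.card (Fin n × Bool) then
    FreeGroup.mk [(Fintype.equivFin (Fin n × Bool)).symm ⟨j, h⟩] else 1

/-- The product of the first `k` letters coded by `c`. -/
noncomputable def wd (n : ℕ) (c : ℕ) : ℕ → FreeGroup (Fin n)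
  | 0 => 1
  | k + 1 => wd n c k * gen n (Nat.beta c k)

/-- The word with code `c`. -/
noncomputable def word (n : ℕ) (c : ℕ) : FreeGroup (Fin n) := wd n c.unpair.1 c.unpair.2

theorem word_surjective (n : ℕ) : Function.Surjective (word n) := by
  intro w
  obtain ⟨l, rfl⟩ : ∃ l, FreeGroup.mk l = w := ⟨w.toWord, FreeGroup.mk_toWord⟩
  obtain ⟨c, hc⟩ := exists_beta (fun i => if h : i < l.length then
    (Fintype.equivFin (Fin n × Bool) l[i] : ℕ) else 0) l.length
  have key : ∀ k ≤ l.length, wd n c k = FreeGroup.mk (l.take k) := by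
    intro k hk
    induction k with
    | zero => rfl
    | succ k ih =>
      have hk' : k < l.length := hk
      rw [wd, ih hk'.le, hc k hk', List.take_succ_eq_append_getElem hk', ← FreeGroup.mul_mk]
      rw [dif_pos hk', gen, dif_pos (Fin.is_lt _)]
      simp
  exact ⟨Nat.pair c l.length, by simp [word, key]⟩

variable {L : FirstOrder.Language.{0, 0}} {M : Type} [L.Structure M] [Nontrivial M]
variable [Pres L M ℕ] [DefAdd L M ℕ] [DefMul L M ℕ]

theorem defF_word {n : ℕ} {H : Type} [Group H] [Pres L M H] [DefMul L M H] [Coded L M H]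
    (φ : FreeGroup (Fin n) →* H) : DefF L M (fun c => φ (word n c)) := by
  have hg : DefF L M (fun j => φ (gen n j)) := by
    refine (defF_dite_lt (Fintype.card (Fin n × Bool))
      (fun j => φ (FreeGroup.mk [(Fintype.equivFin (Fin n × Bool)).symm j])) 1).congr fun j => ?_
    unfold gen
    split_ifs <;> simp
  have h1 : DefF L M (fun p : ℕ × ℕ => φ (wd n p.1 p.2)) :=
    DefF.of_rec (F := fun c k => φ (wd n c k))
      (h := fun q => q.2.2 * φ (gen n (Nat.beta q.1 q.2.1)))
      (by simpa [wd] using DefF.const 1)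
      (DefF.mul (by fun_prop) (hg.comp (by fun_prop))) fun c k => by simp [wd]
  exact h1.comp (f := fun c : ℕ => c.unpair) (by fun_prop)

variable [Pres L M ℤ] [DefAdd L M ℤ] [DefMul L M ℤ] [DefCast L M]

theorem exists_pres_fg (Q : Type) [CommGroup Q] [Group.FG Q] :
    ∃ _ : Pres L M Q, DefMul L M Q ∧ Coded L M Q := by
  obtain ⟨S, hS, hfin⟩ := Group.fg_iff.1 ‹Group.FG Q›
  obtain ⟨n, a, -, rfl⟩ := hfin.fin_param
  let p : (Fin n → ℤ) → Q := fun k => ∏ i, a i ^ k i
  have hps : Function.Surjective p := fun q => by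
    have : q ∈ Subgroup.closure (range a) := hS ▸ Subgroup.mem_top q
    obtain ⟨k, hk⟩ := Subgroup.mem_closure_range_iff_of_fintype.1 this
    exact ⟨k, hk.symm⟩
  have hpa : ∀ k k', p (k + k') = p k * p k' := fun k k' => by
    simp [p, zpow_add, Finset.prod_mul_distrib]
  let P : (Fin n → ℤ) →+ Additive Q := AddMonoidHom.mk' (fun k => Additive.ofMul (p k)) hpa
  obtain ⟨t, v, hv⟩ := Submodule.fg_iff_exists_fin_generating_family.1
    (IsNoetherian.noetherian (LinearMap.ker P.toIntLinearMap))
  let s : (Fin t → ℤ) → Fin n → ℤ := fun c => ∑ i, c i • v i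
  have hs : DefF L M s := DefF.finsetSum _ fun i => by fun_prop
  have hk : DefF L M (fun q : (Fin n → ℤ) × (Fin n → ℤ) => p q.1 = p q.2) := by
    refine DefF.congr (f := fun q => ∃ c, s c = q.1 - q.2) ?_ fun q => propext ?_
    · clear_value s
      fun_prop
    · rw [← Submodule.mem_span_range_iff_exists_fun, hv, LinearMap.mem_ker, map_sub, sub_eq_zero]
      rfl
  let _ : Pres L M Q := Pres.ofSurj p hps hk
  have hp : DefF L M p := defF_ofSurj p hps hk
  exact ⟨inferInstance, ⟨DefF.binop_of_surjective hp hps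
    ((hp.comp (f := fun z : (Fin n → ℤ) × (Fin n → ℤ) => z.1 + z.2) (by fun_prop)).congr
      fun z => hpa _ _)⟩, Coded.of_surjective hp hps⟩

variable {n m : ℕ} {Q : Type} [CommGroup Q] {α : Fin n → Q} {r : Fin m → FreeGroup (Fin n)}

/-- The group is presented in any structure with arithmetic. -/
theorem nworld [Group.FG Q] (hr : ∀ i, FreeGroup.lift α (r i) = 1)
    (hinj : Function.Injective (magnus α r hr)) {x : Q} (hx : ¬ IsOfFinOrder x) :
    ∃ _ : Pres L M (Met r), DefMul L M (Met r) ∧
      DefF L M (fun c => (PresentedGroup.mk _ (word n c) : Met r)) ∧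
      DefF L M (cnt (Aff.qHom.comp (magnus α r hr)) x) := by
  obtain ⟨_, _, _⟩ := exists_pres_fg (L := L) (M := M) Q
  obtain ⟨_, _, _, _, hsingle⟩ := exists_pres_groupRing (L := L) (M := M) Q
  let V := Fin n → MonoidAlgebra ℤ Q
  let pa : V × Q → Aff Q V := fun z => ⟨z.1, z.2⟩
  have hpas : Function.Surjective pa := fun z => ⟨(z.v, z.q), rfl⟩
  have hpak : DefF L M (fun q : (V × Q) × (V × Q) => pa q.1 = pa q.2) :=
    DefF.congr (f := fun q => q.1 = q.2) (by fun_prop) fun q => propext
      ⟨congrArg pa, fun h => Prod.ext (congrArg Aff.v h) (congrArg Aff.q h)⟩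
  let _ : Pres L M (Aff Q V) := Pres.ofSurj pa hpas hpak
  have hpa : DefF L M pa := defF_ofSurj pa hpas hpak
  have hv : DefF L M (Aff.v : Aff Q V → V) := DefF.of_comp_surjective hpa hpas DefF.id.fst
  have hq : DefF L M (Aff.q : Aff Q V → Q) := DefF.of_comp_surjective hpa hpas DefF.id.snd
  have hof : DefF L M (fun q : Q => MonoidAlgebra.of ℤ Q q) :=
    hsingle.comp (DefF.id.prodMk (DefF.const 1))
  have : DefMul L M (Aff Q V) := ⟨DefF.binop_of_surjective hpa hpas
    (hpa.comp (f := fun z : (V × Q) × (V × Q) =>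
      (z.1.1 + MonoidAlgebra.of ℤ Q z.1.2 • z.2.1, z.1.2 * z.2.2))
      (DefF.prodMk (DefF.add (by fun_prop) (DefF.smul (hof.comp (by fun_prop)) (by fun_prop)))
        (by fun_prop)))⟩
  have : Coded L M (Aff Q V) := Coded.of_surjective hpa hpas
  let Φ : FreeGroup (Fin n) →* Aff Q V := affHom α fun i => (Pi.single i 1 : V)
  have hΦ : DefF L M (fun c => Φ (word n c)) := defF_word Φ
  let s : (Fin m → MonoidAlgebra ℤ Q) → V := fun ρ => ∑ i, ρ i • fox α (r i)
  have hs : DefF L M s := DefF.finsetSum _ fun i => by fun_prop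
  let E : Aff Q V × Aff Q V → Prop := fun z => z.1.q = z.2.q ∧ ∃ ρ, s ρ = z.1.v - z.2.v
  have hE : DefF L M E := by
    refine DefF.and ((hq.comp DefF.id.fst).eq (hq.comp DefF.id.snd)) (DefF.exists ?_)
    exact (hs.comp DefF.id.snd).eq ((hv.comp DefF.id.fst.fst).sub (hv.comp DefF.id.fst.snd))
  have hEiff : ∀ w w', E (Φ w, Φ w') ↔
      (PresentedGroup.mk _ w : Met r) = PresentedGroup.mk _ w' := by
    intro w w'
    rw [← hinj.eq_iff, magnus_mk, magnus_mk, Aff.ext_iff, and_comm, Submodule.Quotient.eq,
      Submodule.mem_span_range_iff_exists_fun]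
    simp only [E, Φ, affHom_q]
    rfl
  let f : ℕ → Met r := fun c => PresentedGroup.mk _ (word n c)
  have hfs : Function.Surjective f := (PresentedGroup.mk_surjective _).comp (word_surjective n)
  have hfk : DefF L M (fun q : ℕ × ℕ => f q.1 = f q.2) :=
    (hE.comp ((hΦ.comp DefF.id.fst).prodMk (hΦ.comp DefF.id.snd))).congr fun q =>
      propext (hEiff _ _)
  let _ : Pres L M (Met r) := Pres.ofSurj f hfs hfk
  have hf : DefF L M f := defF_ofSurj f hfs hfk
  refine ⟨inferInstance, ⟨?_⟩, hf, defF_cnt ?_ hx⟩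
  · refine DefF.binop_of_surjective hf hfs ?_
    refine DefF.of_graph (P := fun z : (ℕ × ℕ) × Met r => ∃ c, f c = z.2 ∧
      E (Φ (word n z.1.1) * Φ (word n z.1.2), Φ (word n c))) (DefF.exists ?_) ?_
    · exact ((hf.comp DefF.id.snd).eq DefF.id.fst.snd).and (hE.comp
        (((hΦ.comp DefF.id.fst.fst.fst).mul (hΦ.comp DefF.id.fst.fst.snd)).prodMk
          (hΦ.comp DefF.id.snd)))
    · rintro ⟨a, b⟩ g
      simp only [← map_mul, hEiff]
      constructor
      · rintro ⟨c, rfl, h⟩
        exact (map_mul _ _ _).symm.trans h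
      · rintro rfl
        obtain ⟨c, hc⟩ := hfs (f a * f b)
        exact ⟨c, hc, (map_mul _ _ _).trans hc.symm⟩
  · refine DefF.of_comp_surjective hf hfs ((hq.comp hΦ).congr fun c => ?_)
    exact (affHom_q α _ _).trans (congrArg Aff.q (magnus_mk hr _)).symm

end words

theorem defF_groupFunc {L : FirstOrder.Language.{0, 0}} {M : Type} [L.Structure M] [Nontrivial M]
    {G : Type} [Group G] [Pres L M G] [DefMul L M G] (n : ℕ) (F : groupLang.Functions n) :
    DefF L M (fun v : Fin n → G => @Structure.funMap groupLang G (groupStructure G) n F v) := by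
  cases F with
  | mul => exact DefF.mul (DefF.apply 0) (DefF.apply 1)
  | inv => exact DefF.inv (DefF.apply 0)
  | one => exact DefF.const 1

theorem defF_arithFunc {L : FirstOrder.Language.{0, 0}} {M : Type} [L.Structure M] [Nontrivial M]
    [Pres L M ℕ] [DefAdd L M ℕ] [DefMul L M ℕ] (n : ℕ) (F : arithLang.Functions n) :
    DefF L M (fun v : Fin n → ℕ => @Structure.funMap arithLang ℕ arithStructure n F v) := by
  cases F with
  | add => exact DefF.add (DefF.apply 0) (DefF.apply 1)
  | mul => exact DefF.mul (DefF.apply 0) (DefF.apply 1)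

theorem defF_pair {L : FirstOrder.Language.{0, 0}} {M : Type} [L.Structure M] {X : Type}
    [Pres L M X] : DefF L M (fun p : X × X => ![p.1, p.2]) :=
  DefF.pi (f := fun p : X × X => ![p.1, p.2]) fun i => by
    fin_cases i
    · exact DefF.id.fst
    · exact DefF.id.snd

/-- The deterministic theorem. -/
theorem biInterpretable_of_foxGood {n m : ℕ} (hmn : m + 2 ≤ n) {Q : Type} [CommGroup Q]
    {α : Fin n → Q} {r : Fin m → FreeGroup (Fin n)} (hr : ∀ i, FreeGroup.lift α (r i) = 1)
    (hs : Function.Surjective (FreeGroup.lift α))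
    (hker : ∀ w, FreeGroup.lift α w = 1 → (PresentedGroup.mk _ w : Met r) ∈ commutator (Met r))
    {x y : Q} (hxy : Indep x y) (hgood : FoxGood α r) : BiInterpretableWithNat (Met r) := by
  have hQ : Group.FG Q := Group.fg_of_surjective hs
  have hN : IsNoetherianRing (MonoidAlgebra ℤ Q) := Algebra.FiniteType.isNoetherianRing ℤ _
  have hker' : ∀ g, (Aff.qHom.comp (magnus α r hr)) g = 1 → g ∈ commutator (Met r) := by
    intro g hg
    obtain ⟨w, rfl⟩ := PresentedGroup.mk_surjective _ g
    exact hker w ((congrArg Aff.q (magnus_mk hr w)).symm.trans hg)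
  have hd := magnus_deriv hr hs hker'
  have hinj : Function.Injective (magnus α r hr) :=
    (injective_iff_map_eq_one _).2 fun g hg => hd.inj g (congrArg Aff.q hg) (congrArg Aff.v hg)
  have hx := hxy.not_isOfFinOrder
  have hnt : Nontrivial (Met r) := by
    obtain ⟨g, hg⟩ := hd.surj x
    refine ⟨g, 1, fun h => hx ?_⟩
    rw [← hg, h, map_one]
    exact IsOfFinOrder.one
  let f : ℕ → Met r := fun c => PresentedGroup.mk _ (word n c)
  have hfs : Function.Surjective f := (PresentedGroup.mk_surjective _).comp (word_surjective n)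
  let g : Met r → ℕ := cnt (Aff.qHom.comp (magnus α r hr)) x
  have hgs : Function.Surjective g := cnt_surjective hd.surj hx
  let _ := groupStructure (Met r)
  let _ := arithStructure
  have hG : IsInterpretation arithLang groupLang (univ : Set (Fin 1 → Met r)) (fun v => g (v 0)) ∧
      CompositeDefinable groupLang (univ : Set (Fin 1 → Met r)) (fun v => g (v 0))
        (univ : Set (Fin 1 → ℕ)) (fun v => f (v 0)) := by
    let _ := Pres.self groupLang (Met r)
    have : DefMul groupLang (Met r) (Met r) :=
      ⟨(defF_funMap (L := groupLang) (M := Met r) GroupFunc.mul).comp defF_pair⟩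
    obtain ⟨_, _, _, _, hg⟩ := hd.gworld (L := groupLang) (M := Met r)
      (hd.defF_ker (PresentedGroup.closure_range_of _) hker')
      (fun s h => alex_faithful hmn hs hx fun j k => by
        have := h ⟨_, PresentedGroup.mk _ ⁅FreeGroup.of j, FreeGroup.of k⁆, by
          rw [map_commutatorElement]; exact map_commutator_eq_one _ _ _, rfl⟩
        have h2 := congrArg Subtype.val this
        simp only [magnus_mk] at h2
        exact h2)
      (fun k a hk h => Subtype.ext (hgood.torsionFree k a hk (congrArg Subtype.val h)))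
      (fun u w huw a h1 h2 => Subtype.ext
        (hgood.noFix huw a (congrArg Subtype.val h1) (congrArg Subtype.val h2))) hxy
    exact ⟨isInterpretation_of_defF (fun _ => inferInstanceAs (IsEmpty Empty)) hgs hg
      defF_arithFunc, compositeDefinable_of_defF hg (defF_word (PresentedGroup.mk _))⟩
  have hN : IsInterpretation groupLang arithLang (univ : Set (Fin 1 → ℕ)) (fun v => f (v 0)) ∧
      CompositeDefinable arithLang (univ : Set (Fin 1 → ℕ)) (fun v => f (v 0))
        (univ : Set (Fin 1 → Met r)) (fun v => g (v 0)) := by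
    let _ := Pres.self arithLang ℕ
    have : DefAdd arithLang ℕ ℕ :=
      ⟨(defF_funMap (L := arithLang) (M := ℕ) ArithFunc.add).comp defF_pair⟩
    have : DefMul arithLang ℕ ℕ :=
      ⟨(defF_funMap (L := arithLang) (M := ℕ) ArithFunc.mul).comp defF_pair⟩
    obtain ⟨_, _, _, _⟩ := exists_pres_int (L := arithLang) (M := ℕ)
    obtain ⟨_, _, hf, hg⟩ := nworld (L := arithLang) (M := ℕ) hr hinj hx
    exact ⟨isInterpretation_of_defF (fun _ => inferInstanceAs (IsEmpty Empty)) hfs hf
      defF_groupFunc, compositeDefinable_of_defF hf hg⟩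
  exact ⟨1, 1, univ, fun v => f (v 0), univ, fun v => g (v 0), hN.1, hG.1, hN.2, hG.2⟩

end Pool.Agent.P.MP_d3a22b_lc
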