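import Pool.Agent.P.MP_d3a22b_lc.Prim
import Pool.Agent.P.MP_d3a22b_lc.Det

/-!
A chain of matrices leading from an explicit matrix to one containing the Fox matrix, and the
abelian group attached to the exponent vectors of the relators.
-/

set_option autoImplicit false
set_option linter.unusedSectionVars false

open Set MonoidAlgebra
open scoped commutatorElement

namespace Pool.Agent.P.MP_d3a22b_lc

section chain

variable {n m : ℕ} {Q : Type} [CommGroup Q]

/-- The rows of the initial matrix. -/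
noncomputable def baseRow (α : Fin n → Q) (j t : Fin n) : Fin n → MonoidAlgebra ℤ Q :=
  if t = j then Pi.single j 1 else fox α ⁅FreeGroup.of j, FreeGroup.of t⁆

/-- The matrices of the chain. -/
noncomputable def chainMat (α : Fin n → Q) (j : Fin n) (π : Equiv.Perm (Fin n))
    (J : Fin m → Fin n → MonoidAlgebra ℤ Q) (i : ℕ) :
    Matrix (Fin n) (Fin n) (MonoidAlgebra ℤ Q) :=
  Matrix.of fun t => if h : (π t : ℕ) < i ∧ (π t : ℕ) < m then J ⟨π t, h.2⟩ else baseRow α j t

variable {α : Fin n → Q} {j : Fin n} {π : Equiv.Perm (Fin n)}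
  {J J' : Fin m → Fin n → MonoidAlgebra ℤ Q}

theorem chainMat_congr {i : ℕ} (h : ∀ i' : Fin m, (i' : ℕ) < i → J i' = J' i') :
    chainMat α j π J i = chainMat α j π J' i := by
  ext t s
  simp only [chainMat, Matrix.of_apply]
  split_ifs with h1
  · rw [h _ h1.1]
  · rfl

theorem chainMat_succ {i : Fin m} {t : Fin n} (ht : (π t : ℕ) = i) :
    chainMat α j π J (i + 1) = (chainMat α j π J i).updateRow t (J i) := by
  ext1 t' s
  by_cases h : t' = t
  · subst h
    simp [chainMat, ht]
  · have h1 : (π t' : ℕ) ≠ i := fun h2 => h (π.injective (Fin.ext (h2.trans ht.symm)))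
    have h2 : ((π t' : ℕ) < i + 1 ∧ (π t' : ℕ) < m) ↔ ((π t' : ℕ) < i ∧ (π t' : ℕ) < m) := by
      omega
    simp only [chainMat, Matrix.updateRow_ne h, Matrix.of_apply, h2]

theorem det_chainMat_succ {i : Fin m} {t : Fin n} (ht : (π t : ℕ) = i) (hj : t ≠ j)
    (h : ∀ i', i' ≠ i → J' i' = J i') {g : MonoidAlgebra ℤ Q}
    (hi : J' i = J i + g • fox α ⁅FreeGroup.of j, FreeGroup.of t⁆) :
    (chainMat α j π J' (i + 1)).det =
      (chainMat α j π J (i + 1)).det + g * (chainMat α j π J i).det := by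
  have h1 : chainMat α j π J' i = chainMat α j π J i :=
    chainMat_congr fun i' hi' => h i' fun h2 => by simp [h2] at hi'
  have h2 : fox α ⁅FreeGroup.of j, FreeGroup.of t⁆ = chainMat α j π J i t := by
    funext s
    simp [chainMat, ht, baseRow, hj]
  rw [chainMat_succ ht, chainMat_succ ht, h1, hi, Matrix.det_updateRow_add,
    Matrix.det_updateRow_smul, h2, Matrix.updateRow_eq_self]

theorem det_chainMat_zero : (chainMat α j π J 0).det =
    ∏ t, if t = j then 1 else (MonoidAlgebra.of ℤ Q (α j) - 1) := by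
  rw [← Matrix.det_diagonal]
  refine Matrix.det_eq_of_forall_row_eq_smul_add_const
    (fun t => if t = j then 0 else 1 - MonoidAlgebra.of ℤ Q (α t)) j (by simp) fun t s => ?_
  simp only [chainMat, Matrix.of_apply, Nat.not_lt_zero, false_and, dite_false, baseRow,
    Matrix.diagonal_apply, fox_commutator, if_true]
  by_cases h : t = j
  · subst h
    simp [Pi.single_apply, eq_comm]
  · simp only [h, if_false, Pi.add_apply, Pi.smul_apply, Pi.single_apply, smul_eq_mul]
    by_cases h1 : s = t <;> by_cases h2 : s = j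
    · exact absurd (h1.symm.trans h2) h
    · simp [h1, h, Ne.symm h]
    · simp [h2, h, Ne.symm h]
    · simp [h1, h2, Ne.symm h1, Ne.symm h2]

theorem bd_chainMat {B : ℕ} (hB : 2 ≤ B) (hJ : ∀ i s, Bd B (J i s)) (i : ℕ) (t s : Fin n) :
    Bd B (chainMat α j π J i t s) := by
  have h1 : ∀ (a b : Fin n), Bd 1 ((Pi.single a 1 : Fin n → MonoidAlgebra ℤ Q) b) := by
    intro a b
    rw [Pi.single_apply]
    split_ifs
    · exact Bd.one
    · exact Bd.zero _
  simp only [chainMat, Matrix.of_apply]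
  split_ifs with h
  · exact hJ _ _
  · unfold baseRow
    split_ifs with h2
    · exact (h1 _ _).mono (by omega)
    · rw [fox_commutator]
      simp only [Pi.add_apply, Pi.smul_apply, Pi.single_apply, smul_eq_mul]
      by_cases h3 : s = j
      · have h4 : s ≠ t := fun h5 => h2 (h5.symm.trans h3)
        simpa [h3, h4, Ne.symm h2] using (Bd.one.sub (Bd.single (α t))).mono hB
      · by_cases h4 : s = t
        · simpa [h2, h4] using ((Bd.single (α j)).sub Bd.one).mono hB
        · simpa [h3, h4] using Bd.zero B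

variable {A Γ : Type} [CommRing A] [CommGroup Γ] [LinearOrder Γ] [IsOrderedMonoid Γ]

theorem foxGood_of_prim (hmn : m ≤ n) (Θ : MonoidAlgebra ℤ Q ≃+* MonoidAlgebra A Γ)
    {r : Fin m → FreeGroup (Fin n)}
    (h : Prim (Θ (chainMat α j π (fun i => fox α (r i)) m).det)) : FoxGood α r := by
  intro k ρ v hρ
  set U := chainMat α j π (fun i => fox α (r i)) m with hU
  let ι : Fin m → Fin n := fun i => π.symm (i.castLE hmn)
  have hι : Function.Injective ι := π.symm.injective.comp (Fin.castLE_injective hmn)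
  have h1 : ∀ i, Matrix.vecMul (fox α (r i)) U.adjugate = U.det • Pi.single (ι i) 1 := by
    intro i
    have h2 : fox α (r i) = U.row (ι i) := by
      funext s
      simp [hU, chainMat, ι]
    funext s
    have h3 := congrFun (congrFun (Matrix.mul_adjugate U) (ι i)) s
    rw [h2]
    refine Eq.trans ?_ (h3.trans ?_)
    · rfl
    · simp [Matrix.one_apply, Pi.single_apply, eq_comm]
  have h2 : ∀ i, ∃ ρ', ρ i = k • ρ' := by
    intro i
    have h3 := congrArg (fun w => Matrix.vecMul w U.adjugate (ι i)) hρ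
    simp only [Matrix.sum_vecMul, Matrix.smul_vecMul, h1, Finset.sum_apply, Pi.smul_apply,
      Pi.single_apply, hι.eq_iff, smul_eq_mul, mul_ite, mul_one, mul_zero, Finset.sum_ite_eq,
      Finset.mem_univ, if_true] at h3
    obtain ⟨ρ', h4⟩ := h.dvd (k := (k : A)) (ρ := Θ (ρ i))
      (v := Θ (Matrix.vecMul v U.adjugate (ι i))) (by
        rw [← map_mul, mul_comm, h3, map_zsmul, Int.cast_smul_eq_zsmul])
    exact ⟨Θ.symm ρ', by rw [← map_zsmul, ← Int.cast_smul_eq_zsmul A, ← h4, Θ.symm_apply_apply]⟩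
  choose ρ' hρ' using h2
  exact ⟨ρ', funext hρ'⟩

variable {T : Type} [CommGroup T]

/-- The group ring of a product as an iterated group ring. -/
noncomputable def theta (e : Q ≃* Γ × T) :
    MonoidAlgebra ℤ Q ≃+* MonoidAlgebra (MonoidAlgebra ℤ T) Γ :=
  (mapDomainRingEquiv ℤ e).trans curryRingEquiv

theorem theta_single (e : Q ≃* Γ × T) (q : Q) (k : ℤ) :
    theta e (single q k) = single (e q).1 (single (e q).2 k) := by
  rw [theta, RingEquiv.trans_apply, mapDomainRingEquiv_single, ← curryRingEquiv_single]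

theorem Bd.theta (e : Q ≃* Γ × T) {B : ℕ} {f : MonoidAlgebra ℤ Q} (h : Bd B f) (γ : Γ) :
    Bd B ((theta e f).coeff γ) := by
  classical
  let φ : MonoidAlgebra ℤ Q →+ MonoidAlgebra ℤ T :=
    { toFun := fun f => (Pool.Agent.P.MP_d3a22b_lc.theta e f).coeff γ
      map_zero' := by simp
      map_add' := fun f g => by simp }
  have := h.map φ (C := 1) fun q => by
    change Bd 1 ((Pool.Agent.P.MP_d3a22b_lc.theta e (MonoidAlgebra.single q 1)).coeff γ)
    rw [theta_single, coeff_single, Finsupp.single_apply]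
    split_ifs
    · exact Bd.single _
    · exact Bd.zero _
  rw [mul_one] at this
  exact this

theorem prim_chainMat_zero (e : Q ≃* Γ × T) (hj : (e (α j)).1 ≠ 1) :
    Prim (theta e (chainMat α j π J 0).det) := by
  rw [det_chainMat_zero, map_prod]
  refine Prim.prod _ fun t _ => ?_
  split_ifs
  · rw [map_one]
    exact Prim.one
  · intro I hI
    refine ⟨1, ?_⟩
    rw [map_sub, map_one (theta e), of_apply, theta_single]
    simpa [one_def, Finsupp.single_apply, hj] using (Ideal.ne_top_iff_one _).1 hI.ne_top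

end chain

section quot

variable {n m : ℕ}

/-- The free abelian group. -/
abbrev ZZ (n : ℕ) : Type := Multiplicative (Fin n → ℤ)

/-- The basis of the free abelian group. -/
def bas (i : Fin n) : ZZ n := Multiplicative.ofAdd (Pi.single i 1)

/-- The exponent vector of a word. -/
def ab : FreeGroup (Fin n) →* ZZ n := FreeGroup.lift bas

theorem ab_of (i : Fin n) : ab (FreeGroup.of i) = bas i := by simp [ab]

/-- The quotient of the free abelian group by some vectors. -/
abbrev QQ (v : Fin m → ZZ n) : Type := ZZ n ⧸ Subgroup.closure (range v)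

/-- The images of the basis vectors in the quotient. -/
def al (v : Fin m → ZZ n) (i : Fin n) : QQ v := QuotientGroup.mk (bas i)

theorem lift_al (v : Fin m → ZZ n) (w : FreeGroup (Fin n)) :
    FreeGroup.lift (al v) w = QuotientGroup.mk (ab w) := by
  have : FreeGroup.lift (al v) = (QuotientGroup.mk' _).comp ab := by
    ext i
    simp [al, ab_of]
  rw [this]
  rfl

theorem eq_prod_bas (z : ZZ n) : z = ∏ i, bas i ^ (z.toAdd i) := by
  apply Multiplicative.toAdd.injective
  funext t
  simp [toAdd_prod, bas, Pi.single_apply]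

theorem ab_surjective : Function.Surjective (ab : FreeGroup (Fin n) →* ZZ n) := by
  intro z
  change z ∈ ab.range
  rw [eq_prod_bas z]
  exact Subgroup.prod_mem _ fun i _ => Subgroup.zpow_mem _ (MonoidHom.mem_range.2 ⟨_, ab_of i⟩) _

theorem exists_single_notMem {κ : Type} [Fintype κ] (b : κ → Fin n → ℚ)
    (h : Fintype.card κ < n) : ∃ k, Pi.single k 1 ∉ Submodule.span ℚ (range b) := by
  by_contra hb
  push Not at hb
  have htop : Submodule.span ℚ (range b) = ⊤ := by
    rw [eq_top_iff, ← (Pi.basisFun ℚ (Fin n)).span_eq, Submodule.span_le]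
    rintro _ ⟨k, rfl⟩
    simpa using hb k
  have h4 := finrank_range_le_card (R := ℚ) b
  rw [Set.finrank, htop, finrank_top, Module.finrank_fin_fun] at h4
  omega

theorem exists_indep (hmn : m + 2 ≤ n) (v : Fin m → ZZ n) : ∃ j k, Indep (al v j) (al v k) := by
  let b : Fin m → Fin n → ℚ := fun i t => ((v i).toAdd t : ℚ)
  obtain ⟨j, hj⟩ := exists_single_notMem b (by simp; omega)
  let b' : Option (Fin m) → Fin n → ℚ := fun o => o.elim (Pi.single j 1) b
  obtain ⟨k, hk⟩ := exists_single_notMem b' (by simp; omega)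
  refine ⟨j, k, fun x y hxy => ?_⟩
  rw [al, al, ← QuotientGroup.mk_zpow, ← QuotientGroup.mk_zpow, ← QuotientGroup.mk_mul,
    QuotientGroup.eq_one_iff, Subgroup.mem_closure_range_iff_of_fintype] at hxy
  obtain ⟨a, ha⟩ := hxy
  have h1 : (x : ℚ) • (Pi.single j 1 : Fin n → ℚ) + (y : ℚ) • Pi.single k 1 =
      ∑ i, (a i : ℚ) • b i := by
    funext t
    have h2 := congrArg (fun z : ZZ n => ((z.toAdd t : ℤ) : ℚ)) ha
    simp only [toAdd_mul, toAdd_zpow, toAdd_prod, bas, toAdd_ofAdd, Pi.add_apply, Pi.smul_apply,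
      Finset.sum_apply, smul_eq_mul, Pi.single_apply] at h2
    simp only [Pi.add_apply, Pi.smul_apply, Finset.sum_apply, smul_eq_mul, Pi.single_apply, b]
    push_cast at h2
    exact h2
  have h2 : ∑ i, (a i : ℚ) • b i ∈ Submodule.span ℚ (range b) :=
    Submodule.sum_mem _ fun i _ => Submodule.smul_mem _ _ (Submodule.subset_span ⟨i, rfl⟩)
  have hy : y = 0 := by
    by_contra hy
    apply hk
    rw [← Submodule.smul_mem_iff _ (Int.cast_ne_zero.2 hy : (y : ℚ) ≠ 0), eq_sub_iff_add_eq'.2 h1]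
    refine sub_mem (Submodule.span_mono ?_ h2)
      (Submodule.smul_mem _ _ (Submodule.subset_span ⟨none, rfl⟩))
    rintro _ ⟨i, rfl⟩
    exact ⟨some i, rfl⟩
  refine ⟨?_, hy⟩
  by_contra hx
  apply hj
  rw [← Submodule.smul_mem_iff _ (Int.cast_ne_zero.2 hx : (x : ℚ) ≠ 0)]
  rw [← h1, hy] at h2
  simpa using h2

theorem exists_hom_ab {C : Type} [CommGroup C] (φ : FreeGroup (Fin n) →* C) :
    ∃ ψ : ZZ n →* C, ∀ w, ψ (ab w) = φ w := by
  let ψ : ZZ n →* C :=
    { toFun := fun z => ∏ i, φ (FreeGroup.of i) ^ (z.toAdd i)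
      map_one' := by simp
      map_mul' := fun z z' => by simp [zpow_add, Finset.prod_mul_distrib] }
  have h1 : ψ.comp ab = φ := by
    ext i
    simp [ψ, ab_of, bas, Pi.single_apply]
  exact ⟨ψ, fun w => congrArg (fun f : FreeGroup (Fin n) →* C => f w) h1⟩

theorem biInterpretable_of_foxGood_al (hmn : m + 2 ≤ n) {r : Fin m → FreeGroup (Fin n)}
    {v : Fin m → ZZ n} (hv : ∀ i, ab (r i) = v i) (h : FoxGood (al v) r) :
    BiInterpretableWithNat (Met r) := by
  obtain ⟨j, k, hjk⟩ := exists_indep hmn v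
  refine biInterpretable_of_foxGood hmn (fun i => ?_) (fun q => ?_) (fun w hw => ?_) hjk h
  · rw [lift_al, QuotientGroup.eq_one_iff, hv]
    exact Subgroup.subset_closure ⟨i, rfl⟩
  · obtain ⟨z, rfl⟩ := QuotientGroup.mk_surjective q
    obtain ⟨w, rfl⟩ := ab_surjective z
    exact ⟨w, lift_al v w⟩
  · rw [lift_al, QuotientGroup.eq_one_iff] at hw
    obtain ⟨ψ, h2⟩ := exists_hom_ab (Abelianization.of.comp (PresentedGroup.mk _ : _ →* Met r))
    replace h2 : ∀ w, ψ (ab w) = Abelianization.of (PresentedGroup.mk _ w : Met r) := h2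
    have h3 : Subgroup.closure (range v) ≤ ψ.ker := by
      rw [Subgroup.closure_le]
      rintro _ ⟨i, rfl⟩
      change ψ (v i) = 1
      rw [← hv, h2, PresentedGroup.one_of_mem (Or.inl ⟨i, rfl⟩), map_one]
    rw [← Abelianization.ker_of, MonoidHom.mem_ker, ← h2]
    exact h3 hw

theorem exists_small_rep {v : Fin m → ZZ n} {ℓ : ℕ} (hv : ∀ i t, |(v i).toAdd t| ≤ ℓ) {q : QQ v}
    (hq : IsOfFinOrder q) :
    ∃ z : ZZ n, (∀ t, |z.toAdd t| ≤ m * ℓ) ∧ (QuotientGroup.mk z : QQ v) = q := by
  obtain ⟨z, rfl⟩ := QuotientGroup.mk_surjective q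
  obtain ⟨k, hk, h1⟩ := isOfFinOrder_iff_pow_eq_one.1 hq
  rw [← QuotientGroup.mk_pow, QuotientGroup.eq_one_iff,
    Subgroup.mem_closure_range_iff_of_fintype] at h1
  obtain ⟨a, ha⟩ := h1
  have hk' : (0 : ℤ) < k := by exact_mod_cast hk
  refine ⟨z * (∏ i, v i ^ (a i / k))⁻¹, fun t => ?_, ?_⟩
  · have h2 := congrArg (fun z : ZZ n => z.toAdd t) ha
    simp only [toAdd_pow, Pi.smul_apply, nsmul_eq_mul, toAdd_prod, toAdd_zpow, Finset.sum_apply,
      smul_eq_mul] at h2
    simp only [toAdd_mul, toAdd_inv, toAdd_prod, toAdd_zpow, Pi.add_apply, Pi.neg_apply,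
      Finset.sum_apply, Pi.smul_apply, smul_eq_mul]
    have h3 : k * (z.toAdd t + -∑ i, a i / k * (v i).toAdd t) =
        ∑ i, a i % k * (v i).toAdd t := by
      rw [mul_add, h2, mul_neg, Finset.mul_sum, ← sub_eq_add_neg, ← Finset.sum_sub_distrib]
      refine Finset.sum_congr rfl fun i _ => ?_
      rw [Int.emod_def]
      ring
    have h4 : |∑ i, a i % k * (v i).toAdd t| ≤ ∑ _i : Fin m, (k : ℤ) * ℓ := by
      refine (Finset.abs_sum_le_sum_abs _ _).trans (Finset.sum_le_sum fun i _ => ?_)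
      rw [abs_mul, abs_of_nonneg (Int.emod_nonneg _ hk'.ne')]
      exact mul_le_mul (Int.emod_lt_of_pos _ hk').le (hv i t) (abs_nonneg _) hk'.le
    rw [← h3, abs_mul, abs_of_pos hk', Finset.sum_const, Finset.card_univ, Fintype.card_fin,
      nsmul_eq_mul, mul_left_comm] at h4
    exact le_of_mul_le_mul_left h4 hk'
  · rw [QuotientGroup.mk_mul_of_mem]
    exact inv_mem (Subgroup.prod_mem _ fun i _ =>
      Subgroup.zpow_mem _ (Subgroup.subset_closure (mem_range_self i)) _)

theorem exists_dec {v : Fin m → ZZ n} {ℓ : ℕ} (hv : ∀ i t, |(v i).toAdd t| ≤ ℓ) :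
    ∃ (Γ T : Type) (_ : CommGroup Γ) (_ : LinearOrder Γ) (_ : IsOrderedMonoid Γ) (_ : CommGroup T)
      (_ : Fintype T) (_ : QQ v ≃* Γ × T), Fintype.card T ≤ (2 * (m * ℓ) + 1) ^ n := by
  classical
  have : Group.FG (ZZ n) := Group.fg_of_surjective ab_surjective
  obtain ⟨ι, κ, _, _, p, hp, e, ⟨f⟩⟩ := CommGroup.equiv_free_prod_prod_multiplicative_zmod (QQ v)
  have : ∀ i, NeZero (p i ^ e i) := fun i => ⟨pow_ne_zero _ (hp i).ne_zero⟩
  let g : (κ → Multiplicative ℤ) ≃* Lex (Fin (Fintype.card κ) → Multiplicative ℤ) :=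
    MulEquiv.arrowCongr (Fintype.equivFin κ) (MulEquiv.refl _)
  refine ⟨Lex (Fin (Fintype.card κ) → Multiplicative ℤ),
    (i : ι) → Multiplicative (ZMod (p i ^ e i)), inferInstance, inferInstance, inferInstance,
    inferInstance, inferInstance, f.trans (MulEquiv.prodCongr g (MulEquiv.refl _)), ?_⟩
  choose z hz using fun t : (i : ι) → Multiplicative (ZMod (p i ^ e i)) =>
    exists_small_rep hv (q := f.symm (1, t))
      (((f.symm.toMonoidHom.comp (MonoidHom.inr _ _))).isOfFinOrder (isOfFinOrder_of_finite t))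
  have h1 := Finset.card_le_card_of_injOn (s := Finset.univ)
    (t := Fintype.piFinset fun _ : Fin n => Finset.Icc (-(m * ℓ : ℤ)) (m * ℓ))
    (fun t => (z t).toAdd) (fun t _ => by
      simp only [Finset.mem_coe, Fintype.mem_piFinset, Finset.mem_Icc]
      exact fun s => abs_le.1 ((hz t).1 s)) (fun t _ t' _ h => by
      have h2 : z t = z t' := Multiplicative.toAdd.injective h
      have h3 := (hz t).2.symm.trans (h2 ▸ (hz t').2)
      simpa using h3)
  rw [Fintype.card_piFinset, Finset.card_univ] at h1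
  refine h1.trans (le_of_eq ?_)
  simp only [Int.card_Icc, Finset.prod_const, Finset.card_univ, Fintype.card_fin]
  congr 1
  rw [← Int.toNat_natCast (2 * (m * ℓ) + 1)]
  congr 1
  push_cast
  ring

end quot

end Pool.Agent.P.MP_d3a22b_lc
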