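import Mathlib

/-!
Characters of abelian groups, and some commutative algebra of integral group rings.
-/

set_option autoImplicit false

open Set

namespace Pool.Agent.P.MP_d3a22b_lc

theorem exists_char_ne_one {Q : Type} [CommGroup Q] {q : Q} (hq : q ≠ 1) :
    ∃ χ : Q →* ℂ, χ q ≠ 1 := by
  obtain ⟨c, hc⟩ := CharacterModule.exists_character_apply_ne_zero_of_ne_zero
    (A := Additive Q) (a := Additive.ofMul q) hq
  let j : AddCircle (1 : ℚ) →+ AddCircle (1 : ℝ) :=
    QuotientAddGroup.map _ _ (Rat.castHom ℝ).toAddMonoidHom (by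
      rw [AddSubgroup.zmultiples_le]
      exact ⟨1, by simp⟩)
  have hj : ∀ x, j x = 0 → x = 0 := by
    intro x hx
    obtain ⟨x, rfl⟩ := QuotientAddGroup.mk_surjective x
    have h1 : ((x : ℝ) : AddCircle (1 : ℝ)) = 0 := hx
    rw [AddCircle.coe_eq_zero_iff] at h1 ⊢
    obtain ⟨n, hn⟩ := h1
    refine ⟨n, ?_⟩
    simp only [zsmul_eq_mul, mul_one] at hn ⊢
    exact_mod_cast hn
  let χ : Q →* ℂ :=
    { toFun := fun x => (AddCircle.toCircle (j (c (Additive.ofMul x))) : ℂ)
      map_one' := by simp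
      map_mul' := fun x y => by simp [AddCircle.toCircle_add] }
  refine ⟨χ, fun h => hc (hj _ ?_)⟩
  apply AddCircle.injective_toCircle one_ne_zero
  rw [AddCircle.toCircle_zero]
  exact Subtype.ext h

theorem exists_char_of_notMem {Q : Type} [CommGroup Q] (H : Subgroup Q) {q : Q} (hq : q ∉ H) :
    ∃ χ : Q →* ℂ, χ q ≠ 1 ∧ ∀ h ∈ H, χ h = 1 := by
  obtain ⟨χ, hχ⟩ := exists_char_ne_one (Q := Q ⧸ H) (q := q)
    (fun h => hq ((QuotientGroup.eq_one_iff q).1 h))
  refine ⟨χ.comp (QuotientGroup.mk' H), hχ, fun h hh => ?_⟩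
  simp [(QuotientGroup.eq_one_iff h).2 hh]

/-- The ring homomorphism attached to a character. -/
noncomputable abbrev ev {Q : Type} [CommGroup Q] (χ : Q →* ℂ) : MonoidAlgebra ℤ Q →ₐ[ℤ] ℂ :=
  MonoidAlgebra.lift ℤ ℂ Q χ

theorem eq_zero_of_forall_char {Q : Type} [CommGroup Q] {s : MonoidAlgebra ℤ Q}
    (h : ∀ χ : Q →* ℂ, ev χ s = 0) : s = 0 := by
  let E : Q → ((Q →* ℂ) →* ℂ) := fun q =>
    { toFun := fun χ => χ q, map_one' := rfl, map_mul' := fun _ _ => rfl }
  have hE : Function.Injective E := by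
    intro a b hab
    by_contra hne
    obtain ⟨χ, hχ⟩ := exists_char_ne_one (q := a * b⁻¹) (fun h => hne (mul_inv_eq_one.1 h))
    have h1 : χ a = χ b := congrArg (fun f : (Q →* ℂ) →* ℂ => f χ) hab
    apply hχ
    rw [map_mul, h1, ← map_mul, mul_inv_cancel, map_one]
  have hli := ((linearIndependent_monoidHom (Q →* ℂ) ℂ).comp E hE).restrict_scalars' ℤ
  have := linearIndependent_iff.1 hli s.coeff (by
    ext χ
    have := h χ
    rw [MonoidAlgebra.lift_apply] at this
    rw [Finsupp.linearCombination_apply, Finsupp.sum, Finset.sum_apply]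
    exact this)
  exact MonoidAlgebra.coeff_eq_zero.1 this

/-- `q - 1` is a non-zero-divisor when `q` has infinite order. -/
theorem eq_zero_of_sub_one_mul {Q : Type} [CommGroup Q] {q : Q} (hq : ¬ IsOfFinOrder q)
    {ρ : MonoidAlgebra ℤ Q} (h : (MonoidAlgebra.of ℤ Q q - 1) * ρ = 0) : ρ = 0 := by
  by_contra hne
  obtain ⟨x, hx⟩ := Finsupp.support_nonempty_iff.2 (mt MonoidAlgebra.coeff_eq_zero.1 hne)
  have h1 : ∀ y, ρ.coeff (q * y) = ρ.coeff y := by
    intro y
    rw [sub_mul, one_mul, sub_eq_zero] at h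
    conv_lhs => rw [← h]
    simp [MonoidAlgebra.coeff_single_mul_apply]
  have h2 : ∀ k : ℕ, q ^ k * x ∈ ρ.coeff.support := by
    intro k
    induction k with
    | zero => simpa using hx
    | succ k ih =>
      rw [pow_succ', mul_assoc, Finsupp.mem_support_iff, h1]
      exact Finsupp.mem_support_iff.1 ih
  have h3 : Function.Injective fun k : ℕ => q ^ k * x := fun a b hab =>
    (injective_pow_iff_not_isOfFinOrder.2 hq) (mul_right_cancel hab)
  exact Set.infinite_of_injective_forall_mem h3 h2 (Finset.finite_toSet _)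

theorem mem_span_of_mapDomain_eq_zero {Q : Type} [CommGroup Q] (u : Q) {ρ : MonoidAlgebra ℤ Q}
    (h : MonoidAlgebra.mapDomainRingHom ℤ (QuotientGroup.mk' (Subgroup.zpowers u)) ρ = 0) :
    ρ ∈ Ideal.span {MonoidAlgebra.of ℤ Q u - 1} := by
  let I : Ideal (MonoidAlgebra ℤ Q) := Ideal.span {MonoidAlgebra.of ℤ Q u - 1}
  let φ : Q →* MonoidAlgebra ℤ Q ⧸ I :=
    (Ideal.Quotient.mk I).toMonoidHom.comp (MonoidAlgebra.of ℤ Q)
  have hu : φ.toHomUnits u = 1 := by
    ext
    change Ideal.Quotient.mk I (MonoidAlgebra.of ℤ Q u) = Ideal.Quotient.mk I 1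
    exact Ideal.Quotient.eq.2 (Ideal.mem_span_singleton_self _)
  let ψ : Q ⧸ Subgroup.zpowers u →* (MonoidAlgebra ℤ Q ⧸ I)ˣ :=
    QuotientGroup.lift _ φ.toHomUnits (by
      rw [Subgroup.zpowers_le]
      exact hu)
  let Ψ := MonoidAlgebra.lift ℤ (MonoidAlgebra ℤ Q ⧸ I) _ ((Units.coeHom _).comp ψ)
  have key : Ψ.toRingHom.comp
      (MonoidAlgebra.mapDomainRingHom ℤ (QuotientGroup.mk' (Subgroup.zpowers u))) =
      Ideal.Quotient.mk I := by
    apply MonoidAlgebra.ringHom_ext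
    · intro r
      exact RingHom.congr_fun (RingHom.ext_int ((Ψ.toRingHom.comp
        (MonoidAlgebra.mapDomainRingHom ℤ (QuotientGroup.mk' (Subgroup.zpowers u)))).comp
        MonoidAlgebra.singleOneRingHom) ((Ideal.Quotient.mk I).comp
        MonoidAlgebra.singleOneRingHom)) r
    · intro q
      simp [Ψ, ψ, φ]
  rw [← Ideal.Quotient.eq_zero_iff_mem, ← key, RingHom.comp_apply, h, map_zero]

/-- Two elements of an abelian group are independent. -/
def Indep {Q : Type} [CommGroup Q] (u w : Q) : Prop :=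
  ∀ i j : ℤ, u ^ i * w ^ j = 1 → i = 0 ∧ j = 0

theorem Indep.symm {Q : Type} [CommGroup Q] {u w : Q} (h : Indep u w) : Indep w u :=
  fun i j hij => (h j i (by rw [mul_comm, hij])).symm

theorem Indep.not_isOfFinOrder {Q : Type} [CommGroup Q] {u w : Q} (h : Indep u w) :
    ¬ IsOfFinOrder u := by
  rw [isOfFinOrder_iff_zpow_eq_one]
  rintro ⟨k, hk, h1⟩
  exact hk (h k 0 (by simp [h1])).1

/-- For independent `u, w` the sequence `u - 1, w - 1` is regular. -/
theorem Indep.regular {Q : Type} [CommGroup Q] {u w : Q} (h : Indep u w)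
    {ρ σ : MonoidAlgebra ℤ Q}
    (e : (MonoidAlgebra.of ℤ Q w - 1) * ρ = (MonoidAlgebra.of ℤ Q u - 1) * σ) :
    ∃ ρ', ρ = (MonoidAlgebra.of ℤ Q u - 1) * ρ' := by
  let π := QuotientGroup.mk' (Subgroup.zpowers u)
  have hw : ¬ IsOfFinOrder (π w) := by
    rw [isOfFinOrder_iff_zpow_eq_one]
    rintro ⟨k, hk, h1⟩
    rw [← map_zpow, QuotientGroup.mk'_apply, QuotientGroup.eq_one_iff] at h1
    obtain ⟨i, hi⟩ := h1
    exact hk (h (-i) k (by simp only at hi; rw [← hi, zpow_neg, inv_mul_cancel])).2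
  have hu : π u = 1 := (QuotientGroup.eq_one_iff u).2 (Subgroup.mem_zpowers u)
  have h1 := congrArg (MonoidAlgebra.mapDomainRingHom ℤ π) e
  simp only [map_mul, map_sub, map_one, MonoidAlgebra.of_apply,
    MonoidAlgebra.mapDomainRingHom_apply, MonoidAlgebra.mapDomain_single, hu] at h1
  rw [← MonoidAlgebra.one_def, sub_self, zero_mul] at h1
  have h2 := eq_zero_of_sub_one_mul hw h1
  obtain ⟨a, ha⟩ := Ideal.mem_span_singleton'.1 (mem_span_of_mapDomain_eq_zero u h2)
  exact ⟨a, by rw [← ha, mul_comm]⟩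

theorem exists_zpow_sub_one {Q : Type} [CommGroup Q] (q : Q) (k : ℤ) :
    ∃ c, MonoidAlgebra.of ℤ Q (q ^ k) - 1 = (MonoidAlgebra.of ℤ Q q - 1) * c := by
  have h : MonoidAlgebra.of ℤ Q (q ^ k) - 1 ∈ Ideal.span {MonoidAlgebra.of ℤ Q q - 1} := by
    apply mem_span_of_mapDomain_eq_zero
    have : (QuotientGroup.mk' (Subgroup.zpowers q)) (q ^ k) = 1 :=
      (QuotientGroup.eq_one_iff _).2 ⟨k, rfl⟩
    simp only [map_sub, map_one, MonoidAlgebra.of_apply,
      MonoidAlgebra.mapDomainRingHom_apply, MonoidAlgebra.mapDomain_single, this]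
    rw [← MonoidAlgebra.one_def, sub_self]
  obtain ⟨a, ha⟩ := Ideal.mem_span_singleton'.1 h
  exact ⟨a, by rw [← ha, mul_comm]⟩

/-- Cyclic subgroups are detected on a faithful finite module. -/
theorem mem_zpowers_iff_of_faithful {Q : Type} [CommGroup Q] {A : Type} [AddCommGroup A]
    [Module (MonoidAlgebra ℤ Q) A] [Module.Finite (MonoidAlgebra ℤ Q) A]
    (hA : ∀ s : MonoidAlgebra ℤ Q, (∀ a : A, s • a = 0) → s = 0) (q q' : Q) :
    q' ∈ Subgroup.zpowers q ↔ ∀ a : A, ∃ b : A,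
      (MonoidAlgebra.of ℤ Q q' - 1) • a = (MonoidAlgebra.of ℤ Q q - 1) • b := by
  constructor
  · rintro ⟨k, rfl⟩ a
    obtain ⟨c, hc⟩ := exists_zpow_sub_one q k
    exact ⟨c • a, by simp only; rw [hc, mul_smul]⟩
  · intro h
    by_contra hq
    obtain ⟨χ, h1, h2⟩ := exists_char_of_notMem _ hq
    let R := MonoidAlgebra ℤ Q
    let P : PrimeSpectrum R := ⟨RingHom.ker (ev χ).toRingHom, RingHom.ker_isPrime _⟩
    let I : Ideal R := Ideal.span {MonoidAlgebra.of ℤ Q q - 1}
    have hP : P ∈ Module.support R (A ⧸ (I • ⊤ : Submodule R A)) := by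
      rw [Module.support_quotient]
      refine ⟨Module.mem_support_iff_of_finite.2 fun s hs => ?_, ?_⟩
      · rw [hA s (Module.mem_annihilator.1 hs)]
        exact zero_mem _
      · rw [PrimeSpectrum.mem_zeroLocus, SetLike.coe_subset_coe, Ideal.span_le,
          singleton_subset_iff]
        change ev χ _ = 0
        simp [h2 q (Subgroup.mem_zpowers q)]
    have h3 : MonoidAlgebra.of ℤ Q q' - 1 ∈ P.asIdeal := by
      apply Module.annihilator_le_of_mem_support hP
      rw [Module.mem_annihilator]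
      intro a
      obtain ⟨a, rfl⟩ := Submodule.Quotient.mk_surjective _ a
      obtain ⟨b, hb⟩ := h a
      rw [← Submodule.Quotient.mk_smul, hb, Submodule.Quotient.mk_eq_zero]
      exact Submodule.smul_mem_smul (Ideal.mem_span_singleton_self _) Submodule.mem_top
    have h4 : ev χ (MonoidAlgebra.of ℤ Q q' - 1) = 0 := h3
    apply h1
    simpa [sub_eq_zero] using h4

theorem isJacobsonRing_int : IsJacobsonRing ℤ := by
  rw [isJacobsonRing_iff_prime_eq]
  intro P hP
  by_cases h : P = ⊥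
  · subst h
    rw [eq_bot_iff]
    intro x hx
    by_contra hx0
    have hx0 : x ≠ 0 := hx0
    obtain ⟨p, hp1, hp⟩ := Nat.exists_infinite_primes (x.natAbs + 1)
    have hmax : (Ideal.span {(p : ℤ)}).IsMaximal :=
      PrincipalIdealRing.isMaximal_of_irreducible (Nat.prime_iff_prime_int.1 hp).irreducible
    have h1 : x ∈ Ideal.span {(p : ℤ)} := Ideal.mem_sInf.1 hx ⟨bot_le, hmax⟩
    have h2 := Int.natAbs_le_of_dvd_ne_zero (Ideal.mem_span_singleton.1 h1) hx0
    simp only [Int.natAbs_natCast] at h2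
    omega
  · have := IsPrime.to_maximal_ideal h
    exact Ideal.jacobson_eq_self_of_isMaximal

theorem finite_quotient_of_isMaximal {R : Type} [CommRing R] [Algebra.FiniteType ℤ R]
    (m : Ideal R) [m.IsMaximal] : Finite (R ⧸ m) := by
  have := isJacobsonRing_int
  let _ := Ideal.Quotient.field m
  have hfin : Module.Finite ℤ (R ⧸ m) := finite_of_finite_type_of_isJacobsonRing ℤ (R ⧸ m)
  apply Module.finite_of_fg_torsion
  have hinj : ¬ Function.Injective (algebraMap ℤ (R ⧸ m)) := fun hinj =>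
    Int.not_isField ((Algebra.IsIntegral.isField_iff_isField hinj).2 (Field.toIsField _))
  rw [injective_iff_map_eq_zero] at hinj
  push Not at hinj
  obtain ⟨d, hd, hd0⟩ := hinj
  intro x
  exact ⟨⟨d, mem_nonZeroDivisors_of_ne_zero hd0⟩, by
    change d • x = 0
    rw [Algebra.smul_def, hd, zero_mul]⟩

/-- An element of `(x ^ M - 1) A` for all `M ≥ 1` is zero. -/
theorem eq_zero_of_forall_pow_sub_one {R : Type} [CommRing R] [Algebra.FiniteType ℤ R]
    {A : Type} [AddCommGroup A] [Module R A] [Module.Finite R A] {x : R} (hx : IsUnit x) {a : A}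
    (h : ∀ M : ℕ, 0 < M → ∃ c : A, a = (x ^ M - 1) • c) : a = 0 := by
  have hN : IsNoetherianRing R := Algebra.FiniteType.isNoetherianRing ℤ R
  by_contra ha
  obtain ⟨m, hm, hle⟩ := Ideal.exists_le_maximal (Submodule.colon (⊥ : Submodule R A) {a}) (by
    rw [Ne, Ideal.eq_top_iff_one, Submodule.mem_colon_singleton]
    simpa using ha)
  have hfin := finite_quotient_of_isMaximal m
  have h1 : a ∈ (⨅ i : ℕ, m ^ i • ⊤ : Submodule R A) := by
    rw [Submodule.mem_iInf]
    intro i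
    have := Ideal.finite_quotient_pow (IsNoetherian.noetherian m) i
    obtain ⟨u, hu⟩ := hx.map (Ideal.Quotient.mk (m ^ i))
    obtain ⟨M, hM, hu1⟩ := isOfFinOrder_iff_pow_eq_one.1 (isOfFinOrder_of_finite u)
    obtain ⟨c, rfl⟩ := h M hM
    refine Submodule.smul_mem_smul ?_ Submodule.mem_top
    rw [← Ideal.Quotient.eq, map_pow, ← hu, ← Units.val_pow_eq_pow_val, hu1, map_one,
      Units.val_one]
  obtain ⟨r, hr⟩ := (Ideal.mem_iInf_smul_pow_eq_bot_iff m a).1 h1
  have h2 : 1 - (r : R) ∈ m := hle (by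
    rw [Submodule.mem_colon_singleton, sub_smul, one_smul, hr, sub_self]
    exact zero_mem _)
  exact hm.ne_top ((Ideal.eq_top_iff_one m).2 (by simpa using add_mem h2 r.2))

theorem Indep.mul_zpow {Q : Type} [CommGroup Q] {x y : Q} (h : Indep x y) {j j' : ℤ}
    (hj : j ≠ j') {M M' : ℤ} (hM : M ≠ 0) (hM' : M' ≠ 0) :
    Indep ((x * y ^ j) ^ M) ((x * y ^ j') ^ M') := by
  intro a b hab
  have h1 := h (M * a + M' * b) (j * M * a + j' * M' * b) (by
    rw [← hab]
    simp only [_root_.mul_zpow, ← zpow_mul, zpow_add]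
    simp only [mul_assoc, mul_comm, mul_left_comm])
  have h2 : (j - j') * (M * a) = 0 := by linear_combination h1.2 - j' * h1.1
  have h3 : M * a = 0 := (mul_eq_zero.1 h2).resolve_left (sub_ne_zero.2 hj)
  have h4 : M' * b = 0 := by linear_combination h1.1 - h3
  exact ⟨(mul_eq_zero.1 h3).resolve_left hM, (mul_eq_zero.1 h4).resolve_left hM'⟩

/-- There is a group element all of whose powers act without fixed points. -/
theorem exists_regular_element {Q : Type} [CommGroup Q] [Monoid.FG Q] {A : Type}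
    [AddCommGroup A] [Module (MonoidAlgebra ℤ Q) A] [Module.Finite (MonoidAlgebra ℤ Q) A]
    (hA : ∀ u w : Q, Indep u w → ∀ a : A, (MonoidAlgebra.of ℤ Q u - 1) • a = 0 →
      (MonoidAlgebra.of ℤ Q w - 1) • a = 0 → a = 0) {x y : Q} (hxy : Indep x y) :
    ∃ z : Q, ∀ M : ℕ, 0 < M → ∀ a : A, (MonoidAlgebra.of ℤ Q z ^ M - 1) • a = 0 → a = 0 := by
  let R := MonoidAlgebra ℤ Q
  have hN : IsNoetherianRing R := Algebra.FiniteType.isNoetherianRing ℤ R
  by_contra hcon
  push Not at hcon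
  have h1 : ∀ j : ℤ, ∃ P ∈ associatedPrimes R A, ∃ M : ℕ, 0 < M ∧
      MonoidAlgebra.of ℤ Q ((x * y ^ j) ^ (M : ℤ)) - 1 ∈ P := by
    intro j
    obtain ⟨M, hM, a, h0, ha⟩ := hcon (x * y ^ j)
    have : MonoidAlgebra.of ℤ Q (x * y ^ j) ^ M - 1 ∈ ⋃ p ∈ associatedPrimes R A, (p : Set R) := by
      rw [biUnion_associatedPrimes_eq_zero_divisors]
      exact ⟨a, ha, h0⟩
    obtain ⟨P, hP, hm⟩ := mem_iUnion₂.1 this
    exact ⟨P, hP, M, hM, by rw [zpow_natCast, map_pow]; exact hm⟩
  choose P hP M hM hm using h1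
  obtain ⟨j, -, j', -, hjj, hPP⟩ := Set.infinite_univ.exists_ne_map_eq_of_mapsTo
    (f := P) (fun j _ => hP j) (associatedPrimes.finite R A)
  obtain ⟨hprime, a, ha⟩ := isAssociatedPrime_iff.1 (hP j)
  have ha0 : a = 0 := by
    refine hA _ _ (hxy.mul_zpow hjj (M := M j) (M' := M j') (by have := hM j; omega)
      (by have := hM j'; omega)) a ?_ ?_
    · have := hm j
      rw [ha, Submodule.mem_colon_singleton] at this
      exact this
    · have := hm j'
      rw [← hPP, ha, Submodule.mem_colon_singleton] at this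
      exact this
  apply hprime.ne_top
  rw [ha, ha0, Ideal.eq_top_iff_one, Submodule.mem_colon_singleton]
  simp

end Pool.Agent.P.MP_d3a22b_lc
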