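import Mathlib

/-!
A sum-product estimate for multiplicative maps of a finite field.
-/

set_option autoImplicit false
set_option linter.unusedSectionVars false

open Finset
open scoped Pointwise

namespace Pool.Agent.P.MP_d3a22b_lc

theorem card_mul_le_of_fibers {α β : Type} [DecidableEq α] (s : Finset α) (t : Finset β)
    (g : β → α) (k c : ℕ) (h : ∀ z ∈ s, k ≤ c * #(t.filter fun b => g b = z)) :
    #s * k ≤ c * #t := by
  calc #s * k = ∑ _z ∈ s, k := by simp
    _ ≤ ∑ z ∈ s, c * #(t.filter fun b => g b = z) := sum_le_sum h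
    _ = c * #(t.filter fun b => g b ∈ s) := by
      rw [← mul_sum, sum_card_fiberwise_eq_card_filter]
    _ ≤ c * #t := Nat.mul_le_mul_left _ (card_filter_le _ _)

theorem mul_card_le_of_fibers {α β : Type} [DecidableEq α] (s : Finset α) (t : Finset β)
    (g : β → α) (k c : ℕ) (hg : ∀ b ∈ t, g b ∈ s)
    (h : ∀ z, c * #(t.filter fun b => g b = z) ≤ k) : c * #t ≤ #s * k := by
  rw [card_eq_sum_card_fiberwise hg, mul_sum]
  exact (sum_le_sum fun z _ => h z).trans (by simp)

section good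

variable {R : Type} [CommRing R] [DecidableEq R]

/-- The dilate of `X` by `l` is additively close to `X`. -/
def Good (X : Finset R) (K k : ℕ) (l : R) : Prop := #(X - l • X) ≤ K ^ k * #X

variable {X : Finset R} {K k k' : ℕ} {l l' : R}

theorem Good.mono (h : Good X K k l) (hK : 3 ≤ K) (hk : k ≤ k') : Good X K k' l :=
  h.trans (Nat.mul_le_mul_right _ (Nat.pow_le_pow_right (by omega) hk))

theorem card_smul_of_isUnit (hl : IsUnit l) (Y : Finset R) : #(l • Y) = #Y :=
  card_image_of_injective _ hl.mul_right_injective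

theorem smul_sub_smul (l : R) (Y Z : Finset R) : l • Y - l • Z = l • (Y - Z) := by
  ext x
  simp only [mem_sub, mem_smul_finset, smul_eq_mul]
  constructor
  · rintro ⟨_, ⟨y, hy, rfl⟩, _, ⟨z, hz, rfl⟩, rfl⟩
    exact ⟨_, ⟨y, hy, z, hz, rfl⟩, mul_sub _ _ _⟩
  · rintro ⟨_, ⟨y, hy, z, hz, rfl⟩, rfl⟩
    exact ⟨_, ⟨y, hy, rfl⟩, _, ⟨z, hz, rfl⟩, (mul_sub _ _ _).symm⟩

theorem card_sub_comm (Y Z : Finset R) : #(Y - Z) = #(Z - Y) := by
  rw [← card_neg, neg_sub]

theorem Good.mul (hX : X.Nonempty) (h : Good X K k l) (h' : Good X K k' l') (hl : IsUnit l) :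
    Good X K (k + k') (l * l') := by
  have h1 := ruzsa_triangle_inequality_sub_sub_sub X (l • X) ((l * l') • X)
  rw [card_smul_of_isUnit hl, mul_smul, smul_sub_smul, card_smul_of_isUnit hl,
    card_sub_comm (l' • X), ← mul_smul] at h1
  refine Nat.le_of_mul_le_mul_right (h1.trans ?_) hX.card_pos
  calc _ ≤ K ^ k * #X * (K ^ k' * #X) := Nat.mul_le_mul h h'
    _ = _ := by ring

theorem Good.inv (h : Good X K k l) (hl : l' * l = 1) : Good X K k l' := by
  have h1 : IsUnit l' := IsUnit.of_mul_eq_one _ hl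
  unfold Good at h ⊢
  rwa [← card_smul_of_isUnit h1, ← smul_sub_smul, ← mul_smul, hl, one_smul, card_sub_comm] at h

theorem Good.sub (hX : X.Nonempty) (hK : 3 ≤ K) (h1 : Good X K k 1) (h : Good X K k l)
    (h' : Good X K k l') : Good X K (3 * k + 3) (l - l') := by
  let B := X ∪ (l • X ∪ l' • X)
  have h2 : #(X - B) ≤ K ^ (k + 1) * #X := by
    unfold Good at h1 h h'
    rw [one_smul] at h1
    simp only [B, sub_union]
    have := card_union_le (X - X) (X - l • X ∪ (X - l' • X))
    have := card_union_le (X - l • X) (X - l' • X)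
    calc _ ≤ 3 * (K ^ k * #X) := by omega
      _ ≤ K * (K ^ k * #X) := Nat.mul_le_mul_right _ hK
      _ = _ := by ring
  have h3 : X - (l - l') • X ⊆ 2 • B - 1 • B := by
    intro x hx
    simp only [mem_sub, mem_smul_finset, smul_eq_mul] at hx
    obtain ⟨y, hy, _, ⟨z, hz, rfl⟩, rfl⟩ := hx
    rw [two_nsmul, one_nsmul, show y - (l - l') * z = y + l' * z - l * z by ring]
    refine sub_mem_sub (add_mem_add (mem_union_left _ hy) ?_) ?_
    · exact mem_union_right _ (mem_union_right _ (smul_mem_smul_finset hz))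
    · exact mem_union_right _ (mem_union_left _ (smul_mem_smul_finset hz))
  have h4 := pluennecke_ruzsa_inequality_nsmul_sub_nsmul_sub hX B 2 1
  have h5 : (#(X - B) / #X : ℚ≥0) ≤ (K ^ (k + 1) : ℕ) := by
    rw [div_le_iff₀ (by exact_mod_cast hX.card_pos)]
    exact_mod_cast h2
  have h6 : (#(2 • B - 1 • B) : ℚ≥0) ≤ ((K ^ (k + 1) : ℕ) : ℚ≥0) ^ (2 + 1) * #X :=
    h4.trans (by gcongr)
  have h7 : #(2 • B - 1 • B) ≤ (K ^ (k + 1)) ^ (2 + 1) * #X := by exact_mod_cast h6
  refine (card_le_card h3).trans (h7.trans (le_of_eq ?_))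
  ring

end good

section field

variable {F : Type} [Field F] [Fintype F] [DecidableEq F]

/-- The units at which `f` commutes with subtracting one. -/
def tset (f : F →*₀ F) : Finset Fˣ := univ.filter fun g => f ((g : F) - 1) = f g - 1

theorem map_sub_of_mem_tset {f : F →*₀ F} {a c : Fˣ} (h : a / c ∈ tset f) :
    f (a - c) = f a - f c := by
  have h1 := congrArg (· * f c) (mem_filter.1 h).2
  simp only [sub_mul, ← map_mul, one_mul, ← Units.val_mul, div_mul_cancel] at h1
  exact h1

/-- The graph of `f`. -/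
def gr (f : F →*₀ F) (x : F) : F × F := (x, f x)

theorem gr_mul (f : F →*₀ F) (x y : F) : gr f (x * y) = gr f x * gr f y :=
  Prod.ext rfl (map_mul f x y)

theorem bsg (f : F →*₀ F) {L : ℕ} (hL : Fintype.card Fˣ ≤ #(tset f) * L) :
    ∃ A : Finset Fˣ, #(tset f) ≤ 2 * #A ∧
      #(A.image (fun a : Fˣ => gr f a) - A.image (fun a : Fˣ => gr f a)) ≤ 4096 * L ^ 6 * #A := by
  set T := tset f with hT
  set m := Fintype.card Fˣ with hm
  have hm0 : 0 < m := Fintype.card_pos
  have hN : 0 < #T := Nat.pos_of_mul_pos_right (hm0.trans_le hL)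
  have hq : Fintype.card F ≤ 2 * m := by
    have := Fintype.card_units F
    have := Fintype.one_lt_card (α := F)
    omega
  let S : Fˣ → Prop := fun h => #T ^ 2 ≤ 8 * m * #(T.filter fun c => h * c ∈ T)
  let D := ((univ : Finset (Fˣ × Fˣ)).filter fun p => S (p.1 / p.2)).image
    fun p => gr f p.1 - gr f p.2
  have h1 : #D * #T ^ 2 ≤ 8 * m * #(univ : Finset (F × F)) := by
    refine card_mul_le_of_fibers _ _ (fun p => gr f p.1 - gr f p.2) _ _ fun z hz => ?_
    obtain ⟨⟨a, b⟩, hab, rfl⟩ := mem_image.1 hz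
    refine (mem_filter.1 hab).2.trans (Nat.mul_le_mul_left _ ?_)
    refine card_le_card_of_injOn (fun t => ((a : F) - (b / t : Fˣ), (b : F) - (b / t : Fˣ)))
      (fun t ht => ?_) fun t _ t' _ h => ?_
    · obtain ⟨ht1, ht2⟩ := mem_filter.1 (mem_coe.1 ht)
      have e1 := map_sub_of_mem_tset (f := f) (a := a) (c := b / t)
        (by rwa [div_div_eq_mul_div, mul_div_right_comm])
      have e2 := map_sub_of_mem_tset (f := f) (a := b) (c := b / t) (by rwa [div_div_cancel])
      refine mem_coe.2 (mem_filter.2 ⟨mem_univ _, ?_⟩)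
      simp only [gr, e1, e2, Prod.mk_sub_mk, sub_sub_sub_cancel_right]
    · exact div_right_injective (Units.ext (sub_right_injective (Prod.ext_iff.1 h).1))
  have h2 : #D ≤ 32 * L ^ 3 * #T := by
    refine Nat.le_of_mul_le_mul_right (h1.trans ?_) (pow_pos hN 2)
    rw [card_univ, Fintype.card_prod]
    calc _ ≤ 8 * m * ((2 * m) * (2 * m)) := by gcongr
      _ = 32 * m ^ 3 := by ring
      _ ≤ 32 * (#T * L) ^ 3 := by gcongr
      _ = _ := by ring
  let B := (T ×ˢ T).filter fun p => ¬ S (p.1 / p.2)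
  have h3 : 8 * #B ≤ #T ^ 2 := by
    have := mul_card_le_of_fibers univ B (fun p => p.1 / p.2) (#T ^ 2) (8 * m)
      (fun _ _ => mem_univ _) fun h => by
        by_cases hS : S h
        · rw [filter_false_of_mem]
          · simp
          · rintro p hp rfl
            exact (mem_filter.1 hp).2 hS
        · refine le_trans (Nat.mul_le_mul_left _ ?_) (not_le.1 hS).le
          refine card_le_card_of_injOn Prod.snd (fun p hp => ?_) fun p hp p' hp' e => ?_
          · obtain ⟨hp1, rfl⟩ := mem_filter.1 (mem_coe.1 hp)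
            simpa [and_comm] using (mem_filter.1 hp1).1
          · have := (mem_filter.1 (mem_coe.1 hp)).2.trans (mem_filter.1 (mem_coe.1 hp')).2.symm
            exact Prod.ext (by simpa [e] using this) e
    rw [card_univ, ← hm] at this
    exact Nat.le_of_mul_le_mul_left (by linarith) hm0
  let A := T.filter fun a => 4 * #(T.filter fun c => ¬ S (a / c)) ≤ #T
  have h4 : #T ≤ 2 * #A := by
    have := card_mul_le_of_fibers (T.filter fun a => ¬ 4 * #(T.filter fun c => ¬ S (a / c)) ≤ #T)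
      B Prod.fst #T 4 fun a ha => by
        obtain ⟨ha1, ha2⟩ := mem_filter.1 ha
        refine (not_le.1 ha2).le.trans (Nat.mul_le_mul_left _ ?_)
        refine card_le_card_of_injOn (fun c => (a, c)) (fun c hc => ?_) fun c _ c' _ e => ?_
        · simpa [B, ha1] using hc
        · simpa using e
    have h5 := card_filter_add_card_filter_not (s := T)
      fun a => 4 * #(T.filter fun c => ¬ S (a / c)) ≤ #T
    have h6 : 2 * #(T.filter fun a => ¬ 4 * #(T.filter fun c => ¬ S (a / c)) ≤ #T) ≤ #T :=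
      Nat.le_of_mul_le_mul_right (by nlinarith) hN
    simp only [A]
    omega
  refine ⟨A, h4, ?_⟩
  have h5 := card_mul_le_of_fibers
    (A.image (fun a : Fˣ => gr f a) - A.image (fun a : Fˣ => gr f a)) (D ×ˢ D)
    (fun p => p.1 - p.2) #T 2 fun z hz => by
      obtain ⟨_, hx, _, hy, rfl⟩ := mem_sub.1 hz
      obtain ⟨a, ha, rfl⟩ := mem_image.1 hx
      obtain ⟨b, hb, rfl⟩ := mem_image.1 hy
      have e1 := (mem_filter.1 ha).2
      have e2 := (mem_filter.1 hb).2
      have e3 := card_filter_add_card_filter_not (s := T) fun c => S (a / c) ∧ S (b / c)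
      have e4 : #(T.filter fun c => ¬ (S (a / c) ∧ S (b / c))) ≤
          #(T.filter fun c => ¬ S (a / c)) + #(T.filter fun c => ¬ S (b / c)) := by
        simp only [not_and_or, filter_or]
        exact card_union_le _ _
      refine le_trans (by omega : _ ≤ 2 * #(T.filter fun c => S (a / c) ∧ S (b / c)))
        (Nat.mul_le_mul_left _ ?_)
      refine card_le_card_of_injOn (fun c : Fˣ => (gr f a - gr f c, gr f b - gr f c))
        (fun c hc => ?_) fun c _ c' _ e => ?_
      · obtain ⟨-, hc1, hc2⟩ := mem_filter.1 (mem_coe.1 hc)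
        refine mem_coe.2 (mem_filter.2 ⟨mem_product.2 ⟨?_, ?_⟩, sub_sub_sub_cancel_right _ _ _⟩)
        · exact mem_image.2 ⟨(a, c), mem_filter.2 ⟨mem_univ _, hc1⟩, rfl⟩
        · exact mem_image.2 ⟨(b, c), mem_filter.2 ⟨mem_univ _, hc2⟩, rfl⟩
      · exact Units.ext (by simpa [gr] using congrArg (fun p => p.1.1) e)
  refine Nat.le_of_mul_le_mul_right (h5.trans ?_) hN
  rw [card_product]
  calc _ ≤ 2 * ((32 * L ^ 3 * #T) * (32 * L ^ 3 * #T)) := by gcongr
    _ = 2048 * L ^ 6 * #T * #T := by ring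
    _ ≤ 2048 * L ^ 6 * (2 * #A) * #T := by gcongr
    _ = _ := by ring

theorem Good.card_image_le {f : F →*₀ F} {A : Finset Fˣ} (hA : A.Nonempty) {K k : ℕ} {l : F × F}
    (h : Good (A.image fun a : Fˣ => gr f a) K k l) (h0 : l ≠ 0) (h1 : l.1 = 0 ∨ l.2 = 0) :
    #(A.image fun a : Fˣ => f a) ≤ K ^ k := by
  have hX : #(A.image fun a : Fˣ => gr f a) = #A :=
    card_image_of_injective _ fun a b e => Units.ext (congrArg Prod.fst e)
  have hm : ∀ a ∈ A, ∀ b ∈ A, gr f a - l * gr f b ∈
      A.image (fun a : Fˣ => gr f a) - l • A.image fun a : Fˣ => gr f a := fun a ha b hb =>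
    sub_mem_sub (mem_image_of_mem _ ha) (smul_mem_smul_finset (mem_image_of_mem _ hb))
  unfold Good at h
  rw [hX] at h
  refine Nat.le_of_mul_le_mul_right (le_trans ?_ h) hA.card_pos
  rcases h1 with h1 | h1
  · have h2 : l.2 ≠ 0 := fun h2 => h0 (Prod.ext h1 h2)
    rw [mul_comm, ← card_image_of_injective A Units.val_injective]
    refine (card_mul_le_of_fibers _ _ Prod.fst _ 1 fun z hz => ?_).trans_eq (one_mul _)
    obtain ⟨a, ha, rfl⟩ := mem_image.1 hz
    rw [one_mul]
    refine card_le_card_of_injOn (fun y => ((a : F), f a - l.2 * y)) (fun y hy => ?_)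
      fun y _ y' _ e => mul_left_cancel₀ h2 (sub_right_injective (congrArg Prod.snd e))
    obtain ⟨b, hb, rfl⟩ := mem_image.1 (mem_coe.1 hy)
    refine mem_coe.2 (mem_filter.2 ⟨?_, rfl⟩)
    convert hm a ha b hb using 1
    simp [gr, Prod.ext_iff, h1]
  · have h2 : l.1 ≠ 0 := fun h2 => h0 (Prod.ext h2 h1)
    refine (card_mul_le_of_fibers _ _ Prod.snd _ 1 fun z hz => ?_).trans_eq (one_mul _)
    obtain ⟨a, ha, rfl⟩ := mem_image.1 hz
    rw [one_mul]
    refine card_le_card_of_injOn (fun b : Fˣ => ((a : F) - l.1 * b, f a)) (fun b hb => ?_)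
      fun y _ y' _ e => Units.ext (mul_left_cancel₀ h2 (sub_right_injective (congrArg Prod.fst e)))
    refine mem_coe.2 (mem_filter.2 ⟨?_, rfl⟩)
    convert hm a ha b hb using 1
    simp [gr, Prod.ext_iff, h1]

theorem exists_ringHom_of_good (G : ℕ → F × F → Prop) (f : F →*₀ F) (S : Finset Fˣ)
    (mono : ∀ {k k' l}, G k l → k ≤ k' → G k' l) (g1 : G 1 1)
    (gz : ∀ {k l}, G k l → k ≤ 228 → (l.1 = 0 ∨ l.2 = 0) → l = 0)
    (gsub : ∀ {k l l'}, 1 ≤ k → G k l → G k l' → G (3 * k + 3) (l - l'))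
    (gmul : ∀ {k k' l l'}, G k l → G k' l' → IsUnit l → G (k + k') (l * l'))
    (ginv : ∀ {k l l'}, G k l → l' * l = 1 → G k l') (gS : ∀ h ∈ S, G 3 (gr f h))
    (hS : Fintype.card F < #S * #S) : ∃ σ : F →+* F, ∀ h ∈ S, σ h = f h := by
  have gu : ∀ {l : F × F}, l.1 ≠ 0 → l.2 ≠ 0 → (l.1⁻¹, l.2⁻¹) * l = 1 := fun h1 h2 =>
    Prod.ext (inv_mul_cancel₀ h1) (inv_mul_cancel₀ h2)
  have hcov : ∀ ξ : F, ∃ η, G 24 (ξ, η) := by
    intro ξ
    obtain ⟨⟨a, b⟩, hab, ⟨a', b'⟩, hab', hne, e⟩ := exists_ne_map_eq_of_card_lt_of_maps_to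
      (s := S ×ˢ S) (t := univ) (by rwa [card_univ, card_product])
      (f := fun p : Fˣ × Fˣ => (p.1 : F) - ξ * p.2) fun _ _ => mem_univ _
    obtain ⟨ha, hb⟩ := mem_product.1 hab
    obtain ⟨ha', hb'⟩ := mem_product.1 hab'
    have e1 : (b : F) - b' ≠ 0 := fun h => by
      have h2 : b = b' := Units.ext (sub_eq_zero.1 h)
      exact hne (Prod.ext (Units.ext (by simpa [h2] using e)) h2)
    have g2 := gsub (by omega) (gS b hb) (gS b' hb')
    have e2 : (gr f b - gr f b').2 ≠ 0 := fun h =>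
      e1 (congrArg Prod.fst (gz g2 (by omega) (Or.inr h)))
    have e3 := gu (l := gr f b - gr f b') e1 e2
    have g3 := gmul (ginv g2 e3) (gsub (by omega) (gS a ha) (gS a' ha'))
      (IsUnit.of_mul_eq_one _ e3)
    refine ⟨_, by convert g3 using 1; exact Prod.ext (by
      simp only [gr, Prod.fst_mul, Prod.fst_sub] at e ⊢
      field_simp
      linear_combination -e) rfl⟩
  choose σ hσ using hcov
  have huniq : ∀ {k : ℕ} {ξ η : F}, G k (ξ, η) → k ≤ 75 → σ ξ = η := fun h hk =>
    sub_eq_zero.1 (congrArg Prod.snd (gz (gsub (by omega) (mono (hσ _) (by omega : 24 ≤ 75))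
      (mono h hk)) le_rfl (Or.inl (sub_self _))))
  have hsub : ∀ a b, σ (a - b) = σ a - σ b := fun a b =>
    huniq (gsub (by omega) (hσ a) (hσ b)) le_rfl
  have h0 : σ 0 = 0 := by simpa using hsub 0 0
  refine ⟨{ toFun := σ
            map_one' := huniq g1 (by omega)
            map_zero' := h0
            map_add' := fun a b => by
              have := hsub a (0 - b)
              rwa [hsub 0 b, h0, zero_sub, zero_sub, sub_neg_eq_add, sub_neg_eq_add] at this
            map_mul' := fun a b => ?_ }, fun h hh => huniq (gS h hh) (by omega)⟩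
  by_cases ha : a = 0
  · simp [ha, h0]
  · have e2 : σ a ≠ 0 := fun h => ha (congrArg Prod.fst (gz (hσ a) (by omega) (Or.inr h)))
    exact huniq (gmul (hσ a) (hσ b) (IsUnit.of_mul_eq_one_right _ (gu ha e2))) (by omega)

theorem card_popular (A : Finset Fˣ) (hA : A.Nonempty) : #A ≤ 2 * #(univ.filter fun h : Fˣ =>
    #A ^ 2 ≤ 2 * Fintype.card Fˣ * #(A.filter fun c => h * c ∈ A)) := by
  set m := Fintype.card Fˣ with hm
  set S := univ.filter fun h : Fˣ => #A ^ 2 ≤ 2 * m * #(A.filter fun c => h * c ∈ A)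
  have e1 := card_filter_add_card_filter_not (s := A ×ˢ A) fun p => p.1 / p.2 ∈ S
  have e2 : #((A ×ˢ A).filter fun p => p.1 / p.2 ∈ S) ≤ #(S ×ˢ A) := by
    refine card_le_card_of_injOn (fun p => (p.1 / p.2, p.2)) (fun p hp => ?_)
      fun p _ p' _ e => ?_
    · obtain ⟨hp1, hp2⟩ := mem_filter.1 (mem_coe.1 hp)
      exact mem_coe.2 (mem_product.2 ⟨hp2, (mem_product.1 hp1).2⟩)
    · obtain ⟨e1, e2⟩ := Prod.ext_iff.1 e
      exact Prod.ext (by simpa [show p.2 = p'.2 from e2] using e1) e2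
  have e3 := mul_card_le_of_fibers univ ((A ×ˢ A).filter fun p => p.1 / p.2 ∉ S)
    (fun p => p.1 / p.2) (#A ^ 2) (2 * m) (fun _ _ => mem_univ _) fun h => by
      by_cases hS : h ∈ S
      · rw [filter_false_of_mem]
        · simp
        · rintro p hp rfl
          exact (mem_filter.1 hp).2 hS
      · refine le_trans (Nat.mul_le_mul_left _ ?_)
          (not_le.1 fun h1 => hS (mem_filter.2 ⟨mem_univ _, h1⟩)).le
        refine card_le_card_of_injOn Prod.snd (fun p hp => ?_) fun p hp p' hp' e => ?_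
        · obtain ⟨hp1, rfl⟩ := mem_filter.1 (mem_coe.1 hp)
          simpa [and_comm] using (mem_filter.1 hp1).1
        · have := (mem_filter.1 (mem_coe.1 hp)).2.trans (mem_filter.1 (mem_coe.1 hp')).2.symm
          exact Prod.ext (by simpa [e] using this) e
  rw [card_univ, ← hm] at e3
  rw [card_product] at e1 e2
  have e4 : 2 * #((A ×ˢ A).filter fun p => p.1 / p.2 ∉ S) ≤ #A ^ 2 :=
    Nat.le_of_mul_le_mul_left (by linarith) (Fintype.card_pos : 0 < m)
  exact Nat.le_of_mul_le_mul_right (by nlinarith) hA.card_pos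

/-- The sum-product dichotomy. -/
theorem structure_tset (f : F →*₀ F) {L K : ℕ} (hL : Fintype.card Fˣ ≤ #(tset f) * L)
    (hK1 : 4096 * L ^ 6 ≤ K) (hK4 : 4 * L ≤ K) (hL2 : 32 * L ^ 2 < Fintype.card Fˣ) :
    (∃ A : Finset Fˣ, Fintype.card Fˣ ≤ 2 * L * #A ∧ #(A.image fun a : Fˣ => f a) ≤ K ^ 228) ∨
    ∃ σ : F →+* F, Fintype.card Fˣ ≤ 4 * L * #(univ.filter fun h : Fˣ => σ h = f h) := by
  obtain ⟨A, hA1, hA2⟩ := bsg f hL
  set m := Fintype.card Fˣ with hm
  have hA3 : m ≤ 2 * L * #A := hL.trans (by nlinarith)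
  have hA : A.Nonempty := card_pos.1 (Nat.pos_of_mul_pos_left (Fintype.card_pos.trans_le hA3))
  by_cases hsmall : #(A.image fun a : Fˣ => f a) ≤ K ^ 228
  · exact Or.inl ⟨A, hA3, hsmall⟩
  right
  set X := A.image fun a : Fˣ => gr f a with hXdef
  have hX : #X = #A := card_image_of_injective _ fun a b e => Units.ext (congrArg Prod.fst e)
  have hXne : X.Nonempty := hA.image _
  have hK : 3 ≤ K := by
    have := Nat.pos_of_mul_pos_left (Fintype.card_pos.trans_le hL)
    omega
  have e4 : #(X - X) ≤ K * #A := hA2.trans (by gcongr)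
  have g1 : Good X K 1 1 := by simpa [Good, hX] using e4
  have hS1 := card_popular A hA
  set S := univ.filter fun h : Fˣ => #A ^ 2 ≤ 2 * m * #(A.filter fun c => h * c ∈ A)
  have hS2 : m ≤ 4 * L * #S := hA3.trans (by nlinarith)
  have gS : ∀ h ∈ S, Good X K 3 (gr f h) := by
    intro h hh
    let Y := (A.filter fun c => h * c ∈ A).image fun c : Fˣ => gr f (h * c : Fˣ)
    have hY : #Y = #(A.filter fun c => h * c ∈ A) := card_image_of_injective _ fun a b e =>
      mul_left_cancel (Units.ext (congrArg Prod.fst e))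
    have hu : IsUnit (gr f h) := IsUnit.of_mul_eq_one (gr f (h⁻¹ : Fˣ)) (by
      rw [← gr_mul, Units.mul_inv]
      exact Prod.ext rfl (map_one f))
    have e1 : Y ⊆ X := image_subset_iff.2 fun c hc => mem_image_of_mem _ (mem_filter.1 hc).2
    have e2 : Y ⊆ gr f h • X := image_subset_iff.2 fun c hc => by
      rw [Units.val_mul, gr_mul]
      exact smul_mem_smul_finset (mem_image_of_mem _ (mem_filter.1 hc).1)
    have e3 := ruzsa_triangle_inequality_sub_sub_sub X Y (gr f h • X)
    have e5 := (card_le_card (sub_subset_sub_left (s := X) e1)).trans e4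
    have e6 := card_le_card (sub_subset_sub_left (s := gr f h • X) e2)
    rw [smul_sub_smul, card_smul_of_isUnit hu] at e6
    have e7 : #A ≤ K * #Y := by
      refine Nat.le_of_mul_le_mul_right ?_ hA.card_pos
      have := (mem_filter.1 hh).2
      rw [← hY] at this
      calc #A * #A = #A ^ 2 := by ring
        _ ≤ 2 * (2 * L * #A) * #Y := this.trans (by gcongr)
        _ = 4 * L * #Y * #A := by ring
        _ ≤ _ := by gcongr
    unfold Good
    rw [hX]
    refine Nat.le_of_mul_le_mul_right ?_ hA.card_pos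
    calc _ ≤ #(X - gr f h • X) * (K * #Y) := by gcongr
      _ = K * (#(X - gr f h • X) * #Y) := by ring
      _ ≤ K * (K * #A * (K * #A)) :=
        Nat.mul_le_mul_left _ (e3.trans (Nat.mul_le_mul e5 (e6.trans e4)))
      _ = _ := by ring
  obtain ⟨σ, hσ⟩ := exists_ringHom_of_good (Good X K) f S (fun h hk => h.mono hK hk) g1
    (fun h hk h1 => by_contra fun h0 => hsmall ((h.mono hK hk).card_image_le hA h0 h1))
    (fun hk h h' => Good.sub hXne hK (g1.mono hK hk) h h') (fun h h' => h.mul hXne h')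
    (fun h => h.inv) gS (by
      have hq : Fintype.card F = m + 1 := by
        have := Fintype.card_units F
        have := Fintype.one_lt_card (α := F)
        omega
      by_contra hcon
      have e1 : m ^ 2 ≤ 16 * L ^ 2 * (m + 1) :=
        calc m ^ 2 ≤ (4 * L * #S) ^ 2 := by gcongr
          _ = 16 * L ^ 2 * (#S * #S) := by ring
          _ ≤ _ := by gcongr; omega
      nlinarith)
  exact ⟨σ, hS2.trans (Nat.mul_le_mul_left _ (card_le_card fun h hh =>
    mem_filter.2 ⟨mem_univ _, hσ h hh⟩))⟩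

end field

end Pool.Agent.P.MP_d3a22b_lc
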