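import Pool.Agent.P.MP_d3a22b_lc.FcA1

/-!
Maximal ideals of `𝔽_p[X]` generated by boundedly many trinomials.
-/

set_option autoImplicit false
set_option linter.unusedSectionVars false

open Finset
open scoped Pointwise

namespace Pool.Agent.P.MP_d3a22b_lc

theorem sq_card_le_fibers {α β : Type} [DecidableEq β] (T : Finset α) (I : Finset β) (φ : α → β)
    (h : ∀ a ∈ T, φ a ∈ I) : #T ^ 2 ≤ #I * #((T ×ˢ T).filter fun p => φ p.1 = φ p.2) := by
  rw [card_eq_sum_card_fiberwise h]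
  refine sq_sum_le_card_mul_sum_sq.trans (Nat.mul_le_mul_left _ (le_of_eq ?_))
  rw [card_eq_sum_card_fiberwise (f := fun p : α × α => φ p.1) (t := I)
    fun p hp => h _ (mem_product.1 (mem_filter.1 hp).1).1]
  refine sum_congr rfl fun b _ => ?_
  rw [sq, ← card_product]
  congr 1
  ext p
  simp only [mem_product, mem_filter]
  constructor
  · rintro ⟨⟨h1, h2⟩, h3, h4⟩
    exact ⟨⟨⟨h1, h3⟩, h2.trans h4.symm⟩, h2⟩
  · rintro ⟨⟨⟨h1, h3⟩, h2⟩, h4⟩
    exact ⟨⟨h1, h4⟩, h3, h2.symm.trans h4⟩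

theorem sum_orderOf_le {G : Type} [CommGroup G] [Fintype G] [DecidableEq G] [IsCyclic G] {e : ℕ}
    (he : 9 ≤ e) : ∑ y : G, (if y = 1 then 0 else (4 / (3 * (orderOf y : ℝ))) ^ e) ≤ 1 / 4 := by
  rw [← sum_filter_add_sum_filter_not univ fun y : G => y = 1, sum_eq_zero (by simp +contextual),
    zero_add, ← sum_fiberwise_of_maps_to (t := Ioc 1 (Fintype.card G)) (g := fun y => orderOf y)
      fun y hy => mem_Ioc.2 ⟨?_, orderOf_le_card_univ⟩]
  swap
  · have h1 := orderOf_pos y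
    have h2 := mt orderOf_eq_one_iff.1 (mem_filter.1 hy).2
    omega
  have h1 := sum_Ioc_inv_sq_le_sub (α := ℝ) one_ne_zero (Fintype.card_pos : 1 ≤ Fintype.card G)
  have h2 : (0 : ℝ) ≤ (Fintype.card G : ℝ)⁻¹ := by positivity
  refine (sum_le_sum (g := fun d : ℕ => 1 / 4 * ((d : ℝ) ^ 2)⁻¹) fun d hd => ?_).trans ?_
  swap
  · rw [← mul_sum]
    simp only [Nat.cast_one, inv_one] at h1
    linarith
  have hd : (2 : ℝ) ≤ d := by exact_mod_cast (mem_Ioc.1 hd).1
  rw [sum_congr rfl (g := fun _ => (4 / (3 * (d : ℝ))) ^ e) fun y hy => by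
    rw [if_neg (mem_filter.1 (mem_filter.1 hy).1).2, (mem_filter.1 hy).2], sum_const, nsmul_eq_mul]
  have h3 : #((univ.filter fun y : G => ¬ y = 1).filter fun y => orderOf y = d) ≤ d := by
    refine le_trans (card_le_card fun y hy => ?_)
      (IsCyclic.card_pow_eq_one_le (α := G) (n := d) (by exact_mod_cast (by linarith : (0 : ℝ) < d)))
    exact mem_filter.2 ⟨mem_univ _, (mem_filter.1 hy).2 ▸ pow_orderOf_eq_one y⟩
  obtain ⟨k, rfl⟩ := Nat.exists_eq_add_of_le he
  have h4 : 4 / (3 * (d : ℝ)) ≤ 2 / 3 := by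
    rw [div_le_div_iff₀ (by positivity) (by positivity)]
    linarith
  calc _ ≤ d * ((4 / (3 * (d : ℝ))) ^ 3 * (4 / (3 * (d : ℝ))) ^ 6 * (4 / (3 * (d : ℝ))) ^ k) := by
        rw [← pow_add, ← pow_add]
        gcongr
    _ ≤ d * ((4 / (3 * (d : ℝ))) ^ 3 * (2 / 3) ^ 6 * 1) := by
        gcongr
        exact pow_le_one₀ (by positivity) (by linarith)
    _ = 4096 / 19683 * ((d : ℝ) ^ 2)⁻¹ := by field_simp; norm_num
    _ ≤ _ := mul_le_mul_of_nonneg_right (by norm_num) (by positivity)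

section field

variable {F : Type} [Field F] [Fintype F] [DecidableEq F] {θ : Fˣ}

theorem range_eq_zpowers (hθ : ∀ x, x ∈ Subgroup.zpowers θ) (χ : Fˣ →* Fˣ) :
    χ.range = Subgroup.zpowers (χ θ) := by
  rw [← MonoidHom.map_zpowers, (Subgroup.eq_top_iff' _).2 hθ, MonoidHom.range_eq_map]

theorem card_ker_mul (hθ : ∀ x, x ∈ Subgroup.zpowers θ) (χ : Fˣ →* Fˣ) :
    #(univ.filter fun g => χ g = 1) * orderOf (χ θ) = Fintype.card Fˣ := by
  rw [← Nat.card_zpowers, ← range_eq_zpowers hθ, ← Subgroup.index_ker, ← Nat.card_eq_fintype_card,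
    ← Subgroup.card_mul_index χ.ker, ← Fintype.card_subtype, ← Nat.card_eq_fintype_card]
  rfl

theorem card_image_hom (hθ : ∀ x, x ∈ Subgroup.zpowers θ) (χ : Fˣ →* Fˣ) :
    #(univ.image χ) = orderOf (χ θ) := by
  rw [← Nat.card_zpowers, ← range_eq_zpowers hθ, ← Nat.card_eq_finsetCard]
  exact Nat.card_congr (Equiv.subtypeEquivRight (by simp))

/-- The map induced on the units. -/
abbrev um (f : F →*₀ F) : Fˣ →* Fˣ := Units.map (f : F →* F)

theorem tset_small_image (hθ : ∀ x, x ∈ Subgroup.zpowers θ) (f : F →*₀ F)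
    (hd : 12 * orderOf (um f θ) ^ 3 ≤ Fintype.card Fˣ) :
    3 * #(tset f) ^ 2 * orderOf (um f θ) ≤ 4 * Fintype.card Fˣ ^ 2 := by
  have h1 := sq_card_le_fibers (tset f) (univ.image (um f)) (um f)
    fun a _ => mem_image_of_mem _ (mem_univ _)
  have h2 := card_ker_mul hθ (um f)
  rw [card_image_hom hθ] at h1
  set P := (tset f ×ˢ tset f).filter fun p => um f p.1 = um f p.2
  set Z := univ.filter fun g => um f g = 1
  have h3 := card_filter_add_card_filter_not (s := P) fun p => p.1 = p.2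
  have h4 : #(P.filter fun p => p.1 = p.2) ≤ Fintype.card Fˣ :=
    card_le_card_of_injOn (t := univ) Prod.fst (fun _ _ => mem_univ _) fun p hp p' hp' e =>
      Prod.ext e ((mem_filter.1 hp).2.symm.trans (e.trans (mem_filter.1 hp').2))
  have hZ : ∀ x : F, f x = 1 → x ∈ Z.image Units.val := fun x hx =>
    mem_image.2 ⟨Units.mk0 x fun h => by simp [h] at hx,
      mem_filter.2 ⟨mem_univ _, Units.ext hx⟩, rfl⟩
  have key : ∀ p ∈ P.filter fun p => ¬ p.1 = p.2,
      f p.1 = f p.2 ∧ f (p.1 - 1) = f (p.2 - 1) ∧ (p.1 : F) - 1 ≠ 0 ∧ (p.1 : F) ≠ p.2 := by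
    intro p hp
    obtain ⟨hp1, hne⟩ := mem_filter.1 hp
    obtain ⟨hp2, he⟩ := mem_filter.1 hp1
    have e1 : f p.1 = f p.2 := congrArg Units.val he
    have e2 : f (p.1 - 1) = f (p.2 - 1) := by
      rw [(mem_filter.1 (mem_product.1 hp2).1).2, (mem_filter.1 (mem_product.1 hp2).2).2, e1]
    refine ⟨e1, e2, fun h => hne (Units.ext ?_), fun h => hne (Units.ext h)⟩
    rw [h, map_zero, eq_comm, map_eq_zero] at e2
    rw [sub_eq_zero.1 h, sub_eq_zero.1 e2]
  have h5 : #(P.filter fun p => ¬ p.1 = p.2) ≤ #(Z.image Units.val ×ˢ Z.image Units.val) := by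
    refine card_le_card_of_injOn
      (fun p => ((p.2 : F) / p.1, ((p.2 : F) - 1) / (p.1 - 1))) (fun p hp => ?_)
      fun p hp p' hp' e => ?_
    · obtain ⟨e1, e2, e3, -⟩ := key p hp
      refine mem_coe.2 (mem_product.2 ⟨hZ _ ?_, hZ _ ?_⟩)
      · rw [map_div₀, ← e1, div_self ((map_ne_zero f).2 p.1.ne_zero)]
      · rw [map_div₀, ← e2, div_self ((map_ne_zero f).2 e3)]
    · obtain ⟨-, -, e3, e4⟩ := key p hp
      obtain ⟨-, -, e5, -⟩ := key p' hp'
      obtain ⟨e6, e7⟩ := Prod.ext_iff.1 e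
      simp only at e6 e7
      rw [div_eq_div_iff p.1.ne_zero p'.1.ne_zero] at e6
      rw [div_eq_div_iff e3 e5] at e7
      have e8 : (p.1 : F) = p'.1 := by
        refine mul_left_cancel₀ (sub_ne_zero.2 e4) ?_
        linear_combination (p.1 : F) * e7 - ((p.1 : F) - 1) * e6
      rw [← e8] at e6
      exact Prod.ext (Units.ext e8) (Units.ext (mul_right_cancel₀ p.1.ne_zero e6))
  rw [card_product, card_image_of_injective _ Units.val_injective] at h5
  set d := orderOf (um f θ)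
  have hd0 : 0 < d := orderOf_pos _
  have h6 : 3 * d ^ 2 ≤ Fintype.card Fˣ := le_trans (by nlinarith [pow_pos hd0 2]) hd
  calc _ ≤ 3 * (d * (Fintype.card Fˣ + #Z * #Z)) * d := by gcongr; exact h1.trans (by gcongr; omega)
    _ = 3 * d ^ 2 * Fintype.card Fˣ + 3 * (#Z * d) ^ 2 := by ring
    _ ≤ Fintype.card Fˣ * Fintype.card Fˣ + 3 * Fintype.card Fˣ ^ 2 := by rw [h2]; gcongr
    _ = _ := by ring

theorem tset_near_id (hθ : ∀ x, x ∈ Subgroup.zpowers θ) (f : F →*₀ F)
    (hd : 12 * orderOf (um f θ / θ) ^ 3 ≤ Fintype.card Fˣ) :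
    3 * #(tset f) ^ 2 * orderOf (um f θ / θ) ≤ 4 * Fintype.card Fˣ ^ 2 := by
  let χ : Fˣ →* Fˣ := um f / MonoidHom.id Fˣ
  have hχ : ∀ g : Fˣ, f g = g * χ g := fun g => by simp [χ, mul_div_cancel₀]
  have h1 := card_image_hom hθ χ
  have h2 := card_ker_mul hθ χ
  change 12 * orderOf (χ θ) ^ 3 ≤ _ at hd
  change _ * orderOf (χ θ) ≤ _
  set d := orderOf (χ θ)
  have h3 := card_filter_add_card_filter_not (s := tset f) fun g => χ g = 1
  have h4 : #((tset f).filter fun g => χ g = 1) ≤ #(univ.filter fun g => χ g = 1) :=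
    card_le_card (filter_subset_filter _ (subset_univ _))
  have h5 : #((tset f).filter fun g => ¬ χ g = 1) ≤ d * d := by
    rw [← card_image_of_injective _ Units.val_injective, ← h1, ← card_product]
    refine le_trans (card_le_card fun x hx => ?_)
      (card_image_le (f := fun p : Fˣ × Fˣ => ((p.1 : F) - 1) / (p.1 - p.2)))
    obtain ⟨g, hg, rfl⟩ := mem_image.1 hx
    obtain ⟨hg1, hg2⟩ := mem_filter.1 hg
    have e1 : (g : F) - 1 ≠ 0 := fun h => hg2 (by
      rw [show g = 1 from Units.ext (sub_eq_zero.1 h), map_one])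
    have e2 := (mem_filter.1 hg1).2
    rw [hχ g, show f (g - 1) = (g - 1) * χ (Units.mk0 _ e1) from hχ (Units.mk0 _ e1)] at e2
    refine mem_image.2 ⟨(χ (Units.mk0 _ e1), χ g), mem_product.2
      ⟨mem_image_of_mem _ (mem_univ _), mem_image_of_mem _ (mem_univ _)⟩, ?_⟩
    rw [div_eq_iff fun h => hg2 (Units.ext ?_)]
    · linear_combination -e2
    · simp only at h
      rw [Units.val_one]
      linear_combination -e2 + ((g : F) - 1) * h
  have hd0 : 0 < d := orderOf_pos _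
  have h6 : 12 * (#(tset f) * d) ≤ 13 * Fintype.card Fˣ :=
    calc _ ≤ 12 * ((#(univ.filter fun g => χ g = 1) + d * d) * d) := by gcongr; omega
      _ = 12 * (#(univ.filter fun g => χ g = 1) * d) + 12 * d ^ 3 := by ring
      _ ≤ _ := by omega
  have h7 := Nat.pow_le_pow_left h6 2
  have h8 : #(tset f) ^ 2 * d ≤ (#(tset f) * d) ^ 2 := by
    rw [mul_pow]
    gcongr
    exact Nat.le_self_pow two_ne_zero d
  rw [mul_pow, mul_pow 13] at h7
  rw [mul_assoc]
  omega

theorem exists_tuple (hθ : ∀ x, x ∈ Subgroup.zpowers θ) {L K e : ℕ} (hK1 : 4096 * L ^ 6 ≤ K)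
    (hK4 : 4 * L ≤ K) (hD : 12 * (2 * L * K ^ 228) ^ 3 ≤ Fintype.card Fˣ) (hL : 1 ≤ L)
    (he : 9 ≤ e) (hc : 3 * Fintype.card Fˣ ≤ L ^ (2 * e)) :
    ∃ g : Fin (2 * e) → Fˣ, ∀ f : F →*₀ F, (∀ t, g t ∈ tset f) →
      ∃ σ : F →+* F, f θ = σ θ := by
  classical
  set m := Fintype.card Fˣ with hm
  have hm0 : (0 : ℝ) < m := by exact_mod_cast Fintype.card_pos
  have hL0 : (0 : ℝ) < L := by exact_mod_cast hL
  have : Fintype (F →*₀ F) := DFunLike.fintype _
  let u : Fˣ → ℝ := fun y => if y = 1 then 0 else (4 / (3 * (orderOf y : ℝ))) ^ e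
  have hu : ∀ y, 0 ≤ u y := fun y => by
    simp only [u]
    split_ifs <;> positivity
  let W : Fˣ → ℝ := fun y => (1 / L) ^ (2 * e) + u y + u (y / θ)
  let B := univ.filter fun f : F →*₀ F => (#(tset f) / m : ℝ) ^ (2 * e) ≤ W (um f θ)
  obtain ⟨g, hg⟩ : ∃ g : Fin (2 * e) → Fˣ,
      g ∉ B.biUnion fun f => Fintype.piFinset fun _ => tset f := by
    refine (exists_mem_notMem_of_card_lt_card (t := univ) (card_biUnion_le.trans_lt ?_)).imp
      fun _ h => h.2
    have h1 : ∑ f ∈ B, W (um f θ) ≤ ∑ y, W y := by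
      rw [← sum_image (s := B) (g := fun f => um f θ) fun f _ f' _ h => ?_]
      · exact sum_le_sum_of_subset_of_nonneg (subset_univ _) fun y _ _ =>
          add_nonneg (add_nonneg (by positivity) (hu _)) (hu _)
      · ext x
        by_cases hx : x = 0
        · simp [hx]
        · obtain ⟨k, hk⟩ := hθ (Units.mk0 x hx)
          have h2 : um f (θ ^ k) = um f' (θ ^ k) := by rw [map_zpow, map_zpow, show um f θ = _ from h]
          simp only at hk
          rw [hk] at h2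
          exact congrArg Units.val h2
    have h2 : ∑ y, W y < 1 := by
      have e1 := sum_orderOf_le (G := Fˣ) he
      have e2 : ∑ y, u (y / θ) = ∑ y, u y := Equiv.sum_comp (Equiv.divRight θ) u
      have e3 : (m : ℝ) * (1 / L) ^ (2 * e) ≤ 1 / 3 := by
        rw [one_div_pow, mul_one_div, div_le_div_iff₀ (by positivity) (by positivity)]
        exact_mod_cast (by omega : m * 3 ≤ 1 * L ^ (2 * e))
      simp only [W, sum_add_distrib, e2, sum_const, card_univ, nsmul_eq_mul, ← hm]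
      linarith
    have h3 : ∑ f ∈ B, (#(tset f) / m : ℝ) ^ (2 * e) < 1 :=
      ((sum_le_sum fun f hf => (mem_filter.1 hf).2).trans h1).trans_lt h2
    clear_value B
    simp only [div_pow, ← sum_div] at h3
    rw [div_lt_one (by positivity)] at h3
    simp only [Fintype.card_piFinset, prod_const, card_univ, Fintype.card_fin, Fintype.card_pi]
    exact_mod_cast h3
  have hg' : ∀ f : F →*₀ F, (∀ t, g t ∈ tset f) →
      W (um f θ) < (#(tset f) / m : ℝ) ^ (2 * e) := fun f hf => not_le.1 fun h =>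
    hg (mem_biUnion.2 ⟨f, mem_filter.2 ⟨mem_univ _, h⟩, Fintype.mem_piFinset.2 hf⟩)
  have hK : 1 ≤ K ^ 228 := Nat.one_le_pow _ _ (by omega)
  have hK' : 2 ≤ K ^ 228 := le_trans (by omega) (Nat.le_self_pow (by omega) K)
  have hw : ∀ (N : ℕ) (y : Fˣ), y ≠ 1 → 3 * N ^ 2 * orderOf y ≤ 4 * m ^ 2 →
      (N / m : ℝ) ^ (2 * e) ≤ u y := fun N y hy h => by
    have := orderOf_pos y
    simp only [u, if_neg hy, pow_mul]
    gcongr
    rw [div_pow, div_le_div_iff₀ (by positivity) (by positivity)]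
    exact_mod_cast (by linarith : N ^ 2 * (3 * orderOf y) ≤ 4 * m ^ 2)
  have hL3 : 96 * L ^ 3 ≤ m := by
    calc 96 * L ^ 3 = 12 * (2 * L * 1) ^ 3 := by ring
      _ ≤ _ := le_trans (by gcongr) hD
  have hL2 : L ^ 2 ≤ L ^ 3 := Nat.pow_le_pow_right hL (by omega)
  have hL1 : L ≤ L ^ 2 := Nat.le_self_pow (by omega) L
  refine ⟨g, fun f hf => ?_⟩
  have h1 := hg' f hf
  have h2 : m ≤ #(tset f) * L := by
    by_contra h
    refine h1.not_ge (le_trans ?_ (le_add_of_le_of_nonneg (le_add_of_nonneg_right (hu _)) (hu _)))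
    refine pow_le_pow_left₀ (by positivity) ?_ _
    rw [div_le_div_iff₀ hm0 hL0]
    exact_mod_cast (by omega : #(tset f) * L ≤ 1 * m)
  rcases structure_tset f h2 hK1 hK4 (by omega) with ⟨A, hA1, hA2⟩ | ⟨σ, hσ⟩
  · exfalso
    have e1 := card_ker_mul hθ (um f)
    have e2 := mul_card_le_of_fibers (A.image fun a : Fˣ => f a) A (fun a => f a)
      #(univ.filter fun g => um f g = 1) 1 (fun a ha => mem_image_of_mem _ ha) fun z => by
        rcases (A.filter fun b : Fˣ => f b = z).eq_empty_or_nonempty with h | ⟨a, ha⟩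
        · simp [h]
        · rw [one_mul]
          refine card_le_card_of_injOn (· / a) (fun b hb => ?_) div_left_injective.injOn
          refine mem_coe.2 (mem_filter.2 ⟨mem_univ _, ?_⟩)
          rw [map_div, div_eq_one]
          exact Units.ext ((mem_filter.1 (mem_coe.1 hb)).2.trans (mem_filter.1 ha).2.symm)
    have e3 : orderOf (um f θ) ≤ 2 * L * K ^ 228 := by
      refine Nat.le_of_mul_le_mul_left ?_
        (Nat.pos_of_mul_pos_right (e1 ▸ Fintype.card_pos : 0 < _))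
      rw [e1]
      calc _ ≤ 2 * L * (K ^ 228 * #(univ.filter fun g => um f g = 1)) :=
          hA1.trans (Nat.mul_le_mul_left _ ((one_mul _).ge.trans (e2.trans (by gcongr))))
        _ = _ := by ring
    by_cases hy : um f θ = 1
    · have e4 : tset f ⊆ {1} := fun x hx => by
        have e5 := (mem_filter.1 hx).2
        have e6 : um f x ∈ Subgroup.zpowers (um f θ) := range_eq_zpowers hθ _ ▸ ⟨x, rfl⟩
        rw [hy, Subgroup.zpowers_one_eq_bot, Subgroup.mem_bot] at e6
        rw [show f x = 1 from congrArg Units.val e6, sub_self, map_eq_zero, sub_eq_zero] at e5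
        exact mem_singleton.2 (Units.ext e5)
      have e5 : #(tset f) * L ≤ 1 * L := Nat.mul_le_mul_right _ (card_le_card e4)
      omega
    · exact h1.not_ge ((hw _ _ hy (tset_small_image hθ f (le_trans (by gcongr) hD))).trans
        (le_add_of_le_of_nonneg (le_add_of_nonneg_left (by positivity)) (hu _)))
  · let τ := RingEquiv.ofBijective σ (Finite.injective_iff_bijective.1 σ.injective)
    let f' : F →*₀ F := τ.symm.toRingHom.toMonoidWithZeroHom.comp f
    have hf' : ∀ x, σ (f' x) = f x := fun x => τ.apply_symm_apply _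
    have e0 : tset f' = tset f := filter_congr fun x _ => by
      rw [← σ.injective.eq_iff, map_sub σ, hf', hf', map_one]
    refine ⟨σ, by_contra fun hne => ?_⟩
    have hy : um f' θ / θ ≠ 1 := fun h => hne (by
      rw [← hf', show f' θ = θ from congrArg Units.val (div_eq_one.1 h)])
    have e1 := card_ker_mul hθ (um f' / MonoidHom.id Fˣ)
    have e3 : orderOf (um f' θ / θ) ≤ 2 * L * K ^ 228 := by
      refine Nat.le_of_mul_le_mul_left ?_
        (Nat.pos_of_mul_pos_right (e1 ▸ Fintype.card_pos : 0 < _))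
      refine e1.trans_le (hσ.trans ?_)
      rw [mul_comm]
      refine Nat.mul_le_mul (card_le_card fun x hx => mem_filter.2 ⟨mem_univ _, ?_⟩) (by nlinarith)
      exact div_eq_one.2 (Units.ext (σ.injective ((hf' x).trans (mem_filter.1 hx).2.symm)))
    exact (hg' f' (e0 ▸ hf)).not_ge ((hw _ _ hy (tset_near_id hθ f' (le_trans (by gcongr) hD))).trans
      (le_add_of_nonneg_left (add_nonneg (by positivity) (hu _))))

theorem exists_pow_succ_eq (hθ : ∀ x, x ∈ Subgroup.zpowers θ) (x : Fˣ) :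
    ∃ k : ℕ, (θ : F) ^ (k + 1) = x := by
  obtain ⟨k, hk⟩ := mem_powers_iff_mem_zpowers.2 (hθ (x / θ))
  exact ⟨k, by rw [← Units.val_pow_eq_pow_val, pow_succ, show θ ^ k = _ from hk, div_mul_cancel]⟩

theorem exists_log (hθ : ∀ x, x ∈ Subgroup.zpowers θ) (x : F) :
    ∃ (k : ℕ) (ε : ℤ), ∀ f : F →*₀ F, f x = ε * f θ ^ k := by
  by_cases hx : x = 0
  · exact ⟨0, 0, by simp [hx]⟩
  · obtain ⟨k, hk⟩ := exists_pow_succ_eq hθ (Units.mk0 x hx)
    exact ⟨k + 1, 1, fun f => by rw [← map_pow, hk]; simp⟩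

open Polynomial in
theorem exists_span_eq_ker {p : ℕ} [Fact p.Prime] [Algebra (ZMod p) F]
    (hθ : ∀ x, x ∈ Subgroup.zpowers θ) {ι : Type} {g : ι → Fˣ}
    (hg : ∀ f : F →*₀ F, (∀ t, g t ∈ tset f) → ∃ σ : F →+* F, f θ = σ θ) :
    ∃ G : Option ι → (ZMod p)[X],
      (∀ t, ∃ (i j : ℕ) (ε : ℤ), G t = X ^ i - 1 - (ε : (ZMod p)[X]) * X ^ j) ∧
      Ideal.span (Set.range G) = RingHom.ker (aeval (θ : F)).toRingHom := by
  choose i hi using fun t => exists_pow_succ_eq hθ (g t)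
  choose j ε hj using fun t => exists_log hθ (g t - 1)
  let G : Option ι → (ZMod p)[X] := fun o =>
    o.elim (X ^ Fintype.card Fˣ - 1) fun t => X ^ (i t + 1) - 1 - (ε t : (ZMod p)[X]) * X ^ j t
  refine ⟨G, ?_, le_antisymm (Ideal.span_le.2 ?_) fun b hb => ?_⟩
  · rintro (_ | t)
    · exact ⟨Fintype.card Fˣ, 0, 0, by simp [G]⟩
    · exact ⟨_, _, _, rfl⟩
  · rintro _ ⟨_ | t, rfl⟩
    · simp [G, ← Units.val_pow_eq_pow_val, pow_card_eq_one]
    · simpa [G, hi, sub_eq_zero] using hj t (MonoidWithZeroHom.id F)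
  obtain ⟨h, hh⟩ := (IsPrincipalIdealRing.principal (Ideal.span (Set.range G))).principal
  have hG : ∀ o, h.map (algebraMap _ F) ∣ (G o).map (algebraMap _ F) := fun o =>
    Polynomial.map_dvd _ (Ideal.mem_span_singleton.1 (hh.le (Ideal.subset_span ⟨o, rfl⟩)))
  have h1 : h.map (algebraMap _ F) ∣ X ^ Fintype.card F - X := (hG none).trans ⟨X, by
    rw [show Fintype.card F = Fintype.card Fˣ + 1 by
      have := Fintype.card_units F
      have := Fintype.one_lt_card (α := F)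
      omega]
    simp [G, sub_mul, pow_succ]⟩
  have h2 := FiniteField.X_pow_card_sub_X_ne_zero F (Fintype.one_lt_card (α := F))
  rw [hh]
  refine Ideal.mem_span_singleton.2 ((map_dvd_map' (algebraMap _ F)).1 ?_)
  by_cases hb0 : b = 0
  · simp [hb0]
  have h4 : (X ^ Fintype.card F - X : F[X]).Splits := by
    rw [splits_iff_card_roots, FiniteField.roots_X_pow_card_sub_X,
      FiniteField.X_pow_card_sub_X_natDegree_eq F (Fintype.one_lt_card (α := F))]
    rfl
  refine Splits.dvd_of_roots_le_roots (h4.of_dvd h2 h1) (ne_zero_of_dvd_ne_zero h2 h1) ?_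
  refine (Multiset.le_iff_subset (Multiset.nodup_of_le (roots.le_of_dvd h2 h1) ?_)).2 fun y hy => ?_
  · rw [FiniteField.roots_X_pow_card_sub_X]
    exact univ.nodup
  have h3 : ∀ o, aeval y (G o) = 0 := fun o => by
    rw [← eval_map_algebraMap]
    exact eval_eq_zero_of_dvd_of_eval_eq_zero (hG o) (mem_roots'.1 hy).2
  have hy0 : y ≠ 0 := by
    rintro rfl
    simpa [G, Fintype.card_ne_zero] using h3 none
  obtain ⟨k, hk⟩ := exists_pow_succ_eq hθ (Units.mk0 y hy0)
  obtain ⟨σ, hσ⟩ := hg (powMonoidWithZeroHom k.succ_ne_zero) fun t =>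
    mem_filter.2 ⟨mem_univ _, by
      have := h3 (some t)
      rw [hj, ← hi, map_pow]
      simp only [powMonoidWithZeroHom_apply, Nat.succ_eq_add_one, hk, Units.val_mk0]
      exact (sub_eq_zero.1 (by simpa [G] using this)).symm⟩
  rw [mem_roots (Polynomial.map_ne_zero hb0), IsRoot, eval_map_algebraMap,
    show y = σ θ from hk.symm.trans hσ, aeval_def, ← (Subsingleton.elim _ _ :
      σ.comp (algebraMap (ZMod p) F) = algebraMap _ _), ← hom_eval₂]
  exact (congrArg σ hb).trans (map_zero σ)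

end field

open Polynomial in
/-- Maximal ideals of `𝔽_p[X]` generated by boundedly many trinomials, with `X` a primitive
root. -/
theorem exists_sparse_maximal (p : ℕ) [hp : Fact p.Prime] :
    ∃ c : ℕ, ∀ a : (ZMod p)[X], a ≠ 0 → ∃ g : Option (Fin c) → (ZMod p)[X],
      (∀ t, ∃ (i j : ℕ) (ε : ℤ), g t = X ^ i - 1 - (ε : (ZMod p)[X]) * X ^ j) ∧
      (Ideal.span (Set.range g)).IsMaximal ∧ a ∉ Ideal.span (Set.range g) ∧
      ∀ ρ, ∃ (k : ℕ) (ε : ℤ), ρ - (ε : (ZMod p)[X]) * X ^ k ∈ Ideal.span (Set.range g) := by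
  classical
  obtain ⟨E, hE⟩ : ∃ E, ∀ L : ℕ, 12 * (2 * L * (L ^ 7) ^ 228) ^ 3 = 96 * L ^ E :=
    ⟨(7 * 228 + 1) * 3, fun L => by
      rw [← pow_mul, mul_assoc 2, ← pow_succ', mul_pow, ← pow_mul, ← mul_assoc]
      rfl⟩
  refine ⟨2 * (E + 9), fun a ha => ?_⟩
  obtain ⟨j, hj, hja⟩ : ∃ j, 12 ≤ j ∧ a.natDegree < j := ⟨12 + a.natDegree + 1, by omega, by omega⟩
  have hj0 : j * (E + 1) ≠ 0 := by positivity
  let F := GaloisField p (j * (E + 1))
  have := Fintype.ofFinite F
  obtain ⟨θ, hθ⟩ := IsCyclic.exists_generator (α := Fˣ)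
  obtain ⟨L, hL⟩ : ∃ L, L = p ^ j := ⟨_, rfl⟩
  have hL1 : 4096 ≤ L :=
    hL ▸ (Nat.pow_le_pow_right two_pos hj).trans (Nat.pow_le_pow_left hp.out.two_le j)
  have hm : Fintype.card Fˣ + 1 = L ^ (E + 1) := by
    have h1 : Fintype.card F = L ^ (E + 1) := by
      rw [← Nat.card_eq_fintype_card, GaloisField.card p _ hj0, hL, pow_mul]
    have := Fintype.card_units F
    have := Fintype.one_lt_card (α := F)
    omega
  have hpw : ∀ {k c : ℕ}, c ≤ 4096 → c * L ^ k ≤ L ^ (k + 1) := fun h => by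
    rw [pow_succ']
    exact Nat.mul_le_mul_right _ (h.trans hL1)
  obtain ⟨g, hg⟩ := exists_tuple hθ (L := L) (K := L ^ 7) (e := E + 9) (hpw le_rfl)
    ((Nat.mul_le_mul_left 4 (Nat.le_self_pow (by omega) L)).trans (hpw (k := 6) (by omega)))
    (by
      have h1 := hpw (k := E) (c := 97) (by omega)
      have h3 : 1 ≤ L ^ E := Nat.one_le_pow _ _ (by omega)
      rw [hE]
      omega) (by omega) (by omega)
    (by
      have h1 := hpw (k := E + 1) (c := 3) (by omega)
      have h2 : L ^ (E + 1 + 1) ≤ L ^ (2 * (E + 9)) := Nat.pow_le_pow_right (by omega) (by omega)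
      omega)
  obtain ⟨G, hG, hI⟩ := exists_span_eq_ker (p := p) hθ hg
  have hs : ∀ x : F, ∃ (k : ℕ) (ε : ℤ), aeval (θ : F) ((ε : (ZMod p)[X]) * X ^ k) = x :=
    fun x => by
      obtain ⟨k, ε, h⟩ := exists_log hθ x
      exact ⟨k, ε, by simpa using (h (MonoidWithZeroHom.id F)).symm⟩
  refine ⟨G, hG, ?_, ?_, fun ρ => ?_⟩
  · rw [hI]
    exact RingHom.ker_isMaximal_of_surjective _ fun x => let ⟨_, _, h⟩ := hs x; ⟨_, h⟩
  · rw [hI]
    intro h
    have h1 := natDegree_le_natDegree (minpoly.degree_le_of_ne_zero (ZMod p) (θ : F) ha h)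
    rw [(Field.primitive_element_iff_minpoly_natDegree_eq (ZMod p) (θ : F)).1,
      GaloisField.finrank p hj0] at h1
    · nlinarith
    · rw [eq_top_iff]
      rintro x -
      obtain ⟨k, ε, rfl⟩ := hs x
      simp only [map_mul, map_intCast, map_pow, aeval_X]
      exact mul_mem (intCast_mem _ _) (pow_mem (IntermediateField.mem_adjoin_simple_self _ _) _)
  · obtain ⟨k, ε, h⟩ := hs (aeval (θ : F) ρ)
    exact ⟨k, ε, hI ▸ (RingHom.sub_mem_ker_iff _).2 h.symm⟩

end Pool.Agent.P.MP_d3a22b_lc
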