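import Pool.Agent.P.MP_d3a22b_lc.GWorld1

/-!
A metabelian group with a derivation into a module: definability of the commutator subgroup, and
the group is coded in itself.
-/

set_option autoImplicit false
set_option linter.unusedSectionVars false

open FirstOrder FirstOrder.Language Set
open scoped commutatorElement

namespace Pool.Agent.P.MP_d3a22b_lc

variable {G : Type} [Group G] {Q : Type} [CommGroup Q] {V : Type} [AddCommGroup V]
  [Module (MonoidAlgebra ℤ Q) V]

/-- `d` is a derivation over `π` which is injective on the kernel of `π`. -/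
structure Deriv (π : G →* Q) (d : G → V) : Prop where
  surj : Function.Surjective π
  mul : ∀ g h, d (g * h) = d g + MonoidAlgebra.of ℤ Q (π g) • d h
  inj : ∀ a, π a = 1 → d a = 0 → a = 1

variable {π : G →* Q} {d : G → V}

theorem Deriv.one (h : Deriv π d) : d 1 = 0 := by
  have := h.mul 1 1
  simp only [mul_one, map_one, one_smul] at this
  exact left_eq_add.1 this

theorem Deriv.mul_ker (h : Deriv π d) {a : G} (ha : π a = 1) (b : G) : d (a * b) = d a + d b := by
  rw [h.mul, ha, map_one, one_smul]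

theorem Deriv.inv_ker (h : Deriv π d) {a : G} (ha : π a = 1) : d a⁻¹ = - d a := by
  have := h.mul_ker ha a⁻¹
  rw [mul_inv_cancel, h.one] at this
  exact (neg_eq_of_add_eq_zero_right this.symm).symm

theorem Deriv.conj (h : Deriv π d) (g : G) {a : G} (ha : π a = 1) :
    d (g * a * g⁻¹) = MonoidAlgebra.of ℤ Q (π g) • d a := by
  have h1 := h.mul g g⁻¹
  rw [mul_inv_cancel, h.one] at h1
  rw [mul_assoc, h.mul, h.mul_ker ha, smul_add, add_left_comm, ← h1, add_zero]

theorem Deriv.eq_of_ker (h : Deriv π d) {a b : G} (ha : π a = 1) (hb : π b = 1)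
    (e : d a = d b) : a = b := by
  rw [← mul_inv_eq_one]
  apply h.inj
  · simp [ha, hb]
  · rw [h.mul_ker ha, h.inv_ker hb, e, add_neg_cancel]

theorem Deriv.listProd (h : Deriv π d) {α : Type} (l : List α) {f : α → G}
    (hf : ∀ i, π (f i) = 1) :
    π (l.map f).prod = 1 ∧ d (l.map f).prod = (l.map fun i => d (f i)).sum := by
  induction l with
  | nil => simp [h.one]
  | cons a l ih => simp [h.mul_ker (hf a), hf a, ih.1, ih.2]

/-- The image of the kernel of `π` under the derivation. -/
def Deriv.kerMod (h : Deriv π d) : Submodule (MonoidAlgebra ℤ Q) V :=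
  let S : AddSubgroup V :=
    { carrier := {v | ∃ a, π a = 1 ∧ d a = v}
      zero_mem' := ⟨1, map_one π, h.one⟩
      add_mem' := by
        rintro _ _ ⟨a, ha, rfl⟩ ⟨b, hb, rfl⟩
        exact ⟨a * b, by simp [ha, hb], h.mul_ker ha b⟩
      neg_mem' := by
        rintro _ ⟨a, ha, rfl⟩
        exact ⟨a⁻¹, by simp [ha], h.inv_ker ha⟩ }
  { carrier := {v | ∃ a, π a = 1 ∧ d a = v}
    zero_mem' := S.zero_mem
    add_mem' := S.add_mem
    smul_mem' := by
      rintro ρ _ ⟨a, ha, rfl⟩
      change ρ • d a ∈ S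
      induction ρ using MonoidAlgebra.induction_linear with
      | zero => simp
      | add f g hf hg => rw [add_smul]; exact S.add_mem hf hg
      | single q k =>
        obtain ⟨g, rfl⟩ := h.surj q
        rw [← MonoidAlgebra.smul_of, smul_assoc]
        exact S.zsmul_mem ⟨g * a * g⁻¹, by simp [ha], h.conj g ha⟩ k }

theorem Deriv.mem_kerMod (h : Deriv π d) {v : V} : v ∈ h.kerMod ↔ ∃ a, π a = 1 ∧ d a = v :=
  Iff.rfl

theorem map_commutator_eq_one (π : G →* Q) (g h : G) : π ⁅g, h⁆ = 1 := by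
  rw [map_commutatorElement, commutatorElement_eq_one_iff_mul_comm, mul_comm]

/-- The commutator subgroup has finite width. -/
theorem Deriv.ker_iff (h : Deriv π d) {n : ℕ} {a : Fin n → G}
    (ha : Subgroup.closure (range a) = ⊤) (hker : ∀ g, π g = 1 → g ∈ commutator G) (g : G) :
    π g = 1 ↔ ∃ u v : Fin n → G, g = ((List.finRange n).map fun i => ⁅a i, u i⁆).prod *
      ((List.finRange n).map fun i => ⁅a i, v i⁆).prod := by
  classical
  constructor
  swap
  · rintro ⟨u, v, rfl⟩
    rw [map_mul, (h.listProd _ fun i => map_commutator_eq_one π _ _).1,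
      (h.listProd _ fun i => map_commutator_eq_one π _ _).1, mul_one]
  let R := MonoidAlgebra ℤ Q
  let IA : Submodule R V :=
    { carrier := {v | ∃ w : Fin n → V, (∀ i, w i ∈ h.kerMod) ∧
        v = ∑ i, (MonoidAlgebra.of ℤ Q (π (a i)) - 1) • w i}
      zero_mem' := ⟨0, fun _ => zero_mem _, by simp⟩
      add_mem' := by
        rintro _ _ ⟨w, hw, rfl⟩ ⟨w', hw', rfl⟩
        exact ⟨w + w', fun i => add_mem (hw i) (hw' i), by
          simp [smul_add, Finset.sum_add_distrib]⟩
      smul_mem' := by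
        rintro c _ ⟨w, hw, rfl⟩
        exact ⟨c • w, fun i => Submodule.smul_mem _ _ (hw i), by
          simp only [Finset.smul_sum, Pi.smul_apply, smul_comm c]⟩ }
  have h1 : ∀ g : G, ∀ v ∈ h.kerMod, (MonoidAlgebra.of ℤ Q (π g) - 1) • v ∈ IA := by
    intro g
    have hg : g ∈ Subgroup.closure (range a) := ha ▸ Subgroup.mem_top g
    induction hg using Subgroup.closure_induction with
    | mem x hx =>
      obtain ⟨i, rfl⟩ := hx
      intro v hv
      refine ⟨Pi.single i v, fun j => ?_, ?_⟩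
      · by_cases hj : j = i
        · subst hj; simpa using hv
        · simp [hj]
      · rw [Finset.sum_eq_single i] <;> simp +contextual
    | one => intro v _; simp only [map_one, sub_self, zero_smul]; exact zero_mem _
    | mul x y _ _ hx hy =>
      intro v hv
      convert add_mem (hx _ (Submodule.smul_mem _ (MonoidAlgebra.of ℤ Q (π y)) hv)) (hy v hv)
        using 1
      rw [smul_smul, ← add_smul, map_mul, map_mul]
      congr 1
      ring
    | inv x _ hx =>
      intro v hv
      convert neg_mem (hx _ (Submodule.smul_mem _ (MonoidAlgebra.of ℤ Q (π x⁻¹)) hv)) using 1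
      rw [smul_smul, ← neg_smul, sub_mul, ← map_mul, ← map_mul, mul_inv_cancel, map_one, map_one]
      congr 1
      ring
  have hκ : ∀ x y : G, d ⁅x, y⁆ ∈ h.kerMod := fun x y => ⟨_, map_commutator_eq_one π _ _, rfl⟩
  have h2 : ∀ x y y' : G, d ⁅x, y * y'⁆ - d ⁅x, y⁆ - d ⁅x, y'⁆ ∈ IA := by
    intro x y y'
    have e : ⁅x, y * y'⁆ = ⁅x, y⁆ * (y * ⁅x, y'⁆ * y⁻¹) := by
      simp only [commutatorElement_def]; group
    rw [e, h.mul_ker (map_commutator_eq_one π _ _), h.conj _ (map_commutator_eq_one π _ _)]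
    convert h1 y _ (hκ x y') using 1
    rw [sub_smul, one_smul]
    abel
  let N : Subgroup G :=
    { carrier := {g | π g = 1 ∧ ∃ u : Fin n → G, d g - ∑ i, d ⁅a i, u i⁆ ∈ IA}
      one_mem' := ⟨map_one π, 1, by simp [h.one]⟩
      mul_mem' := by
        rintro x y ⟨hx, u, hu⟩ ⟨hy, u', hu'⟩
        refine ⟨by simp [hx, hy], u * u', ?_⟩
        convert sub_mem (add_mem hu hu')
          (Submodule.sum_mem IA (t := Finset.univ) fun i _ => h2 (a i) (u i) (u' i)) using 1
        simp only [h.mul_ker hx, Finset.sum_sub_distrib, Pi.mul_apply]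
        abel
      inv_mem' := by
        rintro x ⟨hx, u, hu⟩
        refine ⟨by simp [hx], u⁻¹, ?_⟩
        convert add_mem (neg_mem hu)
          (Submodule.sum_mem IA (t := Finset.univ) fun i _ => h2 (a i) (u i) (u i)⁻¹) using 1
        simp only [h.inv_ker hx, Finset.sum_sub_distrib, Pi.inv_apply, mul_inv_cancel,
          commutatorElement_one_right, h.one, Finset.sum_const_zero]
        abel }
  have hconj : ∀ x ∈ N, ∀ g : G, g * x * g⁻¹ ∈ N := by
    rintro x ⟨hx, u, hu⟩ g
    refine ⟨by simp [hx], u, ?_⟩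
    convert add_mem hu (h1 g _ ⟨x, hx, rfl⟩) using 1
    rw [h.conj g hx, sub_smul, one_smul]
    abel
  have h3 : commutator G ≤ N := by
    rw [commutator_def, Subgroup.commutator_le]
    rintro g - y -
    have hg : g ∈ Subgroup.closure (range a) := ha ▸ Subgroup.mem_top g
    induction hg using Subgroup.closure_induction with
    | mem x hx =>
      obtain ⟨i, rfl⟩ := hx
      refine ⟨map_commutator_eq_one π _ _, Pi.mulSingle i y, ?_⟩
      rw [Finset.sum_eq_single i] <;> simp +contextual [h.one]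
    | one => simpa using N.one_mem
    | mul x x' _ _ hx hx' =>
      have e : ⁅x * x', y⁆ = x * ⁅x', y⁆ * x⁻¹ * ⁅x, y⁆ := by
        simp only [commutatorElement_def]; group
      rw [e]
      exact N.mul_mem (hconj _ hx' x) hx
    | inv x _ hx =>
      have e : ⁅x⁻¹, y⁆ = x⁻¹ * ⁅x, y⁆⁻¹ * x⁻¹⁻¹ := by
        simp only [commutatorElement_def]; group
      rw [e]
      exact hconj _ (N.inv_mem hx) _
  intro hg
  obtain ⟨-, u, w, hw, hu⟩ := h3 (hker g hg)
  choose v hv hdv using hw
  refine ⟨u, v, h.eq_of_ker hg ?_ ?_⟩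
  · rw [map_mul, (h.listProd _ fun i => map_commutator_eq_one π _ _).1,
      (h.listProd _ fun i => map_commutator_eq_one π _ _).1, mul_one]
  · rw [h.mul_ker (h.listProd _ fun i => map_commutator_eq_one π _ _).1,
      (h.listProd _ fun i => map_commutator_eq_one π _ _).2,
      (h.listProd _ fun i => map_commutator_eq_one π _ _).2, ← Fin.sum_univ_def,
      ← Fin.sum_univ_def, sub_eq_iff_eq_add'.1 hu]
    congr 1
    refine Finset.sum_congr rfl fun i _ => ?_
    rw [commutatorElement_def, h.mul_ker (by simp [hv i]), h.conj _ (hv i), h.inv_ker (hv i),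
      hdv, sub_smul, one_smul, sub_eq_add_neg]

open Classical in
/-- The exponent of `π g` to the base `x`. -/
noncomputable def cnt (π : G →* Q) (x : Q) (g : G) : ℕ :=
  if h : ∃ k : ℕ, x ^ k = π g then h.choose else 0

theorem cnt_eq_iff {x : Q} (hx : ¬ IsOfFinOrder x) (g : G) (k : ℕ) :
    (x ^ k = π g ∨ (¬ (∃ j : ℕ, x ^ j = π g) ∧ k = 0)) ↔ cnt π x g = k := by
  have hinj := injective_pow_iff_not_isOfFinOrder.2 hx
  by_cases h : ∃ j : ℕ, x ^ j = π g
  · simp only [cnt, h, dite_true, not_true, false_and, or_false]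
    constructor
    · intro h2
      exact hinj (h.choose_spec.trans h2.symm)
    · rintro rfl
      exact h.choose_spec
  · simp only [cnt, h, dite_false, not_false_eq_true, true_and]
    constructor
    · rintro (h2 | h2)
      · exact absurd ⟨k, h2⟩ h
      · exact h2.symm
    · exact fun h2 => Or.inr h2.symm

theorem cnt_surjective (hπ : Function.Surjective π) {x : Q} (hx : ¬ IsOfFinOrder x) :
    Function.Surjective (cnt π x) := fun k => by
  obtain ⟨g, hg⟩ := hπ (x ^ k)
  exact ⟨g, (cnt_eq_iff hx g k).1 (Or.inl hg.symm)⟩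

variable {L : FirstOrder.Language.{0, 0}} {M : Type} [L.Structure M] [Nontrivial M]

theorem defF_cnt [Pres L M ℕ] [DefAdd L M ℕ] [DefMul L M ℕ] [Pres L M G] [Pres L M Q]
    [DefMul L M Q] [Coded L M Q] (hπ : DefF L M π) {x : Q} (hx : ¬ IsOfFinOrder x) :
    DefF L M (cnt π x) :=
  DefF.of_graph (P := fun p : G × ℕ => x ^ p.2 = π p.1 ∨ (¬ (∃ j : ℕ, x ^ j = π p.1) ∧ p.2 = 0))
    (by fun_prop) (cnt_eq_iff hx)

theorem Deriv.defF_ker (h : Deriv π d) [Pres L M G] [DefMul L M G] {n : ℕ} {a : Fin n → G}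
    (ha : Subgroup.closure (range a) = ⊤) (hker : ∀ g, π g = 1 → g ∈ commutator G) :
    DefF L M (fun g => π g = 1) := by
  let c : (Fin n → G) → G := fun u => ((List.finRange n).map fun i => ⁅a i, u i⁆).prod
  have hc : DefF L M c := DefF.listProd _ fun i => by
    simp only [commutatorElement_def]
    fun_prop
  refine DefF.congr (f := fun g => ∃ u v : Fin n → G, g = c u * c v) ?_
    fun g => propext (h.ker_iff ha hker g).symm
  clear_value c
  fun_prop

/-- The main definability theorem inside the group. -/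
theorem Deriv.gworld (h : Deriv π d) [Pres L M G] [DefMul L M G] [Group.FG Q]
    [Module.Finite (MonoidAlgebra ℤ Q) h.kerMod] (hker : DefF L M (fun g => π g = 1))
    (hfaith : ∀ s : MonoidAlgebra ℤ Q, (∀ a : h.kerMod, s • a = 0) → s = 0)
    (htf : ∀ (k : ℤ) (a : h.kerMod), k ≠ 0 → k • a = 0 → a = 0)
    (hfix : ∀ u w : Q, Indep u w → ∀ a : h.kerMod, (MonoidAlgebra.of ℤ Q u - 1) • a = 0 →
      (MonoidAlgebra.of ℤ Q w - 1) • a = 0 → a = 0) {x y : Q} (hxy : Indep x y) :
    ∃ (_ : Pres L M ℕ) (_ : DefAdd L M ℕ) (_ : DefMul L M ℕ),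
      Coded L M G ∧ DefF L M (cnt π x) := by
  classical
  have hk : DefF L M (fun q : G × G => π q.1 = π q.2) :=
    (hker.comp (f := fun q : G × G => q.1 * q.2⁻¹) (by fun_prop)).congr fun q =>
      propext (by simp [mul_inv_eq_one])
  let _ : Pres L M Q := Pres.ofSurj π h.surj hk
  have hπ : DefF L M π := defF_ofSurj π h.surj hk
  have : DefMul L M Q := ⟨DefF.binop_of_surjective hπ h.surj
    ((hπ.comp (f := fun z : G × G => z.1 * z.2) (by fun_prop)).congr fun z => map_mul π _ _)⟩
  let r : G → G := fun g => if π g = 1 then g else 1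
  have hr : DefF L M r := DefF.ite hker DefF.id (DefF.const 1)
  have hr1 : ∀ g, π (r g) = 1 := fun g => by
    by_cases hg : π g = 1 <;> simp [r, hg]
  have hr2 : ∀ g, π g = 1 → r g = g := fun g hg => if_pos hg
  let p : G → h.kerMod := fun g => ⟨d (r g), r g, hr1 g, rfl⟩
  have hps : Function.Surjective p := by
    rintro ⟨_, a, ha, rfl⟩
    exact ⟨a, Subtype.ext (congrArg d (hr2 a ha))⟩
  have hpk : DefF L M (fun q : G × G => p q.1 = p q.2) :=
    DefF.congr (f := fun q => r q.1 = r q.2) (by fun_prop) fun q => propext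
      ⟨fun e => Subtype.ext (congrArg d e),
        fun e => h.eq_of_ker (hr1 _) (hr1 _) (congrArg Subtype.val e)⟩
  let _ : Pres L M h.kerMod := Pres.ofSurj p hps hpk
  have hp : DefF L M p := defF_ofSurj p hps hpk
  have : DefAdd L M h.kerMod := ⟨DefF.binop_of_surjective hp hps
    ((hp.comp (f := fun z : G × G => r z.1 * r z.2) (by fun_prop)).congr fun z =>
      Subtype.ext (by
        change d (r (r z.1 * r z.2)) = d (r z.1) + d (r z.2)
        rw [hr2 _ (by simp [hr1]), h.mul_ker (hr1 _)]))⟩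
  have hact : DefF L M (fun q : Q × h.kerMod => MonoidAlgebra.of ℤ Q q.1 • q.2) :=
    DefF.of_comp_surjective (p := fun z : G × G => (π z.1, p z.2)) (by fun_prop)
      (h.surj.prodMap hps)
      ((hp.comp (f := fun z : G × G => z.1 * r z.2 * z.1⁻¹) (by fun_prop)).congr fun z =>
        Subtype.ext (by
          change d (r (z.1 * r z.2 * z.1⁻¹)) = MonoidAlgebra.of ℤ Q (π z.1) • d (r z.2)
          rw [hr2 _ (by simp [hr1]), h.conj _ (hr1 _)]))
  have hdiv : DefF L M (fun q : Q × Q => q.1 ∈ Subgroup.zpowers q.2) := by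
    have key : ∀ act : Q × h.kerMod → h.kerMod, DefF L M act →
        DefF L M (fun q : Q × Q => All fun a : h.kerMod => ∃ b : h.kerMod,
          act (q.1, a) - a = act (q.2, b) - b) := fun act hact => by fun_prop
    refine (key _ hact).congr fun q => propext ?_
    rw [mem_zpowers_iff_of_faithful (A := h.kerMod) hfaith]
    simp only [All, sub_smul, one_smul]
  obtain ⟨_, _, _, hz⟩ := exists_pres_int_of_zpowers hdiv hxy
  obtain ⟨iN, _, _, _⟩ := exists_pres_nat (L := L) (M := M)
  have : Coded L M Q := coded_of_zpow hz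
  obtain ⟨_, _, _, _, hsingle⟩ := exists_pres_groupRing (L := L) (M := M) Q
  obtain ⟨z, hzreg⟩ := exists_regular_element (A := h.kerMod) hfix hxy
  have : DefSMul L M ℤ h.kerMod := defSMul_int hact hzreg
  have : DefSMul L M (MonoidAlgebra ℤ Q) h.kerMod := defSMul_groupRing hsingle hact htf
  have : Coded L M h.kerMod := coded_module (R := MonoidAlgebra ℤ Q)
  obtain ⟨t, rfl⟩ := h.surj z
  refine ⟨iN, inferInstance, inferInstance, ?_, defF_cnt hπ hxy.not_isOfFinOrder⟩
  refine Coded.of_injective (f := fun g : G => (π g, p (g * t * g⁻¹ * t⁻¹))) (by fun_prop) ?_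
  intro g g' e
  obtain ⟨e1, e2⟩ := Prod.ext_iff.1 e
  simp only at e1 e2
  have e3 : g * t * g⁻¹ * t⁻¹ = g' * t * g'⁻¹ * t⁻¹ := by
    have := h.eq_of_ker (hr1 _) (hr1 _) (congrArg Subtype.val e2)
    exact (hr2 _ (map_commutator_eq_one π g t)).symm.trans
      (this.trans (hr2 _ (map_commutator_eq_one π g' t)))
  have e4 : π (g'⁻¹ * g) = 1 := by simp [e1]
  have e5 : t * (g'⁻¹ * g) * t⁻¹ = g'⁻¹ * g := by
    have := mul_right_cancel e3
    calc t * (g'⁻¹ * g) * t⁻¹ = g'⁻¹ * (g' * t * g'⁻¹) * g * t⁻¹ := by group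
      _ = g'⁻¹ * (g * t * g⁻¹) * g * t⁻¹ := by rw [this]
      _ = g'⁻¹ * g := by group
  have e6 := hzreg 1 one_pos ⟨d (g'⁻¹ * g), _, e4, rfl⟩ (Subtype.ext (by
    change (MonoidAlgebra.of ℤ Q (π t) ^ 1 - 1) • d (g'⁻¹ * g) = 0
    rw [pow_one, sub_smul, one_smul, ← h.conj t e4, e5, sub_self]))
  exact (inv_mul_eq_one.1 (h.inj _ e4 (congrArg Subtype.val e6))).symm

end Pool.Agent.P.MP_d3a22b_lc
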