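import Pool.Agent.P.MP_d3a22b_lc.FcA2
import Pool.Agent.P.MP_d3a22b_lc.GWorld2

/-!
Test ideals for every prime of an integral group ring, and definability of the action of the group
ring on an arbitrary finite module.
-/

set_option autoImplicit false
set_option linter.unusedSectionVars false

open FirstOrder FirstOrder.Language Set
open scoped Pointwise

namespace Pool.Agent.P.MP_d3a22b_lc

theorem tests_algebraic {B O : Type} [CommRing B] [IsDomain B] [CommRing O] [IsDomain O]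
    [Algebra B O] [FaithfulSMul B O] [Algebra.FiniteType B O] [Algebra.IsAlgebraic B O] :
    ∃ (K : ℕ) (b : Fin K → O), ∀ a : O, a ≠ 0 → ∃ β : B, β ≠ 0 ∧ ∀ n : Ideal B, n.IsMaximal →
      β ∉ n → a ∉ n.map (algebraMap B O) ∧
        ∀ ρ : O, ∃ c : Fin K → B, ρ - ∑ j, c j • b j ∈ n.map (algebraMap B O) := by
  classical
  obtain ⟨s, hs⟩ := Algebra.FiniteType.out (R := B) (A := O)
  obtain ⟨h, h0, hh⟩ := Algebra.IsAlgebraic.exists_integral_multiples B s
  let O' := Algebra.adjoin B (h • (s : Set O))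
  have hint : ∀ x ∈ h • (s : Set O), IsIntegral B x := by
    rintro _ ⟨x, hx, rfl⟩
    exact hh x hx
  have hfg : O'.toSubmodule.FG := fg_adjoin_of_finite s.finite_toSet.smul_set hint
  have hpow : ∀ x : O, ∃ k : ℕ, h ^ k • x ∈ O' := fun x =>
    (Algebra.pow_smul_mem_of_smul_subset_of_mem_adjoin h (s : Set O) O' Algebra.subset_adjoin
      (hs ▸ Algebra.mem_top) (O'.algebraMap_mem h)).imp fun k hk => hk k le_rfl
  obtain ⟨K, b, hb⟩ := Submodule.fg_iff_exists_fin_generating_family.1 hfg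
  refine ⟨K, b, fun a ha => ?_⟩
  obtain ⟨β, hβ, a', ha'⟩ := (Algebra.IsAlgebraic.isAlgebraic (R := B) a).exists_nonzero_dvd
    (mem_nonZeroDivisors_of_ne_zero ha)
  refine ⟨h * β, mul_ne_zero h0 hβ, fun n hn hβn => ?_⟩
  have hk : ∀ k : ℕ, h ^ k ∉ n := fun k hk =>
    hβn (n.mul_mem_right _ (hn.isPrime.mem_of_pow_mem _ hk))
  refine ⟨fun han => ?_, fun ρ => ?_⟩
  · have : Algebra.IsIntegral B O' := Algebra.IsIntegral.adjoin hint
    have := hn.isPrime
    obtain ⟨q, -, -, hq⟩ := Ideal.exists_ideal_over_prime_of_isIntegral n (⊥ : Ideal O') (by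
      rw [← RingHom.ker_eq_comap_bot, (RingHom.injective_iff_ker_eq_bot _).1
        (FaithfulSMul.algebraMap_injective B O')]
      exact bot_le)
    let J : Ideal O :=
      { carrier := {x | ∃ k : ℕ, ∃ y ∈ q, (y : O) = h ^ k • x}
        zero_mem' := ⟨0, 0, q.zero_mem, by simp⟩
        add_mem' := by
          rintro x x' ⟨k, y, hy, e⟩ ⟨k', y', hy', e'⟩
          refine ⟨k + k', h ^ k' • y + h ^ k • y', ?_, ?_⟩
          · exact q.add_mem (q.smul_of_tower_mem _ hy) (q.smul_of_tower_mem _ hy')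
          · simp only [Subalgebra.coe_add, Subalgebra.coe_smul, e, e', smul_smul, smul_add, pow_add,
              mul_comm]
        smul_mem' := by
          rintro c x ⟨k, y, hy, e⟩
          obtain ⟨k', hc⟩ := hpow c
          refine ⟨k + k', ⟨_, hc⟩ * y, q.mul_mem_left _ hy, ?_⟩
          simp only [Subalgebra.coe_mul, e, smul_mul_smul_comm, pow_add, smul_eq_mul, mul_comm] }
    have hJ : n.map (algebraMap B O) ≤ J := Ideal.map_le_iff_le_comap.2 fun r hr =>
      ⟨0, algebraMap B O' r, by rwa [← hq] at hr, by simp⟩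
    obtain ⟨k, y, hy, e⟩ := hJ (Ideal.mul_mem_right a' _ han)
    have h1 : y = algebraMap B O' (h ^ k * β) := Subtype.ext (by
      rw [e, ← ha', Algebra.smul_def, ← map_mul]
      rfl)
    have h2 : h ^ k * β ∈ n := by rwa [← hq, Ideal.mem_comap, ← h1]
    exact (hn.isPrime.mem_or_mem h2).elim (hk k) fun h3 => hβn (n.mul_mem_left _ h3)
  · obtain ⟨k, hρ⟩ := hpow ρ
    obtain ⟨c, hc⟩ := (Submodule.mem_span_range_iff_exists_fun B).1 (hb.ge hρ)
    obtain ⟨y, i, hi, e⟩ := hn.exists_inv (hk k)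
    refine ⟨fun j => y * c j, ?_⟩
    simp only [mul_smul, ← Finset.smul_sum, hc]
    rw [smul_smul, eq_sub_of_add_eq e, sub_smul, one_smul, sub_sub_cancel, Algebra.smul_def]
    exact Ideal.mul_mem_right _ _ (Ideal.mem_map_of_mem _ hi)

theorem tests_domain {A O : Type} [CommRing A] [IsDomain A] [CommRing O] [IsDomain O]
    [Algebra A O] [FaithfulSMul A O] [Algebra.FiniteType A O] {S : Set A} (hS : S.Infinite) :
    ∃ (ι : Type) (_ : Fintype ι) (y : ι → O) (K : ℕ) (b : Fin K → O), ∀ a : O, a ≠ 0 →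
      ∃ (k : ι → A) (a₀ : A), (∀ i, k i ∈ S) ∧ a₀ ≠ 0 ∧ ∀ m : Ideal A, m.IsMaximal → a₀ ∉ m →
        a ∉ m.map (algebraMap A O) ⊔ Ideal.span (range fun i => y i - algebraMap A O (k i)) ∧
        ∀ ρ : O, ∃ c : Fin K → A, ρ - ∑ j, c j • b j ∈
          m.map (algebraMap A O) ⊔ Ideal.span (range fun i => y i - algebraMap A O (k i)) := by
  classical
  obtain ⟨s, hs⟩ := Algebra.FiniteType.out (R := A) (A := O)
  have : Algebra.IsAlgebraic (Algebra.adjoin A (s : Set O)) O :=
    ⟨fun x => isAlgebraic_algebraMap (⟨x, hs ▸ Algebra.mem_top⟩ : Algebra.adjoin A (s : Set O))⟩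
  obtain ⟨t, hts, ht⟩ := exists_isTranscendenceBasis_subset (R := A) (s : Set O)
  have := (s.finite_toSet.subset hts).fintype
  let B := Algebra.adjoin A (range ((↑) : t → O))
  have := ht.isAlgebraic
  have : Algebra.FiniteType B O := .of_restrictScalars_finiteType A B O
  obtain ⟨K, b, hb⟩ := tests_algebraic (B := B) (O := O)
  refine ⟨t, inferInstance, (↑), K, b, fun a ha => ?_⟩
  obtain ⟨β, hβ, h⟩ := hb a ha
  let e := ht.1.aevalEquiv
  obtain ⟨k, hk, hk0⟩ : ∃ k ∈ Set.pi univ fun _ : t => S, MvPolynomial.eval k (e.symm β) ≠ 0 := by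
    by_contra! h1
    exact hβ (e.symm.injective ((MvPolynomial.funext_set _ (fun _ => hS)
      (by simpa using h1)).trans (map_zero _).symm))
  let ψ : B →ₐ[A] A := (MvPolynomial.aeval k).comp e.symm.toAlgHom
  refine ⟨k, ψ β, fun i => hk i (mem_univ _), by simpa [ψ] using hk0, fun m hm hβm => ?_⟩
  set I := m.map (algebraMap A O) ⊔ Ideal.span (range fun i : t => (i : O) - algebraMap A O (k i))
  have h1 : ∀ γ : B, (γ : O) - algebraMap A O (ψ γ) ∈ I := by
    intro γ
    obtain ⟨γ, rfl⟩ := e.surjective γ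
    have : (Ideal.Quotient.mkₐ A I).comp (MvPolynomial.aeval ((↑) : t → O)) =
        (Ideal.Quotient.mkₐ A I).comp ((Algebra.ofId A O).comp (MvPolynomial.aeval k)) :=
      MvPolynomial.algHom_ext fun i => by
        simpa using Ideal.Quotient.eq.2 (Ideal.mem_sup_right (Ideal.subset_span ⟨i, rfl⟩) : _ ∈ I)
    rw [show ψ (e γ) = MvPolynomial.aeval k γ by simp [ψ] ]
    exact Ideal.Quotient.eq.1 (AlgHom.congr_fun this γ)
  have h2 : (m.comap ψ).map (algebraMap B O) = I := by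
    refine le_antisymm (Ideal.map_le_iff_le_comap.2 fun γ hγ => ?_) (sup_le ?_ ?_)
    · simpa using add_mem (h1 γ) (Ideal.mem_sup_left (Ideal.mem_map_of_mem _ hγ) : _ ∈ I)
    · refine Ideal.map_le_iff_le_comap.2 fun x hx => ?_
      exact Ideal.mem_map_of_mem (algebraMap B O) (x := algebraMap A B x) (by simpa using hx)
    · rw [Ideal.span_le]
      rintro _ ⟨i, rfl⟩
      have h5 := Ideal.mem_map_of_mem (algebraMap B O) (I := m.comap ψ)
        (x := e (MvPolynomial.X i) - algebraMap A B (k i)) (by simp [ψ, Ideal.mem_comap])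
      rwa [map_sub, ht.1.algebraMap_aevalEquiv, MvPolynomial.aeval_X] at h5
  obtain ⟨h3, h4⟩ := h (m.comap ψ) (Ideal.comap_isMaximal_of_surjective _
    fun x => ⟨algebraMap A B x, by simp⟩) hβm
  rw [h2] at h3 h4
  refine ⟨h3, fun ρ => ?_⟩
  obtain ⟨c, hc⟩ := h4 ρ
  refine ⟨fun j => ψ (c j), ?_⟩
  convert add_mem hc (I.sum_mem (t := Finset.univ) fun j _ => I.mul_mem_right (b j) (h1 (c j)))
    using 1
  simp only [sub_mul, Finset.sum_sub_distrib, Algebra.smul_def]
  exact (sub_add_sub_cancel _ _ _).symm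

section tame

variable {Q : Type} [CommGroup Q]

/-- Combinations of a finite family with monomial coefficients. -/
def Sp {ι : Type} [Fintype ι] (φ : ι → MonoidAlgebra ℤ Q) : Set (MonoidAlgebra ℤ Q) :=
  range fun e : ι → Q × ℤ => ∑ j, MonoidAlgebra.single (e j).1 (e j).2 * φ j

/-- Finite unions of sets of combinations. -/
inductive Tame : Set (MonoidAlgebra ℤ Q) → Prop
  | sp {ι : Type} [Fintype ι] (φ : ι → MonoidAlgebra ℤ Q) : Tame (Sp φ)
  | iUnion {ι : Type} [Finite ι] {W : ι → Set (MonoidAlgebra ℤ Q)} :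
      (∀ i, Tame (W i)) → Tame (⋃ i, W i)

theorem Tame.union {U W : Set (MonoidAlgebra ℤ Q)} (h : Tame U) (h' : Tame W) : Tame (U ∪ W) := by
  rw [union_eq_iUnion]
  exact Tame.iUnion (by rintro (_ | _) <;> assumption)

theorem mem_sp_self (φ : MonoidAlgebra ℤ Q) : φ ∈ Sp fun _ : Unit => φ :=
  ⟨fun _ => (1, 1), by simp [← MonoidAlgebra.one_def]⟩

/-- The prime `P` has enough test ideals. -/
def Tests (P : Ideal (MonoidAlgebra ℤ Q)) : Prop :=
  ∃ W, Tame W ∧ ∃ (κ : Type) (_ : Fintype κ), ∀ ρ a, a ∉ P → ∃ e ∈ W,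
    ∃ g : κ → MonoidAlgebra ℤ Q, (∀ i, g i ∈ W) ∧ P ≤ Ideal.span (range g) ∧
      ρ - e ∈ Ideal.span (range g) ∧ a ∉ Ideal.span (range g)

theorem tests_of_base [Monoid.FG Q] (P : Ideal (MonoidAlgebra ℤ Q)) [P.IsPrime] {A : Type}
    [CommRing A] [IsDomain A] [Algebra A (MonoidAlgebra ℤ Q ⧸ P)]
    [FaithfulSMul A (MonoidAlgebra ℤ Q ⧸ P)] [Algebra.FiniteType A (MonoidAlgebra ℤ Q ⧸ P)]
    {S : Set A} (hS : S.Infinite) (hS' : ∀ s ∈ S, ∃ e : Q × ℤ,
      Ideal.Quotient.mk P (MonoidAlgebra.single e.1 e.2) = algebraMap A _ s)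
    {κ : Type} [Fintype κ] (hA : ∀ a : A, a ≠ 0 → ∃ g : κ → A,
      (∀ t, ∃ s : Fin 3 → A, (∀ i, s i ∈ S) ∧ g t = ∑ i, s i) ∧ (Ideal.span (range g)).IsMaximal ∧
      a ∉ Ideal.span (range g) ∧ ∀ ρ, ∃ s ∈ S, ρ - s ∈ Ideal.span (range g)) : Tests P := by
  have hN : IsNoetherianRing (MonoidAlgebra ℤ Q) := Algebra.FiniteType.isNoetherianRing ℤ _
  obtain ⟨ι, _, y, K, b, h⟩ := tests_domain (O := MonoidAlgebra ℤ Q ⧸ P) hS
  obtain ⟨r, p, hp⟩ := Submodule.fg_iff_exists_fin_generating_family.1 (IsNoetherian.noetherian P)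
  choose l hl using Ideal.Quotient.mk_surjective (I := P)
  refine ⟨((Sp fun _ : Fin 3 => 1) ∪ ⋃ i, Sp ![l (y i), -1]) ∪
    ((Sp fun j => l (b j)) ∪ ⋃ j, Sp fun _ : Unit => p j),
    ((Tame.sp _).union (.iUnion fun _ => .sp _)).union ((Tame.sp _).union (.iUnion fun _ => .sp _)),
    κ ⊕ ι ⊕ Fin r, inferInstance, fun ρ a ha => ?_⟩
  obtain ⟨k, a₀, hk, ha₀, h1⟩ := h _ (mt Ideal.Quotient.eq_zero_iff_mem.1 ha)
  obtain ⟨g, hg, hm, ha₀', h2⟩ := hA a₀ ha₀
  obtain ⟨h3, h4⟩ := h1 _ hm ha₀'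
  obtain ⟨c, hc⟩ := h4 (Ideal.Quotient.mk P ρ)
  choose s hs hgs using hg
  choose es hes using fun t i => hS' _ (hs t i)
  choose ek hek using fun i => hS' _ (hk i)
  choose sc hsc hsc' using fun j => h2 (c j)
  choose ec hec using fun j => hS' _ (hsc j)
  let G : κ ⊕ ι ⊕ Fin r → MonoidAlgebra ℤ Q :=
    Sum.elim (fun t => ∑ i, MonoidAlgebra.single (es t i).1 (es t i).2 * 1)
      (Sum.elim (fun i => l (y i) - MonoidAlgebra.single (ek i).1 (ek i).2) p)
  have hP : P ≤ Ideal.span (range G) := by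
    rw [← hp]
    exact Ideal.span_mono (range_subset_iff.2 fun j => ⟨Sum.inr (Sum.inr j), rfl⟩)
  have hG1 : ∀ t, Ideal.Quotient.mk P (G (Sum.inl t)) = algebraMap A _ (g t) := fun t => by
    simp only [G, Sum.elim_inl, mul_one, map_sum, hes, hgs]
  have hG2 : ∀ i, Ideal.Quotient.mk P (G (Sum.inr (Sum.inl i))) = y i - algebraMap A _ (k i) :=
    fun i => by simp only [G, Sum.elim_inl, Sum.elim_inr, map_sub, hl, hek]
  have hI : (Ideal.span (range G)).map (Ideal.Quotient.mk P) =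
      (Ideal.span (range g)).map (algebraMap A _) ⊔
        Ideal.span (range fun i => y i - algebraMap A _ (k i)) := by
    rw [Ideal.map_span, Ideal.map_span]
    refine le_antisymm (Ideal.span_le.2 ?_) (sup_le (Ideal.span_mono ?_) (Ideal.span_mono ?_))
    · rintro _ ⟨_, ⟨t | i | j, rfl⟩, rfl⟩
      · exact Ideal.mem_sup_left (Ideal.subset_span ⟨_, ⟨t, rfl⟩, (hG1 t).symm⟩)
      · exact Ideal.mem_sup_right (Ideal.subset_span ⟨i, (hG2 i).symm⟩)
      · exact (Ideal.Quotient.eq_zero_iff_mem.2 (hp.le (Submodule.subset_span ⟨j, rfl⟩))).symm ▸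
          zero_mem _
    · rintro _ ⟨_, ⟨t, rfl⟩, rfl⟩
      exact ⟨_, ⟨_, rfl⟩, hG1 t⟩
    · rintro _ ⟨i, rfl⟩
      exact ⟨_, ⟨_, rfl⟩, hG2 i⟩
  refine ⟨_, Or.inr (Or.inl ⟨ec, rfl⟩), G, ?_, hP, ?_,
    fun h5 => h3 (hI ▸ Ideal.mem_map_of_mem _ h5)⟩
  · rintro (t | i | j)
    · exact Or.inl (Or.inl ⟨es t, rfl⟩)
    · exact Or.inl (Or.inr (mem_iUnion.2 ⟨i, ![(1, 1), ek i], by
        simp [G, ← MonoidAlgebra.one_def, sub_eq_add_neg]⟩))
    · exact Or.inr (Or.inr (mem_iUnion.2 ⟨j, mem_sp_self _⟩))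
  · rw [← sup_eq_right.2 hP, ← Ideal.comap_map_quotientMk, Ideal.mem_comap, hI]
    convert add_mem hc (Ideal.sum_mem _ (t := Finset.univ) fun j _ => Ideal.mul_mem_right (b j) _
      (Ideal.mem_sup_left (Ideal.mem_map_of_mem _ (hsc' j)))) using 1
    simp only [map_sub, map_sum, map_mul, hec, hl, sub_mul, Finset.sum_sub_distrib,
      Algebra.smul_def, sub_add_sub_cancel]

open Polynomial in
theorem tests_of_isPrime [Monoid.FG Q] (P : Ideal (MonoidAlgebra ℤ Q)) [P.IsPrime] : Tests P := by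
  have hN : IsNoetherianRing (MonoidAlgebra ℤ Q) := Algebra.FiniteType.isNoetherianRing ℤ _
  let O := MonoidAlgebra ℤ Q ⧸ P
  have hft : ∀ {A : Type} [CommRing A] (g : A →+* O), g.FiniteType := fun g =>
    RingHom.FiniteType.of_comp_finiteType (f := Int.castRingHom _) (by
      rw [RingHom.ext_int (g.comp _) ((Ideal.Quotient.mk P).comp (Int.castRingHom _))]
      refine RingHom.FiniteType.comp_surjective ?_ Ideal.Quotient.mk_surjective
      exact RingHom.finiteType_algebraMap.2 (finiteType_groupRing Q))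
  have hsg : ∀ (q : Q) (k : ℤ), Ideal.Quotient.mk P (MonoidAlgebra.single q k) =
      k * Ideal.Quotient.mk P (MonoidAlgebra.of ℤ Q q) := fun q k => by
    rw [← MonoidAlgebra.smul_of, map_zsmul, zsmul_eq_mul]
  obtain ⟨p, hp⟩ := CharP.exists O
  rcases CharP.char_is_prime_or_zero O p with hp' | rfl
  · have := Fact.mk hp'
    let _ := ZMod.algebra O p
    by_cases h : ∃ q, Transcendental (ZMod p) (Ideal.Quotient.mk P (MonoidAlgebra.of ℤ Q q))
    · obtain ⟨q, hq⟩ := h
      let ev := (aeval (R := ZMod p) (Ideal.Quotient.mk P (MonoidAlgebra.of ℤ Q q))).toRingHom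
      let _ := ev.toAlgebra
      have : FaithfulSMul (ZMod p)[X] O :=
        (faithfulSMul_iff_algebraMap_injective _ _).2 (transcendental_iff_injective.1 hq)
      have : Algebra.FiniteType (ZMod p)[X] O := hft ev
      obtain ⟨c, hc⟩ := exists_sparse_maximal p
      refine tests_of_base P (S := range fun e : ℕ × ℤ => (e.2 : (ZMod p)[X]) * X ^ e.1)
        (infinite_of_injective_forall_mem (f := fun k : ℕ => X ^ k)
          (fun k k' h => by simpa using congrArg natDegree h) fun k => ⟨(k, 1), by simp⟩) ?_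
        (κ := Option (Fin c)) fun a ha => ?_
      · rintro _ ⟨e, rfl⟩
        refine ⟨(q ^ e.1, e.2), ?_⟩
        rw [hsg, map_pow, map_pow]
        change _ = ev _
        simp [ev]
      · obtain ⟨g, h1, h2, h3, h4⟩ := hc a ha
        refine ⟨g, fun t => ?_, h2, h3, fun ρ => ?_⟩
        · obtain ⟨i, j, ε, h5⟩ := h1 t
          refine ⟨fun u => _, fun u => ⟨![(i, 1), (0, -1), (j, -ε)] u, rfl⟩, ?_⟩
          simp [h5, Fin.sum_univ_three, sub_eq_add_neg]
        · obtain ⟨k, ε, h5⟩ := h4 ρ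
          exact ⟨_, ⟨(k, ε), rfl⟩, h5⟩
    · have : Algebra.IsIntegral (ZMod p) O := ⟨fun x => by
        obtain ⟨x, rfl⟩ := Ideal.Quotient.mk_surjective x
        induction x using MonoidAlgebra.induction_linear with
        | zero => simpa using isIntegral_zero
        | add f g hf hg => simpa using hf.add hg
        | single q k =>
          rw [hsg, ← map_intCast (algebraMap (ZMod p) O)]
          exact isIntegral_algebraMap.mul (not_not.1 (not_exists.1 h q)).isIntegral⟩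
      have : Algebra.FiniteType (ZMod p) O := hft _
      have : Module.Finite (ZMod p) O := Algebra.IsIntegral.finite
      have : Finite O := Module.finite_of_finite (ZMod p)
      obtain ⟨r, g, hg⟩ :=
        Submodule.fg_iff_exists_fin_generating_family.1 (IsNoetherian.noetherian P)
      choose l hl using Ideal.Quotient.mk_surjective (I := P)
      refine ⟨(⋃ o : O, Sp fun _ : Unit => l o) ∪ ⋃ j, Sp fun _ : Unit => g j,
        (Tame.iUnion fun _ => .sp _).union (.iUnion fun _ => .sp _), Fin r, inferInstance,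
        fun ρ a ha => ⟨l (Ideal.Quotient.mk P ρ), Or.inl (mem_iUnion.2 ⟨_, mem_sp_self _⟩), g,
          fun j => Or.inr (mem_iUnion.2 ⟨j, mem_sp_self _⟩), hg.ge,
          hg.ge (Ideal.Quotient.eq.1 (hl _).symm), fun h => ha (hg.le h)⟩⟩
  · have := CharP.charP_to_charZero O
    have : Algebra.FiniteType ℤ O := RingHom.finiteType_algebraMap.1 (hft _)
    refine tests_of_base P (A := ℤ) infinite_univ 
      (fun s _ => ⟨(1, s), by rw [hsg, map_one, map_one, mul_one, eq_intCast]⟩)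
      (κ := Unit) fun a ha => ?_
    obtain ⟨p, hp1, hp⟩ := Nat.exists_infinite_primes (a.natAbs + 1)
    refine ⟨fun _ => p, fun _ => ⟨![p, 0, 0], fun _ => mem_univ _, by simp [Fin.sum_univ_three]⟩,
      ?_, fun h => ?_, fun ρ => ⟨ρ, mem_univ _, by simp⟩⟩
    · rw [range_const]
      exact PrincipalIdealRing.isMaximal_of_irreducible (Nat.prime_iff_prime_int.1 hp).irreducible
    · rw [range_const] at h
      have h2 := Int.natAbs_le_of_dvd_ne_zero (Ideal.mem_span_singleton.1 h) ha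
      simp only [Int.natAbs_natCast] at h2
      omega

end tame

end Pool.Agent.P.MP_d3a22b_lc
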