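import Pool.Agent.P.MP_d3a22b_lc.FcB1

/-!
Definability inside a metabelian group whose commutator subgroup is a faithful module with
finitely many finite orbits.
-/

set_option autoImplicit false
set_option linter.unusedSectionVars false

open FirstOrder FirstOrder.Language Set
open scoped Pointwise commutatorElement

namespace Pool.Agent.P.MP_d3a22b_lc

theorem exists_dual_quotient {R A : Type} [CommRing R] (P : Ideal R) [P.IsPrime] [AddCommGroup A]
    [Module R A] [Module.Finite R A] (hP : Module.IsTorsionBySet R A P) {u : A}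
    (hu : ∀ r : R, r • u = 0 → r ∈ P) : ∃ l : A →ₗ[R] R ⧸ P, l u ≠ 0 := by
  let _ := hP.module
  have : IsScalarTower R (R ⧸ P) A := hP.isScalarTower
  have : Module.Finite (R ⧸ P) A := Module.Finite.of_restrictScalars_finite R _ _
  obtain ⟨l, hl⟩ := exists_dual_ne_zero_of_not_torsion (B := R ⧸ P) (a := u) fun β hβ => by
    obtain ⟨r, rfl⟩ := Ideal.Quotient.mk_surjective β
    exact Ideal.Quotient.eq_zero_iff_mem.2 (hu r hβ)
  exact ⟨l.restrictScalars R, hl⟩

section orbit

variable {Q : Type} [CommGroup Q] (A : Type) [AddCommGroup A] [Module (MonoidAlgebra ℤ Q) A]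

variable (Q) in
/-- The elements with a finite orbit. -/
def finOrb : Submodule (MonoidAlgebra ℤ Q) A where
  carrier := {a | (range fun q => MonoidAlgebra.of ℤ Q q • a).Finite}
  zero_mem' := by simp
  add_mem' ha hb := (Set.Finite.add ha hb).subset
    (range_subset_iff.2 fun q => ⟨_, ⟨q, rfl⟩, _, ⟨q, rfl⟩, (smul_add _ _ _).symm⟩)
  smul_mem' c _ ha := (Set.Finite.image (c • ·) ha).subset
    (range_subset_iff.2 fun q => ⟨_, ⟨q, rfl⟩, smul_comm _ _ _⟩)

variable {A}

theorem exists_regular_of_finOrb [Group.FG Q] [Module.Finite (MonoidAlgebra ℤ Q) A]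
    (h : ∀ a ∈ finOrb Q A, a = 0) :
    ∃ z : Q, ∀ M : ℕ, 0 < M → ∀ a : A, (MonoidAlgebra.of ℤ Q z ^ M - 1) • a = 0 → a = 0 := by
  let R := MonoidAlgebra ℤ Q
  have hN : IsNoetherianRing R := Algebra.FiniteType.isNoetherianRing ℤ R
  let χ : ∀ P : Ideal R, Q →* (R ⧸ P)ˣ := fun P =>
    ((Ideal.Quotient.mk P).toMonoidHom.comp (MonoidAlgebra.of ℤ Q)).toHomUnits
  by_contra! hcon
  obtain ⟨P, hP, hfi⟩ := Subgroup.exists_finiteIndex_of_leftCoset_cover
    (H := fun P => (CommGroup.torsion (R ⧸ P)ˣ).comap (χ P)) (g := fun _ => 1)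
    (s := (associatedPrimes.finite R A).toFinset) (eq_univ_of_forall fun z => by
      obtain ⟨M, hM, a, h0, ha⟩ := hcon z
      have : MonoidAlgebra.of ℤ Q z ^ M - 1 ∈ ⋃ p ∈ associatedPrimes R A, (p : Set R) := by
        rw [biUnion_associatedPrimes_eq_zero_divisors]
        exact ⟨a, ha, h0⟩
      obtain ⟨P, hP, hm⟩ := mem_iUnion₂.1 this
      refine mem_iUnion₂.2 ⟨P, by simpa using hP, ?_⟩
      rw [one_smul]
      refine isOfFinOrder_iff_pow_eq_one.2 ⟨M, hM, Units.ext ?_⟩
      exact (map_pow (Ideal.Quotient.mk P) _ _).symm.trans (Ideal.Quotient.eq.2 hm))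
  obtain ⟨hprime, a, ha⟩ := isAssociatedPrime_iff.1 ((Finite.mem_toFinset _).1 hP)
  have : Finite (χ P).range := CommGroup.finite_of_fg_isMulTorsion _ (by
    rintro ⟨_, q, rfl⟩
    obtain ⟨k, hk, -, hq⟩ := Subgroup.exists_pow_mem_of_index_ne_zero hfi.index_ne_zero q
    rw [← (Subgroup.subtype_injective _).isOfFinOrder_iff]
    exact IsOfFinOrder.of_pow (map_pow (χ P) q k ▸ hq) hk.ne')
  choose σ hσ using fun u : (χ P).range => MonoidHom.mem_range.1 u.2
  have ha0 : a = 0 := h a ((finite_range fun u : (χ P).range =>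
      MonoidAlgebra.of ℤ Q (σ u) • a).subset (range_subset_iff.2 fun q => ⟨⟨_, q, rfl⟩, by
    have h1 : MonoidAlgebra.of ℤ Q (σ ⟨_, q, rfl⟩) - MonoidAlgebra.of ℤ Q q ∈ P :=
      Ideal.Quotient.eq.1 (congrArg Units.val (hσ ⟨_, q, rfl⟩))
    have h2 := Submodule.mem_colon_singleton.1 (ha.le h1)
    rwa [sub_smul, Submodule.mem_bot, sub_eq_zero] at h2⟩))
  apply hprime.ne_top
  rw [ha, ha0, Ideal.eq_top_iff_one, Submodule.mem_colon_singleton]
  simp

theorem exists_regular_mod_finOrb [Group.FG Q] [Module.Finite (MonoidAlgebra ℤ Q) A]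
    (h : (finOrb Q A : Set A).Finite) : ∃ z : Q, ∀ M : ℕ, 0 < M → ∀ a : A ⧸ finOrb Q A,
      (MonoidAlgebra.of ℤ Q z ^ M - 1) • a = 0 → a = 0 := by
  refine exists_regular_of_finOrb fun a ha => ?_
  obtain ⟨a, rfl⟩ := Submodule.Quotient.mk_surjective _ a
  refine (Submodule.Quotient.mk_eq_zero _).2 (Set.Finite.of_finite_fibers (finOrb Q A).mkQ
    (Set.Finite.subset ha ?_) ?_)
  · rintro _ ⟨_, ⟨q, rfl⟩, rfl⟩
    exact ⟨q, rfl⟩
  · rintro _ ⟨x, -, rfl⟩
    refine (h.image (· + x)).subset fun y hy => ⟨y - x, (Submodule.Quotient.eq _).1 hy.2, ?_⟩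
    simp

end orbit

variable {L : FirstOrder.Language.{0, 0}} {M : Type} [L.Structure M] [Nontrivial M]

theorem defF_nsmul {A : Type} [AddMonoid A] [Pres L M A] [DefAdd L M A] (k : ℕ) :
    DefF L M (fun a : A => k • a) := by
  induction k with
  | zero => simpa using DefF.const 0
  | succ k ih => simpa [succ_nsmul] using ih.add DefF.id

theorem defF_pow {G : Type} [Monoid G] [Pres L M G] [DefMul L M G] (k : ℕ) :
    DefF L M (fun a : G => a ^ k) := by
  induction k with
  | zero => simpa using DefF.const 1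
  | succ k ih => simpa [pow_succ] using ih.mul DefF.id

section dev

variable [Pres L M ℕ] [DefAdd L M ℕ] [DefMul L M ℕ]
variable [Pres L M ℤ] [DefAdd L M ℤ] [DefMul L M ℤ] [DefCast L M]
variable {Q : Type} [CommGroup Q] [Pres L M Q] [DefMul L M Q] [Coded L M Q]
  {A : Type} [AddCommGroup A] [Module (MonoidAlgebra ℤ Q) A] [Pres L M A] [DefAdd L M A]

theorem defSMul_int_of_finite [Monoid.FG Q] [Module.Finite (MonoidAlgebra ℤ Q) A]
    (hact : DefF L M (fun p : Q × A => MonoidAlgebra.of ℤ Q p.1 • p.2))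
    {F : Submodule (MonoidAlgebra ℤ Q) A} [Finite F] {z : Q}
    (hz : ∀ M : ℕ, 0 < M → ∀ a : A ⧸ F, (MonoidAlgebra.of ℤ Q z ^ M - 1) • a = 0 → a = 0) :
    DefSMul L M ℤ A := by
  have hk : DefF L M (fun q : A × A => F.mkQ q.1 = F.mkQ q.2) :=
    (DefF.exists_fin (P := fun (i : F) (q : A × A) => q.1 - q.2 = i) fun i => by fun_prop).congr
      fun q => propext (by simp [Submodule.Quotient.eq])
  let _ : Pres L M (A ⧸ F) := Pres.ofSurj F.mkQ F.mkQ_surjective hk
  have hp : DefF L M F.mkQ := defF_ofSurj F.mkQ F.mkQ_surjective hk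
  have : DefAdd L M (A ⧸ F) := ⟨DefF.binop_of_surjective hp F.mkQ_surjective
    ((hp.comp (f := fun z : A × A => z.1 + z.2) (by fun_prop)).congr fun z => map_add _ _ _)⟩
  have : DefSMul L M ℤ (A ⧸ F) := defSMul_int (DefF.of_comp_surjective
    (p := fun z : Q × A => (z.1, F.mkQ z.2)) (DefF.id.fst.prodMk (hp.comp DefF.id.snd))
    (Function.surjective_id.prodMap F.mkQ_surjective) (hp.comp hact)) hz
  have he : 0 < Nat.card F := Nat.card_pos
  refine ⟨DefF.of_graph (P := fun p : (ℤ × A) × A => ∃ r : Fin (Nat.card F), ∃ c : ℤ × A,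
    p.1.1 = Nat.card F * c.1 + r ∧ F.mkQ c.2 = c.1 • F.mkQ p.1.2 ∧
      Nat.card F • c.2 + (r : ℕ) • p.1.2 = p.2) (DefF.exists_fin fun r => DefF.exists ?_) ?_⟩
  · exact DefF.and (by fun_prop) (DefF.and ((hp.comp (by fun_prop)).eq
      (DefF.smul (by fun_prop) (hp.comp (by fun_prop))))
      ((((defF_nsmul _).comp (by fun_prop)).add ((defF_nsmul _).comp (by fun_prop))).eq
        (by fun_prop)))
  · rintro ⟨k, a⟩ b
    constructor
    · rintro ⟨r, ⟨k', c⟩, h0, h1, h3⟩
      simp only at h0 h1 h3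
      subst h0 h3
      rw [← map_zsmul] at h1
      have h2 : Nat.card F • (c - k' • a) = 0 := congrArg Subtype.val
        (card_nsmul_eq_zero' (x := (⟨_, (Submodule.Quotient.eq _).1 h1⟩ : F)))
      rw [smul_sub, sub_eq_zero] at h2
      simp only [h2, add_smul, mul_smul, natCast_zsmul]
    · rintro rfl
      have h1 := Int.emod_nonneg k (Nat.cast_ne_zero.2 he.ne')
      have h2 := Int.emod_lt_of_pos k (Nat.cast_pos.2 he)
      have h3 := Int.mul_ediv_add_emod k (Nat.card F)
      refine ⟨⟨(k % Nat.card F).toNat, by omega⟩, (k / Nat.card F, (k / Nat.card F) • a),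
        by simp only; omega, map_zsmul _ _ _, ?_⟩
      simp only [← natCast_zsmul, ← mul_smul, ← add_smul, Int.toNat_of_nonneg h1, h3]

variable [DefSMul L M ℤ A] [Pres L M (MonoidAlgebra ℤ Q)] [DefAdd L M (MonoidAlgebra ℤ Q)]
  [DefMul L M (MonoidAlgebra ℤ Q)]

theorem Tame.defF (hsingle : DefF L M (fun p : Q × ℤ => MonoidAlgebra.single p.1 p.2))
    (hact : DefF L M (fun p : Q × A => MonoidAlgebra.of ℤ Q p.1 • p.2))
    {W : Set (MonoidAlgebra ℤ Q)} (hW : Tame W) :
    DefF L M (fun p : MonoidAlgebra ℤ Q × A × A => p.1 ∈ W ∧ p.1 • p.2.1 = p.2.2) := by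
  induction hW with
  | @sp ι _ φ =>
    refine DefF.congr (f := fun p => ∃ e : ι → Q × ℤ,
      ∑ j, MonoidAlgebra.single (e j).1 (e j).2 * φ j = p.1 ∧
      ∑ j, (e j).2 • MonoidAlgebra.of ℤ Q (e j).1 • φ j • p.2.1 = p.2.2)
      (DefF.exists (DefF.and ?_ ?_)) fun p => propext ?_
    · exact (DefF.finsetSum _ fun j => (hsingle.comp (by fun_prop)).mul (DefF.const _)).eq
        (by fun_prop)
    · refine (DefF.finsetSum _ fun j => DefF.smul (by fun_prop) (hact.comp
        (DefF.prodMk (by fun_prop) ((defF_fixed_smul hact (φ j)).comp ?_)))).eq ?_ <;> fun_prop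
    · simp only [Sp, mem_range, ← exists_and_right]
      refine exists_congr fun e => and_congr_right fun h => ?_
      simp only [← h, Finset.sum_smul, mul_smul, ← MonoidAlgebra.smul_of, smul_assoc]
  | iUnion _ ih =>
    exact (DefF.exists_fin ih).congr fun p => propext (by simp)

/-- The action of the group ring on any finite module is definable. -/
theorem defSMul_groupRing' [Monoid.FG Q] [Module.Finite (MonoidAlgebra ℤ Q) A]
    (hsingle : DefF L M (fun p : Q × ℤ => MonoidAlgebra.single p.1 p.2))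
    (hact : DefF L M (fun p : Q × A => MonoidAlgebra.of ℤ Q p.1 • p.2)) :
    DefSMul L M (MonoidAlgebra ℤ Q) A := by
  let R := MonoidAlgebra ℤ Q
  have hN : IsNoetherianRing R := Algebra.FiniteType.isNoetherianRing ℤ R
  suffices key : ∀ N : Submodule R A, DefF L M (fun a => a ∈ N) →
      DefF L M (fun p : R × A × A => p.2.2 - p.1 • p.2.1 ∈ N) from
    ⟨DefF.of_graph ((key ⊥ ((DefF.id.eq (DefF.const 0)).congr (by simp))).comp
      (f := fun p : (R × A) × A => (p.1.1, p.1.2, p.2)) (by fun_prop))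
      fun x y => by simp [sub_eq_zero, eq_comm]⟩
  intro N
  induction N using IsNoetherian.induction with
  | _ N ih =>
  intro hNd
  by_cases htop : ∀ a, a ∈ N
  · exact (DefF.const True).congr fun p => by simp [htop]
  obtain ⟨_, ⟨a₀, ha₀, rfl⟩, hmax⟩ := set_has_maximal_iff_noetherian.2 (hN : IsNoetherian R R)
    ((fun a => N.colon {a}) '' {a | a ∉ N}) (Nonempty.image _ (not_forall.1 htop))
  set P := N.colon {a₀}
  have hP : ∀ a ∉ N, P ≤ N.colon {a} → ∀ r : R, r • a ∈ N → r ∈ P := fun a ha h r hr =>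
    (eq_of_le_of_not_lt h (hmax _ ⟨a, ha, rfl⟩)).ge (Submodule.mem_colon_singleton.2 hr)
  have hprime : P.IsPrime := ⟨fun h => ha₀ (by
      simpa using Submodule.mem_colon_singleton.1 (h.ge Submodule.mem_top : (1 : R) ∈ P)),
    fun {x y} h => or_iff_not_imp_right.2 fun hy => hP (y • a₀)
      (mt Submodule.mem_colon_singleton.2 hy) (fun r hr => Submodule.mem_colon_singleton.2
        (smul_comm y r a₀ ▸ N.smul_mem y (Submodule.mem_colon_singleton.1 hr))) x
      (mul_smul x y a₀ ▸ Submodule.mem_colon_singleton.1 h)⟩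
  obtain ⟨k, p, hp⟩ := Submodule.fg_iff_exists_fin_generating_family.1 (IsNoetherian.noetherian P)
  let N' : Submodule R A := ⨅ j, N.comap (LinearMap.lsmul R A (p j))
  have hN' : ∀ a, a ∈ N' ↔ ∀ j, p j • a ∈ N := fun a => by simp [N']
  have hN'' : ∀ a ∈ N', P ≤ N.colon {a} := fun a ha => hp.ge.trans (Submodule.span_le.2
    (range_subset_iff.2 fun j => Submodule.mem_colon_singleton.2 ((hN' a).1 ha j)))
  have hle : N ≤ N' := fun a ha => (hN' a).2 fun j => N.smul_mem _ ha
  have hS := ih N' (lt_of_le_of_ne hle fun h => ha₀ (h.ge ((hN' a₀).2 fun j =>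
      Submodule.mem_colon_singleton.1 (hp.le (Submodule.subset_span ⟨j, rfl⟩)))))
    ((DefF.forall_fin fun j => hNd.comp (defF_fixed_smul hact (p j))).congr
      fun a => propext (hN' a).symm)
  obtain ⟨W, hW, κ, _, hT⟩ := tests_of_isPrime P
  have hW := hW.defF hsingle hact
  let S : R × A × A → Prop := fun p => p.2.2 - p.1 • p.2.1 ∈ N'
  let T : R × A × A → Prop := fun p => p.1 ∈ W ∧ p.1 • p.2.1 = p.2.2
  let H1 : (κ → R) → Prop := fun g => ∀ i, T (g i, 0, 0)
  have hH1 : DefF L M H1 := DefF.forall_fin fun i => hW.comp (by fun_prop)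
  let H2 : ((κ → R) × (κ → R) × A) × (κ → A) × (κ → A) → Prop := fun q =>
    ∀ i, S (q.1.2.1 i, q.1.2.2, q.2.1 i) ∧ T (q.1.1 i, q.2.1 i, q.2.2 i)
  have hH2 : DefF L M H2 :=
    DefF.forall_fin fun i => (hS.comp (by fun_prop)).and (hW.comp (by fun_prop))
  let s1 : (κ → R) × (κ → R) → R := fun q => ∑ i, q.2 i * q.1 i
  have hs1 : DefF L M s1 := DefF.finsetSum _ fun i => by fun_prop
  let s2 : (κ → A) → A := fun y => ∑ i, y i
  have hs2 : DefF L M s2 := DefF.finsetSum _ fun i => by fun_prop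
  let mN : A → Prop := fun a => a ∈ N
  refine DefF.congr (f := fun p : R × A × A => S p ∧ All fun e : R => All fun g : κ → R =>
    All fun σ : κ → R => All fun x : A => Imp (T (e, p.2.1, x) ∧ H1 g ∧ s1 (g, σ) = p.1 - e)
      (∃ c y : κ → A, H2 ((g, σ, p.2.1), c, y) ∧ mN (p.2.2 - x - s2 y))) ?_ ?_
  · change DefF L M S at hS
    change DefF L M T at hW
    change DefF L M mN at hNd
    clear_value S T H1 H2 s1 s2 mN
    fun_prop
  rintro ⟨ρ, a, b⟩
  simp only [All, Imp, S, T, H1, H2, s1, s2, mN, eq_iff_iff]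
  constructor
  · rintro ⟨hu, h⟩
    by_contra hne
    obtain ⟨l, hl⟩ := exists_dual_quotient (A := N' ⧸ N.submoduleOf N') P (by
      rintro x ⟨r, hr⟩
      obtain ⟨x, rfl⟩ := Submodule.Quotient.mk_surjective _ x
      exact (Submodule.Quotient.mk_eq_zero (N.submoduleOf N')).2
        (Submodule.mem_colon_singleton.1 (hN'' x x.2 hr) :)) (u := Submodule.Quotient.mk ⟨_, hu⟩)
      fun r hr => hP _ hne (hN'' _ hu) r
        ((Submodule.Quotient.mk_eq_zero (N.submoduleOf N')).1 hr :)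
    choose lf hlf using Ideal.Quotient.mk_surjective (I := P)
    obtain ⟨e, he, g, hg, h1, h2, h3⟩ := hT ρ (lf (l (Submodule.Quotient.mk ⟨_, hu⟩)))
      fun h1 => hl ((hlf _).symm.trans (Ideal.Quotient.eq_zero_iff_mem.2 h1))
    obtain ⟨σ, hσ⟩ := Ideal.mem_span_range_iff_exists_fun.1 h2
    obtain ⟨c, y, h4, h5⟩ := h e g σ _ ⟨⟨he, rfl⟩, fun i => ⟨hg i, smul_zero _⟩, hσ⟩
    have h6 : (Submodule.Quotient.mk ⟨_, hu⟩ : N' ⧸ N.submoduleOf N') =
        ∑ i, g i • (N.submoduleOf N').mkQ ⟨_, (h4 i).1⟩ := by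
      simp only [← map_smul, ← map_sum]
      refine (Submodule.Quotient.eq _).2 ?_
      change _ ∈ N
      convert h5 using 1
      simp only [Submodule.subtype_apply, AddSubgroupClass.coe_sub, Submodule.coe_sum,
        Submodule.coe_smul, smul_sub, Finset.sum_sub_distrib, (h4 _).2.2, smul_smul,
        ← Finset.sum_smul, mul_comm (g _), hσ, sub_smul]
      abel
    apply h3
    have h7 : lf (l (Submodule.Quotient.mk ⟨_, hu⟩)) -
        ∑ i, g i * lf (l ((N.submoduleOf N').mkQ ⟨_, (h4 i).1⟩)) ∈ P := by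
      rw [← Ideal.Quotient.eq, hlf, h6, map_sum, map_sum]
      refine Finset.sum_congr rfl fun i _ => ?_
      rw [map_smul, map_mul, hlf]
      rfl
    exact (Submodule.sub_mem_iff_left _ (Ideal.sum_mem _ fun i _ =>
      Ideal.mul_mem_right _ _ (Ideal.subset_span (mem_range_self i)))).1 (h1 h7)
  · intro h
    refine ⟨hle h, ?_⟩
    rintro e g σ _ ⟨⟨-, rfl⟩, hg, hσ⟩
    refine ⟨fun i => σ i • a, fun i => g i • σ i • a, fun i => ⟨by simp, (hg i).1, rfl⟩, ?_⟩
    convert h using 1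
    simp only [smul_smul, ← Finset.sum_smul, mul_comm (g _), hσ, sub_smul]
    abel

end dev

variable {G : Type} [Group G] {Q : Type} [CommGroup Q] {V : Type} [AddCommGroup V]
  [Module (MonoidAlgebra ℤ Q) V] {π : G →* Q} {d : G → V}

theorem Deriv.comm_mul (h : Deriv π d) (g g' s : G) :
    d ⁅g * g', s⁆ = d ⁅g, s⁆ + MonoidAlgebra.of ℤ Q (π g) • d ⁅g', s⁆ := by
  rw [show ⁅g * g', s⁆ = g * ⁅g', s⁆ * g⁻¹ * ⁅g, s⁆ by simp only [commutatorElement_def]; group,
    h.mul_ker (by rw [map_mul, map_mul, map_commutator_eq_one]; simp), h.conj _ (map_commutator_eq_one π _ _), add_comm]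

theorem Deriv.comm_ker (h : Deriv π d) {a : G} (ha : π a = 1) (s : G) :
    d ⁅a, s⁆ = (1 - MonoidAlgebra.of ℤ Q (π s)) • d a := by
  rw [show ⁅a, s⁆ = a * (s * a⁻¹ * s⁻¹) by simp only [commutatorElement_def]; group,
    h.mul_ker ha, h.conj _ (by simp [ha]), h.inv_ker ha, sub_smul, one_smul, smul_neg,
    sub_eq_add_neg]

theorem Deriv.pow_ker (h : Deriv π d) {a : G} (ha : π a = 1) (k : ℕ) : d (a ^ k) = k • d a := by
  induction k with
  | zero => simp [h.one]
  | succ k ih => rw [pow_succ', h.mul_ker ha, ih, succ_nsmul']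

/-- The main definability theorem inside the group. -/
theorem Deriv.gworld' (h : Deriv π d) [Pres L M G] [DefMul L M G] [Group.FG Q]
    [Module.Finite (MonoidAlgebra ℤ Q) h.kerMod] (hker : DefF L M (fun g => π g = 1))
    (hfaith : ∀ s : MonoidAlgebra ℤ Q, (∀ a : h.kerMod, s • a = 0) → s = 0)
    (hF : (finOrb Q h.kerMod : Set h.kerMod).Finite) {x y : Q} (hxy : Indep x y) :
    ∃ (_ : Pres L M ℕ) (_ : DefAdd L M ℕ) (_ : DefMul L M ℕ),
      Coded L M G ∧ DefF L M (cnt π x) := by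
  classical
  have hk : DefF L M (fun q : G × G => π q.1 = π q.2) :=
    (hker.comp (f := fun q : G × G => q.1 * q.2⁻¹) (by fun_prop)).congr fun q =>
      propext (by simp [mul_inv_eq_one])
  let _ : Pres L M Q := Pres.ofSurj π h.surj hk
  have hπ : DefF L M π := defF_ofSurj π h.surj hk
  have : DefMul L M Q := ⟨DefF.binop_of_surjective hπ h.surj
    ((hπ.comp (f := fun z : G × G => z.1 * z.2) (by fun_prop)).congr fun z => map_mul π _ _)⟩
  let r : G → G := fun g => if π g = 1 then g else 1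
  have hr : DefF L M r := DefF.ite hker DefF.id (DefF.const 1)
  have hr1 : ∀ g, π (r g) = 1 := fun g => by
    by_cases hg : π g = 1 <;> simp [r, hg]
  have hr2 : ∀ g, π g = 1 → r g = g := fun g hg => if_pos hg
  let p : G → h.kerMod := fun g => ⟨d (r g), r g, hr1 g, rfl⟩
  have hp1 : ∀ g, π g = 1 → (p g : V) = d g := fun g hg => congrArg d (hr2 g hg)
  have hps : Function.Surjective p := by
    rintro ⟨_, a, ha, rfl⟩
    exact ⟨a, Subtype.ext (hp1 a ha)⟩
  have hpk : DefF L M (fun q : G × G => p q.1 = p q.2) :=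
    DefF.congr (f := fun q => r q.1 = r q.2) (by fun_prop) fun q => propext
      ⟨fun e => Subtype.ext (congrArg d e),
        fun e => h.eq_of_ker (hr1 _) (hr1 _) (congrArg Subtype.val e)⟩
  let _ : Pres L M h.kerMod := Pres.ofSurj p hps hpk
  have hp : DefF L M p := defF_ofSurj p hps hpk
  have : DefAdd L M h.kerMod := ⟨DefF.binop_of_surjective hp hps
    ((hp.comp (f := fun z : G × G => r z.1 * r z.2) (by fun_prop)).congr fun z =>
      Subtype.ext (by
        change d (r (r z.1 * r z.2)) = d (r z.1) + d (r z.2)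
        rw [hr2 _ (by simp [hr1]), h.mul_ker (hr1 _)]))⟩
  have hact : DefF L M (fun q : Q × h.kerMod => MonoidAlgebra.of ℤ Q q.1 • q.2) :=
    DefF.of_comp_surjective (p := fun z : G × G => (π z.1, p z.2)) (by fun_prop)
      (h.surj.prodMap hps)
      ((hp.comp (f := fun z : G × G => z.1 * r z.2 * z.1⁻¹) (by fun_prop)).congr fun z =>
        Subtype.ext (by
          change d (r (z.1 * r z.2 * z.1⁻¹)) = MonoidAlgebra.of ℤ Q (π z.1) • d (r z.2)
          rw [hr2 _ (by simp [hr1]), h.conj _ (hr1 _)]))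
  have hdiv : DefF L M (fun q : Q × Q => q.1 ∈ Subgroup.zpowers q.2) := by
    have key : ∀ act : Q × h.kerMod → h.kerMod, DefF L M act →
        DefF L M (fun q : Q × Q => All fun a : h.kerMod => ∃ b : h.kerMod,
          act (q.1, a) - a = act (q.2, b) - b) := fun act hact => by fun_prop
    refine (key _ hact).congr fun q => propext ?_
    rw [mem_zpowers_iff_of_faithful (A := h.kerMod) hfaith]
    simp only [All, sub_smul, one_smul]
  obtain ⟨_, _, _, hz⟩ := exists_pres_int_of_zpowers hdiv hxy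
  obtain ⟨iN, _, _, _⟩ := exists_pres_nat (L := L) (M := M)
  have : Coded L M Q := coded_of_zpow hz
  obtain ⟨_, _, _, _, hsingle⟩ := exists_pres_groupRing (L := L) (M := M) Q
  obtain ⟨z, hzreg⟩ := exists_regular_mod_finOrb hF
  have := hF.to_subtype
  have : DefSMul L M ℤ h.kerMod := defSMul_int_of_finite hact hzreg
  have : DefSMul L M (MonoidAlgebra ℤ Q) h.kerMod :=
    defSMul_groupRing' (A := h.kerMod) hsingle hact
  have : Coded L M h.kerMod := coded_module (R := MonoidAlgebra ℤ Q)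
  obtain ⟨s, rfl⟩ := h.surj z
  refine ⟨iN, inferInstance, inferInstance, ?_, defF_cnt hπ hxy.not_isOfFinOrder⟩
  let D : G → h.kerMod := fun g => p (g * s * g⁻¹ * s⁻¹)
  have hD : DefF L M D := hp.comp (by fun_prop)
  have hD1 : ∀ g, (D g : V) = d ⁅g, s⁆ := fun g => hp1 _ (map_commutator_eq_one π g s)
  obtain ⟨e, he, hee⟩ : ∃ e : ℕ, 0 < e ∧ ∀ a, π a = 1 → d ⁅a, s⁆ = 0 → a ^ e = 1 := by
    refine ⟨Nat.card (finOrb Q h.kerMod), Nat.card_pos, fun a ha h1 => ?_⟩
    have h2 := hzreg 1 one_pos (Submodule.Quotient.mk (p a)) (by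
      rw [← Submodule.Quotient.mk_smul, show _ • p a = 0 from Subtype.ext (by
        rw [h.comm_ker ha, ← neg_sub, neg_smul, neg_eq_zero, ← hp1 a ha] at h1
        rw [pow_one]
        exact h1), Submodule.Quotient.mk_zero])
    have h3 := congrArg (fun v : finOrb Q h.kerMod => ((v : h.kerMod) : V))
      (card_nsmul_eq_zero' (x := (⟨_, (Submodule.Quotient.mk_eq_zero _).1 h2⟩ : finOrb Q h.kerMod)))
    exact h.inj _ (by simp [ha]) (by rw [h.pow_ker ha, ← hp1 a ha]; exact h3)
  have hpow : ∀ t : G, DefF L M (fun k : ℕ => t ^ k) := by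
    intro t
    let γ : ℕ → MonoidAlgebra ℤ Q := fun k => ∑ i ∈ Finset.range k, MonoidAlgebra.of ℤ Q (π t) ^ i
    have hγ : DefF L M γ := DefF.sum_range (by fun_prop) DefF.id
    have hγ1 : ∀ k, D (t ^ k) = γ k • D t := fun k => Subtype.ext (by
      rw [hD1, Submodule.coe_smul, hD1]
      induction k with
      | zero => simp [γ, h.one]
      | succ k ih =>
        rw [pow_succ, h.comm_mul, ih, map_pow, map_pow, ← add_smul]
        simp only [γ, Finset.sum_range_succ])
    refine DefF.of_graph (P := fun q : ℕ × G => ∃ i : Fin e, ∃ c : ℕ × G, q.1 = e * c.1 + i ∧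
      π c.2 = π t ^ c.1 ∧ D c.2 = γ c.1 • D t ∧ c.2 * t = t * c.2 ∧ c.2 ^ e * t ^ (i : ℕ) = q.2)
      (DefF.exists_fin fun i => DefF.exists ?_) fun k g => ⟨?_, ?_⟩
    · have := defF_pow (L := L) (M := M) (G := G) e
      clear_value D γ
      fun_prop
    · rintro ⟨i, ⟨k', c⟩, h0, h1, h2, h3, h4⟩
      simp only at h0 h1 h2 h3 h4
      subst h0 h4
      obtain ⟨a, rfl⟩ : ∃ a, c = t ^ k' * a := ⟨_, (mul_inv_cancel_left _ _).symm⟩
      have ha : π a = 1 := by simpa using h1
      have h5 := congrArg Subtype.val (h2.trans (hγ1 k').symm)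
      rw [hD1, hD1, h.comm_mul, add_eq_left,
        ((Group.isUnit _).map (MonoidAlgebra.of ℤ Q)).smul_eq_zero] at h5
      have h6 : Commute t a := by
        rw [mul_assoc, ← mul_assoc t, ← pow_succ', pow_succ, mul_assoc] at h3
        exact (mul_left_cancel h3).symm
      rw [(h6.pow_left k').mul_pow, hee a ha h5, mul_one, ← pow_mul, ← pow_add, mul_comm]
    · rintro rfl
      refine ⟨⟨k % e, Nat.mod_lt _ he⟩, (k / e, t ^ (k / e)), (Nat.div_add_mod _ _).symm,
        map_pow _ _ _, hγ1 _, pow_mul_comm' _ _, ?_⟩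
      simp only [← pow_mul, ← pow_add, Nat.div_add_mod']
  have hzpow : ∀ t : G, DefF L M (fun k : ℤ => t ^ k) := fun t =>
    DefF.of_comp_surjective (p := fun q : ℕ × ℕ => (q.1 : ℤ) - q.2) (by fun_prop) sub_surjective
      ((((hpow t).comp DefF.id.fst).mul ((hpow t).comp DefF.id.snd).inv).congr fun q => by
        simp [zpow_sub])
  obtain ⟨S, hS, hfin⟩ := Group.fg_iff.1 ‹Group.FG Q›
  obtain ⟨n, a, -, rfl⟩ := hfin.fin_param
  choose t ht using fun i => h.surj (a i)
  let j : h.kerMod → G := fun v => v.2.choose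
  have hj : ∀ g, j (p g) = r g := fun g =>
    h.eq_of_ker (p g).2.choose_spec.1 (hr1 g) (p g).2.choose_spec.2
  let w : (Fin n → ℤ) → G := fun k => ((List.finRange n).map fun i => t i ^ k i).prod
  refine Coded.of_surjective (f := fun q : h.kerMod × (Fin n → ℤ) => j q.1 * w q.2)
    (((DefF.of_comp_surjective hp hps (hr.congr fun g => (hj g).symm)).comp DefF.id.fst).mul
      (DefF.listProd _ fun i => (hzpow (t i)).comp (by fun_prop))) fun g => ?_
  obtain ⟨k, hk⟩ := Subgroup.mem_closure_range_iff_of_fintype.1 (hS ▸ Subgroup.mem_top (π g))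
  have h1 : π (w k) = π g := by
    simp only [w, hk, map_list_prod, List.map_map, Fin.prod_univ_def, Function.comp_def, map_zpow,
      ht]
  exact ⟨(p (g * (w k)⁻¹), k), by simp only [hj]; rw [hr2 _ (by simp [h1]), inv_mul_cancel_right]⟩

end Pool.Agent.P.MP_d3a22b_lc
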