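import Pool.Agent.P.MP_d3a22b_lc.FcB2
import Pool.Agent.P.MP_d3a22b_lc.Det

/-!
An automorphism of an ultrapower that moves a set which is definable whenever the group is
bi-interpretable with `ℕ`.
-/

set_option autoImplicit false
set_option linter.unusedSectionVars false

open FirstOrder FirstOrder.Language Set Filter
open scoped Nat commutatorElement

namespace Pool.Agent.P.MP_d3a22b_lc

theorem invariant_of_definable {G : Type} [Group G] (u : Ultrafilter ℕ)
    {T T' : (ℕ → G) → ℕ → G} (hT : ∀ g g', g =ᶠ[u] g' → T g =ᶠ[u] T g')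
    (hT' : ∀ g g', g =ᶠ[u] g' → T' g =ᶠ[u] T' g') (hmul : ∀ g h, T (g * h) =ᶠ[u] T g * T h)
    (h1 : ∀ g, T (T' g) =ᶠ[u] g) (h2 : ∀ g, T' (T g) =ᶠ[u] g)
    (hc : ∀ c, T (fun _ => c) =ᶠ[u] fun _ => c) {α : Type} {S : Set (α → G)}
    (hS : @Definable G univ groupLang (groupStructure G) α S) {v : α → ℕ → G}
    (hv : ∀ᶠ n in u, (fun i => v i n) ∈ S) : ∀ᶠ n in u, (fun i => T (v i) n) ∈ S := by
  let _ := groupStructure G
  obtain ⟨ψ, rfl⟩ := definable_iff_exists_formula_sum.1 hS
  let e : (u : Filter ℕ).Product (fun _ => G) ≃[groupLang] (u : Filter ℕ).Product fun _ => G :=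
    { toFun := Quotient.map' T hT
      invFun := Quotient.map' T' hT'
      left_inv := fun x => Quotient.inductionOn' x fun g => Quotient.sound' (h2 g)
      right_inv := fun x => Quotient.inductionOn' x fun g => Quotient.sound' (h1 g)
      map_fun' := fun {n} F x => by
        choose y hy using fun i => Quotient.exists_rep (x i)
        obtain rfl : x = fun i => (y i : (u : Filter ℕ).Product fun _ => G) := (funext hy).symm
        refine (congrArg (Quotient.map' T hT) (Ultraproduct.funMap_cast (u := u) F y)).trans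
          (Eq.trans (Quotient.sound' ?_) (Ultraproduct.funMap_cast F fun i => T (y i)).symm)
        cases F with
        | mul => exact hmul _ _
        | one => exact hc 1
        | inv =>
          have h3 := hmul (y 0)⁻¹ (y 0)
          rw [inv_mul_cancel] at h3
          filter_upwards [h3, hc 1] with n h4 h5
          exact eq_inv_of_mul_eq_one_left (h4.symm.trans h5)
      map_rel' := fun r => r.elim }
  let w : (univ : Set G) ⊕ α → ℕ → G := Sum.elim (fun c _ => c) v
  have h3 := (StrongHomClass.realize_formula e ψ).2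
    ((Ultraproduct.realize_formula_cast (u := u) ψ w).2 (hv.mono fun n hn => by
      change ψ.Realize _ at hn
      convert hn using 1
      ext (i | i) <;> rfl))
  have h4 := (Ultraproduct.realize_formula_cast (u := u) ψ
    (Sum.elim (fun c _ => (c : G)) fun i => T (v i))).1 (by
      refine (congrArg ψ.Realize (funext ?_)).mp h3
      rintro (i | i)
      · exact Quotient.sound' (hc _)
      · rfl)
  refine h4.mono fun n hn => ?_
  change ψ.Realize _
  convert hn using 1
  ext (i | i) <;> rfl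

theorem exists_functional : ∃ f : (ℕ → ℚ) →ₗ[ℚ] ℚ, (∀ s s', s =ᶠ[hyperfilter ℕ] s' → f s = f s') ∧
    (∀ c, f (fun _ => c) = 0) ∧ (∀ c, f (fun n => n ! * c) = 0) ∧ f (fun n => n ! * n !) ≠ 0 := by
  let p : Submodule ℚ (ℕ → ℚ) :=
    { carrier := {s | ∃ a b : ℚ, ∀ᶠ n in hyperfilter ℕ, s n = a + n ! * b}
      zero_mem' := ⟨0, 0, by simp⟩
      add_mem' := by
        rintro s s' ⟨a, b, h⟩ ⟨a', b', h'⟩
        refine ⟨a + a', b + b', ?_⟩
        filter_upwards [h, h'] with n h1 h2
        rw [Pi.add_apply, h1, h2]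
        ring
      smul_mem' := by
        rintro c s ⟨a, b, h⟩
        refine ⟨c * a, c * b, ?_⟩
        filter_upwards [h] with n h1
        rw [Pi.smul_apply, h1, smul_eq_mul]
        ring }
  obtain ⟨f, hf, hp⟩ := p.exists_dual_map_eq_bot_of_notMem (x := fun n => n ! * n !) (by
    rintro ⟨a, b, h⟩
    obtain ⟨N, hN⟩ := exists_nat_gt (|a| + |b|)
    obtain ⟨n, h1, h2⟩ := (h.and (Nat.hyperfilter_le_atTop (eventually_ge_atTop N))).exists
    have h3 : (N : ℚ) ≤ n ! := by exact_mod_cast h2.trans n.self_le_factorial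
    have h4 : (1 : ℚ) ≤ n ! := by exact_mod_cast n.factorial_pos
    simp only at h1
    nlinarith [le_abs_self a, le_abs_self b, abs_nonneg a, abs_nonneg b]) inferInstance
  have h0 : ∀ s ∈ p, f s = 0 := fun s hs => hp.le (Submodule.mem_map_of_mem hs)
  refine ⟨f, fun s s' h => ?_, fun c => h0 _ ⟨c, 0, by simp⟩, fun c => h0 _ ⟨0, c, by simp⟩, hf⟩
  rw [← sub_eq_zero, ← map_sub]
  exact h0 _ ⟨0, 0, h.mono fun n hn => by simp [hn]⟩

theorem exists_lambda (O : Type) [AddCommGroup O] [Module.Free ℤ O] [Module.Finite ℤ O] :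
    ∃ Λ : (ℕ → O) → ℕ → O,
      (∀ y y', y =ᶠ[hyperfilter ℕ] y' → Λ y =ᶠ[hyperfilter ℕ] Λ y') ∧
      (∀ y y', Λ (y + y') =ᶠ[hyperfilter ℕ] Λ y + Λ y') ∧
      (∀ (M : ℕ → O →+ O) y, (range M).Finite →
        Λ (fun n => M n (y n)) =ᶠ[hyperfilter ℕ] fun n => M n (Λ y n)) ∧
      (∀ c, Λ (fun _ => c) =ᶠ[hyperfilter ℕ] 0) ∧ (∀ y, Λ (Λ y) =ᶠ[hyperfilter ℕ] 0) ∧
      (∀ v, Λ (fun n => n ! • v) =ᶠ[hyperfilter ℕ] 0) ∧
      ∀ v, v ≠ 0 → ∀ᶠ n in hyperfilter ℕ, Λ (fun n => (n ! * n !) • v) n ≠ 0 := by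
  obtain ⟨f, hf, hf1, hf2, hf3⟩ := exists_functional
  let b := Module.Free.chooseBasis ℤ O
  let F : (ℕ → O) → _ → ℚ := fun y i => f fun n => (b.repr (y n) i : ℚ)
  let Λ : (ℕ → O) → ℕ → O := fun y n => b.equivFun.symm fun i => ⌊n ! * F y i⌋
  have key : ∀ y, ∀ᶠ n in hyperfilter ℕ, ∀ i, (b.repr (Λ y n) i : ℚ) = n ! * F y i := fun y =>
    eventually_all.2 fun i => by
      filter_upwards [Nat.hyperfilter_le_atTop (eventually_ge_atTop (F y i).den)] with n hn
      obtain ⟨k, hk⟩ := Nat.dvd_factorial (F y i).den_pos hn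
      have h1 : n ! * F y i = (k * (F y i).num : ℤ) := by
        rw [hk]
        push_cast
        rw [← Rat.mul_den_eq_num]
        ring
      rw [← b.equivFun_apply, LinearEquiv.apply_symm_apply, h1, Int.floor_intCast]
  have ext : ∀ x x' : O, (∀ i, (b.repr x i : ℚ) = b.repr x' i) → x = x' := fun x x' h =>
    b.ext_elem fun i => Int.cast_injective (h i)
  have hcongr : ∀ y y', y =ᶠ[hyperfilter ℕ] y' → Λ y =ᶠ[hyperfilter ℕ] Λ y' := fun y y' h => by
    have : F y = F y' := funext fun i => hf _ _ (h.mono fun n hn => by simp only [hn])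
    simp only [Λ, this]
    rfl
  have hzero : ∀ y, (∀ i, F y i = 0) → Λ y =ᶠ[hyperfilter ℕ] 0 := fun y h =>
    (key y).mono fun n hn => ext _ _ fun i => by simp [hn, h]
  refine ⟨Λ, hcongr, fun y y' => ?_, fun M y hM => ?_, fun c => hzero _ fun i => hf1 _,
    fun y => hzero _ fun i => (hf _ _ ((key y).mono fun n hn => hn i)).trans (hf2 _),
    fun v => hzero _ fun i => by simpa [F] using hf2 (b.repr v i), fun v hv => ?_⟩
  · filter_upwards [key (y + y'), key y, key y'] with n h1 h2 h3
    refine ext _ _ fun i => ?_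
    have : F (y + y') i = F y i + F y' i := by
      simp only [F, ← map_add f]
      congr 1
      ext n
      simp
    simp [h1, h2, h3, this, mul_add]
  · obtain ⟨M₀, -, h0⟩ := ((hyperfilter ℕ).map M).eq_pure_of_finite_mem hM range_mem_map
    have h1 : ∀ᶠ n in hyperfilter ℕ, M n = M₀ := by
      have : {M₀} ∈ (hyperfilter ℕ).map M := h0 ▸ Ultrafilter.mem_pure.2 rfl
      exact this
    have h2 : ∀ x i, (b.repr (M₀ x) i : ℚ) = ∑ j, (b.repr (M₀ (b j)) i : ℚ) * b.repr x j := by
      intro x i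
      conv_lhs => rw [← b.sum_repr x, map_sum, map_sum]
      simp [mul_comm]
    filter_upwards [hcongr (fun n => M n (y n)) (fun n => M₀ (y n)) (h1.mono fun n hn => by
      simp only [hn]), h1, key y, key fun n => M₀ (y n)] with n h3 h4 h5 h6
    rw [h3, h4]
    refine ext _ _ fun i => ?_
    have : F (fun n => M₀ (y n)) i = ∑ j, (b.repr (M₀ (b j)) i : ℚ) * F y j := by
      simp only [F, h2 (y _), ← smul_eq_mul, ← map_smul f, ← map_sum f]
      congr 1
      ext n
      simp
    simp only [h6, h2 (Λ y n), h5, this, Finset.mul_sum, mul_left_comm]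
  · obtain ⟨i, hi⟩ : ∃ i, b.repr v i ≠ 0 := by
      by_contra! h
      exact hv (b.ext_elem fun i => by simp [h])
    filter_upwards [key fun n => (n ! * n !) • v] with n hn h
    have h1 : F (fun n => (n ! * n !) • v) i = (b.repr v i : ℚ) • f fun n => n ! * n ! := by
      simp only [F, ← map_smul f]
      congr 1
      ext n
      simp [mul_comm]
    have h2 := hn i
    rw [h, h1] at h2
    simp [hi, hf3, n.factorial_ne_zero] at h2

theorem defF_of_definable {L : FirstOrder.Language.{0, 0}} {M : Type} [L.Structure M]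
    [Nontrivial M] {α : Type} [Finite α] {S : Set (α → M)} (h : (univ : Set M).Definable L S) :
    letI := Pres.self L M; DefF L M (fun v => v ∈ S) :=
  letI := Pres.self L M
  DefP.defF (Set.Definable.preimage_comp (fun a : α => (⟨a, ()⟩ : Σ _ : α, Unit)) h)

theorem coded_of_biInterpretable {L : FirstOrder.Language.{0, 0}} {M : Type} [L.Structure M]
    [Nontrivial M] (h : @BiInterpretable L arithLang M ℕ _ arithStructure) :
    letI := Pres.self L M
    ∃ (_ : Pres L M ℕ) (_ : DefAdd L M ℕ) (_ : DefMul L M ℕ), Coded L M M := by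
  classical
  let _ := Pres.self L M
  let _ := arithStructure
  obtain ⟨k, l, D, f, E, g, hf, hg, -, hc⟩ := h
  obtain ⟨u₀, hu₀, -⟩ := hg.onto (mem_univ 0)
  let r : (Fin l → M) → Fin l → M := fun u => if u ∈ E then u else u₀
  have hr : DefF L M r := DefF.ite (defF_of_definable hg.domain) DefF.id (DefF.const _)
  have hrE : ∀ u, r u ∈ E := fun u => by by_cases hu : u ∈ E <;> simp [r, hu, hu₀]
  have hps : Function.Surjective fun u => g (r u) := fun n => by
    obtain ⟨u, hu, rfl⟩ := hg.onto (mem_univ n)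
    exact ⟨u, congrArg g (if_pos hu)⟩
  have hpk : DefF L M (fun q : (Fin l → M) × (Fin l → M) => g (r q.1) = g (r q.2)) :=
    ((defF_of_definable hg.equality).comp (f := fun q : (Fin l → M) × (Fin l → M) =>
      fun s : Fin 2 × Fin l => ![r q.1, r q.2] s.1 s.2) (DefF.pi fun s => (DefF.apply s.2).comp
        ((DefF.apply s.1).comp (defF_pair.comp ((hr.comp DefF.id.fst).prodMk
          (hr.comp DefF.id.snd)))))).congr fun q => propext (by simp [hrE])
  let _ : Pres L M ℕ := Pres.ofSurj _ hps hpk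
  have hp : DefF L M fun u => g (r u) := defF_ofSurj _ hps hpk
  have hop : ∀ F : arithLang.Functions 2,
      DefF L M fun q : ℕ × ℕ => Structure.funMap F ![q.1, q.2] := fun F => by
    refine DefF.binop_of_surjective hp hps (DefP.defF ?_ |>.defP)
    refine DefF.defP (DefF.of_comp_surjective (p := fun q : _ × (Fin l → M) => (q.1, g (r q.2)))
      (DefF.id.fst.prodMk (hp.comp DefF.id.snd)) (Function.surjective_id.prodMap hps) ?_)
    refine ((defF_of_definable (hg.functions 2 F)).comp
      (f := fun q : ((Fin l → M) × (Fin l → M)) × (Fin l → M) =>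
        fun s : Option (Fin 2) × Fin l => s.1.elim (r q.2) ![r q.1.1, r q.1.2] s.2)
      (DefF.pi ?_)).congr fun q => propext ?_
    · rintro ⟨_ | i, j⟩
      · exact (DefF.apply j).comp (hr.comp DefF.id.snd)
      · exact (DefF.apply j).comp ((DefF.apply i).comp (defF_pair.comp
          ((hr.comp DefF.id.fst.fst).prodMk (hr.comp DefF.id.fst.snd))))
    · simp only [mem_ofPred_eq, Option.forall, Option.elim, Fin.forall_fin_two,
        Matrix.cons_val_zero, Matrix.cons_val_one, hrE, true_and]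
      rw [show (fun i => g (![r q.1.1, r q.1.2] i)) = ![g (r q.1.1), g (r q.1.2)] from
        funext fun i => by fin_cases i <;> rfl]
  have : DefAdd L M ℕ := ⟨hop ArithFunc.add⟩
  have : DefMul L M ℕ := ⟨hop ArithFunc.mul⟩
  refine ⟨inferInstance, inferInstance, inferInstance, ?_⟩
  let C : (Fin k → ℕ) × M → Prop := fun q => q.1 ∈ D ∧ f q.1 = q.2
  have hC : DefF L M C := by
    refine DefF.of_comp_surjective (p := fun q : (Fin k → Fin l → M) × M =>
      ((fun i => g (r (q.1 i))), q.2)) (DefF.prodMk (DefF.pi fun i => hp.comp (by fun_prop))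
        DefF.id.snd) ((Function.Surjective.piMap fun _ => hps).prodMap Function.surjective_id) ?_
    refine ((defF_of_definable hc).comp (f := fun q : (Fin k → Fin l → M) × M =>
      fun s : Option (Fin k × Fin l) => s.elim q.2 fun s => r (q.1 s.1) s.2)
      (DefF.pi ?_)).congr fun q => propext (by simp [C, hrE])
    rintro (_ | s)
    · exact DefF.id.snd
    · exact (DefF.apply s.2).comp (hr.comp (by fun_prop))
  obtain ⟨x₀, -⟩ := exists_pair_ne M
  refine Coded.of_surjective (f := fun x : Fin k → ℕ => if x ∈ D then f x else x₀)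
    (DefF.of_graph (P := fun q => C q ∨ (¬ (∃ y, C (q.1, y)) ∧ x₀ = q.2)) ?_ fun x y => ?_)
    fun y => ?_
  · clear_value C
    fun_prop
  · by_cases hx : x ∈ D <;> simp [C, hx]
  · obtain ⟨x, hx, rfl⟩ := hf.onto (mem_univ y)
    exact ⟨x, if_pos hx⟩

theorem not_biInterpretable {G O : Type} [Group G] [AddCommGroup O] [Module.Finite ℤ O]
    (htf : ∀ (k : ℤ) (x : O), k ≠ 0 → k • x = 0 → x = 0) {ρ : G → O →+ O} (hρ : (range ρ).Finite)
    {d : G → O} (hd : ∀ g h, d (g * h) = d g + ρ g (d h)) {ι : O → G}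
    (hι : ∀ x y, ι (x + y) = ι x * ι y) (hconj : ∀ g x, ι (ρ g x) = g * ι x * g⁻¹)
    (hinj : ∀ x, ι x = 1 → x = 0) (hρι : ∀ x y, ρ (ι x) y = y) {t : G} (ht : ∀ y, ρ t y = y)
    (ht0 : d t ≠ 0) : ¬ BiInterpretableWithNat G := by
  intro hbi
  have : Module.IsTorsionFree ℤ O := .of_smul_eq_zero fun k x h =>
    or_iff_not_imp_left.2 fun hk => htf k x hk h
  obtain ⟨Λ, h1, h2, h3, h4, h5, h6, h7⟩ := exists_lambda O
  have hι0 : ι 0 = 1 := by simpa using hι 0 0
  have hdt : ∀ k : ℕ, d (t ^ k) = k • d t := fun k => by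
    induction k with
    | zero => simpa [ht] using hd t 1
    | succ k ih => rw [pow_succ', hd, ht, ih, succ_nsmul']
  have htinj : ∀ k k' : ℕ, t ^ k = t ^ k' → k = k' := fun k k' h => by
    by_contra hne
    refine ht0 (htf ((k : ℤ) - k') _ (by omega) ?_)
    rw [sub_smul, natCast_zsmul, natCast_zsmul, ← hdt, ← hdt, h, sub_self]
  have : Nontrivial G := ⟨t ^ 0, t ^ 1, fun h => zero_ne_one (htinj _ _ h)⟩
  let c : O →+ O := AddMonoidHom.mk' (fun x => d (ι x)) fun x y => by rw [hι, hd, hρι]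
  let T : ℤ → (ℕ → G) → ℕ → G := fun ε g n => ι (ε • Λ (fun n => d (g n)) n) * g n
  have hT : ∀ ε g g', g =ᶠ[hyperfilter ℕ] g' → T ε g =ᶠ[hyperfilter ℕ] T ε g' := fun ε g g' h => by
    filter_upwards [h, h1 (fun n => d (g n)) (fun n => d (g' n)) (h.mono fun n hn => by
      simp only [hn])] with n e1 e2
    simp only [T, e1, e2]
  have hTT : ∀ ε ε' g, ε + ε' = 0 → T ε (T ε' g) =ᶠ[hyperfilter ℕ] g := fun ε ε' g h => by
    filter_upwards [h2 (fun n => (ε' • c) (Λ (fun n => d (g n)) n)) fun n => d (g n),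
      h3 (fun _ => ε' • c) (Λ fun n => d (g n)) (finite_range_const), h5 fun n => d (g n)]
      with n e1 e2 e3
    have e4 : (fun n => d (T ε' g n)) =
        (fun n => (ε' • c) (Λ (fun n => d (g n)) n)) + fun n => d (g n) := funext fun n => by
      simp only [T, hd, hρι, Pi.add_apply, AddMonoidHom.smul_apply, ← map_zsmul c]
      rfl
    simp only [T] at e4 ⊢
    rw [e4, e1, Pi.add_apply, e2, e3, Pi.zero_apply, map_zero, zero_add, ← mul_assoc, ← hι,
      ← add_smul, h, zero_smul, hι0, one_mul]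
  let _ := groupStructure G
  let _ := Pres.self groupLang G
  have : DefMul groupLang G G :=
    ⟨(defF_funMap (L := groupLang) (M := G) GroupFunc.mul).comp defF_pair⟩
  obtain ⟨_, _, _, _⟩ := coded_of_biInterpretable hbi
  have hS : (univ : Set G).Definable groupLang
      {w : Fin 2 → G | ∃ k : ℕ, w 0 = t ^ (k * k) ∧ w 1 = t ^ k} :=
    definable_of_defP (DefF.defP (by fun_prop))
  have h8 := invariant_of_definable (hyperfilter ℕ) (hT 1) (hT (-1)) (fun g h => ?_)
    (fun g => hTT _ _ g (by simp)) (fun g => hTT _ _ g (by simp)) (fun c => ?_) hS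
    (v := ![fun n => t ^ (n ! * n !), fun n => t ^ n !])
    (Eventually.of_forall fun n => ⟨n !, rfl, rfl⟩)
  · obtain ⟨n, ⟨k, e1, e2⟩, e3, e4⟩ := (h8.and ((h6 (d t)).and (h7 (d t) ht0))).exists
    simp only [T, Matrix.cons_val_zero, Matrix.cons_val_one, hdt, e3, Pi.zero_apply, one_smul,
      hι0, one_mul] at e1 e2
    rw [← htinj _ _ e2, mul_eq_right] at e1
    exact e4 (hinj _ e1)
  · filter_upwards [h2 (fun n => d (g n)) fun n => ρ (g n) (d (h n)),
      h3 (fun n => ρ (g n)) (fun n => d (h n)) (hρ.subset (range_comp_subset_range g ρ))]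
      with n e1 e2
    simp only [T, Pi.mul_apply, hd, one_smul]
    rw [show (fun n => d (g n) + ρ (g n) (d (h n))) = _ + _ from rfl, e1, Pi.add_apply, e2, hι,
      hconj]
    group
  · filter_upwards [h4 (d c)] with n e
    simp only [T, e, Pi.zero_apply, smul_zero, hι0, one_mul]

end Pool.Agent.P.MP_d3a22b_lc
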