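import Pool.Agent.P.MP_d3a22b_lc.FcC
import Pool.Agent.P.MP_d3a22b_lc.Chain

/-!
The criterion for bi-interpretability with `ℕ`, and an example with infinite centre.
-/

set_option autoImplicit false
set_option linter.unusedSectionVars false

open FirstOrder FirstOrder.Language Set
open scoped commutatorElement

namespace Pool.Agent.P.MP_d3a22b_lc

theorem finite_int_of_finOrb {Q B : Type} [CommGroup Q] [AddCommGroup B]
    [Module (MonoidAlgebra ℤ Q) B] [Module.Finite (MonoidAlgebra ℤ Q) B]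
    (h : ∀ b, b ∈ finOrb Q B) : Module.Finite ℤ B := by
  obtain ⟨n, a, ha⟩ := Module.Finite.exists_fin (R := MonoidAlgebra ℤ Q) (M := B)
  refine ⟨Submodule.fg_def.2 ⟨⋃ i, range fun q => MonoidAlgebra.of ℤ Q q • a i,
    finite_iUnion fun i => h (a i), eq_top_iff.2 fun x _ => ?_⟩⟩
  obtain ⟨ρ, rfl⟩ := (Submodule.mem_span_range_iff_exists_fun _).1 (ha.ge (Submodule.mem_top (x := x)))
  refine Submodule.sum_mem _ fun i _ => ?_
  induction ρ i using MonoidAlgebra.induction_linear with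
  | zero => simp
  | add f g hf hg => rw [add_smul]; exact add_mem hf hg
  | single q k =>
    rw [← MonoidAlgebra.smul_of, smul_assoc]
    exact Submodule.smul_mem _ _ (Submodule.subset_span (mem_iUnion.2 ⟨i, q, rfl⟩))

theorem exists_dual_of_faithful {R A : Type} [CommRing R] (P : Ideal R) [hP : P.IsPrime]
    [AddCommGroup A] [Module R A] [Module.Finite R A] (h : ∀ s : R, (∀ a : A, s • a = 0) → s = 0) :
    ∃ (l : A →ₗ[R] R ⧸ P) (a : A), l a ≠ 0 := by
  have h1 : (⟨P, hP⟩ : PrimeSpectrum R) ∈ Module.support R (A ⧸ (P • ⊤ : Submodule R A)) := by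
    rw [Module.support_quotient]
    refine ⟨Module.mem_support_iff_of_finite.2 fun s hs => ?_, fun _ hx => hx⟩
    rw [h s (Module.mem_annihilator.1 hs)]
    exact zero_mem _
  obtain ⟨u, hu⟩ := Module.mem_support_iff_exists_annihilator.1 h1
  obtain ⟨l, hl⟩ := exists_dual_quotient P (Module.isTorsionBySet_quotient_ideal_smul A P)
    (u := u) fun r hr => hu (Submodule.mem_annihilator_span_singleton _ _ |>.2 hr)
  obtain ⟨a, rfl⟩ := Submodule.mkQ_surjective _ u
  exact ⟨l.comp (Submodule.mkQ _), a, hl⟩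

theorem exists_prime_of_infinite_finOrb {Q A : Type} [CommGroup Q] [Group.FG Q] [AddCommGroup A]
    [Module (MonoidAlgebra ℤ Q) A] [Module.Finite (MonoidAlgebra ℤ Q) A]
    (hF : (finOrb Q A : Set A).Infinite) :
    ∃ (P : Ideal (MonoidAlgebra ℤ Q)) (_ : P.IsPrime)
      (ι : (MonoidAlgebra ℤ Q ⧸ P) →ₗ[MonoidAlgebra ℤ Q] A), Function.Injective ι ∧
      (∀ y, y ∈ finOrb Q (MonoidAlgebra ℤ Q ⧸ P)) ∧
      ∀ (k : ℤ) (y : MonoidAlgebra ℤ Q ⧸ P), k ≠ 0 → k • y = 0 → y = 0 := by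
  have hN : IsNoetherianRing (MonoidAlgebra ℤ Q) := Algebra.FiniteType.isNoetherianRing ℤ _
  have h0 : ∃ b ∈ finOrb Q A, ∀ k : ℤ, k • b = 0 → k = 0 := by
    by_contra! h1
    have : Module.Finite ℤ (finOrb Q A) := finite_int_of_finOrb (Q := Q) fun b =>
      Set.Finite.of_finite_image (f := Subtype.val) (Set.Finite.subset b.2 (by
        rintro _ ⟨_, ⟨q, rfl⟩, rfl⟩
        exact ⟨q, rfl⟩)) Subtype.val_injective.injOn
    refine hF (Module.finite_of_fg_torsion (finOrb Q A : Submodule _ A) fun b => ?_)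
    obtain ⟨k, hk, hk0⟩ := h1 b b.2
    exact ⟨⟨k, mem_nonZeroDivisors_of_ne_zero hk0⟩, Subtype.ext hk⟩
  obtain ⟨_, ⟨b, ⟨hb, hb0⟩, rfl⟩, hmax⟩ := set_has_maximal_iff_noetherian.2 hN
    ((fun b => Ideal.torsionOf (MonoidAlgebra ℤ Q) A b) ''
      {b ∈ finOrb Q A | ∀ k : ℤ, k • b = 0 → k = 0}) (Nonempty.image _ h0)
  set P := Ideal.torsionOf (MonoidAlgebra ℤ Q) A b
  have hP : ∀ y : MonoidAlgebra ℤ Q, (∀ k : ℤ, k • y • b = 0 → k = 0) →
      ∀ r : MonoidAlgebra ℤ Q, r • y • b = 0 → r ∈ P :=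
    fun y hy r hr => (eq_of_le_of_not_lt (fun s hs => (Ideal.mem_torsionOf_iff _ _).2 (by
      rw [smul_comm, (Ideal.mem_torsionOf_iff _ _).1 hs, smul_zero]))
      (hmax _ ⟨y • b, ⟨Submodule.smul_mem _ _ hb, hy⟩, rfl⟩)).ge hr
  have hk : ∀ (k : ℤ) (y : MonoidAlgebra ℤ Q), k ≠ 0 → k • y ∈ P → y ∈ P := fun k y hk hy =>
    hP k (fun j hj => (mul_eq_zero.1 (hb0 _ (by
      rwa [Int.cast_smul_eq_zsmul, smul_smul] at hj))).resolve_right hk) y (by
      rw [smul_smul, mul_comm, ← zsmul_eq_mul]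
      exact hy)
  let ι : (MonoidAlgebra ℤ Q ⧸ P) →ₗ[MonoidAlgebra ℤ Q] A :=
    P.liftQ (LinearMap.toSpanSingleton _ _ b) le_rfl
  have hι : Function.Injective ι := LinearMap.ker_eq_bot.1 (Submodule.ker_liftQ_eq_bot _ _ _ le_rfl)
  refine ⟨P, ⟨fun e => one_ne_zero (hb0 1 (by
      simpa using (Ideal.mem_torsionOf_iff _ _).1 (e.ge Submodule.mem_top : 1 ∈ P))),
    fun {r y} e => or_iff_not_imp_right.2 fun hy => hP y
      (fun k e' => by_contra fun hk' => hy (hk k y hk' (by rwa [← smul_assoc] at e'))) r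
      (by rwa [← mul_smul])⟩, ι, hι, fun y => ?_, fun k y hk0 e => ?_⟩
  · obtain ⟨y, rfl⟩ := Ideal.Quotient.mk_surjective y
    refine Set.Finite.of_finite_image (f := ι)
      (Set.Finite.subset (Submodule.smul_mem _ y hb) ?_) hι.injOn
    rintro _ ⟨_, ⟨q, rfl⟩, rfl⟩
    exact ⟨q, (map_smul ι _ (Ideal.Quotient.mk P y)).symm⟩
  · obtain ⟨y, rfl⟩ := Ideal.Quotient.mk_surjective y
    rw [← map_zsmul, Ideal.Quotient.eq_zero_iff_mem] at e
    exact Ideal.Quotient.eq_zero_iff_mem.2 (hk k y hk0 e)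

section deriv

variable {G : Type} [Group G] {Q : Type} [CommGroup Q] {V : Type} [AddCommGroup V]
  [Module (MonoidAlgebra ℤ Q) V] {π : G →* Q} {d : G → V}

/-- The inclusion of the module into the group. -/
noncomputable def Deriv.inc (h : Deriv π d) (v : h.kerMod) : G := v.2.choose

theorem Deriv.map_inc (h : Deriv π d) (v : h.kerMod) : π (h.inc v) = 1 := v.2.choose_spec.1

theorem Deriv.d_inc (h : Deriv π d) (v : h.kerMod) : d (h.inc v) = v := v.2.choose_spec.2

theorem Deriv.inc_injective (h : Deriv π d) : Function.Injective h.inc := fun v w e =>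
  Subtype.ext (by rw [← h.d_inc, e, h.d_inc])

theorem Deriv.inc_add (h : Deriv π d) (v w : h.kerMod) : h.inc (v + w) = h.inc v * h.inc w :=
  h.eq_of_ker (h.map_inc _) (by simp [h.map_inc]) (by simp [h.mul_ker (h.map_inc _), h.d_inc])

theorem Deriv.inc_zero (h : Deriv π d) : h.inc 0 = 1 := by simpa using h.inc_add 0 0

theorem Deriv.inc_smul (h : Deriv π d) (g : G) (v : h.kerMod) :
    h.inc (MonoidAlgebra.of ℤ Q (π g) • v) = g * h.inc v * g⁻¹ :=
  h.eq_of_ker (h.map_inc _) (by simp [h.map_inc]) (by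
    rw [h.conj g (h.map_inc _), h.d_inc, h.d_inc, Submodule.coe_smul])

theorem Deriv.fc_eq (h : Deriv π d)
    (hfaith : ∀ s : MonoidAlgebra ℤ Q, (∀ a : h.kerMod, s • a = 0) → s = 0) :
    {g : G | (conjugatesOf g).Finite} = h.inc '' finOrb Q h.kerMod := by
  ext g
  constructor
  · intro hg
    have h1 : π g = 1 := by
      let N := LinearMap.range (LinearMap.lsmul (MonoidAlgebra ℤ Q) h.kerMod
        (1 - MonoidAlgebra.of ℤ Q (π g)))
      have : Finite N := Set.Finite.of_finite_image (f := h.inc) (s := N)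
        ((Set.Finite.image (· * g⁻¹) hg).subset (by
          rintro _ ⟨_, ⟨v, rfl⟩, rfl⟩
          refine ⟨_, isConj_iff.2 ⟨h.inc v, rfl⟩, h.eq_of_ker ?_ (h.map_inc _) ?_⟩
          · exact map_commutator_eq_one π _ _
          · exact (h.comm_ker (h.map_inc v) g).trans (by rw [h.d_inc, h.d_inc]; rfl)))
        h.inc_injective.injOn
      have h2 := hfaith (Nat.card N • (1 - MonoidAlgebra.of ℤ Q (π g))) fun a => by
        rw [smul_assoc]
        exact congrArg Subtype.val (card_nsmul_eq_zero' (x := (⟨_, a, rfl⟩ : N)))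
      by_contra hne
      have h3 := congrArg (fun s : MonoidAlgebra ℤ Q => s.coeff 1) h2
      simp [MonoidAlgebra.one_def, hne, (Nat.card_pos (α := N)).ne', -nsmul_eq_mul] at h3
    have h2 : h.inc ⟨d g, g, h1, rfl⟩ = g := h.eq_of_ker (h.map_inc _) h1 (h.d_inc _)
    refine ⟨_, (hg.preimage h.inc_injective.injOn).subset (range_subset_iff.2 fun q => ?_), h2⟩
    obtain ⟨t, rfl⟩ := h.surj q
    exact isConj_iff.2 ⟨t, by rw [h.inc_smul, h2]⟩
  · rintro ⟨v, hv, rfl⟩
    refine (Set.Finite.image h.inc hv).subset fun b hb => ?_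
    obtain ⟨t, rfl⟩ := isConj_iff.1 hb
    exact ⟨_, ⟨π t, rfl⟩, h.inc_smul t v⟩

theorem Deriv.not_biInterpretable (h : Deriv π d) [Group.FG Q]
    [Module.Finite (MonoidAlgebra ℤ Q) h.kerMod]
    (hfaith : ∀ s : MonoidAlgebra ℤ Q, (∀ a : h.kerMod, s • a = 0) → s = 0)
    (hF : (finOrb Q h.kerMod : Set h.kerMod).Infinite) {x : Q} (hx : ¬ IsOfFinOrder x) :
    ¬ BiInterpretableWithNat G := by
  obtain ⟨P, hP, ι₀, hι₀, hfo, htf⟩ := exists_prime_of_infinite_finOrb hF
  have hq : ∀ (r : MonoidAlgebra ℤ Q) (y : MonoidAlgebra ℤ Q ⧸ P),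
      r • y = Ideal.Quotient.mk P r * y := fun r y => Algebra.smul_def r y
  obtain ⟨d₀, t, hd₀, ht, ht0⟩ : ∃ (d₀ : G → MonoidAlgebra ℤ Q ⧸ P) (t : G),
      (∀ g g', d₀ (g * g') = d₀ g + MonoidAlgebra.of ℤ Q (π g) • d₀ g') ∧
      (∀ y : MonoidAlgebra ℤ Q ⧸ P, MonoidAlgebra.of ℤ Q (π t) • y = y) ∧ d₀ t ≠ 0 := by
    by_cases hs : ∃ s, 1 - MonoidAlgebra.of ℤ Q (π s) ∉ P
    · obtain ⟨s, hs⟩ := hs
      obtain ⟨l, a, hl⟩ := exists_dual_of_faithful (A := h.kerMod) P hfaith
      refine ⟨fun g => l ⟨_, _, map_commutator_eq_one π g s, rfl⟩, h.inc a, fun g g' => ?_,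
        fun y => by rw [h.map_inc, map_one, one_smul], fun e => ?_⟩
      · rw [← map_smul, ← map_add]
        exact congrArg l (Subtype.ext (h.comm_mul g g' s))
      · have e1 : l ((1 - MonoidAlgebra.of ℤ Q (π s)) • a) = 0 := (congrArg l (Subtype.ext
          ((h.comm_ker (h.map_inc a) s).trans (by rw [h.d_inc]; rfl)).symm)).trans e
        rw [map_smul, hq, mul_eq_zero] at e1
        exact e1.elim (fun e2 => hs (Ideal.Quotient.eq_zero_iff_mem.1 e2)) hl
    · have h1 : ∀ (s : G) (y : MonoidAlgebra ℤ Q ⧸ P), MonoidAlgebra.of ℤ Q (π s) • y = y :=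
        fun s y => by
          rw [hq, ← Ideal.Quotient.eq.2 (not_not.1 (not_exists.1 hs s)), map_one, one_mul]
      obtain ⟨l, hl⟩ := exists_dual_ne_zero_of_not_torsion (B := ℤ) (a := Additive.ofMul x)
        fun k e => by_contra fun hk0 => hx (isOfFinOrder_iff_zpow_eq_one.2 ⟨k, hk0, e⟩)
      obtain ⟨t, rfl⟩ := h.surj x
      exact ⟨fun g => l (Additive.ofMul (π g)) • (1 : MonoidAlgebra ℤ Q ⧸ P), t,
        fun g g' => by simp only [h1, map_mul, ofMul_mul, map_add, add_smul], h1 t,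
        fun e => one_ne_zero (htf _ _ hl e)⟩
  have := finite_int_of_finOrb hfo
  refine Pool.Agent.P.MP_d3a22b_lc.not_biInterpretable htf (ρ := fun g =>
      AddMonoidHom.mulLeft (MonoidAlgebra.of ℤ Q (π g) • (1 : MonoidAlgebra ℤ Q ⧸ P)))
    ((Set.Finite.image AddMonoidHom.mulLeft (hfo 1)).subset
      (range_subset_iff.2 fun g => ⟨_, ⟨π g, rfl⟩, rfl⟩)) (d := d₀) (fun g g' => by simp [hd₀])
    (ι := fun y => h.inc (ι₀ y)) (fun y y' => by rw [map_add, h.inc_add]) (fun g y => ?_)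
    (fun y e => hι₀ (h.inc_injective (by rw [e, map_zero, h.inc_zero])))
    (fun y y' => by simp [h.map_inc, ← MonoidAlgebra.one_def]) (t := t)
    (fun y => by rw [ht]; simp) ht0
  rw [← h.inc_smul, ← map_smul]
  simp

end deriv

theorem biInterpretable_iff_aux {n m : ℕ} (hmn : m + 2 ≤ n) {Q : Type} [CommGroup Q]
    {α : Fin n → Q} {r : Fin m → FreeGroup (Fin n)} (hr : ∀ i, FreeGroup.lift α (r i) = 1)
    (hs : Function.Surjective (FreeGroup.lift α))
    (hker : ∀ w, FreeGroup.lift α w = 1 → (PresentedGroup.mk _ w : Met r) ∈ commutator (Met r))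
    {x y : Q} (hxy : Indep x y) :
    BiInterpretableWithNat (Met r) ↔ {g : Met r | (conjugatesOf g).Finite}.Finite := by
  have hQ : Group.FG Q := Group.fg_of_surjective hs
  have hN : IsNoetherianRing (MonoidAlgebra ℤ Q) := Algebra.FiniteType.isNoetherianRing ℤ _
  have hker' : ∀ g, (Aff.qHom.comp (magnus α r hr)) g = 1 → g ∈ commutator (Met r) := by
    intro g hg
    obtain ⟨w, rfl⟩ := PresentedGroup.mk_surjective _ g
    exact hker w ((congrArg Aff.q (magnus_mk hr w)).symm.trans hg)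
  have hd := magnus_deriv hr hs hker'
  have hinj : Function.Injective (magnus α r hr) :=
    (injective_iff_map_eq_one _).2 fun g hg => hd.inj g (congrArg Aff.q hg) (congrArg Aff.v hg)
  have hx := hxy.not_isOfFinOrder
  have hfaith : ∀ s : MonoidAlgebra ℤ Q, (∀ a : hd.kerMod, s • a = 0) → s = 0 :=
    fun s h => alex_faithful hmn hs hx fun j k => by
      have := h ⟨_, PresentedGroup.mk _ ⁅FreeGroup.of j, FreeGroup.of k⁆, by
        rw [map_commutatorElement]; exact map_commutator_eq_one _ _ _, rfl⟩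
      have h2 := congrArg Subtype.val this
      simp only [magnus_mk] at h2
      exact h2
  rw [hd.fc_eq hfaith, finite_image_iff hd.inc_injective.injOn]
  refine ⟨fun h => not_infinite.1 fun hF => hd.not_biInterpretable hfaith hF hx h, fun hF => ?_⟩
  have hnt : Nontrivial (Met r) := by
    obtain ⟨g, hg⟩ := hd.surj x
    refine ⟨g, 1, fun h => hx ?_⟩
    rw [← hg, h, map_one]
    exact IsOfFinOrder.one
  let f : ℕ → Met r := fun c => PresentedGroup.mk _ (word n c)
  have hfs : Function.Surjective f := (PresentedGroup.mk_surjective _).comp (word_surjective n)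
  let g : Met r → ℕ := cnt (Aff.qHom.comp (magnus α r hr)) x
  have hgs : Function.Surjective g := cnt_surjective hd.surj hx
  let _ := groupStructure (Met r)
  let _ := arithStructure
  have hG : IsInterpretation arithLang groupLang (univ : Set (Fin 1 → Met r)) (fun v => g (v 0)) ∧
      CompositeDefinable groupLang (univ : Set (Fin 1 → Met r)) (fun v => g (v 0))
        (univ : Set (Fin 1 → ℕ)) (fun v => f (v 0)) := by
    let _ := Pres.self groupLang (Met r)
    have : DefMul groupLang (Met r) (Met r) :=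
      ⟨(defF_funMap (L := groupLang) (M := Met r) GroupFunc.mul).comp defF_pair⟩
    obtain ⟨_, _, _, _, hg⟩ := hd.gworld' (L := groupLang) (M := Met r)
      (hd.defF_ker (PresentedGroup.closure_range_of _) hker') hfaith hF hxy
    exact ⟨isInterpretation_of_defF (fun _ => inferInstanceAs (IsEmpty Empty)) hgs hg
      defF_arithFunc, compositeDefinable_of_defF hg (defF_word (PresentedGroup.mk _))⟩
  have hN : IsInterpretation groupLang arithLang (univ : Set (Fin 1 → ℕ)) (fun v => f (v 0)) ∧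
      CompositeDefinable arithLang (univ : Set (Fin 1 → ℕ)) (fun v => f (v 0))
        (univ : Set (Fin 1 → Met r)) (fun v => g (v 0)) := by
    let _ := Pres.self arithLang ℕ
    have : DefAdd arithLang ℕ ℕ :=
      ⟨(defF_funMap (L := arithLang) (M := ℕ) ArithFunc.add).comp defF_pair⟩
    have : DefMul arithLang ℕ ℕ :=
      ⟨(defF_funMap (L := arithLang) (M := ℕ) ArithFunc.mul).comp defF_pair⟩
    obtain ⟨_, _, _, _⟩ := exists_pres_int (L := arithLang) (M := ℕ)
    obtain ⟨_, _, hf, hg⟩ := nworld (L := arithLang) (M := ℕ) hr hinj hx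
    exact ⟨isInterpretation_of_defF (fun _ => inferInstanceAs (IsEmpty Empty)) hfs hf
      defF_groupFunc, compositeDefinable_of_defF hf hg⟩
  exact ⟨1, 1, univ, fun v => f (v 0), univ, fun v => g (v 0), hN.1, hG.1, hN.2, hG.2⟩

theorem biInterpretable_iff {n m : ℕ} (hmn : m + 2 ≤ n) (r : Fin m → FreeGroup (Fin n)) :
    BiInterpretableWithNat (Met r) ↔ {g : Met r | (conjugatesOf g).Finite}.Finite := by
  let v : Fin m → ZZ n := fun i => ab (r i)
  obtain ⟨j, k, hjk⟩ := exists_indep hmn v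
  refine biInterpretable_iff_aux hmn (α := al v) (fun i => ?_) (fun q => ?_) (fun w hw => ?_) hjk
  · rw [lift_al, QuotientGroup.eq_one_iff]
    exact Subgroup.subset_closure ⟨i, rfl⟩
  · obtain ⟨z, rfl⟩ := QuotientGroup.mk_surjective q
    obtain ⟨w, rfl⟩ := ab_surjective z
    exact ⟨w, lift_al v w⟩
  · rw [lift_al, QuotientGroup.eq_one_iff] at hw
    obtain ⟨ψ, h2⟩ := exists_hom_ab (Abelianization.of.comp (PresentedGroup.mk _ : _ →* Met r))
    replace h2 : ∀ w, ψ (ab w) = Abelianization.of (PresentedGroup.mk _ w : Met r) := h2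
    have h3 : Subgroup.closure (range v) ≤ ψ.ker := by
      rw [Subgroup.closure_le]
      rintro _ ⟨i, rfl⟩
      change ψ (ab (r i)) = 1
      rw [h2, PresentedGroup.one_of_mem (Or.inl ⟨i, rfl⟩), map_one]
    rw [← Abelianization.ker_of, MonoidHom.mem_ker, ← h2]
    exact h3 hw

theorem fox_comm_ker {n : ℕ} {Q : Type} [CommGroup Q] (α : Fin n → Q) (i : Fin n)
    {w : FreeGroup (Fin n)} (hw : FreeGroup.lift α w = 1) :
    fox α ⁅FreeGroup.of i, w⁆ = (MonoidAlgebra.of ℤ Q (α i) - 1) • fox α w := by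
  simp only [commutatorElement_def, fox_mul, fox_inv, map_mul, map_inv, hw, mul_one,
    mul_inv_cancel, inv_one, map_one, one_smul, smul_neg, smul_smul, FreeGroup.lift_apply_of]
  rw [← map_mul, mul_inv_cancel, map_one, one_smul, sub_smul, one_smul]
  abel

/-- Left normed commutators ending in the commutator of the first two generators. -/
def cm (l : List (Fin 5)) : FreeGroup (Fin 5) :=
  l.foldr (fun i w => ⁅FreeGroup.of i, w⁆) ⁅FreeGroup.of (0 : Fin 5), FreeGroup.of (1 : Fin 5)⁆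

theorem lift_cm {Q : Type} [CommGroup Q] (α : Fin 5 → Q) (l : List (Fin 5)) :
    FreeGroup.lift α (cm l) = 1 := by
  cases l <;> exact map_commutator_eq_one _ _ _

theorem fox_cm {Q : Type} [CommGroup Q] (α : Fin 5 → Q) (l : List (Fin 5)) :
    fox α (cm l) = (l.map fun i => MonoidAlgebra.of ℤ Q (α i) - 1).prod • fox α (cm []) := by
  induction l with
  | nil => simp
  | cons i l ih =>
    rw [List.map_cons, List.prod_cons, mul_smul, ← ih]
    exact fox_comm_ker α i (lift_cm α l)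

open PowerSeries in
theorem example_infinite : {g : Met ![cm [0, 0, 0], cm [1, 1, 1],
    cm [0, 0, 2] * cm [0, 1, 3] * cm [1, 1, 4] ] | (conjugatesOf g).Finite}.Infinite := by
  set r : Fin 3 → FreeGroup (Fin 5) := ![cm [0, 0, 0], cm [1, 1, 1],
    cm [0, 0, 2] * cm [0, 1, 3] * cm [1, 1, 4] ] with hrdef
  have hr : ∀ i, FreeGroup.lift bas (r i) = 1 := fun i => by
    fin_cases i <;> simp [r, lift_cm]
  have hd := magnus_deriv hr ab_surjective fun g hg => by
    obtain ⟨w, rfl⟩ := PresentedGroup.mk_surjective _ g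
    obtain ⟨ψ, h2⟩ := exists_hom_ab (Abelianization.of.comp (PresentedGroup.mk _ : _ →* Met r))
    have h3 : ab w = 1 := (congrArg Aff.q (magnus_mk hr w)).symm.trans hg
    rw [← Abelianization.ker_of, MonoidHom.mem_ker]
    exact (h2 w).symm.trans (by rw [h3, map_one])
  have hinj : Function.Injective (magnus bas r hr) :=
    (injective_iff_map_eq_one _).2 fun g hg => hd.inj g (congrArg Aff.q hg) (congrArg Aff.v hg)
  let Y : Fin 5 → MonoidAlgebra ℤ (ZZ 5) := fun i => MonoidAlgebra.of ℤ _ (bas i) - 1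
  have hfox : ∀ ρ : Fin 3 → MonoidAlgebra ℤ (ZZ 5), ∑ i, ρ i • fox bas (r i) =
      (ρ 0 * Y 0 ^ 3 + ρ 1 * Y 1 ^ 3 + ρ 2 * (Y 0 ^ 2 * Y 2 + Y 0 * Y 1 * Y 3 + Y 1 ^ 2 * Y 4)) •
        fox bas (cm []) := fun ρ => by
    simp only [Fin.sum_univ_three, r, Matrix.cons_val_zero, Matrix.cons_val_one, Matrix.cons_val,
      fox_mul, map_mul, lift_cm, mul_one, map_one, one_smul, fox_cm bas (_ :: _), List.map_cons,
      List.prod_cons, List.map_nil, List.prod_nil, Y]
    module
  have hone : ∀ w, FreeGroup.lift bas w = 1 → ((PresentedGroup.mk _ w : Met r) = 1 ↔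
      ∃ ρ : Fin 3 → MonoidAlgebra ℤ (ZZ 5), ∑ i, ρ i • fox bas (r i) = fox bas w) := fun w hw => by
    rw [← hinj.eq_iff, map_one, magnus_mk, hw, ← alex_eq_zero_iff, Aff.ext_iff]
    exact and_iff_left rfl
  let z : Met r := PresentedGroup.mk _ (cm [0, 0, 1, 1])
  have hz : ∀ g, g * z = z * g := fun g => by
    have h1 : ∀ i, PresentedGroup.of i ∈ Subgroup.centralizer {z} := fun i => by
      rw [Subgroup.mem_centralizer_singleton_iff, ← commutatorElement_eq_one_iff_mul_comm]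
      refine (map_commutatorElement (PresentedGroup.mk _) _ _).symm.trans
        ((hone (cm (i :: [0, 0, 1, 1])) (lift_cm _ _)).2 ?_)
      refine ⟨![![Y 1 ^ 2, 0, 0], ![0, Y 0 ^ 2, 0], ![0, -(Y 0 * Y 3 + Y 1 * Y 4), Y 1 ^ 2],
        ![-(Y 1 * Y 2), -(Y 0 * Y 4), Y 0 * Y 1], ![-(Y 0 * Y 2 + Y 1 * Y 3), 0, Y 0 ^ 2] ] i, ?_⟩
      rw [hfox, fox_cm bas (_ :: _)]
      congr 1
      fin_cases i <;> simp [Y] <;> ring
    exact Subgroup.mem_centralizer_singleton_iff.1 (PresentedGroup.generated_by _ _ h1 g)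
  refine infinite_of_injective_forall_mem (f := fun k : ℕ => z ^ k)
    (injective_pow_iff_not_isOfFinOrder.2 fun h => ?_) fun k => (finite_singleton (z ^ k)).subset
      fun b hb => ?_
  · obtain ⟨k, hk, h1⟩ := isOfFinOrder_iff_pow_eq_one.1 h
    have h2 : ∀ k : ℕ, fox bas (cm [0, 0, 1, 1] ^ k) = k • fox bas (cm [0, 0, 1, 1]) := fun k => by
      induction k with
      | zero => simp [fox_one]
      | succ k ih => rw [pow_succ', fox_mul, ih, lift_cm, map_one, one_smul, succ_nsmul']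
    obtain ⟨ρ, hρ⟩ := (hone (cm [0, 0, 1, 1] ^ k) (by simp [lift_cm])).1 (by rwa [map_pow])
    have u0 : IsUnit (1 + X : ℤ⟦X⟧⟦X⟧) := isUnit_iff_constantCoeff.2 (by simp)
    have u1 : IsUnit (1 + C X : ℤ⟦X⟧⟦X⟧) :=
      isUnit_iff_constantCoeff.2 (isUnit_iff_constantCoeff.2 (by simp))
    obtain ⟨χ, hχ⟩ := exists_hom_ab (FreeGroup.lift ![u0.unit, u1.unit, 1, 1, 1])
    let ψ := MonoidAlgebra.lift ℤ ℤ⟦X⟧⟦X⟧ _ ((Units.coeHom _).comp χ)
    have hψ : ∀ i, ψ (Y i) = ![X, C X, 0, 0, 0] i := fun i => by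
      rw [map_sub, map_one, MonoidAlgebra.lift_of, MonoidHom.comp_apply, ← ab_of, hχ]
      fin_cases i <;> simp
    have h3 := congrArg ψ (congrFun hρ 1)
    rw [hfox, h2, fox_cm bas (_ :: _), show fox bas (cm []) = _ from fox_commutator bas 0 1] at h3
    have h4 : ψ (ρ 0) * X ^ 4 + ψ (ρ 1) * X * C (X ^ 3) = C ((k : ℤ⟦X⟧) * X ^ 2) * X ^ 3 := by
      have h5 := hψ 0
      have h6 := hψ 1
      simp only [Y] at h5 h6
      simp [hψ, h5, h6, -MonoidAlgebra.of_apply] at h3
      simp only [map_mul, map_pow, map_natCast]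
      linear_combination h3
    have h5 := congrArg (fun s => coeff 2 (coeff 3 s)) h4
    simp only [map_add, coeff_mul_C, coeff_mul_X_pow'] at h5
    simp [← nsmul_eq_mul, map_nsmul] at h5
    omega
  · obtain ⟨g, rfl⟩ := isConj_iff.1 hb
    rw [mem_singleton_iff, ((show Commute g z from hz g).pow_right k).eq, mul_inv_cancel_right]

end Pool.Agent.P.MP_d3a22b_lc
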