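import Pool.Agent.P.MP_d3a22b_lc.Union

/-!
The asymptotic statement.
-/

set_option autoImplicit false

open Set Filter Topology

namespace Pool.Agent.P.MP_d3a22b_lc

variable {n m : ℕ}

theorem errBound_mono {ℓ ℓ' : ℕ} (h : ℓ ≤ ℓ') (s K C : ℕ) :
    errBound n m ℓ s K C ≤ errBound n m ℓ' s K C := by
  unfold errBound
  gcongr

theorem tendsto_errBound (hn : 3 ≤ n) :
    Tendsto (fun s => errBound n m ((s + 1) ^ 13) s (2 * s ^ 10) s) atTop (𝓝 0) := by
  have hM : (1 : ℝ) < Fintype.card (Mid n × Mid n) := by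
    have : Nontrivial (Fin n) := Fin.nontrivial_iff_two_le.2 (by omega)
    exact_mod_cast Fintype.one_lt_card
  have hq : (0 : ℝ) < 1 - 1 / (Fintype.card (Mid n × Mid n) : ℝ) :=
    sub_pos.2 ((div_lt_one (by linarith)).2 hM)
  have hq' : (1 : ℝ) < (1 - 1 / (Fintype.card (Mid n × Mid n) : ℝ))⁻¹ :=
    (one_lt_inv₀ hq).2 (sub_lt_self _ (by positivity))
  have h1 : SubExp fun s => ((m * (s * ((2 * s ^ 10 + 1) * (n * (n * 2)))) : ℕ) : ℝ) := by
    push_cast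
    fun_prop
  have h2 : Tendsto (fun s : ℕ => ((m * (s * (s * (s * s))) : ℕ) : ℝ) *
      (((2 * s ^ 10).choose (2 * s ^ 10 / 2) : ℕ) / 2 ^ (2 * s ^ 10))) atTop (𝓝 0) := by
    refine squeeze_zero' (Eventually.of_forall fun s => by positivity) ?_
      (tendsto_const_div_atTop_nhds_zero_nat (m : ℝ))
    filter_upwards [eventually_gt_atTop 0] with s hs
    have h3 : (((2 * s ^ 10).choose (2 * s ^ 10 / 2) : ℕ) : ℝ) * s ^ 5 ≤ 2 ^ (2 * s ^ 10) := by
      exact_mod_cast choose_mul_le s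
    have h4 : (0 : ℝ) < s := by exact_mod_cast hs
    rw [← mul_div_assoc, div_le_div_iff₀ (by positivity) h4]
    push_cast
    refine le_trans (le_of_eq ?_) (mul_le_mul_of_nonneg_left h3 (Nat.cast_nonneg m))
    ring
  have h3 : SubExp fun s => (((2 * (m * (s + 1) ^ 13) + 1) ^ n *
      (3 * (((2 * (m * (s + 1) ^ 13) + 1) ^ n) ^ 3 *
        ((s + 2) * (n.factorial * ((s + 1) ^ 13 + 2) ^ n) + 1)) + 1) : ℕ) : ℝ) := by
    push_cast
    fun_prop
  have h4 := (h1 _ hq').add (h2.add ((h3 2 one_lt_two).const_mul (m : ℝ)))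
  rw [mul_zero, add_zero, add_zero] at h4
  refine h4.congr fun s => ?_
  rw [errBound, inv_pow, div_inv_eq_mul]

theorem exists_err (hmn : m + 2 ≤ n) : ∃ δ : ℕ → ℝ, Tendsto δ atTop (𝓝 0) ∧ ∀ᶠ ℓ in atTop,
    (({w : Fin m → List (Fin n × Bool) | (∀ i, FreeGroup.IsReduced (w i) ∧ (w i).length = ℓ) ∧
      ¬ BiInterpretableWithNat (Met fun i => FreeGroup.mk (w i))}.ncard : ℕ) : ℝ) ≤
      δ ℓ * ({w : Fin m → List (Fin n × Bool) |
        ∀ i, FreeGroup.IsReduced (w i) ∧ (w i).length = ℓ}.ncard : ℕ) := by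
  rcases Nat.eq_zero_or_pos m with rfl | hm
  · refine ⟨fun _ => 0, tendsto_const_nhds, Eventually.of_forall fun ℓ => ?_⟩
    rw [zero_mul, Nat.cast_nonpos]
    refine (congrArg ncard (eq_empty_of_forall_notMem fun w hw => ?_)).trans (ncard_empty _)
    exact hw.2 (biInterpretable_of_foxGood_al hmn (fun _ => rfl)
      fun k ρ _ _ => ⟨ρ, Subsingleton.elim _ _⟩)
  have hs : Tendsto (Nat.nthRoot 13) atTop atTop := tendsto_atTop.2 fun b => by
    filter_upwards [eventually_ge_atTop (b ^ 13)] with ℓ h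
    exact (Nat.le_nthRoot_iff (by norm_num)).2 h
  refine ⟨_, (tendsto_errBound (m := m) (by omega : 3 ≤ n)).comp hs, ?_⟩
  filter_upwards [hs.eventually (eventually_ge_atTop 48)] with ℓ h
  set s := Nat.nthRoot 13 ℓ with hs
  have h1 : s ^ 13 ≤ ℓ := (Nat.le_nthRoot_iff (by norm_num)).1 le_rfl
  have h2 : ℓ ≤ (s + 1) ^ 13 := (Nat.lt_pow_nthRoot_add_one (by norm_num) ℓ).le
  have h3 : 1 ≤ s ^ 10 := Nat.one_le_pow _ _ (by omega)
  refine (ncard_bad_le (s := s) (K := 2 * s ^ 10) (C := s) hmn (by omega) ?_).trans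
    (mul_le_mul_of_nonneg_right (errBound_mono h2 _ _ _) (Nat.cast_nonneg _))
  calc 16 * (s * (2 * s ^ 10 + 1) * s) ≤ 16 * (s * (2 * s ^ 10 + s ^ 10) * s) := by gcongr
    _ = 48 * s ^ 12 := by ring
    _ ≤ s * s ^ 12 := by gcongr
    _ = s ^ 13 := by ring
    _ ≤ ℓ := h1

theorem tendsto_prob (hmn : m + 2 ≤ n) : Tendsto (fun ℓ : ℕ =>
    (({w : Fin m → List (Fin n × Bool) | (∀ i, FreeGroup.IsReduced (w i) ∧ (w i).length = ℓ) ∧
      BiInterpretableWithNat (Met fun i => FreeGroup.mk (w i))}.ncard : ℕ) : ℝ) /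
      ({w : Fin m → List (Fin n × Bool) |
        ∀ i, FreeGroup.IsReduced (w i) ∧ (w i).length = ℓ}.ncard : ℕ)) atTop (𝓝 1) := by
  obtain ⟨δ, hδ, h⟩ := exists_err hmn
  have h1 : Tendsto (fun ℓ => 1 - δ ℓ) atTop (𝓝 1) := by simpa using hδ.const_sub 1
  have h2 : ∀ ℓ : ℕ, {w : Fin m → List (Fin n × Bool) |
      ∀ i, FreeGroup.IsReduced (w i) ∧ (w i).length = ℓ}.Finite := fun ℓ =>
    (Finite.pi' fun _ : Fin m => List.finite_length_eq (Fin n × Bool) ℓ).subset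
      fun w hw i => (hw i).2
  have h3 : ∀ ℓ : ℕ, (0 : ℝ) < ({w : Fin m → List (Fin n × Bool) |
      ∀ i, FreeGroup.IsReduced (w i) ∧ (w i).length = ℓ}.ncard : ℕ) := fun ℓ => by
    refine Nat.cast_pos.2 ((ncard_pos (h2 ℓ)).2
      ⟨fun _ => List.replicate ℓ (⟨0, by omega⟩, true), fun i => ⟨?_, by simp⟩⟩)
    exact List.isChain_replicate_of_rel _ fun _ => rfl
  refine tendsto_of_tendsto_of_tendsto_of_le_of_le' h1 tendsto_const_nhds ?_
    (Eventually.of_forall fun ℓ => (div_le_one (h3 ℓ)).2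
      (Nat.cast_le.2 (ncard_le_ncard (fun w hw => hw.1) (h2 ℓ))))
  filter_upwards [h] with ℓ hℓ
  have h4 := ncard_inter_add_ncard_sdiff_eq_ncard _
    {w : Fin m → List (Fin n × Bool) | BiInterpretableWithNat (Met fun i => FreeGroup.mk (w i))}
    (h2 ℓ)
  have h5 := congrArg (Nat.cast : ℕ → ℝ) h4
  rw [Nat.cast_add] at h5
  rw [le_div_iff₀ (h3 ℓ), sub_mul, one_mul, sub_le_iff_le_add, ← h5]
  exact add_le_add le_rfl (h5 ▸ hℓ)

end Pool.Agent.P.MP_d3a22b_lc
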