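import Pool.Agent.P.MP_d3a22b_lc.GWorld2

/-!
Fox calculus and the Magnus embedding for a metabelian presentation.
-/

set_option autoImplicit false
set_option linter.unusedSectionVars false

open Set
open scoped commutatorElement

namespace Pool.Agent.P.MP_d3a22b_lc

/-- The semidirect product of a module over the group ring with the group. -/
@[ext] structure Aff (Q V : Type) where
  v : V
  q : Q

section aff

variable {Q : Type} [CommGroup Q] {V : Type} [AddCommGroup V] [Module (MonoidAlgebra ℤ Q) V]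

noncomputable instance : Mul (Aff Q V) :=
  ⟨fun x y => ⟨x.v + MonoidAlgebra.of ℤ Q x.q • y.v, x.q * y.q⟩⟩

instance : One (Aff Q V) := ⟨⟨0, 1⟩⟩

noncomputable instance : Inv (Aff Q V) :=
  ⟨fun x => ⟨-(MonoidAlgebra.of ℤ Q x.q⁻¹ • x.v), x.q⁻¹⟩⟩

theorem Aff.mul_v (x y : Aff Q V) : (x * y).v = x.v + MonoidAlgebra.of ℤ Q x.q • y.v := rfl
theorem Aff.mul_q (x y : Aff Q V) : (x * y).q = x.q * y.q := rfl
theorem Aff.one_v : (1 : Aff Q V).v = 0 := rfl
theorem Aff.one_q : (1 : Aff Q V).q = 1 := rfl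
theorem Aff.inv_v (x : Aff Q V) : (x⁻¹).v = -(MonoidAlgebra.of ℤ Q x.q⁻¹ • x.v) := rfl
theorem Aff.inv_q (x : Aff Q V) : (x⁻¹).q = x.q⁻¹ := rfl

noncomputable instance : Group (Aff Q V) := Group.ofLeftAxioms
  (fun x y z => Aff.ext
    (by simp only [Aff.mul_v, Aff.mul_q, map_mul, mul_smul, smul_add, add_assoc])
    (mul_assoc _ _ _))
  (fun x => Aff.ext (by simp only [Aff.mul_v, Aff.one_v, Aff.one_q, map_one, one_smul, zero_add])
    (one_mul _))
  (fun x => Aff.ext (by simp only [Aff.mul_v, Aff.inv_v, Aff.inv_q, Aff.one_v, neg_add_cancel])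
    (inv_mul_cancel _))

/-- The projection to the group. -/
def Aff.qHom : Aff Q V →* Q where
  toFun := Aff.q
  map_one' := rfl
  map_mul' _ _ := rfl

theorem Aff.derivedSeries_two : derivedSeries (Aff Q V) 2 = ⊥ := by
  have h1 : derivedSeries (Aff Q V) 1 ≤ Aff.qHom.ker := by
    rw [derivedSeries_one, commutator_def, Subgroup.commutator_le]
    rintro x - y -
    exact map_commutator_eq_one _ _ _
  rw [derivedSeries_succ, eq_bot_iff, Subgroup.commutator_le]
  intro x hx y hy
  have hx' : x.q = 1 := h1 hx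
  have hy' : y.q = 1 := h1 hy
  rw [Subgroup.mem_bot, commutatorElement_eq_one_iff_mul_comm]
  exact Aff.ext (by simp only [Aff.mul_v, hx', hy', map_one, one_smul, add_comm])
    (mul_comm _ _)

variable {n : ℕ}

/-- The homomorphism from the free group to the semidirect product. -/
noncomputable def affHom (α : Fin n → Q) (e : Fin n → V) : FreeGroup (Fin n) →* Aff Q V :=
  FreeGroup.lift fun i => ⟨e i, α i⟩

theorem affHom_q (α : Fin n → Q) (e : Fin n → V) (w : FreeGroup (Fin n)) :
    (affHom α e w).q = FreeGroup.lift α w := by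
  have : Aff.qHom.comp (affHom α e) = FreeGroup.lift α := by
    ext i
    simp [affHom, Aff.qHom]
  exact congrArg (fun f : FreeGroup (Fin n) →* Q => f w) this

/-- The vector of Fox derivatives. -/
noncomputable def fox (α : Fin n → Q) (w : FreeGroup (Fin n)) : Fin n → MonoidAlgebra ℤ Q :=
  (affHom α (fun i => (Pi.single i 1 : Fin n → MonoidAlgebra ℤ Q)) w).v

theorem fox_mul (α : Fin n → Q) (g h : FreeGroup (Fin n)) :
    fox α (g * h) = fox α g + MonoidAlgebra.of ℤ Q (FreeGroup.lift α g) • fox α h := by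
  unfold fox
  rw [map_mul, Aff.mul_v, affHom_q]

theorem fox_one (α : Fin n → Q) : fox α 1 = 0 := by
  unfold fox
  rw [map_one, Aff.one_v]

theorem fox_of (α : Fin n → Q) (i : Fin n) : fox α (FreeGroup.of i) = Pi.single i 1 := by
  simp [fox, affHom]

theorem fox_inv (α : Fin n → Q) (g : FreeGroup (Fin n)) :
    fox α g⁻¹ = -(MonoidAlgebra.of ℤ Q (FreeGroup.lift α g)⁻¹ • fox α g) := by
  unfold fox
  rw [map_inv, Aff.inv_v, affHom_q]

theorem affHom_v (α : Fin n → Q) (f : (Fin n → MonoidAlgebra ℤ Q) →ₗ[MonoidAlgebra ℤ Q] V)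
    (w : FreeGroup (Fin n)) : (affHom α (fun i => f (Pi.single i 1)) w).v = f (fox α w) := by
  induction w using FreeGroup.induction_on with
  | C1 => rw [map_one, fox_one, map_zero, Aff.one_v]
  | of i => simp [fox_of, affHom]
  | inv_of i ih => rw [map_inv, Aff.inv_v, ih, fox_inv, map_neg, map_smul, affHom_q]
  | mul g h hg hh => rw [map_mul, Aff.mul_v, hg, hh, fox_mul, map_add, map_smul, affHom_q]

theorem fox_commutator (α : Fin n → Q) (j k : Fin n) :
    fox α ⁅FreeGroup.of j, FreeGroup.of k⁆ =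
      (1 - MonoidAlgebra.of ℤ Q (α k)) • Pi.single j 1 +
        (MonoidAlgebra.of ℤ Q (α j) - 1) • Pi.single k 1 := by
  simp only [commutatorElement_def, fox_mul, fox_inv, fox_of, map_mul, map_inv,
    FreeGroup.lift_apply_of, smul_neg, smul_smul]
  have h1 : MonoidAlgebra.of ℤ Q (α j) * MonoidAlgebra.of ℤ Q (α k) *
      MonoidAlgebra.of ℤ Q (α j)⁻¹ = MonoidAlgebra.of ℤ Q (α k) := by
    rw [← map_mul, ← map_mul, mul_comm (α j), mul_inv_cancel_right]
  have h2 : MonoidAlgebra.of ℤ Q (α k) * MonoidAlgebra.of ℤ Q (α k)⁻¹ = 1 := by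
    rw [← map_mul, mul_inv_cancel, map_one]
  rw [h1, h2]
  module

end aff

section magnus

variable {n m : ℕ}

/-- The metabelian group with relators `r`. -/
abbrev Met (r : Fin m → FreeGroup (Fin n)) : Type :=
  PresentedGroup (range r ∪ (derivedSeries (FreeGroup (Fin n)) 2 : Set (FreeGroup (Fin n))))

variable {Q : Type} [CommGroup Q]

/-- The Alexander module. -/
abbrev Alex (α : Fin n → Q) (r : Fin m → FreeGroup (Fin n)) : Type :=
  (Fin n → MonoidAlgebra ℤ Q) ⧸ Submodule.span (MonoidAlgebra ℤ Q) (range fun i => fox α (r i))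

/-- The Magnus homomorphism. -/
noncomputable def magnus (α : Fin n → Q) (r : Fin m → FreeGroup (Fin n))
    (hr : ∀ i, FreeGroup.lift α (r i) = 1) : Met r →* Aff Q (Alex α r) :=
  PresentedGroup.toGroup (f := fun i => ⟨Submodule.mkQ _ (Pi.single i 1), α i⟩) (by
    rintro w (⟨i, rfl⟩ | hw)
    · refine Aff.ext ?_ ((affHom_q α _ _).trans (hr i))
      refine (affHom_v α (Submodule.mkQ _) (r i)).trans ?_
      exact (Submodule.Quotient.mk_eq_zero _).2 (Submodule.subset_span ⟨i, rfl⟩)
    · have := map_derivedSeries_le_derivedSeries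
        (affHom α (fun i => (Submodule.mkQ _ (Pi.single i 1) : Alex α r))) 2 ⟨w, hw, rfl⟩
      rw [Aff.derivedSeries_two] at this
      exact this)

variable {α : Fin n → Q} {r : Fin m → FreeGroup (Fin n)}

theorem magnus_mk (hr : ∀ i, FreeGroup.lift α (r i) = 1) (w : FreeGroup (Fin n)) :
    magnus α r hr (PresentedGroup.mk _ w) =
      ⟨Submodule.Quotient.mk (fox α w), FreeGroup.lift α w⟩ :=
  Aff.ext (affHom_v α (Submodule.mkQ _) w) (affHom_q α _ w)

theorem met_comm {a b : Met r} (ha : a ∈ commutator (Met r)) (hb : b ∈ commutator (Met r)) :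
    a * b = b * a := by
  rw [← commutatorElement_eq_one_iff_mul_comm]
  have h1 : ⁅a, b⁆ ∈ derivedSeries (Met r) 2 := Subgroup.commutator_mem_commutator ha hb
  obtain ⟨w, hw, hw'⟩ := derivedSeries_le_map_derivedSeries
    (PresentedGroup.mk_surjective _) 2 h1
  rw [← hw']
  exact PresentedGroup.one_of_mem (Or.inr hw)

theorem magnus_deriv (hr : ∀ i, FreeGroup.lift α (r i) = 1)
    (hs : Function.Surjective (FreeGroup.lift α))
    (hker : ∀ g, (Aff.qHom.comp (magnus α r hr)) g = 1 → g ∈ commutator (Met r)) :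
    Deriv (Aff.qHom.comp (magnus α r hr)) (fun g => (magnus α r hr g).v) := by
  set π := Aff.qHom.comp (magnus α r hr) with hπ
  have hπmk : ∀ w, π (PresentedGroup.mk _ w) = FreeGroup.lift α w := fun w =>
    congrArg Aff.q (magnus_mk hr w)
  have hπs : Function.Surjective π := fun q => by
    obtain ⟨w, rfl⟩ := hs q
    exact ⟨_, hπmk w⟩
  refine ⟨hπs, fun g h => by rw [map_mul]; rfl, ?_⟩
  choose s hs' using hπs
  let _ : CommGroup π.ker :=
    { (inferInstance : Group π.ker) with
      mul_comm := fun a b => Subtype.ext (met_comm (hker _ a.2) (hker _ b.2)) }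
  let D : Met r → Q → Additive π.ker := fun g q =>
    Additive.ofMul ⟨s q * g * (s (q * π g))⁻¹, by simp [MonoidHom.mem_ker, hs']⟩
  have hD : ∀ g h q, D (g * h) q = D g q + D h (q * π g) := by
    intro g h q
    apply Additive.toMul.injective
    apply Subtype.ext
    change s q * (g * h) * (s (q * π (g * h)))⁻¹ =
      s q * g * (s (q * π g))⁻¹ * (s (q * π g) * h * (s (q * π g * π h))⁻¹)
    rw [map_mul, ← mul_assoc q]
    group
  have hD1 : ∀ q, D 1 q = 0 := by
    intro q
    have := hD 1 1 q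
    rw [mul_one, map_one, mul_one] at this
    exact left_eq_add.1 this
  let T : (Fin n → MonoidAlgebra ℤ Q) →+ Additive π.ker :=
    { toFun := fun v => ∑ i, Finsupp.linearCombination ℤ (D (PresentedGroup.of i)) (v i).coeff
      map_zero' := by simp
      map_add' := fun v v' => by simp [Finset.sum_add_distrib] }
  have hT : ∀ w q, T (MonoidAlgebra.of ℤ Q q • fox α w) = D (PresentedGroup.mk _ w) q := by
    intro w
    induction w using FreeGroup.induction_on with
    | C1 => intro q; rw [fox_one, smul_zero, map_zero, map_one, hD1]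
    | of i =>
      intro q
      rw [fox_of]
      change ∑ j, Finsupp.linearCombination ℤ (D (PresentedGroup.of j))
        ((MonoidAlgebra.of ℤ Q q • (Pi.single i 1 : Fin n → MonoidAlgebra ℤ Q)) j).coeff = _
      rw [Finset.sum_eq_single i]
      · simp [PresentedGroup.of]
      · intro j _ hj
        simp [hj]
      · simp
    | inv_of i ih =>
      intro q
      have h1 := hD (PresentedGroup.mk _ (FreeGroup.of i)⁻¹) (PresentedGroup.mk _ (FreeGroup.of i)) q
      rw [← map_mul, inv_mul_cancel, map_one, hD1, hπmk, ← ih] at h1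
      rw [fox_inv, smul_neg, smul_smul, ← map_mul, map_neg, ← map_inv]
      exact (eq_neg_of_add_eq_zero_left h1.symm).symm
    | mul g h hg hh =>
      intro q
      rw [fox_mul, smul_add, smul_smul, ← map_mul, map_add, hg, hh, map_mul, hD, hπmk]
  have hT0 : ∀ v ∈ Submodule.span (MonoidAlgebra ℤ Q) (range fun i => fox α (r i)),
      ∀ ρ : MonoidAlgebra ℤ Q, T (ρ • v) = 0 := by
    intro v hv
    induction hv using Submodule.span_induction with
    | mem v hv =>
      obtain ⟨i, rfl⟩ := hv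
      intro ρ
      induction ρ using MonoidAlgebra.induction_linear with
      | zero => simp
      | add f g hf hg => rw [add_smul, map_add, hf, hg, add_zero]
      | single q k =>
        rw [← MonoidAlgebra.smul_of, smul_assoc, map_zsmul, hT,
          PresentedGroup.one_of_mem (Or.inl ⟨i, rfl⟩), hD1, smul_zero]
    | zero => simp
    | add x y _ _ hx hy => intro ρ; rw [smul_add, map_add, hx, hy, add_zero]
    | smul c x _ hx => intro ρ; rw [smul_smul, hx]
  intro a ha hd
  obtain ⟨w, rfl⟩ := PresentedGroup.mk_surjective _ a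
  rw [magnus_mk] at hd
  have h1 := hT0 _ ((Submodule.Quotient.mk_eq_zero _).1 hd) (MonoidAlgebra.of ℤ Q 1)
  rw [hT] at h1
  have h2 : s 1 * PresentedGroup.mk _ w * (s (1 * π (PresentedGroup.mk _ w)))⁻¹ = 1 :=
    congrArg (fun x : Additive π.ker => (x.toMul : Met r)) h1
  rw [ha, mul_one, mul_inv_eq_one, mul_eq_left] at h2
  exact h2

/-- The hypothesis on the Fox matrix: injective modulo every integer. -/
def FoxGood (α : Fin n → Q) (r : Fin m → FreeGroup (Fin n)) : Prop :=
  ∀ (k : ℤ) (ρ : Fin m → MonoidAlgebra ℤ Q) (v : Fin n → MonoidAlgebra ℤ Q),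
    ∑ i, ρ i • fox α (r i) = k • v → ∃ ρ' : Fin m → MonoidAlgebra ℤ Q, ρ = k • ρ'

theorem alex_eq_zero_iff (v : Fin n → MonoidAlgebra ℤ Q) :
    (Submodule.Quotient.mk v : Alex α r) = 0 ↔
      ∃ ρ : Fin m → MonoidAlgebra ℤ Q, ∑ i, ρ i • fox α (r i) = v := by
  rw [Submodule.Quotient.mk_eq_zero, Submodule.mem_span_range_iff_exists_fun]

theorem FoxGood.torsionFree (h : FoxGood α r) (k : ℤ) (a : Alex α r) (hk : k ≠ 0)
    (ha : k • a = 0) : a = 0 := by
  obtain ⟨v, rfl⟩ := Submodule.Quotient.mk_surjective _ a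
  rw [← Submodule.Quotient.mk_smul, alex_eq_zero_iff] at ha
  obtain ⟨ρ, hρ⟩ := ha
  obtain ⟨ρ', rfl⟩ := h k ρ v hρ
  rw [alex_eq_zero_iff]
  refine ⟨ρ', smul_right_injective _ hk ?_⟩
  simp only
  rw [← hρ, Finset.smul_sum]
  simp only [Pi.smul_apply, smul_assoc]

theorem FoxGood.noFix (h : FoxGood α r) {u w : Q} (huw : Indep u w) (a : Alex α r)
    (hu : (MonoidAlgebra.of ℤ Q u - 1) • a = 0) (hw : (MonoidAlgebra.of ℤ Q w - 1) • a = 0) :
    a = 0 := by
  obtain ⟨v, rfl⟩ := Submodule.Quotient.mk_surjective _ a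
  rw [← Submodule.Quotient.mk_smul, alex_eq_zero_iff] at hu hw
  obtain ⟨ρ, hρ⟩ := hu
  obtain ⟨σ, hσ⟩ := hw
  obtain ⟨τ, hτ⟩ := h 0 (fun i => (MonoidAlgebra.of ℤ Q w - 1) * ρ i -
      (MonoidAlgebra.of ℤ Q u - 1) * σ i) 0 (by
    simp only [sub_smul _ ((MonoidAlgebra.of ℤ Q u - 1) * σ _), Finset.sum_sub_distrib, mul_smul,
      ← Finset.smul_sum, hρ, hσ, smul_zero]
    rw [smul_comm, sub_self])
  have h1 : ∀ i, ∃ ρ', ρ i = (MonoidAlgebra.of ℤ Q u - 1) * ρ' := fun i =>
    huw.regular (σ := σ i) (sub_eq_zero.1 (by simpa using congrFun hτ i))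
  choose ρ' hρ' using h1
  rw [alex_eq_zero_iff]
  refine ⟨ρ', funext fun j => ?_⟩
  rw [← sub_eq_zero]
  apply eq_zero_of_sub_one_mul huw.not_isOfFinOrder
  have := congrFun hρ j
  simp only [hρ', mul_smul, ← Finset.smul_sum, Pi.smul_apply, smul_eq_mul] at this
  rw [mul_sub, this, sub_self]

theorem alex_faithful (hmn : m + 2 ≤ n) (hs : Function.Surjective (FreeGroup.lift α))
    {x : Q} (hx : ¬ IsOfFinOrder x) {s : MonoidAlgebra ℤ Q}
    (h : ∀ j k : Fin n, s • (Submodule.Quotient.mk (fox α ⁅FreeGroup.of j, FreeGroup.of k⁆) : Alex α r)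
      = 0) : s = 0 := by
  classical
  apply eq_zero_of_sub_one_mul hx
  apply eq_zero_of_forall_char
  intro χ
  by_contra hne
  rw [map_mul, mul_eq_zero, not_or] at hne
  obtain ⟨j, hj⟩ : ∃ j, χ (α j) ≠ 1 := by
    by_contra hall
    push Not at hall
    obtain ⟨w, rfl⟩ := hs x
    have : χ.comp (FreeGroup.lift α) = 1 := by
      ext i
      simp [hall]
    have h1 : χ (FreeGroup.lift α w) = 1 := congrArg (fun f : FreeGroup (Fin n) →* ℂ => f w) this
    exact hne.1 (by simp [h1])
  let b : Option (Fin m) → Fin n → ℂ := fun o => o.elim (Pi.single j 1)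
    fun i t => ev χ (fox α (r i) t)
  have hb : ∀ k, (Pi.single k 1 : Fin n → ℂ) ∈ Submodule.span ℂ (range b) := by
    intro k
    have h1 := h j k
    rw [← Submodule.Quotient.mk_smul, alex_eq_zero_iff] at h1
    obtain ⟨ρ, hρ⟩ := h1
    have h2 : ∑ i, ev χ (ρ i) • b (some i) = (ev χ s * (1 - χ (α k))) • Pi.single j 1 +
        (ev χ s * (χ (α j) - 1)) • (Pi.single k 1 : Fin n → ℂ) := by
      ext t
      have := congrArg (ev χ) (congrFun hρ t)
      rw [fox_commutator] at this
      simp only [Finset.sum_apply, Pi.smul_apply, smul_eq_mul, map_sum, map_mul, Pi.add_apply,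
        map_add, map_sub, map_one, MonoidAlgebra.lift_of, Pi.single_apply, apply_ite (ev χ),
        map_zero] at this
      simp only [Finset.sum_apply, Pi.smul_apply, smul_eq_mul, Pi.add_apply, Pi.single_apply, b,
        Option.elim]
      rw [this]
      ring
    have h3 : (ev χ s * (χ (α j) - 1)) • (Pi.single k 1 : Fin n → ℂ) ∈
        Submodule.span ℂ (range b) := by
      rw [← sub_eq_iff_eq_add'.2 h2]
      exact sub_mem (Submodule.sum_mem _ fun i _ => Submodule.smul_mem _ _
        (Submodule.subset_span ⟨some i, rfl⟩))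
        (Submodule.smul_mem _ _ (Submodule.subset_span ⟨none, rfl⟩))
    exact (Submodule.smul_mem_iff _ (mul_ne_zero hne.2 (sub_ne_zero.2 hj))).1 h3
  have htop : Submodule.span ℂ (range b) = ⊤ := by
    rw [eq_top_iff, ← (Pi.basisFun ℂ (Fin n)).span_eq, Submodule.span_le]
    rintro _ ⟨k, rfl⟩
    simpa using hb k
  have h4 := finrank_range_le_card (R := ℂ) b
  rw [Set.finrank, htop, finrank_top, Module.finrank_fin_fun] at h4
  simp at h4
  omega

end magnus

end Pool.Agent.P.MP_d3a22b_lc
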