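import Mathlib

/-!
Test ideals: for a finite module `A` over a finitely generated commutative ring `R`, additively
torsion free, there is a finite set `Φ ⊆ R` such that every element of `R` is an integral
combination of `Φ` modulo enough ideals generated by integral combinations of `Φ`.
-/

set_option autoImplicit false

open Set

namespace Pool.Agent.P.MP_d3a22b_lc

theorem exists_dual_ne_zero_of_not_torsion {B A : Type} [CommRing B] [IsDomain B]
    [AddCommGroup A] [Module B A] [Module.Finite B A] {a : A} (ha : ∀ β : B, β • a = 0 → β = 0) :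
    ∃ l : A →ₗ[B] B, l a ≠ 0 := by
  classical
  let K := FractionRing B
  let AK := LocalizedModule (nonZeroDivisors B) A
  let ι : A →ₗ[B] AK := LocalizedModule.mkLinearMap (nonZeroDivisors B) A
  have h1 : ι a ≠ 0 := by
    intro h
    obtain ⟨s, hs⟩ := (IsLocalizedModule.eq_zero_iff (nonZeroDivisors B) ι).1 h
    exact nonZeroDivisors.coe_ne_zero s (ha _ hs)
  obtain ⟨μ, hμ⟩ := Module.Projective.exists_dual_ne_zero K h1
  let ν : A →ₗ[B] K := (μ.restrictScalars B).comp ι
  obtain ⟨s, hs⟩ := Module.Finite.fg_top (R := B) (M := A)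
  obtain ⟨d, hd⟩ := IsLocalization.exist_integer_multiples (nonZeroDivisors B) s (fun x => ν x)
  have hr : ∀ x, ((d : B) • ν) x ∈ LinearMap.range (Algebra.linearMap B K) := by
    intro x
    have hx : x ∈ Submodule.span B (s : Set A) := hs ▸ Submodule.mem_top
    induction hx using Submodule.span_induction with
    | mem x hx => exact hd x hx
    | zero => simp
    | add x y _ _ hx hy => rw [map_add]; exact add_mem hx hy
    | smul c x _ hx => rw [map_smul]; exact Submodule.smul_mem _ _ hx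
  let e := LinearEquiv.ofInjective (Algebra.linearMap B K) (IsFractionRing.injective B K)
  refine ⟨e.symm.toLinearMap.comp (LinearMap.codRestrict _ ((d : B) • ν) hr), fun h => ?_⟩
  have h2 : LinearMap.codRestrict _ ((d : B) • ν) hr a = 0 := e.symm.injective (by simpa using h)
  have h3 : (d : B) • ν a = 0 := congrArg Subtype.val h2
  rw [Algebra.smul_def, mul_eq_zero] at h3
  rcases h3 with h3 | h3
  · exact nonZeroDivisors.coe_ne_zero d (IsFractionRing.injective B K (by simp at h3))
  · exact hμ h3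

theorem aeval_sub_mem {k R : Type} [Field k] [CommRing R] [Algebra k R] {s : ℕ} (y : Fin s → R)
    (n : Fin s → k) (β : MvPolynomial (Fin s) k) :
    MvPolynomial.aeval y β - algebraMap k R (MvPolynomial.eval n β) ∈
      Ideal.span (range fun j => y j - algebraMap k R (n j)) := by
  induction β using MvPolynomial.induction_on with
  | C c => simp
  | add p q hp hq =>
    simp only [map_add]
    convert add_mem hp hq using 1
    ring
  | mul_X p j hp =>
    simp only [map_mul, MvPolynomial.aeval_X, MvPolynomial.eval_X]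
    have h1 : y j - algebraMap k R (n j) ∈
        Ideal.span (range fun j => y j - algebraMap k R (n j)) := Ideal.subset_span ⟨j, rfl⟩
    convert add_mem (Ideal.mul_mem_right (y j) _ hp)
      (Ideal.mul_mem_left _ (algebraMap k R (MvPolynomial.eval n p)) h1) using 1
    ring

theorem tests_rat (R : Type) [CommRing R] [Algebra ℚ R] [Algebra.FiniteType ℚ R] (I : Ideal R) :
    ∀ (A : Type) [AddCommGroup A] [Module R A] [Module.Finite R A],
      (∀ r ∈ I, ∀ a : A, r • a = 0) →
      ∃ Φ : Set R, Φ.Finite ∧ ∀ (ρ : R) (a : A), a ≠ 0 → ∃ W : Set R,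
        W ⊆ Submodule.span ℚ Φ ∧ (∃ e ∈ Submodule.span ℚ Φ, ρ - e ∈ Ideal.span W) ∧
          a ∉ Ideal.span W • (⊤ : Submodule R A) := by
  classical
  have hN : IsNoetherianRing R := Algebra.FiniteType.isNoetherianRing ℚ R
  induction I using (wellFounded_gt (α := Ideal R)).induction with
  | _ I ih =>
  intro A _ _ _ hI
  by_cases htop : I = ⊤
  · refine ⟨∅, finite_empty, fun ρ a ha => absurd ?_ ha⟩
    simpa using hI 1 (htop ▸ Submodule.mem_top) a
  have : Nontrivial (R ⧸ I) := Ideal.Quotient.nontrivial_iff.2 htop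
  obtain ⟨s, g, ginj, gfin⟩ := exists_finite_inj_algHom_of_fg ℚ (R ⧸ I)
  let B := MvPolynomial (Fin s) ℚ
  choose y hy using fun j => Ideal.Quotient.mk_surjective (I := I) (g (MvPolynomial.X j))
  let ψ : B →ₐ[ℚ] R := MvPolynomial.aeval y
  have hψ : ∀ β, Ideal.Quotient.mk I (ψ β) = g β := by
    intro β
    have : (Ideal.Quotient.mkₐ ℚ I).comp ψ = g := by
      apply MvPolynomial.algHom_ext
      intro j
      simp [ψ, hy]
    exact congrArg (fun φ : B →ₐ[ℚ] R ⧸ I => φ β) this
  -- module generators of `R ⧸ I` over `B`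
  obtain ⟨t, b, hb⟩ : ∃ (t : ℕ) (b : Fin t → R), ∀ ρ : R, ∃ β : Fin t → B,
      ρ - ∑ j, ψ (β j) * b j ∈ I := by
    let _ : Algebra B (R ⧸ I) := g.toRingHom.toAlgebra
    have hf : Module.Finite B (R ⧸ I) := gfin
    obtain ⟨t, c, hc⟩ := Module.Finite.exists_fin (R := B) (M := R ⧸ I)
    choose b hb using fun j => Ideal.Quotient.mk_surjective (I := I) (c j)
    refine ⟨t, b, fun ρ => ?_⟩
    have : Ideal.Quotient.mk I ρ ∈ Submodule.span B (range c) := hc ▸ Submodule.mem_top
    obtain ⟨β, hβ⟩ := (Submodule.mem_span_range_iff_exists_fun B).1 this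
    refine ⟨β, ?_⟩
    rw [← Ideal.Quotient.eq_zero_iff_mem, map_sub, map_sum, ← hβ, sub_eq_zero]
    refine Finset.sum_congr rfl fun j _ => ?_
    rw [map_mul, hψ, hb]
    rfl
  let _ : Module B A := Module.compHom A ψ.toRingHom
  have hsm : ∀ (β : B) (a : A), β • a = ψ β • a := fun _ _ => rfl
  have hfin : Module.Finite B A := by
    obtain ⟨u, a, ha⟩ := Module.Finite.exists_fin (R := R) (M := A)
    refine ⟨Submodule.fg_def.2 ⟨range fun p : Fin t × Fin u => b p.1 • a p.2, finite_range _, ?_⟩⟩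
    rw [eq_top_iff]
    rintro x -
    have hx : x ∈ Submodule.span R (range a) := ha ▸ Submodule.mem_top
    obtain ⟨ρ, rfl⟩ := (Submodule.mem_span_range_iff_exists_fun R).1 hx
    refine Submodule.sum_mem _ fun k _ => ?_
    obtain ⟨β, hβ⟩ := hb (ρ k)
    have h1 := hI _ hβ (a k)
    rw [sub_smul, sub_eq_zero, Finset.sum_smul] at h1
    rw [h1]
    refine Submodule.sum_mem _ fun j _ => ?_
    rw [mul_smul, ← hsm]
    exact Submodule.smul_mem _ _ (Submodule.subset_span ⟨(j, k), rfl⟩)
  -- the torsion submodule is killed by one element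
  obtain ⟨β₀, hβ₀, hkill⟩ : ∃ β₀ : B, β₀ ≠ 0 ∧ ∀ a : A, (∃ β : B, β ≠ 0 ∧ β • a = 0) →
      β₀ • a = 0 := by
    have hT : Module.IsTorsion B (Submodule.torsion B A) := Submodule.torsion_isTorsion
    obtain ⟨β₀, h1, h2⟩ := Submodule.annihilator_top_inter_nonZeroDivisors hT
    refine ⟨β₀, nonZeroDivisors.ne_zero h2, ?_⟩
    rintro a ⟨β, hβ, ha⟩
    have hmem : a ∈ Submodule.torsion B A := ⟨⟨β, mem_nonZeroDivisors_of_ne_zero hβ⟩, ha⟩
    have := Submodule.mem_annihilator.1 h1 ⟨a, hmem⟩ Submodule.mem_top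
    exact congrArg Subtype.val this
  let N : Submodule R A := Ideal.span {ψ β₀} • ⊤
  have hlt : I < I ⊔ Ideal.span {ψ β₀} := by
    refine lt_of_le_of_ne le_sup_left fun h => hβ₀ (ginj ?_)
    have : ψ β₀ ∈ I := h ▸ Ideal.mem_sup_right (Ideal.mem_span_singleton_self _)
    rw [← hψ, Ideal.Quotient.eq_zero_iff_mem.2 this, map_zero]
  obtain ⟨Φ', hΦ', hT'⟩ := ih _ hlt (A ⧸ N) (by
    intro r hr a
    obtain ⟨a, rfl⟩ := Submodule.Quotient.mk_surjective N a
    obtain ⟨i, hi, j, hj, rfl⟩ := Submodule.mem_sup.1 hr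
    rw [← Submodule.Quotient.mk_smul, add_smul, hI i hi, zero_add,
      Submodule.Quotient.mk_eq_zero]
    exact Submodule.smul_mem_smul hj Submodule.mem_top)
  obtain ⟨S, hSfin, hS⟩ := Submodule.fg_def.1 (IsNoetherian.noetherian I)
  let Φ : Set R := Φ' ∪ S ∪ range y ∪ {1} ∪ range b
  refine ⟨Φ, (((hΦ'.union hSfin).union (finite_range _)).union (finite_singleton _)).union
    (finite_range _), fun ρ a ha => ?_⟩
  by_cases htor : ∃ β : B, β ≠ 0 ∧ β • a = 0
  · have ha' : Submodule.Quotient.mk (p := N) a ≠ 0 := by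
      intro h
      rw [Submodule.Quotient.mk_eq_zero] at h
      simp only [N] at h
      rw [Submodule.ideal_span_singleton_smul, Submodule.mem_smul_pointwise_iff_exists] at h
      obtain ⟨a', -, rfl⟩ := h
      apply ha
      rw [← hsm]
      apply hkill
      obtain ⟨β, hβ, h⟩ := htor
      exact ⟨β * β₀, mul_ne_zero hβ hβ₀, by rw [mul_smul]; exact h⟩
    obtain ⟨W, hW, ⟨e, he, hρ⟩, hna⟩ := hT' ρ _ ha'
    have hle : Submodule.span ℚ Φ' ≤ Submodule.span ℚ Φ :=
      Submodule.span_mono fun x hx => Or.inl (Or.inl (Or.inl (Or.inl hx)))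
    refine ⟨W, hW.trans hle, ⟨e, hle he, hρ⟩, fun h => hna ?_⟩
    have := Submodule.mem_map_of_mem (f := N.mkQ) h
    rw [Submodule.map_smul''] at this
    exact SetLike.le_def.1 (smul_mono_right (Ideal.span W) le_top) this
  · push Not at htor
    obtain ⟨l, hl⟩ := exists_dual_ne_zero_of_not_torsion (B := B) (a := a)
      (fun β h => by_contra fun h' => htor β h' h)
    obtain ⟨n, hn⟩ : ∃ n : Fin s → ℚ, MvPolynomial.eval n (l a) ≠ 0 := by
      by_contra h
      push Not at h
      exact hl (MvPolynomial.funext (by simpa using h))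
    let W : Set R := S ∪ range fun j => y j - algebraMap ℚ R (n j)
    have hmem : ∀ x ∈ Φ, x ∈ Submodule.span ℚ Φ := fun x hx => Submodule.subset_span hx
    refine ⟨W, ?_, ?_, ?_⟩
    · rintro x (hx | ⟨j, rfl⟩)
      · exact hmem _ (Or.inl (Or.inl (Or.inl (Or.inr hx))))
      · refine sub_mem (hmem _ (Or.inl (Or.inl (Or.inr ⟨j, rfl⟩)))) ?_
        rw [Algebra.algebraMap_eq_smul_one]
        exact Submodule.smul_mem _ _ (hmem _ (Or.inl (Or.inr rfl)))
    · obtain ⟨β, hβ⟩ := hb ρ
      refine ⟨∑ j, MvPolynomial.eval n (β j) • b j, Submodule.sum_mem _ fun j _ =>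
        Submodule.smul_mem _ _ (hmem _ (Or.inr ⟨j, rfl⟩)), ?_⟩
      have h1 : ρ - ∑ j, ψ (β j) * b j ∈ Ideal.span W :=
        Ideal.span_mono subset_union_left (by rw [← hS] at hβ; exact hβ)
      have h2 : ∑ j, (ψ (β j) - algebraMap ℚ R (MvPolynomial.eval n (β j))) * b j ∈
          Ideal.span W := Submodule.sum_mem _ fun j _ => Ideal.mul_mem_right _ _
            (Ideal.span_mono subset_union_right (aeval_sub_mem y n (β j)))
      convert add_mem h1 h2 using 1
      simp only [sub_mul, Finset.sum_sub_distrib, Algebra.smul_def]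
      ring
    · intro h
      apply hn
      have key : ∀ r ∈ Ideal.span W, ∀ x : A, MvPolynomial.eval n (l (r • x)) = 0 := by
        intro r hr
        induction hr using Submodule.span_induction with
        | mem r hr =>
          intro x
          rcases hr with hr | ⟨j, rfl⟩
          · rw [hI r (hS ▸ Submodule.subset_span hr), map_zero, map_zero]
          · have : y j - algebraMap ℚ R (n j) = ψ (MvPolynomial.X j - MvPolynomial.C (n j)) := by
              rw [map_sub, MvPolynomial.algHom_C]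
              exact congrArg (· - _) (MvPolynomial.aeval_X y j).symm
            simp only
            rw [this, ← hsm, map_smul]
            simp
        | zero => simp
        | add r r' _ _ h h' => intro x; rw [add_smul, map_add, map_add, h, h', add_zero]
        | smul c r _ h => intro x; rw [smul_eq_mul, mul_comm, mul_smul, h]
      refine Submodule.smul_induction_on h (fun r hr x _ => key r hr x) ?_
      intro x z hx hz
      rw [map_add, map_add, hx, hz, add_zero]

theorem tests_int_aux (R R' : Type) [CommRing R] [CommRing R'] [Algebra R R'] [Algebra ℚ R']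
    [Algebra.FiniteType ℚ R']
    [IsLocalization (Algebra.algebraMapSubmonoid R (nonZeroDivisors ℤ)) R']
    (A : Type) [AddCommGroup A] [Module R A] [Module.Finite R A]
    (htf : ∀ (d : ℤ) (a : A), d ≠ 0 → d • a = 0 → a = 0) :
    ∃ (K : ℕ) (φ : Fin K → R), ∀ (ρ : R) (a : A), a ≠ 0 →
      ∃ (d : ℤ) (e : Fin K → ℤ) (g : Fin K → Fin K → ℤ),
        (∃ σ : Fin K → R, d • ρ - ∑ j, e j • φ j = ∑ i, σ i * ∑ j, g i j • φ j) ∧
        ¬ ∃ c : Fin K → A, d • a = ∑ i, (∑ j, g i j • φ j) • c i := by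
  classical
  let S := Algebra.algebraMapSubmonoid R (nonZeroDivisors ℤ)
  let ι := algebraMap R R'
  have hS : ∀ s : S, ∃ d : ℤ, d ≠ 0 ∧ (s : R) = d := by
    rintro ⟨_, d, hd, rfl⟩
    exact ⟨d, nonZeroDivisors.ne_zero hd, by simp⟩
  have hsurj : ∀ x : R', ∃ (d : ℤ) (r : R), d ≠ 0 ∧ d • x = ι r := by
    intro x
    obtain ⟨⟨r, s⟩, h⟩ := IsLocalization.surj S x
    obtain ⟨d, hd, hs⟩ := hS s
    refine ⟨d, r, hd, ?_⟩
    simp only [hs, map_intCast] at h
    rw [zsmul_eq_mul, mul_comm, h]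
  have hker : ∀ r : R, ι r = 0 → ∃ d : ℤ, d ≠ 0 ∧ d • r = 0 := by
    intro r hr
    obtain ⟨s, hs⟩ := (IsLocalization.map_eq_zero_iff S R' r).1 hr
    obtain ⟨d, hd, hs'⟩ := hS s
    exact ⟨d, hd, by rw [zsmul_eq_mul, ← hs', hs]⟩
  let A' := TensorProduct R R' A
  let κ : A →ₗ[R] A' := TensorProduct.mk R R' A 1
  have hκ : ∀ a, a ≠ 0 → κ a ≠ 0 := by
    intro a ha h
    obtain ⟨s, hs⟩ := (IsLocalizedModule.eq_zero_iff S κ).1 h
    obtain ⟨d, hd, hs'⟩ := hS s
    refine ha (htf d a hd ?_)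
    rw [← Int.cast_smul_eq_zsmul R, ← hs']
    exact hs
  obtain ⟨Φ, hΦ, hT⟩ := tests_rat R' ⊥ A' (by simp)
  obtain ⟨K, φ', hφ'⟩ : ∃ (K : ℕ) (φ' : Fin K → R'), range φ' = Φ := by
    obtain ⟨K, φ', -, h⟩ := hΦ.fin_param
    exact ⟨K, φ', h⟩
  choose dφ φ hdφ hφ using fun j => hsurj (φ' j)
  have hclear : ∀ w ∈ Submodule.span ℚ Φ, ∃ (d : ℤ) (n : Fin K → ℤ), d ≠ 0 ∧
      d • w = ι (∑ j, n j • φ j) := by
    intro w hw
    induction hw using Submodule.span_induction with
    | mem w hw =>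
      rw [← hφ'] at hw
      obtain ⟨j, rfl⟩ := hw
      exact ⟨dφ j, Pi.single j 1, hdφ j, by simp [Pi.single_apply, hφ]⟩
    | zero => exact ⟨1, 0, one_ne_zero, by simp⟩
    | add x y _ _ hx hy =>
      obtain ⟨d, n, hd, h⟩ := hx
      obtain ⟨d', n', hd', h'⟩ := hy
      refine ⟨d * d', d' • n + d • n', mul_ne_zero hd hd', ?_⟩
      simp only [Pi.add_apply, Pi.smul_apply, add_smul, Finset.sum_add_distrib, map_add,
        smul_assoc, ← Finset.smul_sum, map_zsmul, ← h, ← h']
      module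
    | smul c x _ hx =>
      obtain ⟨d, n, hd, h⟩ := hx
      refine ⟨d * c.den, c.num • n, mul_ne_zero hd (by exact_mod_cast c.den_nz), ?_⟩
      simp only [Pi.smul_apply, smul_assoc, ← Finset.smul_sum, map_zsmul, ← h]
      rw [← Int.cast_smul_eq_zsmul ℚ, ← Int.cast_smul_eq_zsmul ℚ, ← Int.cast_smul_eq_zsmul ℚ,
        smul_smul, smul_smul]
      congr 1
      push_cast
      rw [mul_assoc, mul_comm (c.den : ℚ) c, Rat.mul_den_eq_num, mul_comm]
  refine ⟨K, φ, fun ρ a ha => ?_⟩
  obtain ⟨W, hW, ⟨e, he, hρ⟩, hna⟩ := hT (ι ρ) (κ a) (hκ a ha)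
  have hfd : Module.Finite ℚ (Submodule.span ℚ Φ) := Module.Finite.span_of_finite ℚ hΦ
  have hk : Module.finrank ℚ (Submodule.span ℚ W) ≤ K := by
    refine (Submodule.finrank_mono (Submodule.span_le.2 hW)).trans ?_
    rw [← hφ']
    exact (finrank_range_le_card (R := ℚ) φ').trans (by simp)
  have hfd' : Module.Finite ℚ (Submodule.span ℚ W) :=
    Submodule.finiteDimensional_of_le (Submodule.span_le.2 hW)
  obtain ⟨w, hwW, hwspan, -⟩ := Submodule.exists_fun_fin_finrank_span_eq ℚ W
  let w' : Fin K → R' := fun i => if h : i.1 < _ then w ⟨i, h⟩ else 0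
  have hw'W : ∀ i, w' i ∈ Ideal.span W := by
    intro i
    by_cases h : i.1 < Module.finrank ℚ (Submodule.span ℚ W)
    · simp only [w', h, dite_true]
      exact Ideal.subset_span (hwW _)
    · simp [w', h]
  have hw'Φ : ∀ i, w' i ∈ Submodule.span ℚ Φ := by
    intro i
    by_cases h : i.1 < Module.finrank ℚ (Submodule.span ℚ W)
    · simp only [w', h, dite_true]
      exact hW (hwW _)
    · simp [w', h]
  choose dg g hdg hg using fun i => hclear _ (hw'Φ i)
  let γ : Fin K → R := fun i => ∑ j, g i j • φ j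
  have hWle : Ideal.span W ≤ Ideal.span (range fun i => ι (γ i)) := by
    rw [Ideal.span_le]
    intro x hx
    have h1 : x ∈ Submodule.span ℚ (range w) := by
      rw [hwspan]
      exact Submodule.subset_span hx
    have h2 : Submodule.span ℚ (range w) ≤
        (Ideal.span (range fun i => ι (γ i))).restrictScalars ℚ := by
      rw [Submodule.span_le]
      rintro _ ⟨i, rfl⟩
      let i' : Fin K := ⟨i, lt_of_lt_of_le i.2 hk⟩
      have h3 : w i = w' i' := by simp [w', i']
      have h4 : w' i' = ((dg i' : ℚ)⁻¹) • ι (γ i') := by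
        rw [← hg i', ← Int.cast_smul_eq_zsmul ℚ, smul_smul,
          inv_mul_cancel₀ (by exact_mod_cast hdg i'), one_smul]
      rw [h3, h4]
      exact Submodule.smul_mem _ _ (Ideal.subset_span ⟨i', rfl⟩)
    exact h2 h1
  obtain ⟨de, e', hde, he'⟩ := hclear e he
  obtain ⟨σ', hσ'⟩ := Ideal.mem_span_range_iff_exists_fun.1 (hWle hρ)
  obtain ⟨s, hs⟩ := IsLocalization.exist_integer_multiples_of_finite S σ'
  obtain ⟨D, hD, hsD⟩ := hS s
  choose σ hσ using hs
  have h0 : ι ((de * D) • ρ - ∑ j, (D * e' j) • φ j - ∑ i, (de • σ i) * γ i) = 0 := by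
    have h1 : ∀ i, ι (σ i) = D • σ' i := fun i => by
      rw [hσ i, hsD, Int.cast_smul_eq_zsmul]
    have h2 : ι (∑ j, (D * e' j) • φ j) = D • de • e := by
      rw [he', ← map_zsmul, Finset.smul_sum]
      simp only [smul_smul]
    rw [map_sub, map_sub, h2, map_sum, map_zsmul]
    simp only [map_mul, map_zsmul, h1, smul_mul_assoc, ← Finset.smul_sum, hσ']
    module
  obtain ⟨d', hd', h0'⟩ := hker _ h0
  refine ⟨d' * (de * D), fun j => d' * (D * e' j), g, ⟨fun i => d' • de • σ i, ?_⟩, ?_⟩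
  · rw [smul_sub, smul_sub, sub_eq_zero, Finset.smul_sum, Finset.smul_sum] at h0'
    simp only [smul_smul, ← smul_mul_assoc] at h0' ⊢
    exact h0'
  · rintro ⟨c, hc⟩
    apply hna
    have h1 : (d' * (de * D)) • κ a ∈ Ideal.span W • (⊤ : Submodule R' A') := by
      rw [← map_zsmul, hc, map_sum]
      refine Submodule.sum_mem _ fun i _ => ?_
      rw [map_smul, ← algebraMap_smul R' (∑ j, g i j • φ j)]
      refine Submodule.smul_mem_smul ?_ Submodule.mem_top
      change ι (γ i) ∈ _
      rw [← hg i]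
      exact zsmul_mem (hw'W i) _
    have h2 : κ a = (algebraMap ℚ R' (((d' * (de * D) : ℤ) : ℚ)⁻¹)) • (d' * (de * D)) • κ a := by
      rw [← Int.cast_smul_eq_zsmul R', smul_smul, ← map_intCast (algebraMap ℚ R'), ← map_mul,
        inv_mul_cancel₀ (by exact_mod_cast mul_ne_zero hd' (mul_ne_zero hde hD)), map_one,
        one_smul]
    rw [h2]
    exact Submodule.smul_mem _ _ h1

attribute [local instance] Algebra.TensorProduct.rightAlgebra in
theorem tests_int (R : Type) [CommRing R] [Algebra.FiniteType ℤ R]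
    (A : Type) [AddCommGroup A] [Module R A] [Module.Finite R A]
    (htf : ∀ (d : ℤ) (a : A), d ≠ 0 → d • a = 0 → a = 0) :
    ∃ (K : ℕ) (φ : Fin K → R), ∀ (ρ : R) (a : A), a ≠ 0 →
      ∃ (d : ℤ) (e : Fin K → ℤ) (g : Fin K → Fin K → ℤ),
        (∃ σ : Fin K → R, d • ρ - ∑ j, e j • φ j = ∑ i, σ i * ∑ j, g i j • φ j) ∧
        ¬ ∃ c : Fin K → A, d • a = ∑ i, (∑ j, g i j • φ j) • c i :=
  tests_int_aux R (TensorProduct ℤ ℚ R) A htf

end Pool.Agent.P.MP_d3a22b_lc
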