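import Pool.Agent.P.MP_d3a22b_lc.GroupRing
import Pool.Agent.P.MP_d3a22b_lc.Chars
import Pool.Agent.P.MP_d3a22b_lc.Tests

/-!
Definability in a finitely generated abelian group with definable cyclic subgroups, and in a
module over its group ring.
-/

set_option autoImplicit false
set_option linter.unusedSectionVars false

open FirstOrder FirstOrder.Language Set

namespace Pool.Agent.P.MP_d3a22b_lc

variable {L : FirstOrder.Language.{0, 0}} {M : Type} [L.Structure M] [Nontrivial M]

theorem Indep.transfer {Q : Type} [CommGroup Q] {u w : Q} (h : Indep u w) (i : ℤ) (t : Q) :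
    (t ∈ Subgroup.zpowers w ∧ u ^ i * t ∈ Subgroup.zpowers (u * w)) ↔ w ^ i = t := by
  constructor
  · rintro ⟨⟨j, rfl⟩, k, hk⟩
    simp only at hk ⊢
    have := h (k - i) (k - j) (by
      rw [zpow_sub, zpow_sub, mul_mul_mul_comm, ← _root_.mul_zpow, hk, ← mul_inv, mul_inv_cancel])
    have h1 : i = j := by omega
    rw [h1]
  · rintro rfl
    exact ⟨⟨i, rfl⟩, i, _root_.mul_zpow _ _ _⟩

theorem Indep.zpow_right {Q : Type} [CommGroup Q] {u w : Q} (h : Indep u w) {a : ℤ}
    (ha : a ≠ 0) : Indep u (w ^ a) := by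
  intro i j hij
  rw [← zpow_mul] at hij
  have := h _ _ hij
  exact ⟨this.1, (mul_eq_zero.1 this.2).resolve_left ha⟩

theorem Indep.or_mul {Q : Type} [CommGroup Q] {x y : Q} (h : Indep x y) (q : Q) :
    Indep x q ∨ Indep x (q * y) := by
  by_contra hcon
  simp only [Indep, not_or, not_forall] at hcon
  obtain ⟨⟨i, j, h1, h2⟩, i', j', h3, h4⟩ := hcon
  have hx := h.not_isOfFinOrder
  rw [isOfFinOrder_iff_zpow_eq_one] at hx
  push Not at hx
  have hj : j ≠ 0 := by
    rintro rfl
    exact hx i (fun h0 => h2 ⟨h0, rfl⟩) (by simpa using h1)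
  have hj' : j' ≠ 0 := by
    rintro rfl
    exact hx i' (fun h0 => h4 ⟨h0, rfl⟩) (by simpa using h3)
  have h5 : x ^ (i' * j - i * j') * y ^ (j' * j) = 1 := by
    have e1 : (x ^ i' * (q * y) ^ j') ^ j * ((x ^ i * q ^ j) ^ j')⁻¹ = 1 := by
      rw [h1, h3]; simp
    rw [← e1]
    simp only [_root_.mul_zpow, ← zpow_mul, zpow_sub, mul_inv, mul_comm j j']
    simp only [mul_assoc, mul_comm, mul_left_comm (q ^ (j * j')), mul_inv_cancel, mul_one]
    simp only [mul_assoc, mul_comm, mul_left_comm]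
  exact mul_ne_zero hj' hj (h _ _ h5).2

theorem finiteType_groupRing (Q : Type) [CommGroup Q] [Monoid.FG Q] :
    @Algebra.FiniteType ℤ (MonoidAlgebra ℤ Q) _ _ (Ring.toIntAlgebra _) := by
  have h : Ring.toIntAlgebra (MonoidAlgebra ℤ Q) = MonoidAlgebra.algebra := Subsingleton.elim _ _
  rw [h]
  exact (inferInstance : Algebra.FiniteType ℤ (MonoidAlgebra ℤ Q))

/-- In an abelian group with two independent elements and definable cyclic subgroups, the ring of
integers is presented, and powers are definable. -/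
theorem exists_pres_int_of_zpowers {Q : Type} [CommGroup Q] [Pres L M Q] [DefMul L M Q]
    (hdiv : DefF L M (fun p : Q × Q => p.1 ∈ Subgroup.zpowers p.2)) {x y : Q} (hxy : Indep x y) :
    ∃ _ : Pres L M ℤ, DefAdd L M ℤ ∧ DefMul L M ℤ ∧ ∀ q : Q, DefF L M (fun k : ℤ => q ^ k) := by
  classical
  have hd2 : ∀ {X : Type} [Pres L M X] {f g : X → Q}, DefF L M f → DefF L M g →
      DefF L M (fun t => f t ∈ Subgroup.zpowers (g t)) := fun hf hg => hdiv.comp (hf.prodMk hg)
  have hinj : Function.Injective (fun k : ℤ => x ^ k) :=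
    injective_zpow_iff_not_isOfFinOrder.2 hxy.not_isOfFinOrder
  let lg : Q → ℤ := fun q => if h : q ∈ Subgroup.zpowers x then h.choose else 0
  let r : Q → Q := fun q => if q ∈ Subgroup.zpowers x then q else 1
  have hr : DefF L M r := DefF.ite (hd2 DefF.id (DefF.const x)) DefF.id (DefF.const 1)
  have hlg : ∀ q, x ^ lg q = r q := by
    intro q
    by_cases h : q ∈ Subgroup.zpowers x
    · simp only [lg, r, h, dite_true, if_true]
      exact h.choose_spec
    · simp [lg, r, h]
  have hlgs : Function.Surjective lg := fun k => ⟨x ^ k, hinj (by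
    simp only
    rw [hlg]
    exact if_pos ⟨k, rfl⟩)⟩
  have hk : DefF L M (fun q : Q × Q => lg q.1 = lg q.2) :=
    DefF.congr (f := fun q => r q.1 = r q.2) (by fun_prop) fun q => propext (by
      rw [← hlg, ← hlg]
      exact hinj.eq_iff)
  let _ : Pres L M ℤ := Pres.ofSurj lg hlgs hk
  have hlgd : DefF L M lg := defF_ofSurj lg hlgs hk
  have hex : DefF L M (fun k : ℤ => x ^ k) :=
    DefF.of_comp_surjective hlgd hlgs (hr.congr fun q => (hlg q).symm)
  have htr : ∀ w, Indep x w → DefF L M (fun k : ℤ => w ^ k) := fun w hw =>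
    DefF.of_graph (P := fun p : ℤ × Q => p.2 ∈ Subgroup.zpowers w ∧
      x ^ p.1 * p.2 ∈ Subgroup.zpowers (x * w))
      ((hd2 DefF.id.snd (DefF.const _)).and
        (hd2 ((hex.comp DefF.id.fst).mul DefF.id.snd) (DefF.const _)))
      fun k t => hw.transfer k t
  refine ⟨inferInstance, ⟨?_⟩, ⟨?_⟩, fun q => ?_⟩
  · refine DefF.of_comp_injective hex hinj ?_
    simp only [zpow_add]
    exact (hex.comp DefF.id.fst).mul (hex.comp DefF.id.snd)
  · have h1 : DefF L M (fun p : (ℤ × ℤ) × ℤ => x ^ p.2) := hex.comp DefF.id.snd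
    have h2 : DefF L M (fun p : (ℤ × ℤ) × ℤ => x ^ p.1.1) := hex.comp DefF.id.fst.fst
    have h3 : DefF L M (fun p : (ℤ × ℤ) × ℤ => y ^ p.1.2) := (htr y hxy).comp DefF.id.fst.snd
    refine DefF.of_graph (P := fun p : (ℤ × ℤ) × ℤ => (p.1.1 = 0 ∧ p.2 = 0) ∨ (p.1.1 ≠ 0 ∧
      x ^ p.2 ∈ Subgroup.zpowers (x ^ p.1.1) ∧
      y ^ p.1.2 * x ^ p.2 ∈ Subgroup.zpowers (y * x ^ p.1.1)))
      (DefF.or (by fun_prop) (DefF.and (by fun_prop) ((hd2 h1 h2).and
        (hd2 (h3.mul h1) ((DefF.const y).mul h2))))) ?_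
    rintro ⟨a, b⟩ c
    by_cases ha : a = 0
    · simp [ha, eq_comm]
    · simp only [ha, false_and, false_or, ne_eq, not_false_eq_true, true_and]
      rw [(hxy.symm.zpow_right ha).transfer, ← zpow_mul]
      exact hinj.eq_iff
  · rcases hxy.or_mul q with h | h
    · exact htr q h
    · refine ((htr _ h).mul (htr y hxy).inv).congr fun k => ?_
      rw [_root_.mul_zpow, mul_inv_cancel_right]

section

variable [Pres L M ℕ] [DefAdd L M ℕ] [DefMul L M ℕ]
variable [Pres L M ℤ] [DefAdd L M ℤ] [DefMul L M ℤ] [DefCast L M]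

theorem coded_of_zpow {Q : Type} [CommGroup Q] [Group.FG Q] [Pres L M Q] [DefMul L M Q]
    (h : ∀ q : Q, DefF L M (fun k : ℤ => q ^ k)) : Coded L M Q := by
  obtain ⟨S, hS, hfin⟩ := Group.fg_iff.1 ‹Group.FG Q›
  obtain ⟨n, a, -, rfl⟩ := hfin.fin_param
  refine Coded.of_surjective (X := Fin n → ℤ) (f := fun k => ∏ i, a i ^ k i)
    (DefF.finsetProd _ fun i => (h (a i)).comp (DefF.apply i)) fun q => ?_
  have : q ∈ Subgroup.closure (range a) := hS ▸ Subgroup.mem_top q
  obtain ⟨k, hk⟩ := Subgroup.mem_closure_range_iff_of_fintype.1 this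
  exact ⟨k, hk.symm⟩

variable {Q : Type} [CommGroup Q] [Pres L M Q] [DefMul L M Q] [Coded L M Q]
  {A : Type} [AddCommGroup A] [Module (MonoidAlgebra ℤ Q) A] [Pres L M A] [DefAdd L M A]

/-- The action of `ℤ` on the module is definable. -/
theorem defSMul_int [Monoid.FG Q] [Module.Finite (MonoidAlgebra ℤ Q) A]
    (hact : DefF L M (fun p : Q × A => MonoidAlgebra.of ℤ Q p.1 • p.2)) {z : Q}
    (hz : ∀ M : ℕ, 0 < M → ∀ a : A, (MonoidAlgebra.of ℤ Q z ^ M - 1) • a = 0 → a = 0) :
    DefSMul L M ℤ A := by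
  have hnat : DefF L M (fun p : ℕ × A => p.1 • p.2) := by
    have key : ∀ act : Q × A → A, DefF L M act →
        DefF L M (fun p : (ℕ × A) × A => All fun K : ℕ => Imp (0 < K) (∃ c c' : A,
          act (z ^ K, c) - c = act (z ^ (K * p.1.1), p.1.2) - p.1.2 ∧
          p.2 - c = act (z ^ K, c') - c')) := fun act hact => by fun_prop
    refine DefF.of_graph (key _ hact) ?_
    rintro ⟨n, a⟩ b
    simp only [All, Imp, map_pow]
    let Z := MonoidAlgebra.of ℤ Q z
    have h1 : ∀ K : ℕ, ∃ s, (∑ i ∈ Finset.range n, (Z ^ K) ^ i) - n = (Z ^ K - 1) * s := by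
      intro K
      have : (Z ^ K - 1) ∣ ∑ i ∈ Finset.range n, ((Z ^ K) ^ i - 1) :=
        Finset.dvd_sum fun i _ => sub_one_dvd_pow_sub_one _ _
      obtain ⟨s, hs⟩ := this
      exact ⟨s, by simpa [Finset.sum_sub_distrib] using hs⟩
    have h2 : ∀ K : ℕ, (Z ^ K - 1) • ((∑ i ∈ Finset.range n, (Z ^ K) ^ i) • a) =
        Z ^ (K * n) • a - a := by
      intro K
      rw [smul_smul, mul_geom_sum, sub_smul, one_smul, pow_mul]
    constructor
    · intro h
      symm
      rw [← sub_eq_zero]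
      have := finiteType_groupRing Q
      refine eq_zero_of_forall_pow_sub_one (R := MonoidAlgebra ℤ Q) (x := Z)
        ((Group.isUnit z).map _) fun K hK => ?_
      obtain ⟨c, c', hc, hc'⟩ := h K hK
      obtain ⟨s, hs⟩ := h1 K
      have h3 : c = (∑ i ∈ Finset.range n, (Z ^ K) ^ i) • a := by
        rw [← sub_eq_zero]
        apply hz K hK
        rw [smul_sub, h2, sub_smul, one_smul, hc, sub_self]
      refine ⟨c' + s • a, ?_⟩
      rw [smul_add, smul_smul, ← hs, sub_smul, sub_smul, one_smul, ← h3, ← hc',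
        Nat.cast_smul_eq_nsmul]
      abel
    · rintro rfl K hK
      obtain ⟨s, hs⟩ := h1 K
      refine ⟨(∑ i ∈ Finset.range n, (Z ^ K) ^ i) • a, -(s • a), ?_, ?_⟩
      · rw [← h2, sub_smul, one_smul]
      · have : (Z ^ K - 1) • s • a = (∑ i ∈ Finset.range n, (Z ^ K) ^ i) • a - n • a := by
          rw [smul_smul, ← hs, sub_smul, Nat.cast_smul_eq_nsmul]
        rw [sub_smul, one_smul] at this
        rw [smul_neg, ← neg_sub, ← this]
        abel
  refine ⟨DefF.of_comp_surjective (p := fun q : (ℕ × ℕ) × A => (((q.1.1 : ℤ) - q.1.2), q.2))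
    (by fun_prop) (sub_surjective.prodMap Function.surjective_id) ?_⟩
  simp only [sub_smul, natCast_zsmul]
  exact (hnat.comp (DefF.id.fst.fst.prodMk DefF.id.snd)).sub
    (hnat.comp (DefF.id.fst.snd.prodMk DefF.id.snd))

theorem defF_fixed_smul [DefSMul L M ℤ A]
    (hact : DefF L M (fun p : Q × A => MonoidAlgebra.of ℤ Q p.1 • p.2)) (φ : MonoidAlgebra ℤ Q) :
    DefF L M (fun a : A => φ • a) := by
  induction φ using MonoidAlgebra.induction_linear with
  | zero => simpa using DefF.const 0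
  | add f g hf hg => simpa [add_smul] using hf.add hg
  | single q k =>
    have h1 : DefF L M (fun a : A => MonoidAlgebra.of ℤ Q q • a) :=
      hact.comp ((DefF.const q).prodMk DefF.id)
    refine ((DefF.const k).smul h1).congr fun a => ?_
    rw [← smul_assoc, MonoidAlgebra.smul_of]

/-- The action of the group ring on the module is definable. -/
theorem defSMul_groupRing [Monoid.FG Q] [Module.Finite (MonoidAlgebra ℤ Q) A] [DefSMul L M ℤ A]
    [Pres L M (MonoidAlgebra ℤ Q)] [DefAdd L M (MonoidAlgebra ℤ Q)]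
    [DefMul L M (MonoidAlgebra ℤ Q)]
    (hsingle : DefF L M (fun p : Q × ℤ => MonoidAlgebra.single p.1 p.2))
    (hact : DefF L M (fun p : Q × A => MonoidAlgebra.of ℤ Q p.1 • p.2))
    (htf : ∀ (d : ℤ) (a : A), d ≠ 0 → d • a = 0 → a = 0) :
    DefSMul L M (MonoidAlgebra ℤ Q) A := by
  have := finiteType_groupRing Q
  obtain ⟨K, φ, hT⟩ := tests_int (MonoidAlgebra ℤ Q) A htf
  have hzR : DefSMul L M ℤ (MonoidAlgebra ℤ Q) := ⟨by
    have h1 : DefF L M (fun p : ℤ × MonoidAlgebra ℤ Q => MonoidAlgebra.single (1 : Q) p.1) :=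
      hsingle.comp ((DefF.const 1).prodMk DefF.id.fst)
    refine (h1.mul DefF.id.snd).congr fun p => ?_
    rw [zsmul_eq_mul]
    rfl⟩
  let val : (Fin K → ℤ) → MonoidAlgebra ℤ Q := fun e => ∑ j, e j • φ j
  have hval : DefF L M val := DefF.finsetSum _ fun j => by fun_prop
  let act : (Fin K → ℤ) × A → A := fun p => val p.1 • p.2
  have hact' : DefF L M act := by
    simp only [act, val, Finset.sum_smul, smul_assoc]
    refine DefF.finsetSum _ fun j => DefF.smul (by fun_prop) ?_
    exact (defF_fixed_smul hact (φ j)).comp DefF.id.snd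
  let s1 : (Fin K → MonoidAlgebra ℤ Q) × (Fin K → Fin K → ℤ) → MonoidAlgebra ℤ Q :=
    fun p => ∑ i, p.1 i * val (p.2 i)
  have hs1 : DefF L M s1 := DefF.finsetSum _ fun j => by fun_prop
  let s2 : (Fin K → Fin K → ℤ) × (Fin K → A) → A := fun p => ∑ i, act (p.1 i, p.2 i)
  have hs2 : DefF L M s2 := DefF.finsetSum _ fun j => by fun_prop
  refine ⟨DefF.of_graph (P := fun p : (MonoidAlgebra ℤ Q × A) × A =>
    All fun d : ℤ => All fun e : Fin K → ℤ => All fun g : Fin K → Fin K → ℤ =>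
      Imp (∃ σ : Fin K → MonoidAlgebra ℤ Q, d • p.1.1 - val e = s1 (σ, g))
        (∃ c : Fin K → A, d • p.2 - act (e, p.1.2) = s2 (g, c))) ?_ ?_⟩
  · clear_value val act s1 s2
    fun_prop
  · rintro ⟨ρ, a⟩ b
    simp only [All, Imp, s1, s2, act]
    have h1 : ∀ (d : ℤ) (e : Fin K → ℤ) (g : Fin K → Fin K → ℤ) (σ : Fin K → MonoidAlgebra ℤ Q),
        d • ρ - val e = ∑ i, σ i * val (g i) →
        d • ρ • a - val e • a = ∑ i, val (g i) • σ i • a := by
      intro d e g σ h
      rw [← smul_assoc, ← sub_smul, h, Finset.sum_smul]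
      simp only [smul_smul, mul_comm]
    constructor
    · intro h
      by_contra hne
      obtain ⟨d, e, g, ⟨σ, hσ⟩, hn⟩ := hT ρ (b - ρ • a) (sub_ne_zero.2 (Ne.symm hne))
      obtain ⟨c, hc⟩ := h d e g ⟨σ, hσ⟩
      refine hn ⟨fun i => c i - σ i • a, ?_⟩
      simp only [smul_sub, Finset.sum_sub_distrib]
      change _ = ∑ i, val (g i) • c i - ∑ i, val (g i) • σ i • a
      rw [← hc, ← h1 d e g σ hσ]
      abel
    · rintro rfl d e g ⟨σ, hσ⟩
      exact ⟨fun i => σ i • a, h1 d e g σ hσ⟩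

theorem coded_module {R : Type} [CommRing R] [Pres L M R] [Coded L M R] {A : Type}
    [AddCommGroup A] [Module R A] [Module.Finite R A] [Pres L M A] [DefAdd L M A]
    [DefSMul L M R A] : Coded L M A := by
  obtain ⟨n, a, ha⟩ := Module.Finite.exists_fin (R := R) (M := A)
  refine Coded.of_surjective (X := Fin n → R) (f := fun ρ => ∑ i, ρ i • a i)
    (DefF.finsetSum _ fun i => by fun_prop) fun b => ?_
  have : b ∈ Submodule.span R (range a) := ha ▸ Submodule.mem_top
  exact (Submodule.mem_span_range_iff_exists_fun R).1 this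

end

end Pool.Agent.P.MP_d3a22b_lc
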