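import Pool.Agent.P.MP_d3a22b_lc.Arith

/-!
The integral group ring of a coded group is presented, coded, and has definable ring operations.
-/

set_option autoImplicit false
set_option linter.unusedSectionVars false

open FirstOrder FirstOrder.Language Set

namespace Pool.Agent.P.MP_d3a22b_lc

variable {L : FirstOrder.Language.{0, 0}} {M : Type} [L.Structure M] [Nontrivial M]
variable [Pres L M ℕ] [DefAdd L M ℕ] [DefMul L M ℕ]
variable [Pres L M ℤ] [DefAdd L M ℤ] [DefMul L M ℤ] [DefCast L M]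

theorem exists_sum_range_single {Q : Type} (f : MonoidAlgebra ℤ Q) :
    ∃ (k : ℕ) (q : Fin k → Q) (z : Fin k → ℤ), f = ∑ i, MonoidAlgebra.single (q i) (z i) := by
  classical
  refine ⟨f.coeff.support.card, fun i => f.coeff.support.equivFin.symm i,
    fun i => f.coeff (f.coeff.support.equivFin.symm i), ?_⟩
  conv_lhs => rw [← MonoidAlgebra.sum_coeff_single f, Finsupp.sum, ← Finset.sum_coe_sort]
  exact (Equiv.sum_comp f.coeff.support.equivFin.symm
    (fun x => MonoidAlgebra.single (x : Q) (f.coeff x))).symm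

theorem exists_pres_groupRing (Q : Type) [Group Q] [Pres L M Q] [DefMul L M Q] [Coded L M Q] :
    ∃ _ : Pres L M (MonoidAlgebra ℤ Q), DefAdd L M (MonoidAlgebra ℤ Q) ∧
      DefMul L M (MonoidAlgebra ℤ Q) ∧ Coded L M (MonoidAlgebra ℤ Q) ∧
      DefF L M (fun p : Q × ℤ => MonoidAlgebra.single p.1 p.2) := by
  classical
  obtain ⟨e, he, hes⟩ := Coded.out (L := L) (M := M) (X := Q × ℤ)
  let p : ℕ × ℕ → MonoidAlgebra ℤ Q := fun c =>
    ∑ i ∈ Finset.range c.2, MonoidAlgebra.single (e (Nat.beta c.1 i)).1 (e (Nat.beta c.1 i)).2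
  have hps : Function.Surjective p := by
    intro f
    obtain ⟨k, q, z, rfl⟩ := exists_sum_range_single f
    choose s hs using hes
    obtain ⟨c, hc⟩ := exists_beta (fun i => if h : i < k then s (q ⟨i, h⟩, z ⟨i, h⟩) else 0) k
    refine ⟨(c, k), ?_⟩
    simp only [p]
    rw [Finset.sum_range]
    refine Finset.sum_congr rfl fun i _ => ?_
    rw [hc i i.2]
    simp [hs]
  have hco : DefF L M (fun x : (ℕ × ℕ) × Q => (p x.1).coeff x.2) := by
    have : DefF L M (fun x : (ℕ × ℕ) × Q => ∑ i ∈ Finset.range x.1.2,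
        if (e (Nat.beta x.1.1 i)).1 = x.2 then (e (Nat.beta x.1.1 i)).2 else 0) :=
      DefF.sum_range (by fun_prop) (by fun_prop)
    refine this.congr fun x => ?_
    simp [p, Finsupp.single_apply]
  have hk : DefF L M (fun q : (ℕ × ℕ) × (ℕ × ℕ) => p q.1 = p q.2) := by
    have key : ∀ g : (ℕ × ℕ) × Q → ℤ, DefF L M g →
        DefF L M (fun q : (ℕ × ℕ) × (ℕ × ℕ) => All fun x => g (q.1, x) = g (q.2, x)) :=
      fun g hg => by fun_prop
    refine (key _ hco).congr fun q => propext ?_
    simp only [All]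
    constructor
    · intro h
      ext x
      exact h x
    · intro h x
      rw [h]
  let _ : Pres L M (MonoidAlgebra ℤ Q) := Pres.ofSurj p hps hk
  have hp : DefF L M p := defF_ofSurj p hps hk
  have hcoeff : DefF L M (fun x : MonoidAlgebra ℤ Q × Q => x.1.coeff x.2) :=
    DefF.of_comp_surjective (p := fun x : (ℕ × ℕ) × Q => (p x.1, x.2)) (by fun_prop)
      (hps.prodMap Function.surjective_id) hco
  have hext : ∀ {X : Type} [Pres L M X] (f : X → MonoidAlgebra ℤ Q) (g : X × Q → ℤ),
      DefF L M g → (∀ x q, g (x, q) = (f x).coeff q) → DefF L M f := by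
    intro X _ f g hg hfg
    have key : ∀ g' : MonoidAlgebra ℤ Q × Q → ℤ, DefF L M g' →
        DefF L M (fun q : X × MonoidAlgebra ℤ Q => All fun x => g (q.1, x) = g' (q.2, x)) :=
      fun g' hg' => by fun_prop
    refine DefF.of_graph (key _ hcoeff) fun x y => ?_
    simp only [All, hfg]
    constructor
    · intro h
      ext x
      exact h x
    · intro h x
      rw [h]
  have hc2 : ∀ {X : Type} [Pres L M X] {f : X → MonoidAlgebra ℤ Q} {g : X → Q},
      DefF L M f → DefF L M g → DefF L M (fun x => (f x).coeff (g x)) :=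
    fun hf hg => hcoeff.comp (hf.prodMk hg)
  have hadd : DefAdd L M (MonoidAlgebra ℤ Q) :=
    ⟨hext _ (fun x => x.1.1.coeff x.2 + x.1.2.coeff x.2)
      (DefF.add (hc2 (by fun_prop) (by fun_prop)) (hc2 (by fun_prop) (by fun_prop)))
      fun x q => by simp⟩
  have hcoded : Coded L M (MonoidAlgebra ℤ Q) := Coded.of_surjective hp hps
  have hsm : DefF L M (fun x : (Q × ℤ) × MonoidAlgebra ℤ Q =>
      MonoidAlgebra.single x.1.1 x.1.2 * x.2) :=
    hext _ (fun x => x.1.1.2 * x.1.2.coeff (x.1.1.1⁻¹ * x.2))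
      (DefF.mul (by fun_prop) (hc2 (by fun_prop) (by fun_prop)))
      fun x q => by simp [MonoidAlgebra.coeff_single_mul_apply]
  refine ⟨inferInstance, hadd, ⟨?_⟩, hcoded, ?_⟩
  · refine DefF.of_comp_surjective (p := fun x : (ℕ × ℕ) × MonoidAlgebra ℤ Q => (p x.1, x.2))
      (by fun_prop) (hps.prodMap Function.surjective_id) ?_
    simp only [p, Finset.sum_mul]
    refine DefF.sum_range ?_ (by fun_prop)
    exact hsm.comp (f := fun x : ((ℕ × ℕ) × MonoidAlgebra ℤ Q) × ℕ =>
      (e (Nat.beta x.1.1.1 x.2), x.1.2)) (by fun_prop)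
  · exact (hsm.comp (f := fun x : Q × ℤ => (x, 1)) (by fun_prop)).congr fun x => by simp

end Pool.Agent.P.MP_d3a22b_lc
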