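import Mathlib

/-!
A small calculus of definable maps between types that are presented as definable quotients of
finite powers of a fixed structure `M`.
-/

set_option autoImplicit false

open FirstOrder FirstOrder.Language Set

namespace Pool.Agent.P.MP_d3a22b_lc

/-- The type `X` is presented as a quotient of a finite power of `M` by a definable equivalence
relation. -/
class Pres (L : FirstOrder.Language.{0, 0}) (M : Type) [L.Structure M] (X : Type) : Type 1 where
  ι : Type
  [fin : Finite ι]
  val : (ι → M) → X
  surj : Function.Surjective val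
  eq_def : (univ : Set M).Definable L {w : ι ⊕ ι → M | val (w ∘ Sum.inl) = val (w ∘ Sum.inr)}

attribute [instance] Pres.fin

section

variable (L : FirstOrder.Language.{0, 0}) (M : Type) [L.Structure M]

/-- A predicate on a presented type is definable. -/
def DefP {X : Type} [Pres L M X] (P : X → Prop) : Prop :=
  (univ : Set M).Definable L {u : Pres.ι L M X → M | P (Pres.val u)}

instance Pres.prod {X Y : Type} [Pres L M X] [Pres L M Y] : Pres L M (X × Y) where
  ι := Pres.ι L M X ⊕ Pres.ι L M Y
  val u := (Pres.val (u ∘ Sum.inl), Pres.val (u ∘ Sum.inr))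
  surj := by
    rintro ⟨x, y⟩
    obtain ⟨u, rfl⟩ := Pres.surj (L := L) (M := M) x
    obtain ⟨v, rfl⟩ := Pres.surj (L := L) (M := M) y
    exact ⟨Sum.elim u v, rfl⟩
  eq_def := by
    have h1 := (Pres.eq_def (L := L) (M := M) (X := X)).preimage_comp
      (Sum.map (Sum.inl : _ → Pres.ι L M X ⊕ Pres.ι L M Y)
        (Sum.inl : _ → Pres.ι L M X ⊕ Pres.ι L M Y))
    have h2 := (Pres.eq_def (L := L) (M := M) (X := Y)).preimage_comp
      (Sum.map (Sum.inr : _ → Pres.ι L M X ⊕ Pres.ι L M Y)
        (Sum.inr : _ → Pres.ι L M X ⊕ Pres.ι L M Y))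
    convert h1.inter h2 using 1
    ext w
    simp only [mem_ofPred_eq, Prod.mk.injEq, mem_inter_iff, mem_preimage]
    rfl

instance Pres.pi {α : Type} [Finite α] {X : α → Type} [∀ a, Pres L M (X a)] :
    Pres L M (∀ a, X a) where
  ι := Σ a, Pres.ι L M (X a)
  val u a := Pres.val (fun i => u ⟨a, i⟩)
  surj := by
    intro x
    choose u hu using fun a => Pres.surj (L := L) (M := M) (x a)
    exact ⟨fun p => u p.1 p.2, funext fun a => hu a⟩
  eq_def := by
    have h := definable_iInter_of_finite (fun a =>
      (Pres.eq_def (L := L) (M := M) (X := X a)).preimage_comp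
      (Sum.map (Sigma.mk a : _ → Σ a, Pres.ι L M (X a))
        (Sigma.mk a : _ → Σ a, Pres.ι L M (X a))))
    convert h using 1
    ext w
    simp only [mem_ofPred_eq, mem_iInter, mem_preimage, funext_iff]
    rfl

/-- The structure presents itself. -/
@[reducible] def Pres.self : Pres L M M where
  ι := Unit
  val u := u ()
  surj x := ⟨fun _ => x, rfl⟩
  eq_def := DefinableFun.ofPred_eq (DefinableFun.proj L) (DefinableFun.proj L)

instance Pres.prop [Nontrivial M] : Pres L M Prop where
  ι := Bool
  val u := u true = u false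
  surj p := by
    obtain ⟨a, b, hab⟩ := exists_pair_ne M
    by_cases hp : p
    · exact ⟨fun _ => a, by simp [hp]⟩
    · exact ⟨fun t => if t then a else b, by simp [hp, hab]⟩
  eq_def := by
    have h1 : (univ : Set M).Definable L
        {w : Bool ⊕ Bool → M | w (Sum.inl true) = w (Sum.inl false)} :=
      DefinableFun.ofPred_eq (DefinableFun.proj L) (DefinableFun.proj L)
    have h2 : (univ : Set M).Definable L
        {w : Bool ⊕ Bool → M | w (Sum.inr true) = w (Sum.inr false)} :=
      DefinableFun.ofPred_eq (DefinableFun.proj L) (DefinableFun.proj L)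
    convert (h1.inter h2).union (h1.compl.inter h2.compl) using 1
    ext w
    simp only [mem_ofPred_eq, Function.comp, eq_iff_iff, mem_union, mem_inter_iff, mem_compl_iff]
    tauto

/-- A map between presented types is definable. -/
@[fun_prop]
def DefF {X Y : Type} [Pres L M X] [Pres L M Y] (f : X → Y) : Prop :=
  DefP L M (fun p : X × Y => f p.1 = p.2)

variable {L M}
variable {X Y Z W : Type} [Pres L M X] [Pres L M Y] [Pres L M Z] [Pres L M W]

/-- Maps given by a change of coordinates. -/
def Struct (L : FirstOrder.Language.{0, 0}) (M : Type) [L.Structure M] {X Y : Type} [Pres L M X]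
    [Pres L M Y] (f : X → Y) : Prop :=
  ∃ r : Pres.ι L M Y → Pres.ι L M X, ∀ u : Pres.ι L M X → M, f (Pres.val u) = Pres.val (u ∘ r)

theorem Struct.id : Struct L M (fun x : X => x) := ⟨_root_.id, fun _ => rfl⟩

theorem Struct.fst {f : X → Y × Z} (h : Struct L M f) : Struct L M (fun x => (f x).1) := by
  obtain ⟨r, hr⟩ := h
  exact ⟨r ∘ Sum.inl, fun u => congrArg Prod.fst (hr u)⟩

theorem Struct.snd {f : X → Y × Z} (h : Struct L M f) : Struct L M (fun x => (f x).2) := by
  obtain ⟨r, hr⟩ := h
  exact ⟨r ∘ Sum.inr, fun u => congrArg Prod.snd (hr u)⟩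

theorem Struct.prodMk {f : X → Y} {g : X → Z} (hf : Struct L M f) (hg : Struct L M g) :
    Struct L M (fun x => (f x, g x)) := by
  obtain ⟨r, hr⟩ := hf
  obtain ⟨s, hs⟩ := hg
  exact ⟨Sum.elim r s, fun u => Prod.ext (hr u) (hs u)⟩

theorem Struct.eval {α : Type} [Finite α] {T : α → Type} [∀ a, Pres L M (T a)]
    {f : X → ∀ a, T a} (h : Struct L M f) (a : α) : Struct L M (fun x => f x a) := by
  obtain ⟨r, hr⟩ := h
  exact ⟨fun i => r ⟨a, i⟩, fun u => congrFun (hr u) a⟩

theorem DefP.congr {P P' : X → Prop} (h : DefP L M P) (e : ∀ x, P x ↔ P' x) : DefP L M P' := by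
  have : P = P' := funext fun x => propext (e x)
  exact this ▸ h

theorem DefP.struct {P : Y → Prop} (h : DefP L M P) {f : X → Y} (hf : Struct L M f) :
    DefP L M (fun x => P (f x)) := by
  obtain ⟨r, hr⟩ := hf
  have := Set.Definable.preimage_comp r h
  unfold DefP
  convert this using 1
  ext u
  simp [hr]

theorem DefP.and {P P' : X → Prop} (h : DefP L M P) (h' : DefP L M P') :
    DefP L M (fun x => P x ∧ P' x) := Set.Definable.inter h h'

theorem DefP.or {P P' : X → Prop} (h : DefP L M P) (h' : DefP L M P') :
    DefP L M (fun x => P x ∨ P' x) := Set.Definable.union h h'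

theorem DefP.not {P : X → Prop} (h : DefP L M P) : DefP L M (fun x => ¬ P x) :=
  Set.Definable.compl h

theorem DefP.true : DefP L M (fun _ : X => True) := Set.definable_univ

theorem DefP.false : DefP L M (fun _ : X => False) := Set.definable_empty

theorem DefP.const (p : Prop) : DefP L M (fun _ : X => p) := by
  by_cases hp : p
  · exact DefP.true.congr (by simp [hp])
  · exact DefP.false.congr (by simp [hp])

theorem DefP.exists {P : X → Y → Prop} (h : DefP L M (fun p : X × Y => P p.1 p.2)) :
    DefP L M (fun x => ∃ y, P x y) := by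
  have := Set.Definable.exists_of_finite h
  unfold DefP
  convert this using 1
  ext u
  simp only [mem_ofPred_eq]
  constructor
  · rintro ⟨y, hy⟩
    obtain ⟨v, rfl⟩ := Pres.surj (L := L) (M := M) y
    exact ⟨v, hy⟩
  · rintro ⟨v, hv⟩
    exact ⟨_, hv⟩

theorem DefP.forall_fin {α : Type} [Finite α] {P : α → X → Prop} (h : ∀ a, DefP L M (P a)) :
    DefP L M (fun x => ∀ a, P a x) := by
  have := definable_iInter_of_finite h
  unfold DefP
  convert this using 1
  ext u
  simp

theorem DefP.eq : DefP L M (fun p : X × X => p.1 = p.2) := Pres.eq_def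

theorem Struct.defF {f : X → Y} (hf : Struct L M f) : DefF L M f :=
  DefP.eq.struct (Struct.prodMk (by
    obtain ⟨r, hr⟩ := hf
    exact ⟨Sum.inl ∘ r, fun u => hr _⟩) Struct.id.snd)

theorem DefP.comp {P : Y → Prop} (h : DefP L M P) {f : X → Y} (hf : DefF L M f) :
    DefP L M (fun x => P (f x)) :=
  (DefP.exists (P := fun x y => f x = y ∧ P y) (DefP.and hf (h.struct Struct.id.snd))).congr
    (by simp)

@[fun_prop]
theorem DefF.id : DefF L M (fun x : X => x) := DefP.eq

@[fun_prop]
theorem DefF.const (y : Y) : DefF L M (fun _ : X => y) := by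
  obtain ⟨v, rfl⟩ := Pres.surj (L := L) (M := M) y
  have h : (univ : Set M).DefinableMap L
      (fun (u : Pres.ι L M X ⊕ Pres.ι L M Y → M) => Sum.elim v (u ∘ Sum.inr)) := by
    rintro (i | i)
    · exact L.definableFun_const _ (mem_univ _)
    · exact DefinableFun.proj L
  exact (Pres.eq_def (L := L) (M := M) (X := Y)).preimage_map h

@[fun_prop]
theorem DefF.comp {g : Y → Z} {f : X → Y} (hg : DefF L M g) (hf : DefF L M f) :
    DefF L M (fun x => g (f x)) :=
  (DefP.exists (P := fun (p : X × Z) y => f p.1 = y ∧ g y = p.2)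
    (DefP.and (DefP.struct hf (Struct.prodMk Struct.id.fst.fst Struct.id.snd))
      (DefP.struct hg (Struct.prodMk Struct.id.snd Struct.id.fst.snd)))).congr (by simp)

@[fun_prop]
theorem DefF.apply {α : Type} [Finite α] {T : α → Type} [∀ a, Pres L M (T a)] (a : α) :
    DefF L M (fun f : ∀ a, T a => f a) := (Struct.id.eval a).defF

@[fun_prop]
theorem DefF.pi {α : Type} [Finite α] {T : α → Type} [∀ a, Pres L M (T a)]
    {f : X → ∀ a, T a} (h : ∀ a, DefF L M (fun x => f x a)) : DefF L M (fun x a => f x a) :=
  (DefP.forall_fin (P := fun a (p : X × ∀ a, T a) => f p.1 a = p.2 a) fun a =>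
    DefP.struct (h a) (Struct.prodMk Struct.id.fst (Struct.id.snd.eval a))).congr
      (by simp [funext_iff])

@[fun_prop]
theorem DefF.fst {f : X → Y × Z} (h : DefF L M f) : DefF L M (fun x => (f x).1) :=
  DefF.comp Struct.id.fst.defF h

@[fun_prop]
theorem DefF.snd {f : X → Y × Z} (h : DefF L M f) : DefF L M (fun x => (f x).2) :=
  DefF.comp Struct.id.snd.defF h

@[fun_prop]
theorem DefF.prodMk {f : X → Y} {g : X → Z} (hf : DefF L M f) (hg : DefF L M g) :
    DefF L M (fun x => (f x, g x)) :=
  (DefP.and (DefP.struct hf (Struct.prodMk Struct.id.fst Struct.id.snd.fst))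
    (DefP.struct hg (Struct.prodMk Struct.id.fst Struct.id.snd.snd))).congr
      (by simp [Prod.ext_iff])

theorem DefF.congr {f g : X → Y} (h : DefF L M f) (e : ∀ x, f x = g x) : DefF L M g := by
  have : f = g := funext e
  exact this ▸ h

variable [Nontrivial M]

theorem defP_self_prop : DefP L M (fun p : Prop => p) :=
  DefinableFun.ofPred_eq (DefinableFun.proj L) (DefinableFun.proj L)

theorem DefF.defP {P : X → Prop} (h : DefF L M P) : DefP L M P := defP_self_prop.comp h

theorem DefP.defF {P : X → Prop} (h : DefP L M P) : DefF L M P := by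
  have h1 : DefP L M (fun p : X × Prop => P p.1) := h.struct Struct.id.fst
  have h2 : DefP L M (fun p : X × Prop => p.2) := defP_self_prop.struct Struct.id.snd
  exact ((h1.and h2).or (h1.not.and h2.not)).congr (fun p => by
    simp only [eq_iff_iff]; tauto)

/-- A map is definable if its graph is. -/
theorem DefF.of_graph {f : X → Y} {P : X × Y → Prop} (h : DefF L M P)
    (e : ∀ x y, P (x, y) ↔ f x = y) : DefF L M f :=
  h.defP.congr fun p => e p.1 p.2

@[fun_prop]
theorem DefF.eq {f g : X → Y} (hf : DefF L M f) (hg : DefF L M g) :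
    DefF L M (fun x => f x = g x) := (DefP.eq.comp (hf.prodMk hg)).defF

@[fun_prop]
theorem DefF.not {P : X → Prop} (h : DefF L M P) : DefF L M (fun x => ¬ P x) := h.defP.not.defF

@[fun_prop]
theorem DefF.ne {f g : X → Y} (hf : DefF L M f) (hg : DefF L M g) :
    DefF L M (fun x => f x ≠ g x) := (hf.eq hg).not

@[fun_prop]
theorem DefF.and {P P' : X → Prop} (h : DefF L M P) (h' : DefF L M P') :
    DefF L M (fun x => P x ∧ P' x) := (h.defP.and h'.defP).defF

@[fun_prop]
theorem DefF.or {P P' : X → Prop} (h : DefF L M P) (h' : DefF L M P') :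
    DefF L M (fun x => P x ∨ P' x) := (h.defP.or h'.defP).defF

theorem DefF.imp {P P' : X → Prop} (h : DefF L M P) (h' : DefF L M P') :
    DefF L M (fun x => P x → P' x) := (h.not.or h').congr (fun x => by
      simp only [eq_iff_iff]; tauto)

@[fun_prop]
theorem DefF.iff {P P' : X → Prop} (h : DefF L M P) (h' : DefF L M P') :
    DefF L M (fun x => P x ↔ P' x) := (h.eq h').congr (fun x => by simp)

@[fun_prop]
theorem DefF.exists {P : X → Y → Prop} (h : DefF L M (fun p : X × Y => P p.1 p.2)) :
    DefF L M (fun x => ∃ y, P x y) := h.defP.exists.defF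

theorem DefF.forall {P : X → Y → Prop} (h : DefF L M (fun p : X × Y => P p.1 p.2)) :
    DefF L M (fun x => ∀ y, P x y) :=
  (DefF.exists (P := fun x y => ¬ P x y) h.not).not.congr (by simp)

theorem DefF.forall_fin {α : Type} [Finite α] {P : α → X → Prop} (h : ∀ a, DefF L M (P a)) :
    DefF L M (fun x => ∀ a, P a x) := (DefP.forall_fin fun a => (h a).defP).defF

theorem DefF.exists_fin {α : Type} [Finite α] {P : α → X → Prop} (h : ∀ a, DefF L M (P a)) :
    DefF L M (fun x => ∃ a, P a x) :=
  (DefF.forall_fin (P := fun a x => ¬ P a x) fun a => (h a).not).not.congr (by simp)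

/-- Universal quantification, as a function (for `fun_prop`). -/
def All {Y : Type} (P : Y → Prop) : Prop := ∀ y, P y

/-- Implication, as a function (for `fun_prop`). -/
def Imp (p q : Prop) : Prop := p → q

@[fun_prop]
theorem DefF.all {P : X → Y → Prop} (h : DefF L M (fun p : X × Y => P p.1 p.2)) :
    DefF L M (fun x => All (fun y => P x y)) := h.forall

@[fun_prop]
theorem DefF.imp' {P P' : X → Prop} (h : DefF L M P) (h' : DefF L M P') :
    DefF L M (fun x => Imp (P x) (P' x)) := h.imp h'

@[fun_prop]
theorem DefF.ite {P : X → Prop} [DecidablePred P] {f g : X → Y} (hP : DefF L M P)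
    (hf : DefF L M f) (hg : DefF L M g) : DefF L M (fun x => if P x then f x else g x) := by
  refine DefF.of_graph (P := fun p => (P p.1 ∧ f p.1 = p.2) ∨ (¬ P p.1 ∧ g p.1 = p.2))
    (by fun_prop) fun x y => ?_
  by_cases h : P x <;> simp [h]

/-- A map out of a quotient is definable if its lift is. -/
theorem DefF.of_comp_surjective {p : Z → X} (hp : DefF L M p) (hs : Function.Surjective p)
    {f : X → Y} (h : DefF L M (fun z => f (p z))) : DefF L M f := by
  have key : ∀ g : Z → Y, DefF L M g →
      DefF L M (fun q : X × Y => ∃ z, p z = q.1 ∧ g z = q.2) := fun g hg => by fun_prop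
  refine DefF.of_graph (key _ h) fun x y => ?_
  constructor
  · rintro ⟨z, rfl, h⟩
    exact h
  · rintro rfl
    obtain ⟨z, rfl⟩ := hs x
    exact ⟨z, rfl, rfl⟩

/-- A map into a subobject is definable if its composite with the inclusion is. -/
theorem DefF.of_comp_injective {e : Y → Z} (he : DefF L M e) (hi : Function.Injective e)
    {f : X → Y} (h : DefF L M (fun x => e (f x))) : DefF L M f :=
  DefF.of_graph (P := fun q => e (f q.1) = e q.2)
    ((h.comp DefF.id.fst).eq (he.comp DefF.id.snd)) fun _ _ => hi.eq_iff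

/-- The presentation of a quotient by a definable equivalence relation. -/
@[reducible] def Pres.ofSurj {T : Type} (p : Z → T) (hs : Function.Surjective p)
    (hk : DefF L M (fun q : Z × Z => p q.1 = p q.2)) : Pres L M T where
  ι := Pres.ι L M Z
  val u := p (Pres.val u)
  surj := hs.comp Pres.surj
  eq_def := hk.defP

theorem defF_ofSurj {T : Type} (p : Z → T) (hs : Function.Surjective p)
    (hk : DefF L M (fun q : Z × Z => p q.1 = p q.2)) :
    @DefF L M _ Z T _ (Pres.ofSurj p hs hk) p := hk.defP

end

section self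

variable {L : FirstOrder.Language.{0, 0}} {M : Type} [L.Structure M]

/-- For the presentation of `M` by itself, definability is definability in `M`. -/
theorem definable_of_defP {α : Type} [Finite α] {P : (α → M) → Prop}
    (h : letI := Pres.self L M; DefP L M P) : (univ : Set M).Definable L {v | P v} := by
  exact Set.Definable.preimage_comp (fun s : Σ _ : α, Unit => s.1) h

theorem defF_funMap {n : ℕ} (F : L.Functions n) :
    letI := Pres.self L M; DefF L M (fun v : Fin n → M => Structure.funMap F v) := by
  have h1 : (univ : Set M).DefinableFun L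
      (fun u : (Σ _ : Fin n, Unit) ⊕ Unit → M =>
        Structure.funMap F (fun i => u (Sum.inl ⟨i, ()⟩))) :=
    DefinableFun.comp (fun _ => DefinableFun.proj L) (DefinableFun.fun_symbol F).of_empty
  exact DefinableFun.ofPred_eq h1 (DefinableFun.proj L)

end self

end Pool.Agent.P.MP_d3a22b_lc
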