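import Pool.Agent.P.MP_d3a22b_lc.Bd

/-!
Primitive elements of group rings of ordered groups, and a counting lemma.
-/

set_option autoImplicit false

open Set MonoidAlgebra

namespace Pool.Agent.P.MP_d3a22b_lc

section prim

variable {A Γ : Type} [CommRing A] [CommGroup Γ] [LinearOrder Γ] [IsOrderedMonoid Γ]

/-- The coefficients generate the unit ideal. -/
def Prim (D : MonoidAlgebra A Γ) : Prop :=
  ∀ I : Ideal A, I.IsMaximal → ∃ γ, D.coeff γ ∉ I

theorem mapRingHom_mk_eq_zero {I : Ideal A} {D : MonoidAlgebra A Γ} :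
    mapRingHom Γ (Ideal.Quotient.mk I) D = 0 ↔ ∀ γ, D.coeff γ ∈ I := by
  simp only [← Ideal.Quotient.eq_zero_iff_mem, ← coeff_mapRingHom]
  constructor
  · intro h γ
    simp [h]
  · intro h
    ext γ
    simpa using h γ

theorem forall_coeff_mem_of_mul {I : Ideal A} (hI : I.IsMaximal) {D E : MonoidAlgebra A Γ}
    (hE : Prim E) (h : ∀ γ, (D * E).coeff γ ∈ I) : ∀ γ, D.coeff γ ∈ I := by
  have := hI.isPrime
  rw [← mapRingHom_mk_eq_zero, map_mul, mul_eq_zero] at h
  rcases h with h | h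
  · exact mapRingHom_mk_eq_zero.1 h
  · obtain ⟨γ, hγ⟩ := hE I hI
    exact absurd (mapRingHom_mk_eq_zero.1 h γ) hγ

theorem Prim.mul {D E : MonoidAlgebra A Γ} (hD : Prim D) (hE : Prim E) : Prim (D * E) := by
  intro I hI
  by_contra h
  push Not at h
  obtain ⟨γ, hγ⟩ := hD I hI
  exact hγ (forall_coeff_mem_of_mul hI hE h γ)

theorem Prim.one : Prim (1 : MonoidAlgebra A Γ) := fun I hI =>
  ⟨1, by simpa [one_def] using (Ideal.ne_top_iff_one _).1 hI.ne_top⟩

theorem Prim.prod {ι : Type} (s : Finset ι) {f : ι → MonoidAlgebra A Γ} (h : ∀ i ∈ s, Prim (f i)) :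
    Prim (∏ i ∈ s, f i) :=
  Finset.prod_induction f Prim (fun _ _ => Prim.mul) Prim.one h

theorem Prim.map {A' : Type} [CommRing A'] {φ : A →+* A'} (hφ : Function.Surjective φ)
    {D : MonoidAlgebra A Γ} (hD : Prim D) : Prim (mapRingHom Γ φ D) := by
  intro I hI
  obtain ⟨γ, hγ⟩ := hD (I.comap φ) (Ideal.comap_isMaximal_of_surjective φ hφ)
  exact ⟨γ, by rw [coeff_mapRingHom]; exact hγ⟩

theorem coeff_mul_eq_sum (D E : MonoidAlgebra A Γ) (y : Γ) :
    (D * E).coeff y = ∑ γ ∈ D.coeff.support, D.coeff γ * E.coeff (γ⁻¹ * y) := by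
  conv_lhs => rw [← D.sum_coeff_single, Finsupp.sum, Finset.sum_mul]
  simp [coeff_sum, Finsupp.finsetSum_apply, coeff_single_mul_apply]

/-- A primitive element is not a zero divisor. -/
theorem Prim.eq_zero {D : MonoidAlgebra A Γ} (hD : Prim D) {ρ : MonoidAlgebra A Γ}
    (h : D * ρ = 0) : ρ = 0 := by
  classical
  induction hk : ρ.coeff.support.card using Nat.strong_induction_on generalizing ρ with
  | _ k ih =>
    by_contra hρ
    have hne : ρ.coeff.support.Nonempty :=
      Finsupp.support_nonempty_iff.2 (mt coeff_eq_zero.1 hρ)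
    obtain ⟨δ, hδ, hδmax⟩ := Finset.exists_max_image _ id hne
    have key : ∀ γ, D.coeff γ • ρ = 0 := by
      by_contra hcon
      push Not at hcon
      obtain ⟨γ, hγ, hγmax⟩ := Finset.exists_max_image
        (D.coeff.support.filter fun γ => D.coeff γ • ρ ≠ 0) id (by
          obtain ⟨γ, hγ⟩ := hcon
          refine ⟨γ, Finset.mem_filter.2 ⟨Finsupp.mem_support_iff.2 fun h0 => hγ ?_, hγ⟩⟩
          rw [h0, zero_smul])
      simp only [Finset.mem_filter, id, and_imp] at hγ hγmax hδmax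
      have h1 : D.coeff γ * ρ.coeff δ = 0 := by
        have h2 := coeff_mul_eq_sum D ρ (γ * δ)
        rw [h, Finset.sum_eq_single_of_mem γ hγ.1, inv_mul_cancel_left] at h2
        · exact h2.symm
        · intro γ' hγ' hne'
          rcases lt_or_gt_of_ne hne' with h3 | h3
          · have h4 : δ < γ'⁻¹ * (γ * δ) := by
              rw [lt_inv_mul_iff_mul_lt]
              exact mul_lt_mul_left h3 δ
            rw [Finsupp.notMem_support_iff.1 fun h5 => (hδmax _ h5).not_gt h4, mul_zero]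
          · have h4 : D.coeff γ' • ρ = 0 := by
              by_contra h5
              exact (hγmax _ hγ' h5).not_gt h3
            simpa using congrArg (fun f : MonoidAlgebra A Γ => f.coeff (γ'⁻¹ * (γ * δ))) h4
      refine hγ.2 (ih _ ?_ (by rw [mul_smul_comm, h, smul_zero]) rfl)
      rw [← hk]
      refine Finset.card_lt_card ⟨Finsupp.support_smul, fun h5 => ?_⟩
      exact Finsupp.mem_support_iff.1 (h5 hδ) h1
    obtain ⟨I, hI, hle⟩ := Ideal.exists_le_maximal
      (Submodule.colon (⊥ : Submodule A (MonoidAlgebra A Γ)) {ρ}) (by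
        rw [Ne, Ideal.eq_top_iff_one, Submodule.mem_colon_singleton]
        simpa using hρ)
    obtain ⟨γ, hγ⟩ := hD I hI
    exact hγ (hle (by rw [Submodule.mem_colon_singleton]; exact key γ))

theorem Prim.dvd {D : MonoidAlgebra A Γ} (hD : Prim D) {k : A} {ρ v : MonoidAlgebra A Γ}
    (h : D * ρ = k • v) : ∃ ρ', ρ = k • ρ' := by
  classical
  have h1 : mapRingHom Γ (Ideal.Quotient.mk (Ideal.span {k})) ρ = 0 := by
    apply (hD.map Ideal.Quotient.mk_surjective).eq_zero
    rw [← map_mul, h, mapRingHom_mk_eq_zero]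
    intro γ
    exact Ideal.mul_mem_right _ _ (Ideal.mem_span_singleton_self k)
  choose c hc using fun γ => Ideal.mem_span_singleton'.1 (mapRingHom_mk_eq_zero.1 h1 γ)
  refine ⟨∑ γ ∈ ρ.coeff.support, single γ (c γ), ?_⟩
  conv_lhs => rw [← ρ.sum_coeff_single, Finsupp.sum]
  rw [Finset.smul_sum]
  refine Finset.sum_congr rfl fun γ _ => ?_
  rw [smul_single, smul_eq_mul, mul_comm, hc]

end prim

section ts

variable {T Γ κ : Type} [CommGroup T] [Fintype T] [CommGroup Γ] [LinearOrder Γ]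
  [IsOrderedMonoid Γ] [Fintype κ] [DecidableEq κ]

theorem coeff_sum_single_mul {A : Type} [CommRing A] (x : κ → Γ) (u : κ → A) (ε : Finset κ)
    (h : MonoidAlgebra A Γ) (y : Γ) :
    ((∑ k ∈ ε, single (x k) (u k)) * h).coeff y = ∑ k ∈ ε, u k * h.coeff ((x k)⁻¹ * y) := by
  simp [Finset.sum_mul, coeff_sum, Finsupp.finsetSum_apply, coeff_single_mul_apply]

theorem card_le_of_prime {B : ℕ} {f h : MonoidAlgebra (MonoidAlgebra ℤ T) Γ}
    (hf : ∀ γ, Bd B (f.coeff γ)) (hh : ∀ γ, Bd B (h.coeff γ)) (hp : Prim h)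
    {x : κ → Γ} (hx : Function.Injective x) {u : κ → MonoidAlgebra ℤ T}
    (hu : ∀ k, IsUnit (u k) ∧ Bd 1 (u k)) {P : Ideal (MonoidAlgebra ℤ T)} [hP : P.IsPrime]
    (S : Finset (Finset κ)) (I : Finset κ → Ideal (MonoidAlgebra ℤ T))
    (hI : ∀ ε ∈ S, (I ε).IsMaximal ∧ P ≤ I ε ∧
      ∀ γ, (f + (∑ k ∈ ε, single (x k) (u k)) * h).coeff γ ∈ I ε) :
    S.card ≤ 3 * (Fintype.card T ^ 3 * ((Fintype.card κ + 2) * B + 1)) + 1 := by
  classical
  set W := Fintype.card T ^ 3 * ((Fintype.card κ + 2) * B + 1) with hW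
  have hunit : ∀ ε ∈ S, ∀ k, u k ∉ I ε := fun ε hε k hk =>
    (hI ε hε).1.ne_top (Ideal.eq_top_of_isUnit_mem _ hk (hu k).1)
  have hsub : ∀ ε ∈ S, ∀ ε' ∈ S, I ε = I ε' → ε ⊆ ε' := by
    intro ε hε ε' hε' he k hk
    by_contra hk'
    have h1 := forall_coeff_mem_of_mul (hI ε hε).1 hp
      (D := (∑ k ∈ ε, single (x k) (u k)) - ∑ k ∈ ε', single (x k) (u k)) (fun γ => by
        have := Ideal.sub_mem _ ((hI ε hε).2.2 γ) (he ▸ (hI ε' hε').2.2 γ)
        simpa [sub_mul] using this) (x k)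
    apply hunit ε hε k
    simpa [coeff_sum, Finsupp.finsetSum_apply, Finsupp.single_apply, hx.eq_iff, hk, hk'] using h1
  have hcount : ∀ c, Bd ((Fintype.card κ + 2) * B) c → c ∉ P →
      (S.filter fun ε => c ∈ I ε).card ≤ W := by
    intro c hc hcP
    rw [← Finset.card_image_of_injOn (f := I)]
    · refine card_maximal_le hc hcP _ fun J hJ => ?_
      obtain ⟨ε, hε, rfl⟩ := Finset.mem_image.1 hJ
      rw [Finset.mem_filter] at hε
      exact ⟨(hI ε hε.1).1, (hI ε hε.1).2.1, hε.2⟩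
    · intro ε hε ε' hε' he
      have h1 := (Finset.mem_filter.1 hε).1
      have h2 := (Finset.mem_filter.1 hε').1
      exact (hsub ε h1 ε' h2 he).antisymm (hsub ε' h2 ε h1 he.symm)
  rcases S.eq_empty_or_nonempty with rfl | ⟨ε₂, hε₂⟩
  · simp
  obtain ⟨d, hd, hdmax⟩ := Finset.exists_max_image
    (h.coeff.support.filter fun γ => h.coeff γ ∉ P) id (by
      obtain ⟨γ, hγ⟩ := hp _ (hI ε₂ hε₂).1
      refine ⟨γ, Finset.mem_filter.2 ⟨Finsupp.mem_support_iff.2 fun h0 => hγ ?_,
        fun h0 => hγ ((hI ε₂ hε₂).2.1 h0)⟩⟩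
      rw [h0]
      exact zero_mem _)
  simp only [Finset.mem_filter, id, and_imp] at hd hdmax
  have hhigh : ∀ γ, d < γ → h.coeff γ ∈ P := by
    intro γ hγ
    by_contra h1
    refine (hdmax γ (Finsupp.mem_support_iff.2 fun h0 => h1 ?_) h1).not_gt hγ
    rw [h0]
    exact zero_mem _
  have h1 := hcount (h.coeff d) ((hh d).mono (by nlinarith)) hd.2
  have h2 := Finset.card_filter_add_card_filter_not (s := S) fun ε => h.coeff d ∈ I ε
  set S' := S.filter fun ε => h.coeff d ∉ I ε with hS'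
  suffices S'.card ≤ 2 * W + 1 by omega
  by_cases h3 : S'.card ≤ 1
  · omega
  obtain ⟨k, hk, hkmax⟩ := Finset.exists_max_image
    (Finset.univ.filter fun k => ∃ ε ∈ S', ∃ ε' ∈ S', k ∈ ε ∧ k ∉ ε') x (by
      obtain ⟨a, ha, b, hb, hab⟩ := Finset.one_lt_card.1 (not_le.1 h3)
      by_contra h4
      rw [Finset.not_nonempty_iff_eq_empty, Finset.filter_eq_empty_iff] at h4
      push Not at h4
      exact hab (Finset.Subset.antisymm (fun k hk => h4 (Finset.mem_univ k) a ha b hb hk)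
        fun k hk => h4 (Finset.mem_univ k) b hb a ha hk))
  simp only [Finset.mem_filter, Finset.mem_univ, true_and] at hk hkmax
  obtain ⟨ε₁, hε₁, ε₀, hε₀, hk₁, hk₀⟩ := hk
  let t : κ → MonoidAlgebra ℤ T := fun k' => u k' * h.coeff ((x k')⁻¹ * (x k * d))
  have htk : t k = u k * h.coeff d := by simp [t]
  let c := f.coeff (x k * d) + ∑ k' ∈ ε₀.filter fun k' => x k < x k', t k'
  have hc : Bd ((Fintype.card κ + 1) * B) c := by
    have h4 := Bd.sum (ε₀.filter fun k' => x k < x k') (B := 1 * B) (f := t)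
      fun k' _ => (hu k').2.mul (hh _)
    refine ((hf _).add h4).mono ?_
    have := Finset.card_le_univ (ε₀.filter fun k' => x k < x k')
    nlinarith
  have hmem : ∀ ε ∈ S', c + (if k ∈ ε then t k else 0) ∈ I ε := by
    intro ε hε
    have hεS := (Finset.mem_filter.1 hε).1
    have h4 : (ε₀.filter fun k' => x k < x k') = ε.filter fun k' => x k < x k' := by
      ext k'
      simp only [Finset.mem_filter, and_congr_left_iff]
      intro hlt
      constructor
      · intro h5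
        by_contra h6
        exact (hkmax k' ⟨ε₀, hε₀, ε, hε, h5, h6⟩).not_gt hlt
      · intro h5
        by_contra h6
        exact (hkmax k' ⟨ε, hε, ε₀, hε₀, h5, h6⟩).not_gt hlt
    have h5 := (hI ε hεS).2.2 (x k * d)
    rw [coeff_add, Finsupp.add_apply, coeff_sum_single_mul] at h5
    have h6 : ∑ k' ∈ ε, (t k' - (if x k < x k' then t k' else 0) -
        (if k = k' then t k' else 0)) ∈ P := by
      refine Ideal.sum_mem _ fun k' _ => ?_
      rcases lt_trichotomy (x k) (x k') with h7 | h7 | h7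
      · have h8 : k ≠ k' := fun h9 => h7.ne (congrArg x h9)
        simp [h7, h8]
      · simp [hx h7]
      · have h8 : k ≠ k' := fun h9 => h7.ne' (congrArg x h9)
        simp only [h7.not_gt, h8, if_false, sub_zero]
        refine Ideal.mul_mem_left _ _ (hhigh _ ?_)
        rw [lt_inv_mul_iff_mul_lt]
        exact mul_lt_mul_left h7 d
    rw [Finset.sum_sub_distrib, Finset.sum_sub_distrib, Finset.sum_ite_eq, ← Finset.sum_filter,
      ← h4] at h6
    convert Ideal.sub_mem _ h5 ((hI ε hεS).2.1 h6) using 1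
    simp only [c, t]
    ring
  have htI : ∀ ε ∈ S', t k ∉ I ε := by
    intro ε hε h4
    rw [Finset.mem_filter] at hε
    rw [htk] at h4
    exact ((hI ε hε.1).1.isPrime.mem_or_mem h4).elim (hunit ε hε.1 k) hε.2
  have hc₀ : c ∉ P := fun h4 => by
    have h5 := hmem ε₁ hε₁
    rw [if_pos hk₁] at h5
    exact htI ε₁ hε₁ (by
      simpa using Ideal.sub_mem _ h5 ((hI ε₁ (Finset.mem_filter.1 hε₁).1).2.1 h4))
  have hc₁ : c + t k ∉ P := fun h4 => by
    have h5 := hmem ε₀ hε₀
    rw [if_neg hk₀, add_zero] at h5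
    exact htI ε₀ hε₀ (by
      simpa using Ideal.sub_mem _ ((hI ε₀ (Finset.mem_filter.1 hε₀).1).2.1 h4) h5)
  have h4 := hcount c (hc.mono (by nlinarith)) hc₀
  have h5 := hcount (c + t k) ((hc.add ((hu k).2.mul (hh _))).mono (by nlinarith)) hc₁
  have h6 : S' ⊆ (S.filter fun ε => c ∈ I ε) ∪ S.filter fun ε => c + t k ∈ I ε := by
    intro ε hε
    have h7 := hmem ε hε
    have hεS := (Finset.mem_filter.1 hε).1
    simp only [Finset.mem_union, Finset.mem_filter, hεS, true_and]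
    split_ifs at h7
    · exact Or.inr h7
    · exact Or.inl (by simpa using h7)
  have h7 := (Finset.card_le_card h6).trans (Finset.card_union_le _ _)
  omega

open Classical in
theorem card_not_prim_le {B : ℕ} {f h : MonoidAlgebra (MonoidAlgebra ℤ T) Γ}
    (hf : ∀ γ, Bd B (f.coeff γ)) (hh : ∀ γ, Bd B (h.coeff γ)) (hp : Prim h)
    {x : κ → Γ} (hx : Function.Injective x) {u : κ → MonoidAlgebra ℤ T}
    (hu : ∀ k, IsUnit (u k) ∧ Bd 1 (u k)) :
    (Finset.univ.filter fun ε : Finset κ =>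
      ¬ Prim (f + (∑ k ∈ ε, single (x k) (u k)) * h)).card ≤
      Fintype.card T * (3 * (Fintype.card T ^ 3 * ((Fintype.card κ + 2) * B + 1)) + 1) := by
  obtain ⟨X, hX, hXI⟩ := exists_chars (T := T)
  set S := Finset.univ.filter fun ε : Finset κ => ¬ Prim (f + (∑ k ∈ ε, single (x k) (u k)) * h)
  have h1 : ∀ ε : Finset κ, ∃ (I : Ideal (MonoidAlgebra ℤ T)) (χ : T →* ℂ), ε ∈ S →
      χ ∈ X ∧ I.IsMaximal ∧ RingHom.ker (ev χ).toRingHom ≤ I ∧
        ∀ γ, (f + (∑ k ∈ ε, single (x k) (u k)) * h).coeff γ ∈ I := by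
    intro ε
    by_cases hε : ε ∈ S
    · have h2 := (Finset.mem_filter.1 hε).2
      unfold Prim at h2
      push Not at h2
      obtain ⟨I, hI, h3⟩ := h2
      obtain ⟨χ, hχ, h4⟩ := hXI I hI.isPrime
      exact ⟨I, χ, fun _ => ⟨hχ, hI, h4, h3⟩⟩
    · exact ⟨⊤, 1, fun h => absurd h hε⟩
  choose I χ hI using h1
  refine (Finset.card_le_mul_card_image_of_maps_to (f := χ) (t := X) (fun ε hε => (hI ε hε).1) _
    fun ψ _ => ?_).trans (by rw [mul_comm]; exact Nat.mul_le_mul_right _ hX)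
  have := RingHom.ker_isPrime (ev ψ).toRingHom
  refine card_le_of_prime hf hh hp hx hu (P := RingHom.ker (ev ψ).toRingHom) _ I fun ε hε => ?_
  rw [Finset.mem_filter] at hε
  rw [← hε.2]
  exact (hI ε hε.1).2

end ts

end Pool.Agent.P.MP_d3a22b_lc
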