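import Pool.Agent.P.MP_d3a22b_lc.Toggles

/-!
Estimates for the number of bad choices of inner letters.
-/

set_option autoImplicit false
set_option linter.unusedSectionVars false

open Set MonoidAlgebra
open scoped commutatorElement

namespace Pool.Agent.P.MP_d3a22b_lc

variable {n m N ρ s K C : ℕ}

open Classical in
/-- The admissible inner letters with prescribed exponent vectors. -/
noncomputable def fiber (ω : Frame n m N ρ) (v : Fin m → ZZ n) :
    Finset (Fin m × Fin N → Mid n × Mid n) :=
  (admAll ω).filter fun y => (fun i => ab (FreeGroup.mk (words ω y i))) = v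

theorem tog_mem_fiber {τ : Mid n × Mid n → Mid n × Mid n} (hτ : Nice τ) {ω : Frame n m N ρ}
    {v : Fin m → ZZ n} {y : Fin m × Fin N → Mid n × Mid n} (hy : y ∈ fiber ω v)
    (D : Finset (Fin m × Fin N)) : tog τ y D ∈ fiber ω v := by
  simp only [fiber, Finset.mem_filter, admAll, Fintype.mem_piFinset] at hy ⊢
  refine ⟨fun a => ?_, ?_⟩
  · unfold tog
    split_ifs
    · exact hτ.adm _ _ (hy.1 a)
    · exact hy.1 a
  · rw [← hy.2]
    funext i
    refine ab_wrd_tog hτ _ (fun t => ?_) _
    unfold tog
    split_ifs <;> simp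

theorem tog_row {U κ : Type} (τ : U → U) (y : Fin m × Fin N → U) (i : Fin m) (p : κ → Fin N)
    (ε : Finset κ) : (fun t => tog τ y (ε.image fun k => (i, p k)) (i, t)) =
      tog τ (fun t => y (i, t)) (ε.image p) := by
  funext t
  simp [tog]

theorem tog_row_ne {U κ : Type} (τ : U → U) (y : Fin m × Fin N → U) {i i' : Fin m} (h : i' ≠ i)
    (p : κ → Fin N) (ε : Finset κ) :
    (fun t => tog τ y (ε.image fun k => (i, p k)) (i', t)) = fun t => y (i', t) := by
  funext t
  simp [tog, h.symm]

open Classical in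
theorem avg_row {κ : Type} [Fintype κ] [DecidableEq κ] {τ : Mid n × Mid n → Mid n × Mid n}
    (hτ : Nice τ) (ω : Frame n m N ρ) (v : Fin m → ZZ n) (i : Fin m) (c : κ → Fin C → Fin N)
    (E : (Fin m × Fin N → Mid n × Mid n) → Prop) (b : ℕ)
    (hb : ∀ y ∈ fiber ω v, ∀ r : κ → Fin C, (∀ k, τ (y (i, c k (r k))) ≠ y (i, c k (r k))) →
      (Finset.univ.filter fun ε : Finset κ =>
        E (tog τ y (ε.image fun k => (i, c k (r k))))).card ≤ b) :
    (((fiber ω v).filter fun y => (∀ k, ∃ r, τ (y (i, c k r)) ≠ y (i, c k r)) ∧ E y).card : ℝ) ≤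
      b / 2 ^ Fintype.card κ * (fiber ω v).card := by
  have h1 := avg hτ.inv (fiber ω v) (fun y hy D => tog_mem_fiber hτ hy D)
    (fun k a => ∃ r, (i, c k r) = a) E b fun y hy p hp => by
      choose r hr using fun k => (hp k).1
      obtain rfl : p = fun k => (i, c k (r k)) := (funext hr).symm
      exact hb y hy r fun k => (hp k).2
  simp only [exists_exists_eq_and] at h1
  rw [div_mul_eq_mul_div, le_div_iff₀ (by positivity), mul_comm]
  exact_mod_cast (by convert h1)

theorem card_le_of_forall_mem {ι : Type} {S : Finset ι} {b : ℕ} (h : ∀ a ∈ S, S.card ≤ b) :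
    S.card ≤ b := by
  rcases S.eq_empty_or_nonempty with rfl | ⟨a, ha⟩
  · simp
  · exact h a ha

/-- Cells of blocks, in increasing order. -/
structure Layout (el : Fin s → Fin (K + 1) → Fin C → Fin N) : Prop where
  inj : ∀ g k, Function.Injective (el g k)
  lt₁ : ∀ g g' k k' r r', g < g' → el g k r < el g' k' r'
  lt₂ : ∀ g k k' r r', k < k' → el g k r < el g k' r'

variable {el : Fin s → Fin (K + 1) → Fin C → Fin N}

open Classical in
theorem card_coll (hn : 3 ≤ n) (hel : Layout el) {Γ : Type} [CommGroup Γ] (γ : ZZ n →* Γ)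
    {j k : Fin n} (hjk : j ≠ k) (hγ : ¬ IsOfFinOrder (γ (bas j))) (ω : Frame n m N ρ)
    (v : Fin m → ZZ n) (i : Fin m) {g g' : Fin s} (hg : g < g') (r r' : Fin C) :
    (((fiber ω v).filter fun y =>
      (∀ c : Fin K, ∃ r, flp j k (y (i, el g' c.castSucc r)) ≠ y (i, el g' c.castSucc r)) ∧
        γ (pp (ω i).1 (fun t => y (i, t)) (el g (Fin.last K) r)) =
          γ (pp (ω i).1 (fun t => y (i, t)) (el g' (Fin.last K) r'))).card : ℝ) ≤
      (K.choose (K / 2) : ℕ) / 2 ^ K * (fiber ω v).card := by
  have h1 := avg_row (nice_flp hn hjk) ω v i (fun c : Fin K => el g' c.castSucc)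
    (fun y => γ (pp (ω i).1 (fun t => y (i, t)) (el g (Fin.last K) r)) =
      γ (pp (ω i).1 (fun t => y (i, t)) (el g' (Fin.last K) r'))) (K.choose (K / 2))
    fun y _ a ha => by
      have hp : Function.Injective fun c : Fin K => el g' c.castSucc (a c) := by
        intro c c' h
        by_contra hne
        rcases lt_or_gt_of_ne hne with h2 | h2
        · exact (hel.lt₂ _ _ _ _ _ (Fin.castSucc_lt_castSucc_iff.2 h2)).ne h
        · exact (hel.lt₂ _ _ _ _ _ (Fin.castSucc_lt_castSucc_iff.2 h2)).ne' h
      obtain ⟨σ, hσ, h2⟩ := pp_tog_flp (ω i).1 (u := fun t => y (i, t)) hp ha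
      refine (card_le_choose σ hσ _ fun ε hε ε' hε' => ?_).trans (by simp)
      simp only [Finset.mem_filter, Finset.mem_univ, true_and, tog_row, h2,
        (hel.lt₁ _ _ _ _ _ _ hg).not_gt, hel.lt₂ _ _ _ _ _ (Fin.castSucc_lt_last _), if_true,
        if_false, Finset.sum_const_zero, zpow_zero, mul_one, map_mul, map_zpow, map_pow] at hε hε'
      have h3 := mul_left_cancel (hε.symm.trans hε')
      rw [← zpow_natCast, ← zpow_mul, ← zpow_mul] at h3
      have h4 := injective_zpow_iff_not_isOfFinOrder.2 hγ h3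
      simpa using h4
  rw [Fintype.card_fin] at h1
  convert h1

open Classical in
theorem card_bad (hn : 3 ≤ n) (hel : Layout el) (ω : Frame n m N ρ) (v : Fin m → ZZ n)
    {Γ T : Type} [CommGroup Γ] [LinearOrder Γ] [IsOrderedMonoid Γ] [CommGroup T] [Fintype T]
    (e : QQ v ≃* Γ × T) {j t : Fin n} (π : Equiv.Perm (Fin n)) {i : Fin m} (ht : (π t : ℕ) = i)
    (hj : t ≠ j) :
    (((fiber ω v).filter fun y =>
      (∀ g, ∃ r, swp j t (y (i, el g (Fin.last K) r)) ≠ y (i, el g (Fin.last K) r)) ∧
        (∀ g r g' r', g < g' →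
          (e (QuotientGroup.mk (pp (ω i).1 (fun t => y (i, t)) (el g (Fin.last K) r)))).1 ≠
          (e (QuotientGroup.mk (pp (ω i).1 (fun t => y (i, t)) (el g' (Fin.last K) r')))).1) ∧
        Prim (theta e (chainMat (al v) j π
          (fun i => fox (al v) (FreeGroup.mk (words ω y i))) i).det) ∧
        ¬ Prim (theta e (chainMat (al v) j π
          (fun i => fox (al v) (FreeGroup.mk (words ω y i))) (i + 1)).det)).card : ℝ) ≤
      (Fintype.card T * (3 * (Fintype.card T ^ 3 *
        ((s + 2) * (n.factorial * (16 * N + ρ + 2) ^ n) + 1)) + 1) : ℕ) / 2 ^ s *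
          (fiber ω v).card := by
  have h1 := avg_row (nice_swp hn hj.symm) ω v i (fun g : Fin s => el g (Fin.last K))
    (fun y => (∀ g r g' r', g < g' →
          (e (QuotientGroup.mk (pp (ω i).1 (fun t => y (i, t)) (el g (Fin.last K) r)))).1 ≠
          (e (QuotientGroup.mk (pp (ω i).1 (fun t => y (i, t)) (el g' (Fin.last K) r')))).1) ∧
        Prim (theta e (chainMat (al v) j π
          (fun i => fox (al v) (FreeGroup.mk (words ω y i))) i).det) ∧
        ¬ Prim (theta e (chainMat (al v) j π
          (fun i => fox (al v) (FreeGroup.mk (words ω y i))) (i + 1)).det))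
    (Fintype.card T * (3 * (Fintype.card T ^ 3 *
        ((s + 2) * (n.factorial * (16 * N + ρ + 2) ^ n) + 1)) + 1))
    fun y _ a ha => by
      have hp : Function.Injective fun g : Fin s => el g (Fin.last K) (a g) := by
        intro c c' h
        by_contra hne
        rcases lt_or_gt_of_ne hne with h2 | h2
        · exact (hel.lt₁ _ _ _ _ _ _ h2).ne h
        · exact (hel.lt₁ _ _ _ _ _ _ h2).ne' h
      obtain ⟨σ, hσ, h2⟩ := fox_wrd_tog_swp (QuotientGroup.mk' (Subgroup.closure (range v)))
        (ω i).1 (u := fun t => y (i, t)) hp ha (ω i).2.1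
      set J := fun i => fox (al v) (FreeGroup.mk (words ω y i)) with hJ
      let x : Fin s → QQ v := fun g =>
        QuotientGroup.mk (pp (ω i).1 (fun t => y (i, t)) (el g (Fin.last K) (a g)) * bas j)
      have h3 : ∀ (ε : Finset (Fin s)) (i' : Fin m), i' ≠ i →
          fox (al v) (FreeGroup.mk (words ω (tog (swp j t) y
            (ε.image fun g => (i, el g (Fin.last K) (a g)))) i')) = J i' := fun ε i' h => by
        simp only [words, tog_row_ne _ _ h, hJ]
      have h4 : ∀ ε : Finset (Fin s), fox (al v) (FreeGroup.mk (words ω (tog (swp j t) y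
            (ε.image fun g => (i, el g (Fin.last K) (a g)))) i)) =
            J i + (∑ g ∈ ε, single (x g) (σ g)) • fox (al v) ⁅FreeGroup.of j, FreeGroup.of t⁆ :=
        fun ε => by
          simp only [words, tog_row, hJ]
          exact h2 ε
      have hB : ∀ (i : ℕ) γ, Bd (n.factorial * (16 * N + ρ + 2) ^ n)
          ((theta e (chainMat (al v) j π J i).det).coeff γ) := fun i γ =>
        (Bd.det (bd_chainMat (by omega) (fun i s => (bd_fox_mk _ _ _).mono
          (by rw [length_words]; omega)) i)).theta e γ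
      refine card_le_of_forall_mem fun ε₀ h5 => ?_
      simp only [Finset.mem_filter, Finset.mem_univ, true_and, tog_row, pp_tog_swp] at h5
      rw [chainMat_congr (J' := J) fun i' hi' => h3 _ _ fun h6 => by simp [h6] at hi'] at h5
      have hx : Function.Injective fun g => (e (x g)).1 := by
        intro c c' h
        simp only [x, QuotientGroup.mk_mul, map_mul, Prod.fst_mul, mul_left_inj] at h
        by_contra hne
        rcases lt_or_gt_of_ne hne with h2 | h2
        · exact h5.1 _ _ _ _ h2 h
        · exact h5.1 _ _ _ _ h2 h.symm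
      have h6 := card_not_prim_le (hB (i + 1)) (hB i) h5.2.1 hx
        (u := fun g => single (e (x g)).2 (σ g)) fun g => by
          rcases hσ g with h | h <;> rw [h]
          · exact ⟨(Group.isUnit _).map (MonoidAlgebra.of ℤ T), Bd.single _⟩
          · rw [single_neg]
            exact ⟨((Group.isUnit _).map (MonoidAlgebra.of ℤ T)).neg, (Bd.single _).neg⟩
      rw [Fintype.card_fin] at h6
      refine le_trans (Finset.card_le_card fun ε hε => ?_) h6
      simp only [Finset.mem_filter, Finset.mem_univ, true_and] at hε ⊢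
      have h7 := hε.2.2
      rw [det_chainMat_succ ht hj (h3 ε) (h4 ε), map_add, map_mul, map_sum] at h7
      simpa only [theta_single] using h7
  rw [Fintype.card_fin] at h1
  convert h1

end Pool.Agent.P.MP_d3a22b_lc
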