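import Pool.Agent.P.MP_d3a22b_lc.Words

/-!
Two families of local involutions on pairs of blocks.
-/

set_option autoImplicit false
set_option linter.unusedSectionVars false

open Set MonoidAlgebra
open scoped commutatorElement

namespace Pool.Agent.P.MP_d3a22b_lc

variable {n m N ρ : ℕ}

/-- Change the central words of length four of a pair of blocks. -/
def act (π : Pat n × Pat n → Pat n × Pat n) (u : Mid n × Mid n) : Mid n × Mid n :=
  ((u.1.1, (π (u.1.2.1, u.2.2.1)).1, u.1.2.2), (u.2.1, (π (u.1.2.1, u.2.2.1)).2, u.2.2.2))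

theorem act_involutive {π : Pat n × Pat n → Pat n × Pat n} (hπ : Function.Involutive π) :
    Function.Involutive (act π) := fun u => by
  simp [act, hπ (u.1.2.1, u.2.2.1)]

/-- The words `k j k k` and `k j⁻¹ k k`. -/
def fP (j k : Fin n) (b : Bool) : Pat n := ((k, true), (j, b), (k, true), (k, true))

/-- The words `j j k k` and `j k j k`. -/
def sP (j k : Fin n) (b : Bool) : Pat n :=
  ((j, true), (cond b j k, true), (cond b k j, true), (k, true))

instance : DecidableEq (Pat n × Pat n) := instDecidableEqProd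

/-- Exchange of the central words of two blocks. -/
def flp (j k : Fin n) : Mid n × Mid n → Mid n × Mid n :=
  act (Equiv.swap (fP j k true, fP j k false) (fP j k false, fP j k true))

/-- Transposition of two letters in the first block. -/
def swp (j k : Fin n) : Mid n × Mid n → Mid n × Mid n :=
  act (Prod.map (Equiv.swap (sP j k true) (sP j k false)) id)

theorem flp_cases (j k : Fin n) (u : Mid n × Mid n) : flp j k u = u ∨
    ∃ b, u = ((u.1.1, fP j k b, u.1.2.2), (u.2.1, fP j k (!b), u.2.2.2)) ∧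
      flp j k u = ((u.1.1, fP j k (!b), u.1.2.2), (u.2.1, fP j k b, u.2.2.2)) := by
  obtain ⟨⟨a, P, b⟩, ⟨c, P', d⟩⟩ := u
  by_cases h1 : (P, P') = (fP j k true, fP j k false)
  · obtain ⟨rfl, rfl⟩ := Prod.mk.inj h1
    exact Or.inr ⟨true, rfl, by simp [flp, act]⟩
  by_cases h2 : (P, P') = (fP j k false, fP j k true)
  · obtain ⟨rfl, rfl⟩ := Prod.mk.inj h2
    exact Or.inr ⟨false, rfl, by simp [flp, act]⟩
  exact Or.inl (by simp only [flp, act, Equiv.swap_apply_of_ne_of_ne h1 h2])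

theorem swp_cases (j k : Fin n) (u : Mid n × Mid n) : swp j k u = u ∨
    ∃ b, u = ((u.1.1, sP j k b, u.1.2.2), u.2) ∧
      swp j k u = ((u.1.1, sP j k (!b), u.1.2.2), u.2) := by
  obtain ⟨⟨a, P, b⟩, ⟨c, P', d⟩⟩ := u
  by_cases h1 : P = sP j k true
  · subst h1
    exact Or.inr ⟨true, rfl, by simp [swp, act]⟩
  by_cases h2 : P = sP j k false
  · subst h2
    exact Or.inr ⟨false, rfl, by simp [swp, act]⟩
  exact Or.inl (by simp only [swp, act, Prod.map, Equiv.swap_apply_of_ne_of_ne h1 h2, id])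

theorem mk_fP (j k : Fin n) (b : Bool) : FreeGroup.mk (patL (fP j k b)) =
    FreeGroup.of k * FreeGroup.of j ^ (cond b 1 (-1) : ℤ) * FreeGroup.of k * FreeGroup.of k := by
  cases b
  · simp only [cond_false, zpow_neg, zpow_one]
    rfl
  · simp only [cond_true, zpow_one]
    rfl

theorem mk_sP (j k : Fin n) (b : Bool) : FreeGroup.mk (patL (sP j k b)) =
    FreeGroup.of j * FreeGroup.of (cond b j k) * FreeGroup.of (cond b k j) * FreeGroup.of k := rfl

theorem exists_buffer (hn : 3 ≤ n) (a b : Fin n) : ∃ c : Fin n, c ≠ a ∧ c ≠ b := by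
  obtain ⟨c, -, hc⟩ := Finset.exists_mem_notMem_of_card_lt_card (s := {a, b})
    (t := (Finset.univ : Finset (Fin n))) (Finset.card_le_two.trans_lt (by simp; omega))
  exact ⟨c, by simpa using hc⟩

theorem exists_blk (hn : 3 ≤ n) (f : Ends n) {P : Pat n} (hP : FreeGroup.IsReduced (patL P)) :
    ∃ a b, FreeGroup.IsReduced (blk f (a, P, b)) := by
  obtain ⟨a, ha, ha'⟩ := exists_buffer hn f.1.1 P.1.1
  obtain ⟨b, hb, hb'⟩ := exists_buffer hn f.2.1 P.2.2.2.1
  refine ⟨(a, true), (b, true), ?_⟩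
  simp only [FreeGroup.IsReduced, patL, blk, List.isChain_cons_cons] at hP ⊢
  simpa [ha, ha', hb, hb', ha.symm, hb'.symm] using hP

theorem blk_replace {f : Ends n} {a b : Lt n} {P P' : Pat n} (h1 : P'.1 = P.1)
    (h2 : P'.2.2.2 = P.2.2.2) (hP : FreeGroup.IsReduced (patL P'))
    (h : FreeGroup.IsReduced (blk f (a, P, b))) : FreeGroup.IsReduced (blk f (a, P', b)) := by
  simp only [FreeGroup.IsReduced, patL, blk, List.isChain_cons_cons] at hP h ⊢
  rw [h1, h2] at *
  tauto

theorem isReduced_fP {j k : Fin n} (h : j ≠ k) (b : Bool) :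
    FreeGroup.IsReduced (patL (fP j k b)) := by
  simp [FreeGroup.IsReduced, patL, fP, h, h.symm]

theorem isReduced_sP (j k : Fin n) (b : Bool) : FreeGroup.IsReduced (patL (sP j k b)) := by
  simp [FreeGroup.IsReduced, patL, sP]

/-- The properties shared by the two families of involutions. -/
structure Nice (τ : Mid n × Mid n → Mid n × Mid n) : Prop where
  inv : Function.Involutive τ
  adm : ∀ f u, u ∈ adm f → τ u ∈ adm f
  ab : ∀ (f : Ends n × Ends n) u,
    ab (FreeGroup.mk (blk f.1 (τ u).1)) * ab (FreeGroup.mk (blk f.2 (τ u).2)) =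
      ab (FreeGroup.mk (blk f.1 u.1)) * ab (FreeGroup.mk (blk f.2 u.2))
  site : ∀ f, ∃ u ∈ Pool.Agent.P.MP_d3a22b_lc.adm f, τ u ≠ u

theorem nice_flp (hn : 3 ≤ n) {j k : Fin n} (h : j ≠ k) : Nice (flp j k) where
  inv := act_involutive (Equiv.swap_apply_self _ _)
  adm f u hu := by
    rcases flp_cases j k u with h1 | ⟨b, h1, h2⟩
    · rwa [h1]
    · rw [h1, mem_adm] at hu
      rw [h2, mem_adm]
      exact ⟨blk_replace (P := fP j k b) rfl rfl (isReduced_fP h _) hu.1,
        blk_replace (P := fP j k (!b)) rfl rfl (isReduced_fP h _) hu.2⟩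
  ab f u := by
    rcases flp_cases j k u with h1 | ⟨b, h1, h2⟩
    · rw [h1]
    · rw [h2]
      conv_rhs => rw [h1]
      simp only [mk_blk, map_mul]
      ac_rfl
  site f := by
    obtain ⟨a, b, h1⟩ := exists_blk hn f.1 (isReduced_fP h true)
    obtain ⟨c, d, h2⟩ := exists_blk hn f.2 (isReduced_fP h false)
    exact ⟨((a, fP j k true, b), (c, fP j k false, d)), mem_adm.2 ⟨h1, h2⟩,
      by simp [flp, act, fP]⟩

theorem ab_swp (j k : Fin n) (f : Ends n) (u : Mid n × Mid n) :
    ab (FreeGroup.mk (blk f (swp j k u).1)) = ab (FreeGroup.mk (blk f u.1)) := by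
  rcases swp_cases j k u with h1 | ⟨b, h1, h2⟩
  · rw [h1]
  · rw [h2]
    conv_rhs => rw [h1]
    simp only [mk_blk, map_mul, mk_sP]
    cases b <;> simp only [Bool.not_false, Bool.not_true, cond_true, cond_false] <;> ac_rfl

theorem swp_snd (j k : Fin n) (u : Mid n × Mid n) : (swp j k u).2 = u.2 := rfl

theorem nice_swp (hn : 3 ≤ n) {j k : Fin n} (h : j ≠ k) : Nice (swp j k) where
  inv := act_involutive fun P => Prod.ext (Equiv.swap_apply_self _ _ _) rfl
  adm f u hu := by
    rcases swp_cases j k u with h1 | ⟨b, h1, h2⟩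
    · rwa [h1]
    · rw [h1, mem_adm] at hu
      rw [h2, mem_adm]
      exact ⟨blk_replace (P := sP j k b) rfl rfl (isReduced_sP _ _ _) hu.1, hu.2⟩
  ab f u := by rw [ab_swp, swp_snd]
  site f := by
    obtain ⟨a, b, h1⟩ := exists_blk hn f.1 (isReduced_sP j k true)
    obtain ⟨c, d, h2⟩ := exists_blk hn f.2 (isReduced_sP j k true)
    exact ⟨((a, sP j k true, b), (c, sP j k true, d)), mem_adm.2 ⟨h1, h2⟩,
      by simp [swp, act, sP, h]⟩

theorem ab_flp {j k : Fin n} (f : Ends n) {u : Mid n × Mid n} (hu : flp j k u ≠ u) :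
    ∃ σ : ℤ, (σ = 1 ∨ σ = -1) ∧ ab (FreeGroup.mk (blk f (flp j k u).1)) =
      ab (FreeGroup.mk (blk f u.1)) * (bas j ^ 2) ^ σ := by
  obtain ⟨b, h1, h2⟩ := (flp_cases j k u).resolve_left hu
  refine ⟨cond b (-1) 1, by cases b <;> simp, ?_⟩
  rw [h2]
  conv_rhs => rw [h1]
  simp only [mk_blk, map_mul, mk_fP, map_zpow, ab_of]
  apply Multiplicative.toAdd.injective
  cases b <;> simp only [Bool.not_false, Bool.not_true, cond_true, cond_false, toAdd_mul,
    toAdd_zpow, toAdd_pow] <;> module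

variable {Q : Type} [CommGroup Q]

theorem fox_swp (α : Fin n → Q) {j k : Fin n} (f : Ends n) {u : Mid n × Mid n}
    (hu : swp j k u ≠ u) :
    ∃ σ : ℤ, (σ = 1 ∨ σ = -1) ∧ fox α (FreeGroup.mk (blk f (swp j k u).1)) =
      fox α (FreeGroup.mk (blk f u.1)) +
        single (FreeGroup.lift α (FreeGroup.mk [f.1, u.1.1]) * α j) σ •
          fox α ⁅FreeGroup.of j, FreeGroup.of k⁆ := by
  obtain ⟨b, h1, h2⟩ := (swp_cases j k u).resolve_left hu
  refine ⟨cond b (-1) 1, by cases b <;> simp, ?_⟩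
  rw [h2]
  conv_rhs => rw [h1]
  simp only [mk_blk, mk_sP, fox_mul, fox_of, fox_commutator, map_mul, FreeGroup.lift_apply_of,
    ← smul_of]
  cases b <;> simp only [Bool.not_false, Bool.not_true, cond_true, cond_false] <;> module

/-- The position of the start of the central word of a block. -/
def pp (φ : Fin N → Ends n × Ends n) (u : Fin N → Mid n × Mid n) (t : Fin N) : ZZ n :=
  pos (fun t => ab (FreeGroup.mk (blk (φ t).1 (u t).1))) t * ab (FreeGroup.mk [(φ t).1.1, (u t).1.1])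

theorem ab_wrd_tog {τ : Mid n × Mid n → Mid n × Mid n} (hτ : Nice τ)
    (φ : Fin N → Ends n × Ends n) {u u' : Fin N → Mid n × Mid n}
    (h : ∀ t, u' t = u t ∨ u' t = τ (u t)) (tl : List (Lt n)) :
    ab (FreeGroup.mk (wrd φ u' tl)) = ab (FreeGroup.mk (wrd φ u tl)) := by
  simp only [wrd, map_mk_cat, ← mul_assoc, ← Finset.prod_mul_distrib]
  congr 1
  refine Finset.prod_congr rfl fun t _ => ?_
  rcases h t with h | h <;> rw [h]
  exact hτ.ab _ _

theorem pp_tog_swp (j k : Fin n) (φ : Fin N → Ends n × Ends n) (u : Fin N → Mid n × Mid n)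
    (D : Finset (Fin N)) : pp φ (tog (swp j k) u D) = pp φ u := by
  funext t
  have h1 : ∀ t, ab (FreeGroup.mk (blk (φ t).1 (tog (swp j k) u D t).1)) =
      ab (FreeGroup.mk (blk (φ t).1 (u t).1)) := fun t => by
    unfold tog
    split_ifs
    · exact ab_swp _ _ _ _
    · rfl
  have h2 : (tog (swp j k) u D t).1.1 = (u t).1.1 := by
    unfold tog
    split_ifs <;> rfl
  simp only [pp, h1, h2]

theorem pp_tog_flp {κ : Type} {j k : Fin n} (φ : Fin N → Ends n × Ends n)
    {u : Fin N → Mid n × Mid n} {p : κ → Fin N} (hp : Function.Injective p)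
    (hu : ∀ g, flp j k (u (p g)) ≠ u (p g)) :
    ∃ σ : κ → ℤ, (∀ g, σ g = 1 ∨ σ g = -1) ∧ ∀ (ε : Finset κ) (t : Fin N),
      pp φ (tog (flp j k) u (ε.image p)) t =
        pp φ u t * (bas j ^ 2) ^ ∑ g ∈ ε, if p g < t then σ g else 0 := by
  choose σ hσ h1 using fun g => ab_flp (φ (p g)).1 (hu g)
  refine ⟨σ, hσ, fun ε t => ?_⟩
  have h2 : (tog (flp j k) u (ε.image p) t).1.1 = (u t).1.1 := by
    unfold tog
    split_ifs <;> rfl
  have h3 : ∀ t, ab (FreeGroup.mk (blk (φ t).1 (tog (flp j k) u (ε.image p) t).1)) =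
      ab (FreeGroup.mk (blk (φ t).1 (u t).1)) *
        ∏ g ∈ ε, if p g = t then (bas j ^ 2) ^ σ g else 1 := fun t => by
    unfold tog
    split_ifs with h
    · obtain ⟨g, hg, rfl⟩ := Finset.mem_image.1 h
      classical
      simp only [hp.eq_iff, Finset.prod_ite_eq', hg, if_true, h1]
    · rw [Finset.prod_eq_one fun g hg => if_neg fun h4 => h (Finset.mem_image.2 ⟨g, hg, h4⟩),
        mul_one]
  simp only [pp, h2, h3, pos]
  rw [mul_right_comm]
  congr 1
  have h4 : ∀ t' : Fin N, (if t' < t then ab (FreeGroup.mk (blk (φ t').1 (u t').1)) *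
      ∏ g ∈ ε, (if p g = t' then (bas j ^ 2) ^ σ g else 1) else 1) =
      (if t' < t then ab (FreeGroup.mk (blk (φ t').1 (u t').1)) else 1) *
        ∏ g ∈ ε, if p g = t' then (bas j ^ 2) ^ (if t' < t then σ g else 0) else 1 := by
    intro t'
    split_ifs <;> simp
  simp only [h4, Finset.prod_mul_distrib]
  congr 1
  rw [Finset.prod_comm]
  apply Multiplicative.toAdd.injective
  simp only [Finset.prod_ite_eq, Finset.mem_univ, if_true, toAdd_prod, toAdd_zpow,
    Finset.sum_smul]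

theorem fox_wrd_tog_swp {κ : Type} {j k : Fin n} (ψ : ZZ n →* Q) (φ : Fin N → Ends n × Ends n)
    {u : Fin N → Mid n × Mid n} {p : κ → Fin N} (hp : Function.Injective p)
    (hu : ∀ g, swp j k (u (p g)) ≠ u (p g)) (tl : List (Lt n)) :
    ∃ σ : κ → ℤ, (∀ g, σ g = 1 ∨ σ g = -1) ∧ ∀ ε : Finset κ,
      fox (fun i => ψ (bas i)) (FreeGroup.mk (wrd φ (tog (swp j k) u (ε.image p)) tl)) =
        fox (fun i => ψ (bas i)) (FreeGroup.mk (wrd φ u tl)) +
          (∑ g ∈ ε, single (ψ (pp φ u (p g) * bas j)) (σ g)) •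
            fox (fun i => ψ (bas i)) ⁅FreeGroup.of j, FreeGroup.of k⁆ := by
  set α := fun i => ψ (bas i) with hα
  have h0 : ∀ w, FreeGroup.lift α w = ψ (ab w) := by
    have : FreeGroup.lift α = ψ.comp ab := by
      ext i
      simp [hα, ab_of]
    intro w
    rw [this]
    rfl
  choose σ hσ h1 using fun g => fox_swp α (φ (p g)).1 (hu g)
  refine ⟨σ, hσ, fun ε => ?_⟩
  have h2 : ∀ t, (tog (swp j k) u (ε.image p) t).2 = (u t).2 := fun t => by
    unfold tog
    split_ifs <;> rfl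
  have h3 : ∀ t, ab (FreeGroup.mk (blk (φ t).1 (tog (swp j k) u (ε.image p) t).1)) =
      ab (FreeGroup.mk (blk (φ t).1 (u t).1)) := fun t => by
    unfold tog
    split_ifs
    · exact ab_swp _ _ _ _
    · rfl
  have h4 : ∀ t, fox α (FreeGroup.mk (blk (φ t).1 (tog (swp j k) u (ε.image p) t).1)) =
      fox α (FreeGroup.mk (blk (φ t).1 (u t).1)) + ∑ g ∈ ε, if p g = t then
        single (ψ (ab (FreeGroup.mk [(φ t).1.1, (u t).1.1]) * bas j)) (σ g) •
          fox α ⁅FreeGroup.of j, FreeGroup.of k⁆ else 0 := fun t => by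
    unfold tog
    split_ifs with h
    · obtain ⟨g, hg, rfl⟩ := Finset.mem_image.1 h
      classical
      simp only [hp.eq_iff, Finset.sum_ite_eq', hg, if_true, h1, h0, map_mul]
      rfl
    · rw [Finset.sum_eq_zero fun g hg => if_neg fun h4 => h (Finset.mem_image.2 ⟨g, hg, h4⟩),
        add_zero]
  simp only [wrd, h2]
  rw [fox_mk_cat, fox_mk_cat α fun t => blk (φ t).1 (u t).1]
  simp only [h0, h3, h4, smul_add, Finset.sum_add_distrib]
  rw [add_right_comm]
  congr 1
  simp only [Finset.smul_sum, Finset.sum_smul]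
  rw [Finset.sum_comm]
  refine Finset.sum_congr rfl fun g _ => ?_
  simp only [smul_ite, smul_zero, Finset.sum_ite_eq, Finset.mem_univ, if_true, smul_smul,
    of_apply, single_mul_single, one_mul, pp, map_mul, map_pos' ψ, mul_assoc]

end Pool.Agent.P.MP_d3a22b_lc
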