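import Pool.Agent.P.MP_d3a22b_lc.Prob

/-!
The union bound.
-/

set_option autoImplicit false
set_option linter.unusedSectionVars false

open Set MonoidAlgebra
open scoped commutatorElement

namespace Pool.Agent.P.MP_d3a22b_lc

variable {n m N ρ s K C : ℕ} {el : Fin s → Fin (K + 1) → Fin C → Fin N}

open Classical in
theorem card_le_of_cover {ι β : Type} [Fintype ι] (S : Finset β) (F : β → Prop)
    {_ : DecidablePred F} (E : ι → β → Prop) [∀ i, DecidablePred (E i)]
    {M : ℕ} (hM : Fintype.card ι = M)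
    (hF : ∀ y ∈ S, F y → ∃ i, E i y) {b : ℝ} (h : ∀ i, ((S.filter (E i)).card : ℝ) ≤ b) :
    ((S.filter F).card : ℝ) ≤ M * b := by
  subst hM
  have h1 : S.filter F ⊆ Finset.univ.biUnion fun i => S.filter (E i) := by
    intro y hy
    rw [Finset.mem_filter] at hy
    obtain ⟨i, hi⟩ := hF y hy.1 hy.2
    exact Finset.mem_biUnion.2 ⟨i, Finset.mem_univ _, Finset.mem_filter.2 ⟨hy.1, hi⟩⟩
  have h2 := (Finset.card_le_card h1).trans Finset.card_biUnion_le
  calc ((S.filter F).card : ℝ) ≤ ∑ i, ((S.filter (E i)).card : ℝ) := by exact_mod_cast h2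
    _ ≤ ∑ _i : ι, b := Finset.sum_le_sum fun i _ => h i
    _ = _ := by simp

open Classical in
theorem card_le_of_or {β : Type} (S : Finset β) (F E : β → Prop) {_ : DecidablePred F} :
    ((S.filter F).card : ℝ) ≤ (S.filter E).card + (S.filter fun y => ¬ E y ∧ F y).card := by
  have h1 : S.filter F ⊆ S.filter E ∪ S.filter fun y => ¬ E y ∧ F y := by
    intro y hy
    simp only [Finset.mem_union, Finset.mem_filter] at hy ⊢
    tauto
  exact_mod_cast (Finset.card_le_card h1).trans (Finset.card_union_le _ _)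

/-- Some cell has no place where one of the involutions acts. -/
def NoSite (el : Fin s → Fin (K + 1) → Fin C → Fin N) (y : Fin m × Fin N → Mid n × Mid n) : Prop :=
  ∃ p : Fin m × Fin s × Fin (K + 1) × Fin n × Fin n × Bool, p.2.2.2.1 ≠ p.2.2.2.2.1 ∧
    ∀ r, cond p.2.2.2.2.2 flp swp p.2.2.2.1 p.2.2.2.2.1 (y (p.1, el p.2.1 p.2.2.1 r)) =
      y (p.1, el p.2.1 p.2.2.1 r)

open Classical in
theorem card_filter_noSite (hn : 3 ≤ n) (hel : Layout el) (ω : Frame n m N ρ) :
    (((admAll ω).filter (NoSite el)).card : ℝ) ≤ (m * (s * ((K + 1) * (n * (n * 2)))) : ℕ) *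
      ((1 - 1 / (Fintype.card (Mid n × Mid n) : ℝ)) ^ C * (admAll ω).card) := by
  have hq : (0 : ℝ) ≤ 1 - 1 / (Fintype.card (Mid n × Mid n) : ℝ) :=
    sub_nonneg.2 ((one_div _).trans_le (Nat.cast_inv_le_one _))
  refine card_le_of_cover _ _ _ (by simp) (fun y _ h => h) fun p => ?_
  obtain ⟨i, g, c, j, k, b⟩ := p
  by_cases hjk : j = k
  · rw [Finset.filter_false_of_mem fun y _ h => h.1 hjk]
    simp only [Finset.card_empty, Nat.cast_zero]
    positivity
  have h1 : Nice (cond b flp swp j k) := by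
    cases b
    · exact nice_swp hn hjk
    · exact nice_flp hn hjk
  have h2 := card_noSite (fun a : Fin m × Fin N => adm ((ω a.1).1 a.2))
    (fun u => cond b flp swp j k u ≠ u) (Finset.univ.image fun r => (i, el g c r))
    fun a => h1.site _
  rw [Finset.card_image_of_injective _ fun r r' h => hel.inj g c (Prod.mk.inj h).2,
    Finset.card_univ, Fintype.card_fin] at h2
  refine le_trans (le_of_eq ?_) h2
  congr 2
  ext y
  simp [hjk, admAll]

open Classical in
theorem card_fiber_bad (hmn : m + 2 ≤ n) (hn : 3 ≤ n) (hel : Layout el) (ω : Frame n m N ρ)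
    (v : Fin m → ZZ n) :
    (((fiber ω v).filter fun y => ¬ NoSite el y ∧
      ¬ BiInterpretableWithNat (Met fun i => FreeGroup.mk (words ω y i))).card : ℝ) ≤
      ((m * (s * (s * (C * C))) : ℕ) * ((K.choose (K / 2) : ℕ) / 2 ^ K) +
        m * (((2 * (m * (16 * N + ρ)) + 1) ^ n * (3 * (((2 * (m * (16 * N + ρ)) + 1) ^ n) ^ 3 *
          ((s + 2) * (n.factorial * (16 * N + ρ + 2) ^ n) + 1)) + 1) : ℕ) / 2 ^ s)) *
        (fiber ω v).card := by
  rcases (fiber ω v).eq_empty_or_nonempty with h0 | ⟨y₀, hy₀⟩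
  · simp [h0]
  have hv : ∀ y ∈ fiber ω v, ∀ i, ab (FreeGroup.mk (words ω y i)) = v i :=
    fun y hy i => congrFun (Finset.mem_filter.1 hy).2 i
  obtain ⟨Γ, T, _, _, _, _, _, e, hT⟩ := exists_dec (v := v) (ℓ := 16 * N + ρ) fun i t => by
    rw [← hv y₀ hy₀, ← length_words ω y₀ i]
    exact abs_ab_mk _ _
  obtain ⟨j, k, hjk⟩ := exists_indep hmn v
  have hne : j ≠ k := by
    rintro rfl
    simpa using (hjk 1 (-1) (by simp)).1
  let γ : ZZ n →* Γ := (MonoidHom.fst Γ T).comp (e.toMonoidHom.comp (QuotientGroup.mk' _))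
  have hγ : ¬ IsOfFinOrder (γ (bas j)) := fun h => hjk.not_isOfFinOrder (by
    have h1 : IsOfFinOrder (e (al v j)) :=
      IsOfFinOrder.prod_mk h (isOfFinOrder_of_finite (e (al v j)).2)
    simpa using e.symm.toMonoidHom.isOfFinOrder h1)
  let π := Equiv.swap j (⟨n - 1, by omega⟩ : Fin n)
  let t : Fin m → Fin n := fun i => π.symm (i.castLE (by omega))
  have ht : ∀ i, (π (t i) : ℕ) = i := fun i => by simp [t]
  have htj : ∀ i, t i ≠ j := fun i h => by
    have h1 := ht i
    rw [h, Equiv.swap_apply_left] at h1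
    have := i.2
    simp only at h1
    omega
  let Coll : (Fin m × Fin N → Mid n × Mid n) → Prop := fun y =>
    ¬ NoSite el y ∧ ∃ p : Fin m × Fin s × Fin s × Fin C × Fin C, p.2.1 < p.2.2.1 ∧
      γ (pp (ω p.1).1 (fun t => y (p.1, t)) (el p.2.1 (Fin.last K) p.2.2.2.1)) =
        γ (pp (ω p.1).1 (fun t => y (p.1, t)) (el p.2.2.1 (Fin.last K) p.2.2.2.2))
  refine (card_le_of_or _ _ Coll).trans ?_
  rw [add_mul, mul_assoc, mul_assoc]
  refine add_le_add ?_ ?_
  · refine card_le_of_cover _ _ (fun (p : Fin m × Fin s × Fin s × Fin C × Fin C) y =>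
      p.2.1 < p.2.2.1 ∧ (∀ c : Fin K, ∃ r, flp j k (y (p.1, el p.2.2.1 c.castSucc r)) ≠
        y (p.1, el p.2.2.1 c.castSucc r)) ∧
      γ (pp (ω p.1).1 (fun t => y (p.1, t)) (el p.2.1 (Fin.last K) p.2.2.2.1)) =
        γ (pp (ω p.1).1 (fun t => y (p.1, t)) (el p.2.2.1 (Fin.last K) p.2.2.2.2)))
      (by simp) (fun y _ h => ?_) fun p => ?_
    · obtain ⟨h1, p, h2, h3⟩ := h
      refine ⟨p, h2, fun c => ?_, h3⟩
      by_contra h4
      push Not at h4
      exact h1 ⟨(p.1, p.2.2.1, c.castSucc, j, k, true), hne, h4⟩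
    · obtain ⟨i, g, g', r, r'⟩ := p
      by_cases hg : g < g'
      · simp only [hg, true_and]
        convert card_coll hn hel γ hne hγ ω v i hg r r'
      · rw [Finset.filter_false_of_mem fun y _ h => hg h.1]
        simp only [Finset.card_empty, Nat.cast_zero]
        positivity
  · refine card_le_of_cover _ _ _ (Fintype.card_fin m) (fun y hy h => ?_) fun i =>
      (card_bad hn hel ω v e π (ht i) (htj i)).trans (mul_le_mul_of_nonneg_right
        (div_le_div_of_nonneg_right (Nat.cast_le.2 (by gcongr)) (by positivity))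
        (by positivity))
    obtain ⟨h1, h2, h3⟩ := h
    have h4 : ∃ i : Fin m, Prim (theta e (chainMat (al v) j π
          (fun i => fox (al v) (FreeGroup.mk (words ω y i))) i).det) ∧
        ¬ Prim (theta e (chainMat (al v) j π
          (fun i => fox (al v) (FreeGroup.mk (words ω y i))) (i + 1)).det) := by
      by_contra h4
      push Not at h4
      have h5 : ∀ i ≤ m, Prim (theta e (chainMat (al v) j π
          (fun i => fox (al v) (FreeGroup.mk (words ω y i))) i).det) := by
        intro i hi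
        induction i with
        | zero => exact prim_chainMat_zero e fun h => hγ (isOfFinOrder_iff_eq_one _ |>.2 h)
        | succ i ih => exact h4 ⟨i, hi⟩ (ih (by omega))
      exact h3 (biInterpretable_of_foxGood_al hmn (hv y hy)
        (foxGood_of_prim (by omega) _ (h5 m le_rfl)))
    obtain ⟨i, h4⟩ := h4
    refine ⟨i, fun g => ?_, fun g r g' r' hg h => h1 ⟨h2, (i, g, g', r, r'), hg, h⟩, h4⟩
    by_contra h5
    push Not at h5
    exact h2 ⟨(i, g, Fin.last K, j, t i, false), (htj i).symm, h5⟩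

/-- The bound for the probability of failure. -/
noncomputable def errBound (n m ℓ s K C : ℕ) : ℝ :=
  (m * (s * ((K + 1) * (n * (n * 2)))) : ℕ) * (1 - 1 / (Fintype.card (Mid n × Mid n) : ℝ)) ^ C +
    ((m * (s * (s * (C * C))) : ℕ) * ((K.choose (K / 2) : ℕ) / 2 ^ K) +
      m * (((2 * (m * ℓ) + 1) ^ n * (3 * (((2 * (m * ℓ) + 1) ^ n) ^ 3 *
        ((s + 2) * (n.factorial * (ℓ + 2) ^ n) + 1)) + 1) : ℕ) / 2 ^ s))

open Classical in
theorem card_admAll_bad (hmn : m + 2 ≤ n) (hn : 3 ≤ n) (hel : Layout el) (ω : Frame n m N ρ) :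
    (((admAll ω).filter fun y =>
      ¬ BiInterpretableWithNat (Met fun i => FreeGroup.mk (words ω y i))).card : ℝ) ≤
      errBound n m (16 * N + ρ) s K C * (admAll ω).card := by
  refine (card_le_of_or _ _ (NoSite el)).trans ?_
  rw [errBound, add_mul, mul_assoc]
  refine add_le_add (card_filter_noSite hn hel ω) ?_
  let a : (Fin m × Fin N → Mid n × Mid n) → Fin m → ZZ n :=
    fun y i => ab (FreeGroup.mk (words ω y i))
  rw [Finset.card_eq_sum_card_fiberwise (f := a) (t := (admAll ω).image a)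
    (fun y hy => Finset.mem_image_of_mem _ (Finset.mem_filter.1 hy).1),
    Finset.card_eq_sum_card_fiberwise (f := a) (s := admAll ω) (t := (admAll ω).image a)
    (fun y hy => Finset.mem_image_of_mem _ hy), Nat.cast_sum, Nat.cast_sum, Finset.mul_sum]
  refine Finset.sum_le_sum fun v _ => ?_
  rw [Finset.filter_comm]
  have h1 : ((admAll ω).filter fun y => a y = v) = fiber ω v := by
    ext y
    simp only [fiber, Finset.mem_filter, a]
  rw [h1]
  exact card_fiber_bad hmn hn hel ω v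

theorem exists_layout (s K C : ℕ) :
    ∃ el : Fin s → Fin (K + 1) → Fin C → Fin (s * (K + 1) * C), Layout el := by
  refine ⟨fun g k r => finProdFinEquiv (finProdFinEquiv (g, k), r), fun g k r r' h => ?_,
    fun g g' k k' r r' h => ?_, fun g k k' r r' h => ?_⟩
  · simpa using h
  · have h1 : (g : ℕ) + 1 ≤ g' := h
    have h2 : (k : ℕ) + (K + 1) * g + 1 ≤ k' + (K + 1) * g' := by nlinarith [k.2]
    simp only [Fin.lt_def, finProdFinEquiv_apply_val]
    nlinarith [r.2]
  · have h1 : (k : ℕ) + 1 ≤ k' := h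
    simp only [Fin.lt_def, finProdFinEquiv_apply_val]
    nlinarith [r.2]

theorem ncard_bad_le (hmn : m + 2 ≤ n) (hn : 3 ≤ n) {ℓ : ℕ} (h : 16 * (s * (K + 1) * C) ≤ ℓ) :
    (({w : Fin m → List (Fin n × Bool) | (∀ i, FreeGroup.IsReduced (w i) ∧ (w i).length = ℓ) ∧
      ¬ BiInterpretableWithNat (Met fun i => FreeGroup.mk (w i))}.ncard : ℕ) : ℝ) ≤
      errBound n m ℓ s K C * ({w : Fin m → List (Fin n × Bool) |
        ∀ i, FreeGroup.IsReduced (w i) ∧ (w i).length = ℓ}.ncard : ℕ) := by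
  obtain ⟨ρ, rfl⟩ := Nat.exists_eq_add_of_le h
  obtain ⟨el, hel⟩ := exists_layout s K C
  exact transfer _ fun ω => by convert card_admAll_bad hmn hn hel ω

end Pool.Agent.P.MP_d3a22b_lc
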