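import Pool.Agent.P.MP_d3a22b_lc.Chain
import Pool.Agent.P.MP_d3a22b_lc.Avg

/-!
Words cut into blocks, and local modifications of blocks.
-/

set_option autoImplicit false
set_option linter.unusedSectionVars false

open Set MonoidAlgebra
open scoped commutatorElement

namespace Pool.Agent.P.MP_d3a22b_lc

section cat

variable {L : Type} {N : ℕ}

/-- Concatenation of blocks followed by a tail. -/
def cat (β : Fin N → List L) (tl : List L) : List L := (List.ofFn β).flatten ++ tl

theorem cat_zero (β : Fin 0 → List L) (tl : List L) : cat β tl = tl := by simp [cat]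

theorem cat_succ (β : Fin (N + 1) → List L) (tl : List L) :
    cat β tl = β 0 ++ cat (fun t => β t.succ) tl := by
  simp [cat, List.ofFn_succ]

theorem length_cat {k : ℕ} {β : Fin N → List L} (h : ∀ t, (β t).length = k) (tl : List L) :
    (cat β tl).length = N * k + tl.length := by
  induction N with
  | zero => simp [cat_zero]
  | succ N ih => rw [cat_succ, List.length_append, ih fun t => h _, h]; ring

theorem cat_inj {β β' : Fin N → List L} (h : ∀ t, (β t).length = (β' t).length)
    {tl tl' : List L} (e : cat β tl = cat β' tl') : β = β' ∧ tl = tl' := by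
  induction N with
  | zero => exact ⟨Subsingleton.elim _ _, by simpa [cat_zero] using e⟩
  | succ N ih =>
    rw [cat_succ, cat_succ] at e
    obtain ⟨h1, h2⟩ := List.append_inj e (h 0)
    obtain ⟨h3, h4⟩ := ih (fun t => h _) h2
    exact ⟨funext fun t => Fin.cases h1 (fun t => congrFun h3 t) t, h4⟩

theorem cat_surj {k ρ : ℕ} (l : List L) (h : l.length = N * k + ρ) :
    ∃ (β : Fin N → List L) (tl : List L), (∀ t, (β t).length = k) ∧ tl.length = ρ ∧
      cat β tl = l := by
  induction N generalizing l with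
  | zero => exact ⟨Fin.elim0, l, fun t => t.elim0, by simpa using h, cat_zero _ _⟩
  | succ N ih =>
    have h0 : (N + 1) * k = N * k + k := by ring
    obtain ⟨β, tl, h1, h2, h3⟩ := ih (l.drop k) (by rw [List.length_drop]; omega)
    refine ⟨Fin.cons (l.take k) β, tl, fun t => ?_, h2, by simp [cat_succ, h3]⟩
    refine Fin.cases ?_ (fun t => h1 t) t
    simp only [Fin.cons_zero, List.length_take]
    omega

theorem isChain_of_cat {R : L → L → Prop} {β : Fin N → List L} {tl : List L}
    (h : (cat β tl).IsChain R) : (∀ t, (β t).IsChain R) ∧ tl.IsChain R := by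
  induction N with
  | zero => exact ⟨fun t => t.elim0, by simpa [cat_zero] using h⟩
  | succ N ih =>
    rw [cat_succ, List.isChain_append] at h
    exact ⟨fun t => Fin.cases h.1 (fun t => (ih h.2.1).1 t) t, (ih h.2.1).2⟩

theorem isChain_cat_replace {R : L → L → Prop} {β β' : Fin N → List L} {tl tl' : List L}
    (hβ : ∀ t, (β' t).head? = (β t).head? ∧ (β' t).getLast? = (β t).getLast? ∧ (β' t).IsChain R)
    (htl : tl'.head? = tl.head? ∧ tl'.IsChain R) (h : (cat β tl).IsChain R) :
    (cat β' tl').head? = (cat β tl).head? ∧ (cat β' tl').IsChain R := by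
  induction N with
  | zero => simpa [cat_zero] using htl
  | succ N ih =>
    rw [cat_succ, List.isChain_append] at h
    obtain ⟨h1, h2⟩ := ih (fun t => hβ _) h.2.1
    rw [cat_succ, cat_succ, List.isChain_append, List.head?_append, List.head?_append, h1,
      (hβ 0).1, (hβ 0).2.1]
    exact ⟨rfl, (hβ 0).2.2, h2, h.2.2⟩

/-- The product of the terms before `t`. -/
def pos {C : Type} [CommMonoid C] (g : Fin N → C) (t : Fin N) : C :=
  ∏ t', if t' < t then g t' else 1

theorem map_pos' {C C' : Type} [CommMonoid C] [CommMonoid C'] (φ : C →* C') (g : Fin N → C)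
    (t : Fin N) : φ (pos g t) = pos (fun t => φ (g t)) t := by
  simp [pos, map_prod, apply_ite φ]

variable {n : ℕ}

theorem map_mk_cat {C : Type} [CommMonoid C] (φ : FreeGroup (Fin n) →* C)
    (β : Fin N → List (Fin n × Bool)) (tl : List (Fin n × Bool)) :
    φ (FreeGroup.mk (cat β tl)) = (∏ t, φ (FreeGroup.mk (β t))) * φ (FreeGroup.mk tl) := by
  induction N with
  | zero => simp [cat_zero]
  | succ N ih => rw [cat_succ, ← FreeGroup.mul_mk, map_mul, ih, Fin.prod_univ_succ, mul_assoc]

variable {Q : Type} [CommGroup Q]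

theorem fox_mk_cat (α : Fin n → Q) (β : Fin N → List (Fin n × Bool))
    (tl : List (Fin n × Bool)) :
    fox α (FreeGroup.mk (cat β tl)) =
      ∑ t, MonoidAlgebra.of ℤ Q (pos (fun t => FreeGroup.lift α (FreeGroup.mk (β t))) t) •
        fox α (FreeGroup.mk (β t)) +
      MonoidAlgebra.of ℤ Q (∏ t, FreeGroup.lift α (FreeGroup.mk (β t))) •
        fox α (FreeGroup.mk tl) := by
  induction N with
  | zero => simp [cat_zero, ← MonoidAlgebra.one_def]
  | succ N ih =>
    rw [cat_succ, ← FreeGroup.mul_mk, fox_mul, ih, Fin.prod_univ_succ, Fin.sum_univ_succ,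
      smul_add, Finset.smul_sum, add_assoc]
    simp only [pos, Fin.prod_univ_succ, Fin.not_lt_zero, if_false, Finset.prod_const_one, mul_one,
      map_one, one_smul, Fin.succ_pos, if_true, Fin.succ_lt_succ_iff, map_mul, mul_smul,
      lt_self_iff_false]

theorem bd_fox_mk (α : Fin n → Q) (l : List (Fin n × Bool)) (s : Fin n) :
    Bd l.length (fox α (FreeGroup.mk l) s) := by
  have h1 : ∀ a : Fin n, Bd 1 ((Pi.single a 1 : Fin n → MonoidAlgebra ℤ Q) s) := by
    intro a
    rw [Pi.single_apply]
    split_ifs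
    · exact Bd.one
    · exact Bd.zero _
  induction l with
  | nil => rw [← FreeGroup.one_eq_mk, fox_one]; exact Bd.zero _
  | cons x l ih =>
    rw [← List.singleton_append, ← FreeGroup.mul_mk, fox_mul, List.length_append]
    refine Bd.add ?_ (by simpa using (Bd.single _).mul ih)
    obtain ⟨i, _ | _⟩ := x
    · have h2 : FreeGroup.mk [(i, false)] = (FreeGroup.of i)⁻¹ := rfl
      rw [h2, fox_inv, fox_of]
      exact ((Bd.single _).mul (h1 i)).neg
    · have h2 : FreeGroup.mk [(i, true)] = FreeGroup.of i := rfl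
      rw [h2, fox_of]
      exact h1 i

theorem abs_ab_mk (l : List (Fin n × Bool)) (s : Fin n) :
    |(ab (FreeGroup.mk l)).toAdd s| ≤ l.length := by
  induction l with
  | nil => simp [← FreeGroup.one_eq_mk]
  | cons x l ih =>
    rw [← List.singleton_append, ← FreeGroup.mul_mk, map_mul, List.length_append, toAdd_mul,
      Pi.add_apply]
    push_cast
    refine (abs_add_le _ _).trans (add_le_add ?_ ih)
    obtain ⟨i, _ | _⟩ := x
    · have h2 : FreeGroup.mk [(i, false)] = (FreeGroup.of i)⁻¹ := rfl
      rw [h2, map_inv, ab_of]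
      simp only [bas, toAdd_inv, toAdd_ofAdd, Pi.neg_apply, Pi.single_apply, abs_neg]
      split_ifs <;> simp
    · have h2 : FreeGroup.mk [(i, true)] = FreeGroup.of i := rfl
      rw [h2, ab_of]
      simp only [bas, toAdd_ofAdd, Pi.single_apply]
      split_ifs <;> simp

end cat

section blocks

/-- Letters. -/
abbrev Lt (n : ℕ) : Type := Fin n × Bool
/-- Words of length four. -/
abbrev Pat (n : ℕ) : Type := Lt n × Lt n × Lt n × Lt n
/-- The six inner letters of a block. -/
abbrev Mid (n : ℕ) : Type := Lt n × Pat n × Lt n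
/-- The two outer letters of a block. -/
abbrev Ends (n : ℕ) : Type := Lt n × Lt n

variable {n m N ρ : ℕ}

/-- A word of length four as a list. -/
def patL (P : Pat n) : List (Lt n) := [P.1, P.2.1, P.2.2.1, P.2.2.2]

/-- A block of eight letters. -/
def blk (f : Ends n) (h : Mid n) : List (Lt n) :=
  [f.1, h.1, h.2.1.1, h.2.1.2.1, h.2.1.2.2.1, h.2.1.2.2.2, h.2.2, f.2]

theorem mk_blk (f : Ends n) (h : Mid n) : FreeGroup.mk (blk f h) =
    FreeGroup.mk [f.1, h.1] * FreeGroup.mk (patL h.2.1) * FreeGroup.mk [h.2.2, f.2] := rfl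

theorem blk_inj {f f' : Ends n} {h h' : Mid n} (e : blk f h = blk f' h') : f = f' ∧ h = h' := by
  simp only [blk, List.cons.injEq, and_true] at e
  simp only [Prod.ext_iff (x := f), Prod.ext_iff (x := h), Prod.ext_iff (x := h.2),
    Prod.ext_iff (x := h.2.1), Prod.ext_iff (x := h.2.1.2), Prod.ext_iff (x := h.2.1.2.2)]
  tauto

theorem blk_surj (l : List (Lt n)) (h : l.length = 8) : ∃ f g, blk f g = l :=
  match l, h with
  | [a, b, c, d, e, f, g, h], _ => ⟨(a, h), (b, (c, d, e, f), g), rfl⟩

/-- A word made of two sequences of blocks and a tail. -/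
def wrd (φ : Fin N → Ends n × Ends n) (u : Fin N → Mid n × Mid n) (tl : List (Lt n)) :
    List (Lt n) :=
  cat (fun t => blk (φ t).1 (u t).1) (cat (fun t => blk (φ t).2 (u t).2) tl)

theorem length_word (φ : Fin N → Ends n × Ends n) (u : Fin N → Mid n × Mid n)
    (tl : List (Lt n)) : (wrd φ u tl).length = 16 * N + tl.length := by
  rw [wrd, length_cat (k := 8) fun _ => rfl, length_cat (k := 8) fun _ => rfl]
  ring

open Classical in
/-- The admissible inner letters. -/
noncomputable def adm (f : Ends n × Ends n) : Finset (Mid n × Mid n) :=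
  Finset.univ.filter fun u => FreeGroup.IsReduced (blk f.1 u.1) ∧ FreeGroup.IsReduced (blk f.2 u.2)

theorem mem_adm {f : Ends n × Ends n} {u : Mid n × Mid n} :
    u ∈ adm f ↔ FreeGroup.IsReduced (blk f.1 u.1) ∧ FreeGroup.IsReduced (blk f.2 u.2) := by
  simp [adm]

theorem isReduced_word_iff {φ : Fin N → Ends n × Ends n} {u : Fin N → Mid n × Mid n}
    {tl : List (Lt n)} (h : FreeGroup.IsReduced (wrd φ u tl)) (u' : Fin N → Mid n × Mid n) :
    FreeGroup.IsReduced (wrd φ u' tl) ↔ ∀ t, u' t ∈ adm (φ t) := by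
  simp only [mem_adm]
  constructor
  · intro h'
    exact fun t => ⟨(isChain_of_cat h').1 t, (isChain_of_cat (isChain_of_cat h').2).1 t⟩
  · intro h'
    have h1 := isChain_cat_replace (β' := fun t => blk (φ t).2 (u' t).2) (tl' := tl)
      (fun t => ⟨rfl, rfl, (h' t).2⟩) ⟨rfl, (isChain_of_cat (isChain_of_cat h).2).2⟩
      (β := fun t => blk (φ t).2 (u t).2) (isChain_of_cat h).2
    exact (isChain_cat_replace (β' := fun t => blk (φ t).1 (u' t).1)
      (β := fun t => blk (φ t).1 (u t).1) (fun t => ⟨rfl, rfl, (h' t).1⟩) h1 h).2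

/-- The outer letters and the tails. -/
abbrev Frame (n m N ρ : ℕ) : Type :=
  Fin m → (Fin N → Ends n × Ends n) × List.Vector (Lt n) ρ

instance : Fintype (Frame n m N ρ × (Fin m × Fin N → Mid n × Mid n)) :=
  instFintypeProd _ _

/-- The tuple of words with given outer and inner letters. -/
def words (ω : Frame n m N ρ) (y : Fin m × Fin N → Mid n × Mid n) (i : Fin m) : List (Lt n) :=
  wrd (ω i).1 (fun t => y (i, t)) (ω i).2.1

theorem length_words (ω : Frame n m N ρ) (y : Fin m × Fin N → Mid n × Mid n) (i : Fin m) :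
    (words ω y i).length = 16 * N + ρ := by
  rw [words, length_word, (ω i).2.2]

theorem words_injective : Function.Injective
    fun p : Frame n m N ρ × (Fin m × Fin N → Mid n × Mid n) => words p.1 p.2 := by
  rintro ⟨ω, y⟩ ⟨ω', y'⟩ h
  have h1 := fun i => cat_inj (β := fun t => blk ((ω i).1 t).1 (y (i, t)).1)
    (β' := fun t => blk ((ω' i).1 t).1 (y' (i, t)).1) (fun _ => rfl) (congrFun h i)
  have h2 := fun i => cat_inj (β := fun t => blk ((ω i).1 t).2 (y (i, t)).2)
    (β' := fun t => blk ((ω' i).1 t).2 (y' (i, t)).2) (fun _ => rfl) (h1 i).2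
  have h3 := fun i t => blk_inj (congrFun (h1 i).1 t)
  have h4 := fun i t => blk_inj (congrFun (h2 i).1 t)
  exact Prod.ext (funext fun i => Prod.ext (funext fun t => Prod.ext (h3 i t).1 (h4 i t).1)
    (Subtype.ext (h2 i).2)) (funext fun a => Prod.ext (h3 a.1 a.2).2 (h4 a.1 a.2).2)

theorem words_surj (w : Fin m → List (Lt n)) (h : ∀ i, (w i).length = 16 * N + ρ) :
    ∃ (ω : Frame n m N ρ) (y : Fin m × Fin N → Mid n × Mid n), words ω y = w := by
  choose β tl h1 h2 h3 using fun i => cat_surj (N := N) (k := 8) (ρ := N * 8 + ρ) (w i)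
    (by rw [h]; ring)
  choose β' tl' h4 h5 h6 using fun i => cat_surj (tl i) (h2 i)
  choose f g h7 using fun i t => blk_surj (β i t) (h1 i t)
  choose f' g' h8 using fun i t => blk_surj (β' i t) (h4 i t)
  refine ⟨fun i => (fun t => (f i t, f' i t), ⟨tl' i, h5 i⟩),
    fun a => (g a.1 a.2, g' a.1 a.2), funext fun i => ?_⟩
  simp only [words, wrd, h7, h8]
  rw [h6, h3]

/-- The admissible choices of all inner letters. -/
noncomputable def admAll (ω : Frame n m N ρ) : Finset (Fin m × Fin N → Mid n × Mid n) :=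
  Fintype.piFinset fun a => adm ((ω a.1).1 a.2)

open Classical in
theorem transfer (Bad : (Fin m → List (Lt n)) → Prop) {δ : ℝ}
    (h : ∀ ω : Frame n m N ρ,
      (((admAll ω).filter fun y => Bad (words ω y)).card : ℝ) ≤ δ * (admAll ω).card) :
    (({w : Fin m → List (Lt n) | (∀ i, FreeGroup.IsReduced (w i) ∧ (w i).length = 16 * N + ρ) ∧
      Bad w}.ncard : ℕ) : ℝ) ≤ δ * ({w : Fin m → List (Lt n) |
        ∀ i, FreeGroup.IsReduced (w i) ∧ (w i).length = 16 * N + ρ}.ncard : ℕ) := by
  have h1 : ∀ E : (Fin m → List (Lt n)) → Prop, {w : Fin m → List (Lt n) |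
      (∀ i, FreeGroup.IsReduced (w i) ∧ (w i).length = 16 * N + ρ) ∧ E w}.ncard =
      ∑ ω : Frame n m N ρ, (Finset.univ.filter fun y =>
        (∀ i, FreeGroup.IsReduced (words ω y i)) ∧ E (words ω y)).card := by
    intro E
    have h2 : {w : Fin m → List (Lt n) |
        (∀ i, FreeGroup.IsReduced (w i) ∧ (w i).length = 16 * N + ρ) ∧ E w} =
        (fun p : Frame n m N ρ × (Fin m × Fin N → Mid n × Mid n) => words p.1 p.2) ''
          (Finset.univ.filter fun p : Frame n m N ρ × (Fin m × Fin N → Mid n × Mid n) =>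
            (∀ i, FreeGroup.IsReduced (words p.1 p.2 i)) ∧ E (words p.1 p.2) : Finset _) := by
      ext w
      simp only [mem_ofPred_eq, mem_image, Finset.coe_filter, Finset.mem_univ, true_and]
      constructor
      · rintro ⟨h3, h4⟩
        obtain ⟨ω, y, rfl⟩ := words_surj w fun i => (h3 i).2
        exact ⟨(ω, y), ⟨fun i => (h3 i).1, h4⟩, rfl⟩
      · rintro ⟨p, ⟨h3, h4⟩, rfl⟩
        exact ⟨fun i => ⟨h3 i, length_words _ _ _⟩, h4⟩
    rw [h2, ncard_image_of_injective _ words_injective, ncard_coe_finset]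
    simp only [Finset.card_filter]
    exact Fintype.sum_prod_type _
  have h2 := h1 fun _ => True
  simp only [and_true] at h2
  rw [h1, h2]
  push_cast
  rw [Finset.mul_sum]
  refine Finset.sum_le_sum fun ω _ => ?_
  by_cases h3 : ∃ y, ∀ i, FreeGroup.IsReduced (words ω y i)
  · obtain ⟨y₀, h3⟩ := h3
    have h4 : (Finset.univ.filter fun y => ∀ i, FreeGroup.IsReduced (words ω y i)) =
        admAll ω := by
      ext y
      simp only [Finset.mem_filter, Finset.mem_univ, true_and, admAll, Fintype.mem_piFinset,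
        Prod.forall]
      exact forall_congr' fun i => isReduced_word_iff (h3 i) _
    rw [← Finset.filter_filter, h4]
    exact h ω
  · rw [Finset.filter_false_of_mem fun y _ h4 => h3 ⟨y, h4.1⟩,
      Finset.filter_false_of_mem fun y _ h4 => h3 ⟨y, h4⟩]
    simp

end blocks

end Pool.Agent.P.MP_d3a22b_lc
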